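import Mathlib
import Pool.Agent.Lib.MP_bc5265_an.R2.SpecA
import Pool.Agent.Lib.MP_bc5265_an.R2.SpecR
import Pool.Agent.Lib.MP_bc5265_an.R2.SpecC

/-!
# Region `R_1`, `q > 2`: specifications

THEOREM. `2 < q ≤ p ≤ ∞`, `q < ∞`, `r > 1/p`, `r ≠ 1/q`: the sampling numbers of `H^r_p` in `L_q` are
at most `C m^{-r} (log m)^{(d-1)(r+1-min(r,1/q))}`, and for `r < 1/q` (exponent `d-1`) this is the
exact order.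

Method: the algorithm of region `R_2` (`R2/SpecA`, `R2/SpecB`, `R2/SpecR`), with the estimates in `L_q`:
martingale type `2` instead of type `p`, and the noise operator `ψ ↦ avn b ψ - smn b M Y ψ` on functions
constant on the cells of levels `v` has norm `C ν^(-1/q)` on `L_q` for `q > 2`, `ν = 2^(h+i0-|v|)`
(interpolation between `L_2`, norm `ν^(-1/2)`, and `L_∞`, norm `3`).

Modules: `PHS TY2 MT2 FA2 HI2 NO2 INT LO2 RWQ SE2 EXQ WN2 WS2 SC2 BQ UGQ UTQ UPQ FIQ`.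

Most of them are copies of a module of `R2` with small changes (the docstring says which). Everything
proved in `R2` may be used (`R2.specXXX`, see `R2/Main.lean`).
-/

set_option linter.unusedSectionVars false

open MeasureTheory Finset Matrix
open scoped ENNReal

namespace Pool.Agent.MP_bc5265.RQ

open Pool.Agent.MP_bc5265.S Pool.Agent.MP_bc5265.R2 Pool.Agent.MP_bc5265

noncomputable section

/-- PHS. Scalar form of PHQ.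
PROOF. `R2.SpecPHQ` with `|a|`, `|b|`, `s = a b`: `|a|^2 + 2 a b + |b|^2 = |a+b|^2`,
`(|a+b|^2)^(q/2) = |a+b|^q`, `q |a|^(q-2) (a b) = q (sgn a) |a|^(q-1) b` (for `a = 0` both are `0`). -/
def SpecPHS : Prop := ∀ q : ℝ, 2 < q → ∃ C : ℝ, 0 < C ∧ ∀ a b : ℝ,
  |a + b| ^ q ≤ |a| ^ q + q * (SignType.sign a * |a| ^ (q - 1)) * b +
    C * (|a| ^ (q - 2) * b ^ 2 + |b| ^ q)

/-- TY2. One step of martingale type `2`. From PHS, NRM.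
PROOF. `A = nrm q S`, `v = nrm q V`. Average PHS over `x`:
`mom q (S+V) ≤ A^q + C0 (avg |S|^(q-2) V^2 + v^q)`, and by Hölder with the exponents `q/(q-2)`, `q/2`
`avg |S|^(q-2) V^2 ≤ A^(q-2) v^2`. For `y ≥ 0`: `(A^2+y)^(q/2) ≥ A^q + (q/2) A^(q-2) y` (convexity,
for `A > 0`: Bernoulli `one_add_mul_self_le_rpow_one_add`; for `A = 0` clear) and
`(A^2+y)^(q/2) ≥ A^q + y^(q/2)` (`Real.add_rpow_le_rpow_add`-like superadditivity, `q/2 ≥ 1`). With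
`y = C v^2`, `C = max (4 C0 / q) ((2 C0)^(2/q))`: half of the sum of the two inequalities is
`(A^2 + C v^2)^(q/2) ≥ A^q + C0 A^(q-2) v^2 + C0 v^q ≥ mom q (S+V)`; take the power `2/q`. -/
def SpecTY2 : Prop := ∀ q : ℝ, 2 < q → ∃ C : ℝ, 1 ≤ C ∧ ∀ (X : Type) [Fintype X] [Nonempty X]
  (S V : X → ℝ), ∑ x, SignType.sign (S x) * |S x| ^ (q - 1) * V x = 0 →
  nrm q (S + V) ^ 2 ≤ nrm q S ^ 2 + C * nrm q V ^ 2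

/-- MT2. Martingale type `2` (tensor form, coarse filtrations). From TY2 and `R2.SpecTEN`,
`R2.SpecOPS`. Copy of `R2/MTP.lean` (`SpecMTP`), with `mom p` replaced by `nrm q ^ 2` and PTI by TY2.
PROOF. One coordinate `j`: `P_k = EM (lev (k+1)) - EM (lev k)` in coordinate `j`, `P_k V_k = V_k`,
`S_m = ∑_(k<m) V_k`: `∑_x sgn(S_m) |S_m|^(q-1) V_m = 0` as in MTP, so by TY2
`nrm q (S_(m+1))^2 ≤ nrm q (S_m)^2 + C nrm q (V_m)^2`, and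
`nrm q (∑_k V_k)^2 ≤ C ∑_k nrm q (V_k)^2`. Then one coordinate after the other:
`nrm q (∑_κ U_κ)^2 ≤ C^|J| ∑_(κ_J) nrm q (∑_(κ_(J^c)) U_κ)^2`; constant `C^d`. -/
def SpecMT2 : Prop := ∀ (d : ℕ) (q : ℝ), 2 < q → ∃ C : ℝ, 1 ≤ C ∧
  ∀ (L m : ℕ) (lev : ℕ → ℕ) (U : (Fin d → ℕ) → Gr d L → ℝ), Monotone lev →
  (∀ κ ∈ box d m, (tens fun j => EM L (lev (κ j + 1)) - EM L (lev (κ j))) *ᵥ U κ = U κ) →
  nrm q (∑ κ ∈ box d m, U κ) ^ 2 ≤ C * ∑ κ ∈ box d m, nrm q (U κ) ^ 2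

/-- FA2. The levels which are not covered by windows. From MT2 and `R2.SpecDTG`, `R2.SpecLAY`,
`R2.SpecSER`, `R2.SpecNRM`, `R2.SpecDEC`. Copy of `R2/FAR.lean` with the exponent `2` for the sum over
`t`: the square of the left side is at most `C ∑_t nrm q (D_t g)^2 ≤ C β^2 n^(d-1)`. -/
def SpecFA2 : Prop := ∀ (d C1 : ℕ) (q ρ : ℝ), 1 ≤ d → 2 < q → 0 < ρ → ∃ C : ℝ, 0 < C ∧
  ∀ (n L : ℕ) (β : ℝ) (g : Gr d L → ℝ), 1 ≤ n → 0 ≤ β → GG n q ρ β g →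
    nrm q (∑ t ∈ (box d (L + 1)).filter (fun t => n < ∑ j, t j + C1), Dt L t *ᵥ g) ≤
      C * β * (n : ℝ) ^ (((d : ℝ) - 1) / 2)

/-! ### The noise operator -/

/-- The noise of the pattern `ω = 0` in the cells of levels `b`. -/
def nse {d H : ℕ} (g h i0 : ℕ) (b : Fin d → ℕ) (ω : Gr d H → Fin (2 ^ g)) (ψ : Gr d H → ℝ) :
    Gr d H → ℝ :=
  fun x => avn b ψ x - smn b (2 ^ (h + i0)) (univ.filter fun y => (ω y : ℕ) = 0) ψ x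

/-- HI2. The levels `|v| ≥ (1+δ) h`: `R2/HIG.lean` with `1 < p` instead of `1 < p < 2` (the proof does
not change; `NU p j = 2^(j/p)` there). -/
def SpecHI2 : Prop := ∀ (p : ℝ) (k κ d h i0 g : ℕ) (α δ : ℝ) (ω : Gr d (3 * h) → Fin (2 ^ g)),
  1 < p → 1 ≤ κ → g + h + i0 = d * (3 * h) → (i0 : ℝ) ≤ δ * h →
  GoodO d k κ α δ h i0 g ω →
    ∀ v b : Fin d → ℕ, (∀ j, v j ≤ 3 * h) → (1 + δ) * h ≤ ((∑ j, v j : ℕ) : ℝ) →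
      (∀ j, b j ≤ 3 * h) → ((∑ j, b j : ℕ) : ℝ) ≤ α * h →
      ∀ ψ : Gr d (3 * h) → ℝ, CellC v ψ →
        nrm p (nse g h i0 b ω ψ) ≤
          (1 + 2 * κ) * (2 : ℝ) ^ ((((∑ j, v j : ℕ) : ℝ) - ((h + i0 : ℕ) : ℝ)) / p) * nrm p ψ

/-- NO2. The noise operator in `L_2` and in the maximum norm.
PROOF. (1) `R2.SpecOPB` with `k' = 1` (`pb 1 j = 2^j` for all `j`; `mom (2 * 1)` is `mom 2`) gives
`nrm 2 (Tu g v ω u) ≤ K nrm 2 u` for `u` constant on the cells of levels `b`, `K = C^(1/2) 2^(j/2)`,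
`j = |v|-h-i0`; `R2.SpecDUA` with `p = 2` (`p/(p-1) = 2`). (2) `|avn| ≤ M` (averages);
`|smn| ≤ 2^|b|/2^(h+i0) #(Y ∩ cell) M ≤ 2 M` by the field `co`. -/
def SpecNO2 : Prop := ∃ C : ℝ, 0 < C ∧
  ∀ (d κ h i0 g : ℕ) (α δ : ℝ) (ω : Gr d (3 * h) → Fin (2 ^ g)), 1 ≤ d →
    g + h + i0 = d * (3 * h) → GoodO d 1 κ α δ h i0 g ω →
    ∀ v b : Fin d → ℕ, (∀ j, v j ≤ 3 * h) → (∀ j, b j ≤ 3 * h) →
      ((∑ j, b j : ℕ) : ℝ) ≤ α * h →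
      (h < ∑ j, v j → ((∑ j, v j : ℕ) : ℝ) < (1 + δ) * h → ∀ ψ : Gr d (3 * h) → ℝ, CellC v ψ →
        nrm 2 (nse g h i0 b ω ψ) ≤
          C * (2 : ℝ) ^ ((((∑ j, v j : ℕ) : ℝ) - ((h + i0 : ℕ) : ℝ)) / 2) * nrm 2 ψ) ∧
      (∀ (ψ : Gr d (3 * h) → ℝ) (M : ℝ), (∀ x, |ψ x| ≤ M) → ∀ x, |nse g h i0 b ω ψ x| ≤ 3 * M)

/-- INT. Interpolation between `L_2` and `L_∞`. `U` is closed under truncation, `T` additive.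
Pattern: `R2/MAR.lean` (only the first half is needed).
PROOF. For `t > 0` let `u = u1 + u2`, `u1 = u 1[|u| > t/6]`; `|T u2| ≤ 3 t/6 = t/2`, so
`{|T u| > t} ⊆ {|T u1| > t/2}`, `#{|T u| > t}/#X ≤ 4 t^(-2) A avg (u^2 1[|u| > t/6])`. Multiply by
`P t^(P-1)` and integrate over `t ∈ (0, ∞)`: `∫_0^(6|u|) t^(P-3) dt = (6|u|)^(P-2)/(P-2)`. Result:
`C = 4 P 6^(P-2)/(P-2)`. (Or: sum over `t = 2^i`.) -/
def SpecINT : Prop := ∀ P : ℝ, 2 < P → ∃ C : ℝ, 0 < C ∧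
  ∀ (X : Type) [Fintype X] [Nonempty X] (U : Set (X → ℝ)) (T : (X → ℝ) → X → ℝ) (A : ℝ), 0 < A →
    (∀ u ∈ U, ∀ s : ℝ, (fun x => if s < |u x| then u x else 0) ∈ U ∧
      (fun x => if s < |u x| then 0 else u x) ∈ U) →
    (∀ u u', T (fun x => u x + u' x) = fun x => T u x + T u' x) →
    (∀ u ∈ U, mom 2 (T u) ≤ A * mom 2 u) →
    (∀ u ∈ U, ∀ M : ℝ, (∀ x, |u x| ≤ M) → ∀ x, |T u x| ≤ 3 * M) →
    ∀ u ∈ U, mom P (T u) ≤ C * A * mom P u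

/-- LO2. The levels `h < |v| < (1+δ) h`. From NO2, INT: `U` = functions constant on the cells of
levels `v`, `T = nse`, `A = C^2 2^(|v|-h-i0)`; take the power `1/P`. Pattern: `R2/LOW.lean`. -/
def SpecLO2 : Prop := ∀ P : ℝ, 2 < P → ∃ C : ℝ, 0 < C ∧
  ∀ (d κ h i0 g : ℕ) (α δ : ℝ) (ω : Gr d (3 * h) → Fin (2 ^ g)), 1 ≤ d →
    g + h + i0 = d * (3 * h) → GoodO d 1 κ α δ h i0 g ω →
    ∀ v b : Fin d → ℕ, (∀ j, v j ≤ 3 * h) → h < ∑ j, v j →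
      ((∑ j, v j : ℕ) : ℝ) < (1 + δ) * h → (∀ j, b j ≤ 3 * h) →
      ((∑ j, b j : ℕ) : ℝ) ≤ α * h → ∀ ψ : Gr d (3 * h) → ℝ, CellC v ψ →
        nrm P (nse g h i0 b ω ψ) ≤
          C * (2 : ℝ) ^ ((((∑ j, v j : ℕ) : ℝ) - ((h + i0 : ℕ) : ℝ)) / P) * nrm P ψ

/-- A good pattern for the exponents `q` and `p`. -/
def RWP2 (d : ℕ) (q p α C : ℝ) (h i0 : ℕ) (Y : Finset (Gr d (3 * h))) : Prop :=
  Y.card ≤ 2 * 2 ^ (h + i0) ∧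
  ∀ b v : Fin d → ℕ, ((∑ j, b j : ℕ) : ℝ) ≤ α * h → (∀ j, v j ≤ 3 * h) → h < ∑ j, v j →
    ∀ ψ : Gr d (3 * h) → ℝ, CellC v ψ → ∀ P : ℝ, P = q ∨ P = p →
      nrm P (fun x => avn b ψ x - smn b (2 ^ (h + i0)) Y ψ x) ≤
        C * (2 : ℝ) ^ ((((∑ j, v j : ℕ) : ℝ) - ((h + i0 : ℕ) : ℝ)) / P) * nrm P ψ

/-- RWQ. Existence of good patterns. From `R2.SpecGOO` (with `k = 1`), LO2 and HI2 (for `P = q` and
`P = p`). Copy of `R2/RW.lean`. -/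
def SpecRWQ : Prop := ∀ (d : ℕ) (q p : ℝ), 1 ≤ d → 2 < q → q ≤ p →
  ∃ (α C : ℝ) (h0 : ℕ), 0 < α ∧ 0 < C ∧ ∀ h i0 : ℕ, h0 ≤ h → 2 ^ i0 ≤ h ^ d →
    ∃ Y : Finset (Gr d (3 * h)), RWP2 d q p α C h i0 Y

/-! ### Windows -/

/-- SE2. A series (`|j - i0| = (j - i0) + (i0 - j)` with subtraction in `ℕ`).
PROOF. First part: `R2.SpecSER`. `j < i0 ≤ h`: `(h+j+1)^e ≤ (3h)^e`, geometric series in `i0 - j`.
`j ≥ i0`: `j = i0 + k`, `h + j + 1 ≤ 2h + k + 1`, `R2.SpecSER` with `2h`. -/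
def SpecSE2 : Prop := ∀ (e : ℕ) (x : ℝ), 0 < x → x < 1 → ∃ C : ℝ, 0 < C ∧ ∀ h i0 J : ℕ, 1 ≤ h →
  i0 ≤ h →
  ∑ j ∈ range J, ((h : ℝ) + j + 1) ^ e * (x ^ j + x ^ ((j - i0) + (i0 - j))) ≤ C * (h : ℝ) ^ e

/-- EXQ. Exponents.
PROOF. `s = min ρ (1/q)`, `x = 2^(-c)`, `c = min (ρ - 1/p) |ρ - 1/q| > 0`.
`j ≥ i0`: `(j-i0)/p - ρ j = -ρ i0 - (ρ-1/p)(j-i0) ≤ -s i0 - c (j-i0)`.
`j ≤ i0`, `ρ < 1/q`: `(j-i0)/q - ρ j = -ρ i0 - (1/q-ρ)(i0-j)`, `s = ρ`.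
`j ≤ i0`, `ρ > 1/q`: `(j-i0)/q - ρ j = -i0/q - (ρ-1/q) j`, `s = 1/q`. -/
def SpecEXQ : Prop := ∀ (q p ρ : ℝ), 2 < q → q ≤ p → 1 / p < ρ → ρ ≠ 1 / q →
  ∃ x : ℝ, 0 < x ∧ x < 1 ∧ ∀ i0 j : ℕ,
    (j ≤ i0 → (2 : ℝ) ^ (((j : ℝ) - i0) / q) * (2 : ℝ) ^ (-(ρ * j)) ≤
      (2 : ℝ) ^ (-(min ρ (1 / q) * i0)) * (x ^ j + x ^ ((j - i0) + (i0 - j)))) ∧
    (i0 ≤ j → (2 : ℝ) ^ (((j : ℝ) - i0) / p) * (2 : ℝ) ^ (-(ρ * j)) ≤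
      (2 : ℝ) ^ (-(min ρ (1 / q) * i0)) * (x ^ j + x ^ ((j - i0) + (i0 - j))))

/-- WN2. Noise of one window. From SE2, EXQ and `R2.SpecREL`, `R2.SpecVAN`, `R2.SpecDEC`,
`R2.SpecCON`, `R2.SpecLAY`, `R2.SpecNRM`. Copy of `R2/WNO.lean`.
PROOF. `h = n - |a|`, `b = a+w-1`, `M = 2^(h+i0)`, `T = tens (EM (a+w)) - WM L a b M Y`,
`R g = tens (1 - IM a) *ᵥ g = ∑_(v ≥ a) η_v g`, only `|v| = n + j`, `j ≥ 1`, counts,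
`nrm q (η_v g) ≤ nrm p (η_v g) ≤ β 2^(-ρ j)`. If `v ≤ a + 3h`: for `P ∈ {q, p}` by REL, VAN (1) and
RWP2 (`|v| - |a| - h - i0 = j - i0`) `nrm P (T η_v g) ≤ C0 2^((j-i0)/P) nrm P (η_v g)`. For `j ≤ i0`
take `P = q`; for `j ≥ i0` take `P = p` and `nrm q ≤ nrm p`. If `v j' > a j' + 3h` for some `j'`: the
`WM` part is zero (VAN (3)), the first part is at most `nrm p (η_v g) ≤ β 2^(-ρ j)`, `j ≥ 2h+1 ≥ i0`,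
`1 ≤ 2^((j-i0)/p)`. In all cases `≤ (1 + C0) β 2^(-s i0) (x^j + x^|j-i0|)` by EXQ. The number of
`v ≥ a` with `|v| = n+j` is at most `(h+j+1)^(d-1)`; SE2. -/
def SpecWN2 : Prop := ∀ (d : ℕ) (q p ρ C0 : ℝ), 1 ≤ d → 2 < q → q ≤ p → 1 / p < ρ → ρ ≠ 1 / q →
  0 < C0 →
  ∃ C : ℝ, 0 < C ∧ ∀ (α : ℝ) (h i0 : ℕ) (Y : Finset (Gr d (3 * h))), 0 < α → 1 ≤ h → i0 ≤ h →
    RWP2 d q p α C0 h i0 Y →
    ∀ (n L w : ℕ) (a : Fin d → ℕ) (β : ℝ) (g : Gr d L → ℝ), 1 ≤ w → ∑ j, a j + h = n →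
      (d : ℝ) * w ≤ α * h → w ≤ h → (∀ j, a j + 3 * h ≤ L) → 0 ≤ β → GG n p ρ β g →
      nrm q (((tens fun j => EM L (a j + w)) -
          WM L a (fun j => a j + w - 1) (2 ^ (h + i0)) Y) *ᵥ ((tens fun j => 1 - IM L (a j)) *ᵥ g)) ≤
        C * β * ((h : ℝ) ^ (d - 1) * (2 : ℝ) ^ (-(min ρ (1 / q) * i0)))

/-- WS2. One scale of windows: type `2`. From MT2 and `R2.SpecNRM`, `R2.SpecCON`, `R2.SpecDEC`. Copy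
of `R2/WSC.lean`. -/
def SpecWS2 : Prop := ∀ (d : ℕ) (q : ℝ), 2 < q → ∃ C : ℝ, 0 < C ∧
  ∀ (L i m : ℕ) (s : Finset (Fin d → ℕ)) (N : ℝ) (V : (Fin d → ℕ) → Gr d L → ℝ),
  s ⊆ box d m → 0 ≤ N → (∀ κ ∈ s, nrm q (V κ) ≤ N) →
  nrm q (∑ κ ∈ s, (tens fun j => EM L (2 ^ i * κ j + 2 ^ i) - EM L (2 ^ i * κ j)) *ᵥ V κ) ≤
    C * (s.card : ℝ) ^ (1 / 2 : ℝ) * N

/-- SC2. Choice of the oversampling exponents and sums over the scales (numbers). `w = 2^i`.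
PROOF. `δ > 0` with `s δ < (d-1)(1/2 - s)`. For `2^i ≤ n` let `i0 i` be maximal with
`2^(i0 i) ≤ max 1 (w^(d-1) (w/n)^δ)` (so this is `< 2 * 2^(i0 i)`), for `2^i > n` let `i0 i = 0`.
(1): `w/n ≤ 1`. (2): only `w ≤ n` counts. `c i ≤ C1 (n/w)^(d-1)`,
`2^(-s i0) ≤ 2^s (w^(d-1) (w/n)^δ)^(-s)`; the `i`-th term is at most
`C n^((d-1)/2 + sδ) w^((d-1)(1/2-s) - sδ)`, a geometric sum with positive exponent over `w ≤ n`: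
`≤ C n^((d-1)(1-s))`. (3): `c i 2^(i0 i) ≤ C1 n^(d-1) (w^(-(d-1)) + (w/n)^δ)`. -/
def SpecSC2 : Prop := ∀ (d C1 : ℕ) (s : ℝ), 2 ≤ d → 1 ≤ C1 → 0 < s → s < 1 / 2 →
  ∃ C : ℝ, 0 < C ∧ ∀ n : ℕ, 1 ≤ n → ∃ i0 : ℕ → ℕ,
    (∀ i, 2 ^ i ≤ n → 2 ^ i0 i ≤ (2 ^ i) ^ (d - 1)) ∧
    (∀ (m : ℕ) (c : ℕ → ℝ), (∀ i, 0 ≤ c i) → (∀ i, n < 2 ^ i → c i = 0) →
      (∀ i, c i * ((2 : ℝ) ^ i) ^ (d - 1) ≤ C1 * (n : ℝ) ^ (d - 1)) →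
      (∑ i ∈ range m, c i ^ (1 / 2 : ℝ) * (((2 * C1 * 2 ^ i : ℕ) : ℝ) ^ (d - 1) *
          (2 : ℝ) ^ (-(s * i0 i))) ≤ C * (n : ℝ) ^ (((d : ℝ) - 1) * (1 - s))) ∧
      (∑ i ∈ range m, c i * (2 : ℝ) ^ i0 i ≤ C * (n : ℝ) ^ (d - 1)))

/-- BQ. The windows. From RWQ, WN2, WS2, FA2, SC2 and `R2.SpecWHC`, `R2.SpecDEC`, `R2.SpecWCO`,
`R2.SpecNRM`. Copy of `R2/B.lean`.
PROOF. `s = min ρ (1/q) < 1/2`. `α, C0, h0` from RWQ, `C1 ≥ max (d, d/α, h0, h1, 1)` where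
`2^i0 ≤ h^d` implies `i0 ≤ h` for `h ≥ h1`. Given `n`: `i0` from SC2. For a selected cube `(i, κ)`
(`R2.SpecWHC`), `w = 2^i`, `a = w κ`, `h = n - |a|`: `C1 w ≤ h < 2 C1 w` and `w ≤ n`,
`2^(i0 i) ≤ w^(d-1) ≤ h^d`; let `Y` be the good pattern for `(h, i0 i)`.
`W = ∑ Π_κ * WM L a (a+w-1) 2^(h+i0) Y * tens (1 - IM a)` as in `R2/B.lean`; `g - W g` is the sum in
FA2 (`GG n q ρ β g` from `nrm q ≤ nrm p`; `n^((d-1)/2) ≤ n^((d-1)(1-s))`) and the sum over the scales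
of the sums in WS2, `N = C β h^(d-1) 2^(-s i0) ≤ C β (2 C1 w)^(d-1) 2^(-s i0)` (WN2); SC2 with
`c i` = number of selected `κ` of the scale `i`. Cost: `2^(d+1) 2^n 2^(i0 i)` per window; SC2.
Maximum norm: as in `R2/B.lean`. -/
def SpecBQ : Prop := ∀ (d : ℕ) (q p ρ : ℝ), 2 ≤ d → 2 < q → q ≤ p → 1 / p < ρ → ρ < 1 →
  ρ ≠ 1 / q → ∃ C : ℝ, 0 < C ∧ ∀ n : ℕ, 1 ≤ n → ∃ Cn : ℝ, 0 < Cn ∧ ∀ L : ℕ, 4 * n ≤ L →
    ∃ (W : MG d L) (S : Finset (Gr d L)), (S.card : ℝ) ≤ C * (n : ℝ) ^ (d - 1) * 2 ^ n ∧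
      Cols W S ∧ SupB W Cn ∧
      ∀ (β : ℝ) (g : Gr d L → ℝ), 0 ≤ β → GG n p ρ β g →
        nrm q (g - W *ᵥ g) ≤ C * β * (n : ℝ) ^ (((d : ℝ) - 1) * (1 - min ρ (1 / q)))

/-! ### The upper bound -/

/-- UGQ. The upper bound on the grid. From BQ and `R2.SpecCLA`, `R2.SpecSMB`. Copy of `R2/UG.lean`.
`ρ`: if `r < 1/q` then `ρ = r` (`< 1`); if `r > 1/q` then `ρ = (1/q + min r 1)/2`
(`1/p ≤ 1/q < ρ < 1`, `ρ ≤ r`). In both cases `min ρ (1/q) = min r (1/q)`, `ρ ≠ 1/q`. -/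
def SpecUGQ : Prop := ∀ (d l : ℕ) (q p r : ℝ), 2 ≤ d → 2 < q → q ≤ p → 1 / p < r → r ≠ 1 / q →
  ∃ C : ℝ, 0 < C ∧ ∀ n : ℕ, 1 ≤ n → ∃ (Cn : ℝ) (L0 : ℕ), 0 < Cn ∧ ∀ L : ℕ, L0 ≤ L →
    ∃ (A : MG d L) (S : Finset (Gr d L)), (S.card : ℝ) ≤ C * (n : ℝ) ^ (d - 1) * 2 ^ n ∧
      Cols A S ∧ SupB A Cn ∧ ∀ F : Gr d L → ℝ, Cls l r p 1 F →
        nrm q (F - A *ᵥ F) ≤
          C * ((2 : ℝ) ^ (-(r * n)) * (n : ℝ) ^ (((d : ℝ) - 1) * (1 - min r (1 / q))))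

/-- UTQ. The upper bound on the torus, explicit form. From UGQ and `R2.SpecGRD`, `R2.SpecAPX`,
`R2.SpecREI`. Copy of `R2/UPT.lean`: the error in `L_q` (not in `L_p`); there `ψ_i` are chosen with
error `≤ η` in `L_2` — here take the approximation of the column `A(·, X_i) ∘ gx` in `L_q` (choose the
continuous function bounded by the same maximum `M_i` as the column, so that
`‖·‖_q^q ≤ (2 M_i)^(q-2) ‖·‖_2^2`; or use `MemLp.exists_boundedContinuous_eLpNorm_sub_le` in `L_q`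
directly, the real part of a complex approximation is not needed since the column is real). -/
def SpecUTQ : Prop := ∀ (𝕜 : Type) [RCLike 𝕜] (d l : ℕ) (q p r : ℝ), 2 ≤ d → 2 < q → q ≤ p →
  1 / p < r → r ≠ 1 / q → r < l → ∃ C : ℝ, 0 < C ∧ ∀ n m : ℕ, 1 ≤ n →
    C * (n : ℝ) ^ (d - 1) * 2 ^ n ≤ m →
    ∃ (x : Fin m → Torus d) (ψ : Fin m → C(Torus d, 𝕜)), ∀ f ∈ HClass 𝕜 d l r (ENNReal.ofReal p),
      eLpNorm (fun y => f y - ∑ i, f (x i) * ψ i y) (ENNReal.ofReal q) (μT d) ≤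
        ENNReal.ofReal (C * ((2 : ℝ) ^ (-(r * n)) *
          (n : ℝ) ^ (((d : ℝ) - 1) * (1 - min r (1 / q)))))

/-- The rate `m^{-r} (log m)^{(d-1)(r+1-min(r,1/q))}`. -/
def rateQ (d : ℕ) (q r : ℝ) (m : ℕ) : ℝ :=
  (m : ℝ) ^ (-r) * Real.log m ^ (((d : ℝ) - 1) * (r + 1 - min r (1 / q)))

/-- UPQ. The upper bound for finite `p`. From UTQ and `R2.SpecRAT` with `1/(1-s)` in place of `p`
(`s = min r (1/q) ∈ (0, 1/2)`; `(d-1)/(1/(1-s)) = (d-1)(1-s)`, `rate2 d (1/(1-s)) r = rateQ d q r`).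
Copy of `R2/UP.lean`. -/
def SpecUPQ : Prop := ∀ (𝕜 : Type) [RCLike 𝕜] (d l : ℕ) (q p r : ℝ), 2 ≤ d → 2 < q → q ≤ p →
  1 / p < r → r ≠ 1 / q → r < l → ∃ C : ℝ, 0 < C ∧ ∀ m : ℕ, 2 ≤ m →
    samplingNumber m (HClass 𝕜 d l r (ENNReal.ofReal p)) (ENNReal.ofReal q) ≤
      ENNReal.ofReal (C * rateQ d q r m)

/-- FIQ. The theorem. From UPQ and `S.specLow`.
PROOF. Upper bound: `p = ∞` (or any `p`): choose a finite `p' ≤ p`, `q ≤ p'`, `1/p' < r` and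
`S.FinalM.HClass_mono`, `S.FinalM.samplingNumber_mono`. Lower bound: `S.specLow` (`L_1 ≤ L_q`,
`HClass ∞ ⊆ HClass p`), `rate d r m = m^(-r) (log m)^(d-1)` in `S/Defs.lean`; pattern
`S/Final.lean`. -/
def SpecFIQ : Prop := ∀ (𝕜 : Type) [RCLike 𝕜] (d l : ℕ) (p q : ℝ≥0∞) (r : ℝ), 2 ≤ d → 2 < q →
  q ≤ p → q ≠ ∞ → (1 / p).toReal < r → r ≠ (1 / q).toReal → r < l →
  ∃ c C : ℝ, 0 < c ∧ 0 < C ∧ ∀ m : ℕ, 2 ≤ m →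
    samplingNumber m (HClass 𝕜 d l r p) q ≤
      ENNReal.ofReal (C * ((m : ℝ) ^ (-r) *
        Real.log m ^ (((d : ℝ) - 1) * max 1 (r + 1 - (1 / q).toReal)))) ∧
    (r < (1 / q).toReal →
      ENNReal.ofReal (c * ((m : ℝ) ^ (-r) * Real.log m ^ ((d : ℝ) - 1))) ≤
        samplingNumber m (HClass 𝕜 d l r p) q)

end

end Pool.Agent.MP_bc5265.RQ
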