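import Pool.Agent.Lib.MP_bc5265_an.R2.SpecB
import Pool.Agent.Lib.MP_bc5265_an.R2.SpecC
import Mathlib
import Pool.Agent.Lib.MP_bc5265_an.RQ.Spec

section
set_option linter.unusedSectionVars false

open MeasureTheory Finset Matrix
open scoped ENNReal

namespace Pool.Agent.MP_bc5265.R2

open Pool.Agent.MP_bc5265.S

namespace BM

/-- Lower corner of a window. -/
def aa {d : ℕ} (q : ℕ × (Fin d → ℕ)) : Fin d → ℕ := fun j => 2 ^ q.1 * q.2 j

/-- Height of a window. -/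
def ht {d : ℕ} (n : ℕ) (q : ℕ × (Fin d → ℕ)) : ℕ := n - ∑ j, aa q j

/-- The windows. -/
def TT (d C1 n : ℕ) : Finset (ℕ × (Fin d → ℕ)) :=
  ((range (n + 1)) ×ˢ (box d (n + 1))).filter fun q => selW C1 n q.1 q.2

lemma sum_aa {d : ℕ} (q : ℕ × (Fin d → ℕ)) : ∑ j, aa q j = 2 ^ q.1 * ∑ j, q.2 j := by
  unfold aa; rw [mul_sum]

lemma div_iff (i k t : ℕ) : t / 2 ^ i = k ↔ t ∈ Ico (2 ^ i * k) (2 ^ i * k + 2 ^ i) := by
  rw [mem_Ico]
  have h := Nat.div_add_mod t (2 ^ i)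
  have h2 := Nat.mod_lt t (show 0 < 2 ^ i by positivity)
  constructor
  · intro h1
    rw [h1] at h
    omega
  · rintro ⟨h3, h4⟩
    apply Nat.div_eq_of_lt_le
    · rw [mul_comm]; exact h3
    · calc t < 2 ^ i * k + 2 ^ i := h4
        _ = (k + 1) * 2 ^ i := by ring

lemma sel_facts (hWHC : SpecWHC) {d C1 n : ℕ} (hd : 1 ≤ d) (hC1 : d ≤ C1)
    {q : ℕ × (Fin d → ℕ)} (hs : selW C1 n q.1 q.2) :
    ∑ j, aa q j + ht n q = n ∧ C1 * 2 ^ q.1 ≤ ht n q ∧ ht n q < 2 * C1 * 2 ^ q.1 := by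
  obtain ⟨-, -, h3, -⟩ := hWHC d C1 n hd hC1
  obtain ⟨h4, h5⟩ := h3 q.1 q.2 hs
  unfold ht
  rw [sum_aa]
  omega

lemma partition (hDEC : SpecDEC) (hWHC : SpecWHC) {d C1 n L : ℕ} (hd : 1 ≤ d) (hC1 : d ≤ C1)
    (hL : n ≤ L) (g : Gr d L → ℝ) :
    ∑ t ∈ (box d (L + 1)).filter (fun t => ¬ (n < ∑ j, t j + C1)), Dt L t *ᵥ g =
      ∑ q ∈ TT d C1 n, (tens fun j => EM L (aa q j + 2 ^ q.1) - EM L (aa q j)) *ᵥ g := by
  classical
  obtain ⟨w1, w2, w3, -⟩ := hWHC d C1 n hd hC1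
  obtain ⟨-, -, -, d4, -⟩ := hDEC d L
  have hex : ∀ t : Fin d → ℕ, ∃ i, ∑ j, t j + C1 ≤ n →
      (selW C1 n i fun j => t j / 2 ^ i) ∧ ∀ i', (selW C1 n i' fun j => t j / 2 ^ i') → i' = i := by
    intro t
    by_cases h : ∑ j, t j + C1 ≤ n
    · obtain ⟨i, hi, hi2⟩ := w1 t h
      exact ⟨i, fun _ => ⟨hi, fun i' h' => hi2 i' h'⟩⟩
    · exact ⟨0, fun h' => absurd h' h⟩
  choose ii hii using hex
  set φ : (Fin d → ℕ) → ℕ × (Fin d → ℕ) := fun t => (ii t, fun j => t j / 2 ^ ii t) with hφ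
  have hmaps : ∀ t ∈ (box d (L + 1)).filter (fun t => ¬ (n < ∑ j, t j + C1)),
      φ t ∈ TT d C1 n := by
    intro t ht
    rw [mem_filter] at ht
    have hn : ∑ j, t j + C1 ≤ n := by omega
    obtain ⟨h1, -⟩ := hii t hn
    obtain ⟨h3, -⟩ := w3 _ _ h1
    have h4 : ii t < 2 ^ ii t := Nat.lt_two_pow_self
    have h5 : 1 * 2 ^ ii t ≤ C1 * 2 ^ ii t := Nat.mul_le_mul_right _ (hd.trans hC1)
    unfold TT
    rw [mem_filter, mem_product]
    refine ⟨⟨?_, ?_⟩, h1⟩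
    · rw [mem_range]
      show ii t < n + 1
      omega
    · unfold box
      rw [Fintype.mem_piFinset]
      intro j
      rw [mem_range]
      show t j / 2 ^ ii t < n + 1
      have h6 : t j / 2 ^ ii t ≤ t j := Nat.div_le_self _ _
      have h7 : t j ≤ ∑ j, t j := single_le_sum (fun _ _ => Nat.zero_le _) (mem_univ j)
      omega
  rw [← sum_fiberwise_of_maps_to hmaps]
  refine sum_congr rfl fun q hq => ?_
  have hsel : selW C1 n q.1 q.2 := (mem_filter.mp hq).2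
  show _ = (tens fun j => EM L (aa q j + 2 ^ q.1) - EM L (aa q j)) *ᵥ g
  rw [← d4 (aa q) (2 ^ q.1), Matrix.sum_mulVec]
  refine sum_congr ?_ fun _ _ => rfl
  ext t
  rw [mem_filter, mem_filter, Fintype.mem_piFinset]
  constructor
  · rintro ⟨-, h2⟩ j
    have h3 : ii t = q.1 := congrArg Prod.fst h2
    have h4 : (fun j => t j / 2 ^ ii t) = q.2 := congrArg Prod.snd h2
    have h5 : t j / 2 ^ q.1 = q.2 j := by rw [← h3, ← h4]
    exact (div_iff _ _ _).mp h5
  · intro h1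
    have h2 : (fun j => t j / 2 ^ q.1) = q.2 := funext fun j => (div_iff _ _ _).mpr (h1 j)
    have h3 : selW C1 n q.1 fun j => t j / 2 ^ q.1 := by rw [h2]; exact hsel
    have h4 := w2 t q.1 h3
    have h5 := (hii t h4).2 q.1 h3
    refine ⟨⟨?_, by omega⟩, ?_⟩
    · unfold box
      rw [Fintype.mem_piFinset]
      intro j
      rw [mem_range]
      have h7 : t j ≤ ∑ j, t j := single_le_sum (fun _ _ => Nat.zero_le _) (mem_univ j)
      omega
    · rw [hφ]
      show (ii t, fun j => t j / 2 ^ ii t) = q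
      rw [← h5, h2]

lemma supB_sum {d L : ℕ} {ι : Type} (s : Finset ι) (A : ι → MG d L) (C : ι → ℝ)
    (h : ∀ i ∈ s, SupB (A i) (C i)) : SupB (∑ i ∈ s, A i) (∑ i ∈ s, C i) := by
  intro g M hM x
  rw [Matrix.sum_mulVec, Finset.sum_apply, sum_mul]
  exact (abs_sum_le_sum_abs _ _).trans (sum_le_sum fun i hi => h i hi g M hM x)

lemma supB_mono {d L : ℕ} {A : MG d L} {C C' : ℝ} (h : SupB A C) (hC : C ≤ C') :
    SupB A C' := by
  intro g M hM x
  have hM0 : 0 ≤ M := (abs_nonneg _).trans (hM x)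
  exact (h g M hM x).trans (mul_le_mul_of_nonneg_right hC hM0)

lemma cols_sum {d L : ℕ} {ι : Type} [DecidableEq (Gr d L)] (s : Finset ι) (A : ι → MG d L)
    (S : ι → Finset (Gr d L))
    (h : ∀ i ∈ s, Cols (A i) (S i)) : Cols (∑ i ∈ s, A i) (s.biUnion S) := by
  intro x y hy
  rw [Matrix.sum_apply]
  refine sum_eq_zero fun i hi => h i hi x y fun hy2 => hy ?_
  rw [mem_biUnion]
  exact ⟨i, hi, hy2⟩

lemma eventually_le (d : ℕ) : ∃ h1 : ℕ, ∀ h : ℕ, h1 ≤ h → h ^ d ≤ 2 ^ h := by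
  have h := tendsto_pow_const_div_const_pow_of_one_lt d (show (1 : ℝ) < 2 by norm_num)
  have h2 := (h.eventually_lt_const (show (0 : ℝ) < 1 by norm_num))
  rw [Filter.eventually_atTop] at h2
  obtain ⟨a, ha⟩ := h2
  refine ⟨a, fun b hb => ?_⟩
  have h3 := ha b hb
  rw [div_lt_one (by positivity)] at h3
  exact_mod_cast h3.le

lemma sum_TT {d C1 n : ℕ} {M : Type} [AddCommMonoid M] (f : ℕ × (Fin d → ℕ) → M) :
    ∑ q ∈ TT d C1 n, f q = ∑ i ∈ range (n + 1),
      ∑ κ ∈ (box d (n + 1)).filter (fun κ => selW C1 n i κ), f (i, κ) := by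
  unfold TT
  rw [sum_filter, sum_product]
  refine sum_congr rfl fun i _ => ?_
  rw [sum_filter]

end BM

open BM in
theorem specB (hRW : SpecRW) (hWHC : SpecWHC) (hDEC : SpecDEC) (hFAR : SpecFAR)
    (hWNO : SpecWNO) (hWCO : SpecWCO) (hWSC : SpecWSC) (hI0 : SpecI0) (hSCA : SpecSCA)
    (hNRM : SpecNRM) : SpecB := by
  classical
  intro d p ρ hd hp hp2 hρ hρ1
  have hd1 : 1 ≤ d := by omega
  have hp0 : 0 < p := by linarith
  have hdR : (2 : ℝ) ≤ d := by exact_mod_cast hd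
  have hip : 1 / 2 < 1 / p := one_div_lt_one_div_of_lt hp0 hp2
  have hip1 : 1 / p < 1 := by rw [div_lt_one hp0]; exact hp
  have hρ0 : 0 < ρ := by linarith
  set γ : ℝ := ((d : ℝ) - 1) * (3 / 2 - 1 / p) with hγ
  have hγ0 : 0 < γ := mul_pos (by linarith) (by linarith)
  have hγ1 : γ < (d : ℝ) - 1 := by
    rw [hγ]
    have : ((d : ℝ) - 1) * (3 / 2 - 1 / p) < ((d : ℝ) - 1) * 1 :=
      mul_lt_mul_of_pos_left (by linarith) (by linarith)
    linarith
  have hγ2 : 2 * ((d : ℝ) - 1) * (1 - 1 / p) < γ := by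
    rw [hγ]
    have : ((d : ℝ) - 1) * (2 * (1 - 1 / p)) < ((d : ℝ) - 1) * (3 / 2 - 1 / p) :=
      mul_lt_mul_of_pos_left (by linarith) (by linarith)
    linarith
  obtain ⟨i0, hi0⟩ := hI0 γ d hγ0 (by linarith) hd1
  obtain ⟨α, C0, h0, hα, hC0, hrw⟩ := hRW d p hd1 hp hp2
  obtain ⟨h1, hh1⟩ := eventually_le d
  obtain ⟨c2, hc2⟩ := exists_nat_gt ((d : ℝ) / α)
  set C1 : ℕ := d + h0 + h1 + c2 with hC1
  have hdC1 : d ≤ C1 := by omega
  have hC1p : 1 ≤ C1 := by omega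
  have hαC1 : (d : ℝ) ≤ α * C1 := by
    have h2 : (d : ℝ) / α < C1 := hc2.trans_le (by rw [hC1]; exact_mod_cast (by omega))
    rw [div_lt_iff₀ hα] at h2
    linarith
  have hYex : ∀ h : ℕ, ∃ Y : Finset (Gr d (3 * h)), C1 ≤ h → RWP d p α C0 h (i0 h) Y := by
    intro h
    by_cases hc : C1 ≤ h
    · obtain ⟨Y, hY⟩ := hrw h (i0 h) (by omega) (hi0 h (by omega)).2.2
      exact ⟨Y, fun _ => hY⟩
    · exact ⟨∅, fun h' => absurd h' hc⟩
  choose Y hY using hYex
  obtain ⟨CF, hCF, hfar⟩ := hFAR d C1 p ρ hd1 hp.le hp2.le hρ0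
  obtain ⟨CN, hCN, hwno⟩ := hWNO d p ρ C0 hd1 hp hp2 hρ hC0
  obtain ⟨CS, hCS, hsca⟩ := hSCA d C1 p γ hd hC1p hp hγ0 hγ1 hγ2
  refine ⟨CF + 4 ^ d * (2 * CN) * CS + 2 ^ (d + 1) * CS, by positivity, ?_⟩
  intro n hn
  set K : ℕ × (Fin d → ℕ) → ℝ := fun q => 2 ^ d * (((Y (ht n q)).card : ℝ) *
    2 ^ (∑ j, (aa q j + 2 ^ q.1 - 1 - aa q j)) / 2 ^ (ht n q + i0 (ht n q))) * 2 ^ d with hK
  have hK0 : ∀ q, 0 ≤ K q := fun q => by rw [hK]; positivity
  refine ⟨∑ q ∈ TT d C1 n, K q + 1, by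
    have := sum_nonneg (s := TT d C1 n) (fun q _ => hK0 q); linarith, ?_⟩
  intro L hL
  obtain ⟨w1, w2, w3, w4⟩ := hWHC d C1 n hd1 hdC1
  obtain ⟨e1, e2, e3, e4, e5, e6, e7⟩ := hDEC d L
  obtain ⟨-, hn0, -, -, hnadd, hnsum, -⟩ := hNRM (Gr d L) p hp.le
  -- facts on the windows
  have hfacts : ∀ q ∈ TT d C1 n, selW C1 n q.1 q.2 ∧ ∑ j, aa q j + ht n q = n ∧
      C1 * 2 ^ q.1 ≤ ht n q ∧ ht n q < 2 * C1 * 2 ^ q.1 ∧ C1 ≤ ht n q ∧ 1 ≤ ht n q ∧
      i0 (ht n q) ≤ ht n q ∧ (∀ j, aa q j ≤ n) ∧ ht n q ≤ n := by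
    intro q hq
    have hs : selW C1 n q.1 q.2 := (mem_filter.mp hq).2
    obtain ⟨f1, f2, f3⟩ := sel_facts hWHC hd1 hdC1 hs
    have f4 : C1 * 1 ≤ C1 * 2 ^ q.1 := Nat.mul_le_mul_left _ Nat.one_le_two_pow
    have f5 : C1 ≤ ht n q := by omega
    refine ⟨hs, f1, f2, f3, f5, by omega, ?_, ?_, by omega⟩
    · have f6 : 2 ^ i0 (ht n q) ≤ (2 : ℕ) ^ ht n q :=
        (hi0 (ht n q) (by omega)).2.2.trans (hh1 _ (by omega))
      exact (Nat.pow_le_pow_iff_right (by norm_num)).mp f6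
    · intro j
      have : aa q j ≤ ∑ j, aa q j := single_le_sum (fun _ _ => Nat.zero_le _) (mem_univ j)
      omega
  set Pi : ℕ × (Fin d → ℕ) → MG d L :=
    fun q => tens fun j => EM L (aa q j + 2 ^ q.1) - EM L (aa q j) with hPi
  set Ww : ℕ × (Fin d → ℕ) → MG d L := fun q => WM L (aa q) (fun j => aa q j + 2 ^ q.1 - 1)
    (2 ^ (ht n q + i0 (ht n q))) (Y (ht n q)) with hWw
  set Rr : ℕ × (Fin d → ℕ) → MG d L := fun q => tens fun j => 1 - IM L (aa q j) with hRr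
  have hwco : ∀ q ∈ TT d C1 n, (∃ S : Finset (Gr d L),
      S.card ≤ 2 ^ d * (2 ^ (∑ j, aa q j) * (Y (ht n q)).card) ∧ Cols (Pi q * Ww q * Rr q) S) ∧
      SupB (Pi q * Ww q * Rr q) (K q) := by
    intro q hq
    obtain ⟨-, -, -, -, -, -, -, f8, -⟩ := hfacts q hq
    exact hWCO d L (3 * ht n q) (aa q) (fun j => aa q j + 2 ^ q.1 - 1) (2 ^ q.1)
      (2 ^ (ht n q + i0 (ht n q))) (Y (ht n q)) (fun j => by have := f8 j; omega) (by positivity)
  have hSex : ∀ q, ∃ S : Finset (Gr d L), q ∈ TT d C1 n →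
      S.card ≤ 2 ^ d * (2 ^ (∑ j, aa q j) * (Y (ht n q)).card) ∧ Cols (Pi q * Ww q * Rr q) S := by
    intro q
    by_cases hq : q ∈ TT d C1 n
    · obtain ⟨S, hS⟩ := (hwco q hq).1
      exact ⟨S, fun _ => hS⟩
    · exact ⟨∅, fun h => absurd h hq⟩
  choose S hS using hSex
  -- bounds for the cardinalities of the scales
  set c : ℕ → ℝ := fun i =>
    (((box d (n + 1)).filter (fun κ => selW C1 n i κ)).card : ℝ) with hc
  have hc0 : ∀ i, 0 ≤ c i := fun i => by rw [hc]; positivity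
  have hcb : ∀ i, c i * ((2 : ℝ) ^ i) ^ (d - 1) ≤ C1 * (n : ℝ) ^ (d - 1) := by
    intro i
    show (((box d (n + 1)).filter (fun κ => selW C1 n i κ)).card : ℝ) *
      ((2 : ℝ) ^ i) ^ (d - 1) ≤ C1 * (n : ℝ) ^ (d - 1)
    exact_mod_cast w4 i (n + 1)
  obtain ⟨hs1, hs2⟩ := hsca n (n + 1) c hn hc0 hcb
  refine ⟨∑ q ∈ TT d C1 n, Pi q * Ww q * Rr q, (TT d C1 n).biUnion S, ?_, ?_, ?_, ?_⟩
  · -- cost
    have k1 : (((TT d C1 n).biUnion S).card : ℝ) ≤ ∑ q ∈ TT d C1 n, ((S q).card : ℝ) := by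
      exact_mod_cast card_biUnion_le
    have k2 : ∀ q ∈ TT d C1 n, ((S q).card : ℝ) ≤
        2 ^ (d + 1) * 2 ^ n * ((2 * C1 * 2 ^ q.1 : ℕ) : ℝ) ^ γ := by
      intro q hq
      obtain ⟨f0, f1, f2, f3, f5, f6, f7, f8, f9⟩ := hfacts q hq
      have k3 := (hS q hq).1
      have k4 := (hY (ht n q) f5).1
      have k5 : (S q).card ≤ 2 ^ (d + 1) * 2 ^ n * 2 ^ i0 (ht n q) := by
        refine k3.trans ?_
        calc 2 ^ d * (2 ^ (∑ j, aa q j) * (Y (ht n q)).card)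
            ≤ 2 ^ d * (2 ^ (∑ j, aa q j) * (2 * 2 ^ (ht n q + i0 (ht n q)))) := by gcongr
          _ = 2 ^ (d + 1) * 2 ^ (∑ j, aa q j + ht n q) * 2 ^ i0 (ht n q) := by ring
          _ = _ := by rw [f1]
      have k6 : (2 : ℝ) ^ i0 (ht n q) ≤ ((2 * C1 * 2 ^ q.1 : ℕ) : ℝ) ^ γ :=
        (hi0 (ht n q) f6).1.trans (Real.rpow_le_rpow (by positivity) (by exact_mod_cast f3.le)
          hγ0.le)
      calc ((S q).card : ℝ) ≤ 2 ^ (d + 1) * 2 ^ n * 2 ^ i0 (ht n q) := by exact_mod_cast k5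
        _ ≤ _ := mul_le_mul_of_nonneg_left k6 (by positivity)
    have k3 : ∑ q ∈ TT d C1 n, ((S q).card : ℝ) ≤ 2 ^ (d + 1) * 2 ^ n *
        ∑ i ∈ range (n + 1), c i * ((2 * C1 * 2 ^ i : ℕ) : ℝ) ^ γ := by
      refine (sum_le_sum k2).trans_eq ?_
      rw [sum_TT, mul_sum]
      refine sum_congr rfl fun i _ => ?_
      show ∑ κ ∈ (box d (n + 1)).filter (fun κ => selW C1 n i κ),
        (2 : ℝ) ^ (d + 1) * 2 ^ n * ((2 * C1 * 2 ^ i : ℕ) : ℝ) ^ γ = _
      rw [sum_const, nsmul_eq_mul]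
      ring
    calc _ ≤ 2 ^ (d + 1) * 2 ^ n * (CS * (n : ℝ) ^ (d - 1)) :=
          k1.trans (k3.trans (mul_le_mul_of_nonneg_left hs2 (by positivity)))
      _ = (2 ^ (d + 1) * CS) * (n : ℝ) ^ (d - 1) * 2 ^ n := by ring
      _ ≤ _ := by
          have : 0 ≤ CF + 4 ^ d * (2 * CN) * CS := by positivity
          gcongr
          linarith
  · exact cols_sum _ _ _ fun q hq => (hS q hq).2
  · exact supB_mono (supB_sum _ _ _ fun q hq => (hwco q hq).2) (by linarith)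
  · -- error
    intro β g hβ hGG
    set V : ℕ × (Fin d → ℕ) → Gr d L → ℝ := fun q =>
      ((tens fun j => EM L (aa q j + 2 ^ q.1)) - Ww q) *ᵥ (Rr q *ᵥ g) with hV
    have hPV : ∀ q, Pi q *ᵥ g - (Pi q * Ww q * Rr q) *ᵥ g = Pi q *ᵥ V q := by
      intro q
      have k1 := (e6 (aa q) (2 ^ q.1)).1
      have k2 := (e6 (aa q) (2 ^ q.1)).2.1
      have k3 : Pi q * Rr q = Pi q := k1
      have k4 : (Pi q * tens fun j => EM L (aa q j + 2 ^ q.1)) = Pi q := k2
      show _ = Pi q *ᵥ (((tens fun j => EM L (aa q j + 2 ^ q.1)) - Ww q) *ᵥ (Rr q *ᵥ g))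
      rw [Matrix.mulVec_mulVec, Matrix.mulVec_mulVec, ← Matrix.sub_mulVec, Matrix.mul_sub,
        Matrix.sub_mul, k4, k3]
    have hdec : g - (∑ q ∈ TT d C1 n, Pi q * Ww q * Rr q) *ᵥ g =
        ∑ t ∈ (box d (L + 1)).filter (fun t => n < ∑ j, t j + C1), Dt L t *ᵥ g +
          ∑ q ∈ TT d C1 n, Pi q *ᵥ V q := by
      have k1 : g = ∑ t ∈ box d (L + 1), Dt L t *ᵥ g := by
        rw [← Matrix.sum_mulVec, e1 (L + 1) le_rfl, Matrix.one_mulVec]
      have k2 : ∑ t ∈ box d (L + 1), Dt L t *ᵥ g =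
          ∑ t ∈ (box d (L + 1)).filter (fun t => n < ∑ j, t j + C1), Dt L t *ᵥ g +
          ∑ t ∈ (box d (L + 1)).filter (fun t => ¬ (n < ∑ j, t j + C1)), Dt L t *ᵥ g :=
        (sum_filter_add_sum_filter_not _ _ _).symm
      have k3 := partition hDEC hWHC hd1 hdC1 (show n ≤ L by omega) g
      have k4 : ∑ q ∈ TT d C1 n, Pi q *ᵥ V q =
          ∑ q ∈ TT d C1 n, Pi q *ᵥ g - (∑ q ∈ TT d C1 n, Pi q * Ww q * Rr q) *ᵥ g := by
        rw [Matrix.sum_mulVec, ← sum_sub_distrib]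
        exact sum_congr rfl fun q _ => (hPV q).symm
      rw [k4, ← k3]
      nth_rewrite 1 [k1]
      rw [k2]
      abel
    -- one window
    have hwin : ∀ q ∈ TT d C1 n, nrm p (V q) ≤ 2 * CN * β *
        (((2 * C1 * 2 ^ q.1 : ℕ) : ℝ) ^ ((d : ℝ) - 1) *
          (((C1 * 2 ^ q.1 : ℕ) : ℝ) ^ (-(γ / 2)))) := by
      intro q hq
      obtain ⟨f0, f1, f2, f3, f5, f6, f7, f8, f9⟩ := hfacts q hq
      have k0 : (d : ℝ) * (2 ^ q.1 : ℕ) ≤ α * (ht n q : ℕ) := by
        calc (d : ℝ) * (2 ^ q.1 : ℕ) ≤ α * C1 * (2 ^ q.1 : ℕ) :=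
              mul_le_mul_of_nonneg_right hαC1 (by positivity)
          _ = α * ((C1 * 2 ^ q.1 : ℕ) : ℝ) := by push_cast; ring
          _ ≤ α * (ht n q : ℕ) := mul_le_mul_of_nonneg_left (by exact_mod_cast f2) hα.le
      have k1 := hwno α (ht n q) (i0 (ht n q)) (Y (ht n q)) hα f6 f7 (hY _ f5) n L (2 ^ q.1)
        (aa q) β g Nat.one_le_two_pow f1 k0
        (le_trans (Nat.le_mul_of_pos_left _ hC1p) f2) (fun j => by have := f8 j; omega) hβ hGG
      refine k1.trans ?_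
      have k2 : (ht n q : ℝ) ^ (d - 1) ≤ ((2 * C1 * 2 ^ q.1 : ℕ) : ℝ) ^ ((d : ℝ) - 1) := by
        have : ((d - 1 : ℕ) : ℝ) = (d : ℝ) - 1 := by rw [Nat.cast_sub hd1]; simp
        rw [← this, Real.rpow_natCast]
        exact pow_le_pow_left₀ (by positivity) (by exact_mod_cast f3.le) _
      have k3 : (2 : ℝ) ^ (-((i0 (ht n q) : ℝ) / 2)) ≤
          2 * ((C1 * 2 ^ q.1 : ℕ) : ℝ) ^ (-(γ / 2)) := by
        have m1 := (hi0 (ht n q) f6).2.1
        have hht : (0 : ℝ) < ht n q := by exact_mod_cast f6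
        have hCq : (0 : ℝ) < ((C1 * 2 ^ q.1 : ℕ) : ℝ) := by positivity
        have m2 : (2 : ℝ) ^ (-((i0 (ht n q) : ℝ) / 2)) = ((2 : ℝ) ^ i0 (ht n q)) ^ (-(1 / 2 : ℝ)) := by
          rw [← Real.rpow_natCast, ← Real.rpow_mul (by norm_num)]
          congr 1; ring
        have m3 : ((ht n q : ℝ) ^ γ / 2) ≤ (2 : ℝ) ^ i0 (ht n q) := by linarith
        have m4 : ((2 : ℝ) ^ i0 (ht n q)) ^ (-(1 / 2 : ℝ)) ≤
            ((ht n q : ℝ) ^ γ / 2) ^ (-(1 / 2 : ℝ)) :=
          Real.rpow_le_rpow_of_nonpos (by positivity) m3 (by norm_num)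
        have m5 : ((ht n q : ℝ) ^ γ / 2) ^ (-(1 / 2 : ℝ)) =
            (ht n q : ℝ) ^ (-(γ / 2)) * (2 : ℝ) ^ (1 / 2 : ℝ) := by
          rw [Real.div_rpow (by positivity) (by norm_num), ← Real.rpow_mul (by positivity),
            Real.rpow_neg (by norm_num : (0 : ℝ) ≤ 2), div_inv_eq_mul]
          congr 2
          ring
        have m6 : (ht n q : ℝ) ^ (-(γ / 2)) ≤ ((C1 * 2 ^ q.1 : ℕ) : ℝ) ^ (-(γ / 2)) :=
          Real.rpow_le_rpow_of_nonpos hCq (by exact_mod_cast f2) (by linarith)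
        have m7 : (2 : ℝ) ^ (1 / 2 : ℝ) ≤ 2 := by
          calc (2 : ℝ) ^ (1 / 2 : ℝ) ≤ (2 : ℝ) ^ (1 : ℝ) :=
                Real.rpow_le_rpow_of_exponent_le (by norm_num) (by norm_num)
            _ = 2 := Real.rpow_one 2
        rw [m2]
        refine m4.trans ?_
        rw [m5]
        calc _ ≤ ((C1 * 2 ^ q.1 : ℕ) : ℝ) ^ (-(γ / 2)) * 2 :=
              mul_le_mul m6 m7 (by positivity) (by positivity)
          _ = _ := by ring
      calc CN * β * ((ht n q : ℝ) ^ (d - 1) * (2 : ℝ) ^ (-((i0 (ht n q) : ℝ) / 2)))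
          ≤ CN * β * (((2 * C1 * 2 ^ q.1 : ℕ) : ℝ) ^ ((d : ℝ) - 1) *
            (2 * ((C1 * 2 ^ q.1 : ℕ) : ℝ) ^ (-(γ / 2)))) := by gcongr
        _ = _ := by ring
    have hscale : nrm p (∑ q ∈ TT d C1 n, Pi q *ᵥ V q) ≤
        4 ^ d * (2 * CN) * CS * β * (n : ℝ) ^ (((d : ℝ) - 1) / p) := by
      rw [sum_TT]
      refine (hnsum _ _ _).trans ?_
      have k1 : ∀ i ∈ range (n + 1),
          nrm p (∑ κ ∈ (box d (n + 1)).filter (fun κ => selW C1 n i κ),
            Pi (i, κ) *ᵥ V (i, κ)) ≤ 4 ^ d * (2 * CN) * β *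
            (c i ^ (1 / p) * (((2 * C1 * 2 ^ i : ℕ) : ℝ) ^ ((d : ℝ) - 1) *
          (((C1 * 2 ^ i : ℕ) : ℝ) ^ (-(γ / 2))))) := by
        intro i hi
        have k2 := hWSC d L i (n + 1) p ((box d (n + 1)).filter (fun κ => selW C1 n i κ))
          (2 * CN * β * (((2 * C1 * 2 ^ i : ℕ) : ℝ) ^ ((d : ℝ) - 1) *
          (((C1 * 2 ^ i : ℕ) : ℝ) ^ (-(γ / 2))))) (fun κ => V (i, κ)) hp.le hp2.le
          (filter_subset _ _) (by positivity) (fun κ hκ => by
            apply hwin (i, κ)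
            unfold TT
            rw [mem_filter] at hκ ⊢
            exact ⟨mem_product.mpr ⟨hi, hκ.1⟩, hκ.2⟩)
        refine k2.trans_eq ?_
        rw [hc]
        ring
      refine (sum_le_sum k1).trans ?_
      rw [← mul_sum]
      calc _ ≤ 4 ^ d * (2 * CN) * β * (CS * (n : ℝ) ^ (((d : ℝ) - 1) / p)) :=
            mul_le_mul_of_nonneg_left hs1 (by positivity)
        _ = _ := by ring
    rw [hdec]
    refine (hnadd _ _).trans ?_
    have k1 := hfar n L β g hn hβ hGG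
    have k2 : 0 ≤ 2 ^ (d + 1) * CS * β * (n : ℝ) ^ (((d : ℝ) - 1) / p) := by positivity
    calc _ ≤ CF * β * (n : ℝ) ^ (((d : ℝ) - 1) / p) +
          4 ^ d * (2 * CN) * CS * β * (n : ℝ) ^ (((d : ℝ) - 1) / p) := add_le_add k1 hscale
      _ ≤ _ := by linarith

end Pool.Agent.MP_bc5265.R2
end

section
/-! Region `R_2`, module OPS: the one-dimensional operators. -/
set_option autoImplicit false

open MeasureTheory Finset Matrix
open scoped ENNReal

namespace Pool.Agent.MP_bc5265.R2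

open Pool.Agent.MP_bc5265.S

namespace OPSM

/-- number of points in a cell -/
theorem card_cell (L m : ℕ) (hm : m ≤ L) (y : Fin (2 ^ L)) :
    ((univ : Finset (Fin (2 ^ L))).filter fun z : Fin (2 ^ L) => (z : ℕ) / 2 ^ m = (y : ℕ) / 2 ^ m).card = 2 ^ m := by
  have hp : 0 < 2 ^ m := by positivity
  rw [← card_map Fin.valEmbedding]
  have : ((univ : Finset (Fin (2 ^ L))).filter (fun z : Fin (2 ^ L) => (z : ℕ) / 2 ^ m = (y : ℕ) / 2 ^ m)).map
      Fin.valEmbedding = Ico ((y : ℕ) / 2 ^ m * 2 ^ m) (((y : ℕ) / 2 ^ m + 1) * 2 ^ m) := by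
    ext z
    simp only [mem_map, mem_filter, mem_univ, true_and, Fin.valEmbedding_apply, mem_Ico]
    constructor
    · rintro ⟨z, hz, rfl⟩
      rw [← hz]
      exact ⟨Nat.div_mul_le_self _ _, by
        rw [add_mul, one_mul]
        exact Nat.lt_div_mul_add hp⟩
    · rintro ⟨h1, h2⟩
      have h3 : (y : ℕ) / 2 ^ m + 1 ≤ 2 ^ (L - m) := by
        rw [Nat.succ_le_iff, Nat.div_lt_iff_lt_mul hp, ← pow_add, Nat.sub_add_cancel hm]
        exact y.2
      have h4 : z < 2 ^ L := by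
        calc z < ((y : ℕ) / 2 ^ m + 1) * 2 ^ m := h2
          _ ≤ 2 ^ (L - m) * 2 ^ m := Nat.mul_le_mul_right _ h3
          _ = 2 ^ L := by rw [← pow_add, Nat.sub_add_cancel hm]
      exact ⟨⟨z, h4⟩, Nat.div_eq_of_lt_le h1 h2, rfl⟩
  rw [this, Nat.card_Ico, add_mul, one_mul, Nat.add_sub_cancel_left]

/-- finer cells -/
theorem div_eq_of_div_eq {a b m n : ℕ} (h : m ≤ n) (e : a / 2 ^ m = b / 2 ^ m) :
    a / 2 ^ n = b / 2 ^ n := by
  obtain ⟨r, rfl⟩ := Nat.exists_eq_add_of_le h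
  rw [pow_add, ← Nat.div_div_eq_div_mul, ← Nat.div_div_eq_div_mul, e]

/-- the left end point -/
def lp (m x : ℕ) : ℕ := x / 2 ^ m * 2 ^ m

theorem lp_le (m x : ℕ) : lp m x ≤ x := Nat.div_mul_le_self _ _

theorem lp_div {m n : ℕ} (h : m ≤ n) (x : ℕ) : lp m x / 2 ^ n = x / 2 ^ n := by
  refine div_eq_of_div_eq h ?_
  unfold lp
  rw [Nat.mul_div_cancel _ (by positivity)]

theorem lp_lp (m n x : ℕ) : lp n (lp m x) = lp (max m n) x := by
  rcases le_total m n with h | h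
  · rw [max_eq_right h]
    unfold lp
    rw [show (x / 2 ^ m * 2 ^ m) / 2 ^ n = x / 2 ^ n from lp_div h x]
  · rw [max_eq_left h]
    obtain ⟨r, rfl⟩ := Nat.exists_eq_add_of_le h
    unfold lp
    rw [pow_add, ← mul_assoc, mul_assoc _ (2 ^ n) (2 ^ r), mul_comm (2 ^ n) (2 ^ r), ← mul_assoc,
      Nat.mul_div_cancel _ (by positivity)]

theorem EM_succ (L k : ℕ) (x y : Fin (2 ^ L)) : EM L (k + 1) x y =
    if (x : ℕ) / 2 ^ (L - k) = (y : ℕ) / 2 ^ (L - k) then 1 / (2 : ℝ) ^ (L - k) else 0 := rfl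

theorem IM_succ (L k : ℕ) (x y : Fin (2 ^ L)) : IM L (k + 1) x y =
    if (y : ℕ) = lp (L - k) x then 1 else 0 := rfl

theorem EM_nonneg (L k : ℕ) (x y : Fin (2 ^ L)) : 0 ≤ EM L k x y := by
  cases k with
  | zero => exact le_rfl
  | succ k =>
    rw [EM_succ]
    split_ifs
    · positivity
    · exact le_rfl

theorem EM_symm (L k : ℕ) (x y : Fin (2 ^ L)) : EM L k x y = EM L k y x := by
  cases k with
  | zero => rfl
  | succ k =>
    rw [EM_succ, EM_succ]
    simp only [eq_comm]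

theorem EM_col (L k : ℕ) (y : Fin (2 ^ L)) : ∑ x, EM L (k + 1) x y = 1 := by
  simp only [EM_succ]
  rw [← sum_filter, sum_const, card_cell L (L - k) (Nat.sub_le _ _) y, nsmul_eq_mul]
  push_cast
  field_simp

theorem EM_row (L k : ℕ) (x : Fin (2 ^ L)) : ∑ y, EM L (k + 1) x y = 1 := by
  rw [← EM_col L k x]
  exact sum_congr rfl fun y _ => EM_symm _ _ _ _

theorem IM_sum (L k : ℕ) (x : Fin (2 ^ L)) (f : Fin (2 ^ L) → ℝ) :
    ∑ y, IM L (k + 1) x y * f y = f ⟨lp (L - k) x, (lp_le _ _).trans_lt x.2⟩ := by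
  rw [sum_eq_single ⟨lp (L - k) x, (lp_le _ _).trans_lt x.2⟩]
  · rw [IM_succ, if_pos rfl, one_mul]
  · intro b _ hb
    rw [IM_succ, if_neg, zero_mul]
    intro h
    exact hb (Fin.ext h)
  · intro h
    exact absurd (mem_univ _) h

theorem EM_mul_le (L k l : ℕ) (h : k ≤ l) : EM L (k + 1) * EM L (l + 1) = EM L (k + 1) := by
  ext x y
  rw [Matrix.mul_apply]
  have : ∀ z, EM L (k + 1) x z * EM L (l + 1) z y = EM L (k + 1) x y * EM L (l + 1) z y := by
    intro z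
    rw [EM_succ L l]
    split_ifs with h1
    · congr 1
      rw [EM_succ, EM_succ, div_eq_of_div_eq (Nat.sub_le_sub_left h L) h1]
    · rw [mul_zero, mul_zero]
  simp only [this]
  rw [← mul_sum, EM_col, mul_one]

theorem EM_transpose (L k : ℕ) : (EM L k)ᵀ = EM L k := by
  ext x y
  rw [Matrix.transpose_apply, EM_symm]

theorem EM_mul (L a c : ℕ) : EM L a * EM L c = EM L (min a c) := by
  cases a with
  | zero => rw [Nat.zero_min]; exact Matrix.zero_mul _
  | succ k =>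
    cases c with
    | zero => rw [Nat.min_zero]; exact Matrix.mul_zero _
    | succ l =>
      rcases le_total k l with h | h
      · rw [min_eq_left (by omega)]
        exact EM_mul_le L k l h
      · rw [min_eq_right (by omega)]
        have := congrArg Matrix.transpose (EM_mul_le L l k h)
        rwa [Matrix.transpose_mul, EM_transpose, EM_transpose] at this

theorem IM_mul (L a c : ℕ) : IM L a * IM L c = IM L (min a c) := by
  cases a with
  | zero => rw [Nat.zero_min]; exact Matrix.zero_mul _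
  | succ k =>
    cases c with
    | zero => rw [Nat.min_zero]; exact Matrix.mul_zero _
    | succ l =>
      ext x y
      rw [Matrix.mul_apply, IM_sum L k x (fun z => IM L (l + 1) z y), Nat.add_min_add_right,
        IM_succ, IM_succ]
      dsimp only
      rw [lp_lp, show max (L - k) (L - l) = L - min k l by omega]

theorem EM_IM (L a c : ℕ) (h : c ≤ a) : EM L a * IM L c = IM L c := by
  cases c with
  | zero => exact Matrix.mul_zero _
  | succ l =>
    obtain ⟨k, rfl⟩ : ∃ k, a = k + 1 := ⟨a - 1, by omega⟩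
    ext x y
    rw [Matrix.mul_apply]
    have : ∀ z, EM L (k + 1) x z * IM L (l + 1) z y = EM L (k + 1) x z * IM L (l + 1) x y := by
      intro z
      rw [EM_succ]
      split_ifs with h1
      · congr 1
        rw [IM_succ, IM_succ]
        unfold lp
        rw [div_eq_of_div_eq (show L - k ≤ L - l by omega) h1]
      · rw [zero_mul, zero_mul]
    simp only [this]
    rw [← sum_mul, EM_row, one_mul]

theorem one_of_large (L k : ℕ) (h : L + 1 ≤ k) : EM L k = 1 ∧ IM L k = 1 := by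
  obtain ⟨k, rfl⟩ : ∃ m, k = m + 1 := ⟨k - 1, by omega⟩
  have h0 : L - k = 0 := by omega
  constructor
  · ext x y
    rw [EM_succ, h0, pow_zero, Nat.div_one, Nat.div_one, Matrix.one_apply]
    simp [Fin.ext_iff]
  · ext x y
    rw [IM_succ, h0, Matrix.one_apply]
    unfold lp
    rw [pow_zero, Nat.div_one, mul_one]
    simp only [Fin.ext_iff, eq_comm]

end OPSM

open OPSM in
theorem specOPS : SpecOPS := by
  intro L
  refine ⟨EM_mul L, IM_mul L, EM_IM L, one_of_large L, fun k x y => ⟨EM_nonneg L k x y,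
    EM_symm L k x y⟩, fun k x => ?_, fun k y => ?_, fun k x => ?_⟩
  · simp only [abs_of_nonneg (EM_nonneg L k x _)]
    cases k with
    | zero => simp [EM]
    | succ k => exact (EM_row L k x).le
  · simp only [abs_of_nonneg (EM_nonneg L k _ y)]
    cases k with
    | zero => simp [EM]
    | succ k => exact (EM_col L k y).le
  · cases k with
    | zero => simp [IM]
    | succ k =>
      have h1 : ∀ y, |IM L (k + 1) x y| = IM L (k + 1) x y * 1 := by
        intro y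
        rw [IM_succ, mul_one]
        split_ifs <;> simp
      simp only [h1]
      rw [IM_sum L k x (fun _ => 1)]

end Pool.Agent.MP_bc5265.R2
end

section
/-! Region `R_2`, module BDG: square function inequality for vector valued martingale
differences. -/
set_option autoImplicit false

open MeasureTheory Finset Matrix
open scoped ENNReal

namespace Pool.Agent.MP_bc5265.R2

open Pool.Agent.MP_bc5265.S

namespace BDGM

open OPSM

variable {J : Type} [Fintype J]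

/-- square of the Euclidean norm -/
def nn (v : J → ℝ) : ℝ := ∑ i, v i ^ 2

theorem nn_nonneg (v : J → ℝ) : 0 ≤ nn v := sum_nonneg fun i _ => sq_nonneg (v i)

theorem cs (u v : J → ℝ) : |∑ i, u i * v i| ≤ √(nn u) * √(nn v) := by
  rw [← Real.sqrt_mul (nn_nonneg u)]
  exact Real.abs_le_sqrt (Finset.sum_mul_sq_le_sq_mul_sq _ _ _)

theorem tri {Z : Type} [Fintype Z] (w : Z → ℝ) (hw : ∀ z, 0 ≤ w z) (f : Z → J → ℝ) :
    √(nn fun i => ∑ z, w z * f z i) ≤ ∑ z, w z * √(nn (f z)) := by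
  have h1 : ∀ v : J → ℝ, √(nn v) = ‖(WithLp.toLp 2 v : EuclideanSpace ℝ J)‖ := by
    intro v
    rw [EuclideanSpace.norm_eq]
    simp [nn, sq_abs]
  rw [h1]
  have h2 : (WithLp.toLp 2 (fun i => ∑ z, w z * f z i) : EuclideanSpace ℝ J) =
      ∑ z, w z • (WithLp.toLp 2 (f z) : EuclideanSpace ℝ J) := by
    ext i
    simp
  rw [h2]
  refine (norm_sum_le _ _).trans (sum_le_sum fun z _ => ?_)
  rw [norm_smul, Real.norm_of_nonneg (hw z), h1]

theorem sqrt_rpow {a : ℝ} (ha : 0 ≤ a) (Q : ℝ) : √a ^ Q = a ^ (Q / 2) := by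
  rw [Real.sqrt_eq_rpow, ← Real.rpow_mul ha]
  congr 1
  ring

/-- constant on the cells -/
theorem const_cells {L k : ℕ} {f : Fin (2 ^ L) → ℝ} (hf : EM L (k + 1) *ᵥ f = f)
    {x y : Fin (2 ^ L)} (h : (x : ℕ) / 2 ^ (L - k) = (y : ℕ) / 2 ^ (L - k)) : f x = f y := by
  have h1 : ∀ z, f z = ∑ t, EM L (k + 1) z t * f t := by
    intro z
    conv_lhs => rw [← hf]
    rfl
  rw [h1 x, h1 y]
  refine sum_congr rfl fun t _ => ?_
  rw [EM_succ, EM_succ, h]

theorem em_of_const {L k : ℕ} {f : Fin (2 ^ L) → ℝ}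
    (hf : ∀ x y : Fin (2 ^ L), (x : ℕ) / 2 ^ (L - k) = (y : ℕ) / 2 ^ (L - k) → f x = f y) :
    EM L (k + 1) *ᵥ f = f := by
  ext x
  have h1 : (EM L (k + 1) *ᵥ f) x = ∑ t, EM L (k + 1) x t * f t := rfl
  rw [h1]
  have h2 : ∀ t, EM L (k + 1) x t * f t = EM L (k + 1) x t * f x := by
    intro t
    rw [EM_succ]
    split_ifs with h
    · rw [hf x t h]
    · rw [zero_mul, zero_mul]
  simp only [h2]
  rw [← sum_mul, EM_row, one_mul]

theorem em_symm_sum {L m : ℕ} (f g : Fin (2 ^ L) → ℝ) :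
    ∑ x, (EM L m *ᵥ f) x * g x = ∑ x, f x * (EM L m *ᵥ g) x := by
  have h1 : ∀ (f : Fin (2 ^ L) → ℝ) x, (EM L m *ᵥ f) x = ∑ t, EM L m x t * f t := fun _ _ => rfl
  simp only [h1, sum_mul, mul_sum]
  rw [sum_comm]
  refine sum_congr rfl fun x _ => sum_congr rfl fun y _ => ?_
  rw [EM_symm L m y x]
  ring

section main

variable {L : ℕ} {D : ℕ → Fin (2 ^ L) → J → ℝ}

/-- partial sums -/
def ps (D : ℕ → Fin (2 ^ L) → J → ℝ) (m : ℕ) (x : Fin (2 ^ L)) (i : J) : ℝ :=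
  ∑ k ∈ range m, D k x i

theorem em_D (hD : ∀ k i, (EM L (k + 1) - EM L k) *ᵥ (fun x => D k x i) = fun x => D k x i)
    (m k : ℕ) (i : J) :
    EM L m *ᵥ (fun x => D k x i) = if k < m then (fun x => D k x i) else 0 := by
  have h1 : EM L m *ᵥ (fun x => D k x i) =
      (EM L (min m (k + 1)) - EM L (min m k)) *ᵥ (fun x => D k x i) := by
    rw [← EM_mul, ← EM_mul, ← Matrix.mul_sub, ← Matrix.mulVec_mulVec, hD k i]
  rw [h1]
  split_ifs with h
  · rw [min_eq_right (by omega), min_eq_right (by omega), hD k i]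
  · rw [min_eq_left (by omega), min_eq_left (by omega), sub_self, Matrix.zero_mulVec]

theorem em_ps (hD : ∀ k i, (EM L (k + 1) - EM L k) *ᵥ (fun x => D k x i) = fun x => D k x i)
    {m n : ℕ} (h : m ≤ n) (i : J) :
    EM L m *ᵥ (fun x => ps D n x i) = fun x => ps D m x i := by
  ext x
  have h1 : (EM L m *ᵥ (fun x => ps D n x i)) x =
      ∑ k ∈ range n, (EM L m *ᵥ fun x => D k x i) x := by
    unfold ps
    simp only [Matrix.mulVec, dotProduct, mul_sum]
    rw [sum_comm]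
  rw [h1]
  have h2 : ∀ k ∈ range n, (EM L m *ᵥ fun x => D k x i) x = if k < m then D k x i else 0 := by
    intro k _
    rw [em_D hD]
    split_ifs <;> rfl
  rw [sum_congr rfl h2, ← sum_filter]
  unfold ps
  congr 1
  ext k
  simp only [mem_filter, mem_range]
  omega

theorem orth (hD : ∀ k i, (EM L (k + 1) - EM L k) *ᵥ (fun x => D k x i) = fun x => D k x i)
    (φ : (J → ℝ) → ℝ) (m : ℕ) :
    ∑ x, φ (ps D m x) * ∑ i, ps D m x i * D m x i = 0 := by
  rcases m with _ | k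
  · refine sum_eq_zero fun x _ => ?_
    simp [ps]
  simp only [mul_sum]
  rw [sum_comm]
  refine sum_eq_zero fun i _ => ?_
  have hc : ∀ i, ∀ x y : Fin (2 ^ L), (x : ℕ) / 2 ^ (L - k) = (y : ℕ) / 2 ^ (L - k) →
      ps D (k + 1) x i = ps D (k + 1) y i := fun i x y h =>
    const_cells (em_ps hD le_rfl i) h
  have hc' : ∀ x y : Fin (2 ^ L), (x : ℕ) / 2 ^ (L - k) = (y : ℕ) / 2 ^ (L - k) →
      φ (ps D (k + 1) x) * ps D (k + 1) x i = φ (ps D (k + 1) y) * ps D (k + 1) y i := by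
    intro x y h
    rw [show ps D (k + 1) x = ps D (k + 1) y from funext fun i => hc i x y h]
  have h1 := em_of_const hc'
  have h2 : ∑ x, φ (ps D (k + 1) x) * (ps D (k + 1) x i * D (k + 1) x i) =
      ∑ x, (EM L (k + 1) *ᵥ (fun x => φ (ps D (k + 1) x) * ps D (k + 1) x i)) x *
        D (k + 1) x i := by
    refine sum_congr rfl fun x _ => ?_
    rw [h1]
    ring
  rw [h2, em_symm_sum, em_D hD, if_neg (lt_irrefl _)]
  simp

theorem nn_succ (m : ℕ) (x : Fin (2 ^ L)) :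
    nn (ps D (m + 1) x) = nn (ps D m x) + 2 * (∑ i, ps D m x i * D m x i) + nn (D m x) := by
  unfold nn ps
  rw [mul_sum, ← sum_add_distrib, ← sum_add_distrib]
  refine sum_congr rfl fun i _ => ?_
  rw [sum_range_succ]
  ring

theorem step (hD : ∀ k i, (EM L (k + 1) - EM L k) *ᵥ (fun x => D k x i) = fun x => D k x i)
    {Q C : ℝ}
    (hP : ∀ a b s : ℝ, 0 ≤ a → 0 ≤ b → |s| ≤ a * b → (a ^ 2 + 2 * s + b ^ 2) ^ (Q / 2) ≤
      a ^ Q + Q * a ^ (Q - 2) * s + C * (a ^ (Q - 2) * b ^ 2 + b ^ Q)) (m : ℕ) :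
    ∑ x, nn (ps D (m + 1) x) ^ (Q / 2) ≤ ∑ x, nn (ps D m x) ^ (Q / 2) +
      C * ∑ x, (√(nn (ps D m x)) ^ (Q - 2) * nn (D m x) + nn (D m x) ^ (Q / 2)) := by
  have h1 : ∀ x, nn (ps D (m + 1) x) ^ (Q / 2) ≤ nn (ps D m x) ^ (Q / 2) +
      Q * (√(nn (ps D m x)) ^ (Q - 2) * ∑ i, ps D m x i * D m x i) +
      C * (√(nn (ps D m x)) ^ (Q - 2) * nn (D m x) + nn (D m x) ^ (Q / 2)) := by
    intro x
    have h2 := hP (√(nn (ps D m x))) (√(nn (D m x))) (∑ i, ps D m x i * D m x i)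
      (Real.sqrt_nonneg _) (Real.sqrt_nonneg _) (cs _ _)
    rw [Real.sq_sqrt (nn_nonneg _), Real.sq_sqrt (nn_nonneg _), ← nn_succ,
      sqrt_rpow (nn_nonneg _) Q, sqrt_rpow (nn_nonneg _) Q] at h2
    linarith
  refine (sum_le_sum fun x _ => h1 x).trans (le_of_eq ?_)
  rw [sum_add_distrib, sum_add_distrib, ← mul_sum, ← mul_sum,
    orth hD (fun v => √(nn v) ^ (Q - 2)) m]
  ring

theorem total (hD : ∀ k i, (EM L (k + 1) - EM L k) *ᵥ (fun x => D k x i) = fun x => D k x i)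
    {Q C : ℝ} (hQ : 2 < Q)
    (hP : ∀ a b s : ℝ, 0 ≤ a → 0 ≤ b → |s| ≤ a * b → (a ^ 2 + 2 * s + b ^ 2) ^ (Q / 2) ≤
      a ^ Q + Q * a ^ (Q - 2) * s + C * (a ^ (Q - 2) * b ^ 2 + b ^ Q)) (m : ℕ) :
    ∑ x, nn (ps D m x) ^ (Q / 2) ≤
      C * ∑ x, ∑ k ∈ range m,
        (√(nn (ps D k x)) ^ (Q - 2) * nn (D k x) + nn (D k x) ^ (Q / 2)) := by
  induction m with
  | zero =>
    have h1 : ∀ x : Fin (2 ^ L), nn (ps D 0 x) = 0 := by
      intro x
      simp [nn, ps]
    simp only [h1, range_zero, sum_empty, sum_const_zero, mul_zero]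
    rw [Real.zero_rpow (by linarith : Q / 2 ≠ 0)]
    simp
  | succ m ih =>
    refine (step hD hP m).trans ?_
    simp only [sum_range_succ]
    rw [sum_add_distrib (f := fun x => ∑ k ∈ range m,
        (√(nn (ps D k x)) ^ (Q - 2) * nn (D k x) + nn (D k x) ^ (Q / 2))), mul_add]
    linarith

theorem le_MX (hD : ∀ k i, (EM L (k + 1) - EM L k) *ᵥ (fun x => D k x i) = fun x => D k x i)
    {m : ℕ} (hm : m ≤ L + 1) (x : Fin (2 ^ L)) :
    √(nn (ps D m x)) ≤ MX (fun z => √(nn (ps D (L + 1) z))) x := by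
  have h1 : ps D m x = fun i => ∑ z, EM L m x z * ps D (L + 1) z i := by
    ext i
    have := congrFun (em_ps hD hm i) x
    rw [← this]
    rfl
  have h2 : √(nn (ps D m x)) ≤ (EM L m *ᵥ fun z => √(nn (ps D (L + 1) z))) x := by
    conv_lhs => rw [h1]
    exact tri (fun z => EM L m x z) (fun z => EM_nonneg L m x z) _
  refine h2.trans ((le_abs_self _).trans ?_)
  unfold MX
  exact le_sup' (fun k => |(EM L k *ᵥ fun z => √(nn (ps D (L + 1) z))) x|)
    (mem_range.mpr (by omega : m < L + 2))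

end main

theorem young {G T ε Q : ℝ} (hG : 0 ≤ G) (hT : 0 ≤ T) (hε : 0 < ε) (hQ : 2 < Q) :
    G ^ (Q - 2) * T ≤ ε * G ^ Q + (ε⁻¹) ^ (Q / 2 - 1) * T ^ (Q / 2) := by
  have e1 : G ^ Q = G ^ (Q - 2) * G ^ 2 := by
    rw [← Real.rpow_natCast G 2, ← Real.rpow_add' hG (by push_cast; linarith)]
    congr 1
    push_cast
    ring
  have e2 : T ^ (Q / 2) = T ^ (Q / 2 - 1) * T := by
    rw [← Real.rpow_add_one' hT (by linarith)]
    congr 1
    ring
  have n1 : 0 ≤ G ^ (Q - 2) := Real.rpow_nonneg hG _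
  have n2 : 0 ≤ (ε⁻¹) ^ (Q / 2 - 1) := Real.rpow_nonneg (inv_nonneg.mpr hε.le) _
  have n3 : 0 ≤ T ^ (Q / 2) := Real.rpow_nonneg hT _
  have n4 : 0 ≤ G ^ Q := Real.rpow_nonneg hG _
  rcases le_total T (ε * G ^ 2) with h | h
  · have h1 : G ^ (Q - 2) * T ≤ G ^ (Q - 2) * (ε * G ^ 2) := mul_le_mul_of_nonneg_left h n1
    have h2 : G ^ (Q - 2) * (ε * G ^ 2) = ε * G ^ Q := by
      rw [e1]
      ring
    have h3 : 0 ≤ (ε⁻¹) ^ (Q / 2 - 1) * T ^ (Q / 2) := mul_nonneg n2 n3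
    linarith
  · have h1 : G ^ 2 ≤ ε⁻¹ * T := by
      rw [inv_mul_eq_div, le_div_iff₀ hε]
      linarith
    have h2 : G ^ (Q - 2) = (G ^ 2) ^ (Q / 2 - 1) := by
      rw [← Real.rpow_natCast G 2, ← Real.rpow_mul hG]
      congr 1
      push_cast
      ring
    have h3 : G ^ (Q - 2) ≤ (ε⁻¹) ^ (Q / 2 - 1) * T ^ (Q / 2 - 1) := by
      rw [h2, ← Real.mul_rpow (inv_nonneg.mpr hε.le) hT]
      exact Real.rpow_le_rpow (sq_nonneg _) h1 (by linarith)
    have h4 : G ^ (Q - 2) * T ≤ (ε⁻¹) ^ (Q / 2 - 1) * T ^ (Q / 2) := by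
      rw [e2, ← mul_assoc]
      exact mul_le_mul_of_nonneg_right h3 hT
    have h5 : 0 ≤ ε * G ^ Q := mul_nonneg hε.le n4
    linarith

theorem sum_pow {K : Finset ℕ} {a : ℕ → ℝ} (ha : ∀ k, 0 ≤ a k) {Q : ℝ} (hQ : 2 < Q) :
    ∑ k ∈ K, a k ^ (Q / 2) ≤ (∑ k ∈ K, a k) ^ (Q / 2) := by
  have h0 : 0 ≤ ∑ k ∈ K, a k := sum_nonneg fun k _ => ha k
  have e2 : ∀ T : ℝ, 0 ≤ T → T ^ (Q / 2) = T ^ (Q / 2 - 1) * T := by
    intro T hT
    rw [← Real.rpow_add_one' hT (by linarith)]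
    congr 1
    ring
  rw [e2 _ h0, mul_sum]
  refine sum_le_sum fun k hk => ?_
  rw [e2 _ (ha k)]
  refine mul_le_mul_of_nonneg_right ?_ (ha k)
  exact Real.rpow_le_rpow (ha k) (single_le_sum (fun k _ => ha k) hk) (by linarith)

end BDGM

open BDGM in
theorem specBDG (hPHQ : SpecPHQ) (hDOO : SpecDOO) : SpecBDG := by
  intro Q hQ
  obtain ⟨C1, hC1, hP⟩ := hPHQ Q hQ.le
  obtain ⟨C2, hC2, hM⟩ := hDOO Q (by linarith)
  set ε : ℝ := 1 / (2 * C1 * C2) with hε
  have hε0 : 0 < ε := by positivity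
  set K : ℝ := (ε⁻¹) ^ (Q / 2 - 1) with hK
  have hK0 : 0 ≤ K := Real.rpow_nonneg (inv_nonneg.mpr hε0.le) _
  refine ⟨2 * C1 * (K + 1), by positivity, ?_⟩
  intro L J _ D hD
  set G : Fin (2 ^ L) → ℝ := MX (fun z => √(nn (ps D (L + 1) z))) with hG
  have hG0 : ∀ x, 0 ≤ G x := fun x => (Real.sqrt_nonneg _).trans (le_MX hD (le_refl (L + 1)) x)
  set T : Fin (2 ^ L) → ℝ := fun x => ∑ k ∈ range (L + 1), nn (D k x) with hT
  have hT0 : ∀ x, 0 ≤ T x := fun x => sum_nonneg fun k _ => nn_nonneg _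
  set X : ℝ := ∑ x, nn (ps D (L + 1) x) ^ (Q / 2) with hX
  set Y : ℝ := ∑ x, T x ^ (Q / 2) with hY
  change X ≤ 2 * C1 * (K + 1) * Y
  have hY0 : 0 ≤ Y := sum_nonneg fun x _ => Real.rpow_nonneg (hT0 x) _
  have h1 : X ≤ C1 * ∑ x, (G x ^ (Q - 2) * T x + T x ^ (Q / 2)) := by
    refine (total hD hQ hP (L + 1)).trans (mul_le_mul_of_nonneg_left ?_ hC1.le)
    refine sum_le_sum fun x _ => ?_
    rw [sum_add_distrib]
    refine add_le_add ?_ (sum_pow (fun k => nn_nonneg (D k x)) hQ)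
    rw [hT, mul_sum]
    refine sum_le_sum fun k hk => mul_le_mul_of_nonneg_right ?_ (nn_nonneg _)
    exact Real.rpow_le_rpow (Real.sqrt_nonneg _)
      (le_MX hD (by have := mem_range.mp hk; omega) x) (by linarith)
  have h2 : ∑ x, G x ^ Q ≤ C2 * X := by
    have h3 := hM L (fun z => √(nn (ps D (L + 1) z)))
    rw [← hG] at h3
    unfold mom at h3
    have hc : (0 : ℝ) < Fintype.card (Fin (2 ^ L)) := by
      rw [Fintype.card_fin]
      positivity
    rw [← mul_div_assoc, div_le_div_iff_of_pos_right hc] at h3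
    have e1 : ∀ x, |G x| ^ Q = G x ^ Q := fun x => by rw [abs_of_nonneg (hG0 x)]
    have e2 : ∀ x : Fin (2 ^ L), |√(nn (ps D (L + 1) x))| ^ Q = nn (ps D (L + 1) x) ^ (Q / 2) :=
      fun x => by rw [abs_of_nonneg (Real.sqrt_nonneg _), sqrt_rpow (nn_nonneg _)]
    simpa only [e1, e2] using h3
  have h3 : ∑ x, (G x ^ (Q - 2) * T x + T x ^ (Q / 2)) ≤ ε * (C2 * X) + (K + 1) * Y := by
    have h4 : ∀ x, G x ^ (Q - 2) * T x + T x ^ (Q / 2) ≤
        ε * G x ^ Q + (K + 1) * T x ^ (Q / 2) := by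
      intro x
      have := young (hG0 x) (hT0 x) hε0 hQ
      rw [← hK] at this
      linarith
    refine (sum_le_sum fun x _ => h4 x).trans ?_
    rw [sum_add_distrib, ← mul_sum, ← mul_sum, ← hY]
    have := mul_le_mul_of_nonneg_left h2 hε0.le
    linarith
  have h5 : C1 * (ε * (C2 * X)) = X / 2 := by
    rw [hε]
    field_simp
  have h6 := mul_le_mul_of_nonneg_left h3 hC1.le
  rw [mul_add, h5] at h6
  nlinarith [h1, h6]

end Pool.Agent.MP_bc5265.R2
end

section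
/-!
# Region `R_2`, module BRN: sparse sums
-/
set_option linter.unusedSectionVars false

open MeasureTheory Finset Matrix
open scoped ENNReal

namespace Pool.Agent.MP_bc5265.R2

namespace BRNM

/-- indicator -/
noncomputable def nd0 {K : ℕ} (t : Fin K) : ℝ := if (t : ℕ) = 0 then 1 else 0

lemma nd0_sq {K : ℕ} (t : Fin K) : nd0 t * nd0 t = nd0 t := by
  unfold nd0; split_ifs <;> norm_num

lemma sum_nd0 (K : ℕ) (hK : 1 ≤ K) : ∑ t : Fin K, nd0 t = 1 := by
  unfold nd0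
  rw [Finset.sum_eq_single (⟨0, hK⟩ : Fin K)]
  · simp
  · intro t _ ht
    rw [if_neg]
    intro h
    exact ht (Fin.ext h)
  · intro h
    exact absurd (Finset.mem_univ _) h

lemma sum_prod {I : Type} [Fintype I] [DecidableEq I] (K : ℕ) (hK : 1 ≤ K) (A : Finset I) :
    ∑ ξ : I → Fin K, ∏ l ∈ A, nd0 (ξ l) = (K : ℝ) ^ Fintype.card I * (1 / (K : ℝ)) ^ A.card := by
  have hK0 : (K : ℝ) ≠ 0 := by positivity
  have h1 : ∀ ξ : I → Fin K, ∏ l ∈ A, nd0 (ξ l) =
      ∏ l, (if l ∈ A then nd0 (ξ l) else 1) := by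
    intro ξ
    rw [Finset.prod_ite_mem, Finset.univ_inter]
  simp_rw [h1]
  have h2 := Finset.prod_univ_sum (fun _ : I => (Finset.univ : Finset (Fin K)))
    (fun l t => if l ∈ A then nd0 t else (1 : ℝ))
  rw [Fintype.piFinset_univ] at h2
  rw [← h2]
  have h3 : ∀ l : I, ∑ t : Fin K, (if l ∈ A then nd0 t else (1 : ℝ)) =
      (K : ℝ) * (if l ∈ A then 1 / (K : ℝ) else 1) := by
    intro l
    split_ifs with h
    · rw [sum_nd0 K hK]; field_simp
    · simp
  simp_rw [h3]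
  rw [Finset.prod_mul_distrib, Finset.prod_const, Finset.card_univ, Finset.prod_ite_mem,
    Finset.univ_inter, Finset.prod_const]

lemma point (s M x : ℝ) (hs : 0 < s) (hs1 : s ≤ 1) (hM : 1 ≤ M) (hx : 0 ≤ x) :
    x / M - x ^ 2 / M ^ 2 ≤ x ^ s := by
  have hM0 : 0 < M := by linarith
  have hxs : 0 ≤ x ^ s := Real.rpow_nonneg hx _
  have e : x / M - x ^ 2 / M ^ 2 = (x / M) * (1 - x / M) := by field_simp
  rw [e]
  have hxM : 0 ≤ x / M := by positivity
  rcases le_or_gt M x with h | h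
  · have : 1 ≤ x / M := by rw [le_div_iff₀ hM0]; linarith
    nlinarith
  · have h1 : x / M ≤ 1 := by rw [div_le_iff₀ hM0]; linarith
    have h2 : (x / M) * (1 - x / M) ≤ x / M := by nlinarith
    refine h2.trans ?_
    rcases le_or_gt x 1 with h3 | h3
    · calc x / M ≤ x := div_le_self hx hM
        _ = x ^ (1 : ℝ) := (Real.rpow_one x).symm
        _ ≤ x ^ s := Real.rpow_le_rpow_of_exponent_ge' hx h3 hs.le hs1
    · exact h1.trans (Real.one_le_rpow h3.le hs.le)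

end BRNM

open BRNM in
theorem specBRN : SpecBRN := by
  intro s R I _ _ K Q hs hs1 hK hQ hsum hR
  set N : ℝ := (K : ℝ) ^ Fintype.card I with hN
  have hKr : (0 : ℝ) < K := by exact_mod_cast hK
  have hN0 : 0 < N := by positivity
  set X : (I → Fin K) → ℝ := fun ξ => ∑ i, if (ξ i : ℕ) = 0 then Q i else 0 with hX
  have hXe : ∀ ξ, X ξ = ∑ i, Q i * nd0 (ξ i) := by
    intro ξ
    simp only [hX]
    refine Finset.sum_congr rfl fun i _ => ?_
    unfold nd0
    split_ifs <;> simp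
  have hX0 : ∀ ξ, 0 ≤ X ξ := by
    intro ξ
    simp only [hX]
    refine Finset.sum_nonneg fun i _ => ?_
    split_ifs
    · exact (hQ i).1
    · exact le_rfl
  have hE1 : ∑ ξ, X ξ = N * R := by
    simp_rw [hXe]
    rw [Finset.sum_comm]
    have h1 : ∀ i, ∑ ξ : I → Fin K, Q i * nd0 (ξ i) = Q i * (N * (1 / K)) := by
      intro i
      rw [← Finset.mul_sum]
      have := sum_prod K hK ({i} : Finset I)
      simp only [Finset.prod_singleton, Finset.card_singleton, pow_one] at this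
      rw [this]
    simp_rw [h1]
    rw [← Finset.sum_mul, hsum]
    field_simp
  have hE2 : ∑ ξ, X ξ ^ 2 ≤ N * (R + R ^ 2) := by
    have h1 : ∀ ξ, X ξ ^ 2 = ∑ i, ∑ j, Q i * Q j * ∏ l ∈ ({i, j} : Finset I), nd0 (ξ l) := by
      intro ξ
      rw [hXe, sq, Finset.sum_mul_sum]
      refine Finset.sum_congr rfl fun i _ => Finset.sum_congr rfl fun j _ => ?_
      by_cases hij : i = j
      · subst hij
        rw [Finset.pair_eq_singleton, Finset.prod_singleton]
        calc Q i * nd0 (ξ i) * (Q i * nd0 (ξ i)) = Q i * Q i * (nd0 (ξ i) * nd0 (ξ i)) := by ring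
          _ = _ := by rw [nd0_sq]
      · rw [Finset.prod_pair hij]
        ring
    simp_rw [h1]
    rw [Finset.sum_comm]
    have h2 : ∀ i, ∑ ξ : I → Fin K, ∑ j, Q i * Q j * ∏ l ∈ ({i, j} : Finset I), nd0 (ξ l) =
        ∑ j, Q i * Q j * (N * (1 / (K : ℝ)) ^ ({i, j} : Finset I).card) := by
      intro i
      rw [Finset.sum_comm]
      refine Finset.sum_congr rfl fun j _ => ?_
      rw [← Finset.mul_sum, sum_prod K hK]
    simp_rw [h2]
    calc ∑ i, ∑ j, Q i * Q j * (N * (1 / (K : ℝ)) ^ ({i, j} : Finset I).card)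
        ≤ ∑ i, ∑ j, ((if i = j then N * (Q i / K) else 0) + N * (Q i * Q j * (1 / (K : ℝ)) ^ 2)) := by
          refine Finset.sum_le_sum fun i _ => Finset.sum_le_sum fun j _ => ?_
          obtain ⟨hi0, hi1⟩ := hQ i
          obtain ⟨hj0, hj1⟩ := hQ j
          by_cases hij : i = j
          · subst hij
            rw [Finset.pair_eq_singleton, Finset.card_singleton, pow_one, if_pos rfl]
            have h3 : Q i * Q i ≤ Q i := by nlinarith
            have h4 : Q i * Q i * (N * (1 / (K : ℝ))) ≤ Q i * (N * (1 / (K : ℝ))) :=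
              mul_le_mul_of_nonneg_right h3 (by positivity)
            have h5 : 0 ≤ N * (Q i * Q i * (1 / (K : ℝ)) ^ 2) := by positivity
            have h6 : Q i * (N * (1 / (K : ℝ))) = N * (Q i / K) := by ring
            linarith
          · rw [Finset.card_pair hij, if_neg hij]
            apply le_of_eq
            ring
      _ = N * ((∑ i, Q i) / K) + N * ((∑ i, Q i) * (∑ j, Q j) * (1 / (K : ℝ)) ^ 2) := by
          simp_rw [Finset.sum_add_distrib]
          congr 1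
          · simp only [Finset.sum_ite_eq, Finset.mem_univ, if_true]
            rw [← Finset.mul_sum, Finset.sum_div]
          · rw [Finset.sum_mul_sum, Finset.sum_mul, Finset.mul_sum]
            refine Finset.sum_congr rfl fun i _ => ?_
            rw [Finset.sum_mul, Finset.mul_sum]
      _ = N * (R + R ^ 2) := by
          rw [hsum]
          field_simp
  set M := 2 * (1 + R) with hM
  have hM1 : 1 ≤ M := by rw [hM]; linarith
  have hM0 : 0 < M := by linarith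
  calc N / 160 ≤ N * R / M - N * (R + R ^ 2) / M ^ 2 := by
        have h1 : N * R / M - N * (R + R ^ 2) / M ^ 2 = N * (R / (4 * (1 + R))) := by
          rw [hM]
          field_simp
          ring
        rw [h1, div_eq_mul_inv]
        apply mul_le_mul_of_nonneg_left _ hN0.le
        rw [le_div_iff₀ (by positivity)]
        linarith
    _ ≤ (∑ ξ, X ξ) / M - (∑ ξ, X ξ ^ 2) / M ^ 2 := by
        rw [hE1]
        have := div_le_div_of_nonneg_right hE2 (show 0 ≤ M ^ 2 by positivity)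
        linarith
    _ = ∑ ξ, (X ξ / M - X ξ ^ 2 / M ^ 2) := by
        rw [Finset.sum_sub_distrib, Finset.sum_div, Finset.sum_div]
    _ ≤ ∑ ξ, X ξ ^ s := Finset.sum_le_sum fun ξ _ => point s M (X ξ) hs hs1 hM1 (hX0 ξ)

end Pool.Agent.MP_bc5265.R2
end

section
/-!
# DOO: Doob's maximal inequality on the dyadic grid

Proof by the pathwise inequality: with `s k = EM L k *ᵥ |f|` and the running maximum `M k` one has
`((a-1)/a) ∑ M^a ≤ ∑ M^(a-1) s` for all `k` by induction, because `∑ M_k^(a-1) (s_(k+1) - s_k) = 0`.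
-/
set_option linter.unusedSectionVars false

open MeasureTheory Finset Matrix
open scoped ENNReal

namespace Pool.Agent.MP_bc5265.R2

open Pool.Agent.MP_bc5265.S Pool.Agent.MP_bc5265

noncomputable section

namespace DOOM

open OPSM

variable {L : ℕ}

/-- constant on the cells of level `k` of `EM` (the zero function for `k = 0`) -/
def Cs (L : ℕ) : ℕ → (Fin (2 ^ L) → ℝ) → Prop
  | 0, φ => ∀ x, φ x = 0
  | k + 1, φ => ∀ x y : Fin (2 ^ L), (x : ℕ) / 2 ^ (L - k) = (y : ℕ) / 2 ^ (L - k) → φ x = φ y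

lemma Cs_fix (k : ℕ) (φ : Fin (2 ^ L) → ℝ) (h : Cs L k φ) : EM L k *ᵥ φ = φ := by
  cases k with
  | zero =>
    funext x
    simp only [Cs] at h
    simp [EM, h]
  | succ k =>
    funext x
    simp only [Cs] at h
    have h1 : (EM L (k + 1) *ᵥ φ) x = ∑ y, EM L (k + 1) x y * φ y := rfl
    have h2 : ∀ y, EM L (k + 1) x y * φ y = EM L (k + 1) x y * φ x := by
      intro y
      rw [EM_succ]
      split_ifs with hxy
      · rw [h x y hxy]
      · simp
    rw [h1, sum_congr rfl fun y _ => h2 y, ← sum_mul, EM_row, one_mul]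

lemma Cs_succ (k : ℕ) (φ : Fin (2 ^ L) → ℝ) (h : Cs L k φ) : Cs L (k + 1) φ := by
  cases k with
  | zero =>
    intro x y _
    simp only [Cs] at h
    rw [h x, h y]
  | succ k =>
    intro x y hxy
    exact h x y (div_eq_of_div_eq (by omega) hxy)

lemma Cs_EM (k : ℕ) (g : Fin (2 ^ L) → ℝ) : Cs L k (EM L k *ᵥ g) := by
  cases k with
  | zero => intro x; simp [EM]
  | succ k =>
    intro x y hxy
    have h1 : ∀ z, (EM L (k + 1) *ᵥ g) z = ∑ w, EM L (k + 1) z w * g w := fun z => rfl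
    rw [h1, h1]
    refine sum_congr rfl fun w _ => ?_
    rw [EM_succ, EM_succ, hxy]

lemma sum_EM_mul (k : ℕ) (f h : Fin (2 ^ L) → ℝ) :
    ∑ x, (EM L k *ᵥ f) x * h x = ∑ x, f x * (EM L k *ᵥ h) x := by
  have h1 : ∀ (g : Fin (2 ^ L) → ℝ) z, (EM L k *ᵥ g) z = ∑ w, EM L k z w * g w := fun g z => rfl
  simp only [h1, sum_mul, mul_sum]
  rw [sum_comm]
  refine sum_congr rfl fun x _ => sum_congr rfl fun y _ => ?_
  rw [EM_symm L k y x]
  ring

lemma EM_mono (k : ℕ) {f h : Fin (2 ^ L) → ℝ} (hfh : ∀ x, f x ≤ h x) (x : Fin (2 ^ L)) :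
    (EM L k *ᵥ f) x ≤ (EM L k *ᵥ h) x := by
  have h1 : ∀ (g : Fin (2 ^ L) → ℝ) z, (EM L k *ᵥ g) z = ∑ w, EM L k z w * g w := fun g z => rfl
  rw [h1, h1]
  exact sum_le_sum fun y _ => mul_le_mul_of_nonneg_left (hfh y) (EM_nonneg L k x y)

lemma EM_nn (k : ℕ) {f : Fin (2 ^ L) → ℝ} (hf : ∀ x, 0 ≤ f x) (x : Fin (2 ^ L)) :
    0 ≤ (EM L k *ᵥ f) x := by
  have h1 : (EM L k *ᵥ f) x = ∑ w, EM L k x w * f w := rfl
  rw [h1]
  exact sum_nonneg fun y _ => mul_nonneg (EM_nonneg L k x y) (hf y)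

lemma abs_EM_le (k : ℕ) (f : Fin (2 ^ L) → ℝ) (x : Fin (2 ^ L)) :
    |(EM L k *ᵥ f) x| ≤ (EM L k *ᵥ fun y => |f y|) x := by
  have h1 : ∀ (g : Fin (2 ^ L) → ℝ) z, (EM L k *ᵥ g) z = ∑ w, EM L k z w * g w := fun g z => rfl
  rw [h1, h1]
  refine (abs_sum_le_sum_abs _ _).trans (le_of_eq ?_)
  refine sum_congr rfl fun y _ => ?_
  rw [abs_mul, abs_of_nonneg (EM_nonneg L k x y)]

/-- running maximum -/
def RM (g : Fin (2 ^ L) → ℝ) : ℕ → Fin (2 ^ L) → ℝ
  | 0, _ => 0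
  | k + 1, x => max (RM g k x) ((EM L (k + 1) *ᵥ g) x)

lemma RM_nonneg (g : Fin (2 ^ L) → ℝ) (k : ℕ) (x : Fin (2 ^ L)) : 0 ≤ RM g k x := by
  induction k with
  | zero => exact le_rfl
  | succ k ih => exact ih.trans (le_max_left _ _)

lemma RM_mono (g : Fin (2 ^ L) → ℝ) (x : Fin (2 ^ L)) : Monotone fun k => RM g k x :=
  monotone_nat_of_le_succ fun _ => le_max_left _ _

lemma le_RM (g : Fin (2 ^ L) → ℝ) (k : ℕ) (x : Fin (2 ^ L)) : (EM L k *ᵥ g) x ≤ RM g k x := by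
  cases k with
  | zero => simp [EM, RM]
  | succ k => exact le_max_right _ _

lemma Cs_RM (g : Fin (2 ^ L) → ℝ) (k : ℕ) : Cs L k (RM g k) := by
  induction k with
  | zero => intro x; rfl
  | succ k ih =>
    have h1 := Cs_succ k _ ih
    have h2 := Cs_EM (L := L) (k + 1) g
    intro x y hxy
    simp only [RM]
    rw [h1 x y hxy, h2 x y hxy]

lemma pointwise (a M s : ℝ) (ha : 1 < a) (hM : 0 ≤ M) (hs : 0 ≤ s) :
    (a - 1) / a * (max M s ^ a - M ^ a) ≤ (max M s ^ (a - 1) - M ^ (a - 1)) * s := by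
  rcases le_total s M with h | h
  · rw [max_eq_left h]
    simp
  · rw [max_eq_right h]
    have ha0 : 0 < a := by linarith
    have hc : a.HolderConjugate (a / (a - 1)) := by
      have := Real.HolderConjugate.conjExponent ha
      simpa [Real.conjExponent] using this
    have hy := Real.young_inequality_of_nonneg hs (Real.rpow_nonneg hM (a - 1)) hc
    have h1 : (M ^ (a - 1)) ^ (a / (a - 1)) = M ^ a := by
      rw [← Real.rpow_mul hM]
      congr 1
      have : a - 1 ≠ 0 := by linarith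
      field_simp
    have h2 : s ^ (a - 1) * s = s ^ a := by
      rcases hs.eq_or_lt with h0 | h0
      · rw [← h0, mul_zero, Real.zero_rpow ha0.ne']
      · nth_rewrite 2 [← Real.rpow_one s]
        rw [← Real.rpow_add h0]
        congr 1
        ring
    rw [h1] at hy
    have h3 : M ^ a / (a / (a - 1)) = (a - 1) / a * M ^ a := by
      have : a - 1 ≠ 0 := by linarith
      field_simp
    rw [h3] at hy
    have h4 : (s ^ (a - 1) - M ^ (a - 1)) * s = s ^ a - s * M ^ (a - 1) := by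
      rw [sub_mul, h2]; ring
    rw [h4]
    have h5 : (a - 1) / a * (s ^ a - M ^ a) = s ^ a - s ^ a / a - (a - 1) / a * M ^ a := by
      field_simp
    rw [h5]
    linarith

lemma main_ineq (a : ℝ) (ha : 1 < a) (g : Fin (2 ^ L) → ℝ) (hg : ∀ x, 0 ≤ g x) (k : ℕ) :
    (a - 1) / a * ∑ x, RM g k x ^ a ≤ ∑ x, RM g k x ^ (a - 1) * (EM L k *ᵥ g) x := by
  induction k with
  | zero =>
    have h1 : ∀ x : Fin (2 ^ L), RM g 0 x = 0 := fun x => rfl
    simp only [h1]
    rw [Real.zero_rpow (by linarith : a ≠ 0), Real.zero_rpow (by linarith : a - 1 ≠ 0)]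
    simp
  | succ k ih =>
    have hmart : ∑ x, RM g k x ^ (a - 1) * (EM L (k + 1) *ᵥ g) x =
        ∑ x, RM g k x ^ (a - 1) * (EM L k *ᵥ g) x := by
      have hC : Cs L k fun x => RM g k x ^ (a - 1) := by
        have h1 := Cs_RM g k
        cases k with
        | zero =>
          intro x
          have : RM g 0 x = 0 := rfl
          simp only [this]
          rw [Real.zero_rpow (by linarith : a - 1 ≠ 0)]
        | succ k =>
          intro x y hxy
          simp only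
          rw [h1 x y hxy]
      have e1 : ∀ j, ∑ x, RM g k x ^ (a - 1) * (EM L j *ᵥ g) x =
          ∑ x, g x * (EM L j *ᵥ fun x => RM g k x ^ (a - 1)) x := by
        intro j
        rw [← sum_EM_mul]
        refine sum_congr rfl fun x _ => ?_
        ring
      rw [e1, e1, Cs_fix k _ hC, Cs_fix (k + 1) _ (Cs_succ k _ hC)]
    have hp : ∀ x, (a - 1) / a * (RM g (k + 1) x ^ a - RM g k x ^ a) ≤
        (RM g (k + 1) x ^ (a - 1) - RM g k x ^ (a - 1)) * (EM L (k + 1) *ᵥ g) x := fun x =>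
      pointwise a (RM g k x) ((EM L (k + 1) *ᵥ g) x) ha (RM_nonneg g k x) (EM_nn (k + 1) hg x)
    have hs := sum_le_sum fun x (_ : x ∈ (univ : Finset (Fin (2 ^ L)))) => hp x
    rw [← mul_sum, sum_sub_distrib] at hs
    simp only [sub_mul] at hs
    rw [sum_sub_distrib, hmart] at hs
    linarith

lemma absorb (a c M g : ℝ) (ha : 1 < a) (hc : 0 < c) (hM : 0 ≤ M) (hg : 0 ≤ g) :
    M ^ (a - 1) * g ≤ c / 2 * M ^ a + (2 / c) ^ (a - 1) * g ^ a := by
  have key : ∀ t : ℝ, 0 ≤ t → t ^ (a - 1) * t = t ^ a := by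
    intro t ht
    rcases ht.eq_or_lt with h0 | h0
    · rw [← h0, mul_zero, Real.zero_rpow (by linarith : a ≠ 0)]
    · nth_rewrite 2 [← Real.rpow_one t]
      rw [← Real.rpow_add h0]
      congr 1
      ring
  have hMa : 0 ≤ M ^ a := Real.rpow_nonneg hM a
  have hga : 0 ≤ g ^ a := Real.rpow_nonneg hg a
  rcases le_total g (c / 2 * M) with h | h
  · calc M ^ (a - 1) * g ≤ M ^ (a - 1) * (c / 2 * M) := by
          have := Real.rpow_nonneg hM (a - 1)
          gcongr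
      _ = c / 2 * (M ^ (a - 1) * M) := by ring
      _ = c / 2 * M ^ a := by rw [key M hM]
      _ ≤ _ := by
          have : 0 ≤ (2 / c) ^ (a - 1) * g ^ a := by positivity
          linarith
  · have h1 : M ≤ 2 / c * g := by
      have : 2 / c * (c / 2 * M) ≤ 2 / c * g := by gcongr
      calc M = 2 / c * (c / 2 * M) := by field_simp
        _ ≤ _ := this
    calc M ^ (a - 1) * g ≤ (2 / c * g) ^ (a - 1) * g := by
          have := Real.rpow_le_rpow hM h1 (by linarith : 0 ≤ a - 1)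
          gcongr
      _ = (2 / c) ^ (a - 1) * (g ^ (a - 1) * g) := by
          rw [Real.mul_rpow (by positivity) hg]; ring
      _ = (2 / c) ^ (a - 1) * g ^ a := by rw [key g hg]
      _ ≤ _ := by
          have : 0 ≤ c / 2 * M ^ a := by positivity
          linarith

/-- the maximal inequality for sums -/
lemma doob (a : ℝ) (ha : 1 < a) (f : Fin (2 ^ L) → ℝ) :
    ∑ x, MX f x ^ a ≤
      (2 / ((a - 1) / a) * (2 / ((a - 1) / a)) ^ (a - 1)) * ∑ x, |f x| ^ a := by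
  set g : Fin (2 ^ L) → ℝ := fun y => |f y| with hg
  set c : ℝ := (a - 1) / a with hc
  have hc0 : 0 < c := div_pos (by linarith) (by linarith)
  have hg0 : ∀ x, 0 ≤ g x := fun x => abs_nonneg _
  have hMX0 : ∀ x, 0 ≤ MX f x := by
    intro x
    have h1 := Finset.le_sup' (fun k => |(EM L k *ᵥ f) x|) (show 0 ∈ range (L + 2) by simp)
    exact (abs_nonneg _).trans h1
  have hMX : ∀ x, MX f x ≤ RM g (L + 1) x := by
    intro x
    refine Finset.sup'_le _ _ fun k hk => ?_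
    have hk' : k ≤ L + 1 := by have := mem_range.1 hk; omega
    exact (abs_EM_le k f x).trans ((le_RM g k x).trans (RM_mono g x hk'))
  have h1 : ∑ x, MX f x ^ a ≤ ∑ x, RM g (L + 1) x ^ a :=
    sum_le_sum fun x _ => Real.rpow_le_rpow (hMX0 x) (hMX x) (by linarith)
  have h2 := main_ineq a ha g hg0 (L + 1)
  have h3 : EM L (L + 1) = 1 := (one_of_large L (L + 1) le_rfl).1
  rw [h3, Matrix.one_mulVec] at h2
  have h4 : ∑ x, RM g (L + 1) x ^ (a - 1) * g x ≤
      c / 2 * ∑ x, RM g (L + 1) x ^ a + (2 / c) ^ (a - 1) * ∑ x, g x ^ a := by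
    rw [mul_sum, mul_sum, ← sum_add_distrib]
    exact sum_le_sum fun x _ => absorb a c _ _ ha hc0 (RM_nonneg g _ x) (hg0 x)
  have h5 : c / 2 * ∑ x, RM g (L + 1) x ^ a ≤ (2 / c) ^ (a - 1) * ∑ x, g x ^ a := by
    linarith
  have h6 : ∑ x, RM g (L + 1) x ^ a ≤ 2 / c * ((2 / c) ^ (a - 1) * ∑ x, g x ^ a) := by
    calc ∑ x, RM g (L + 1) x ^ a = 2 / c * (c / 2 * ∑ x, RM g (L + 1) x ^ a) := by field_simp
      _ ≤ _ := by gcongr
  calc ∑ x, MX f x ^ a ≤ _ := h1
    _ ≤ _ := h6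
    _ = _ := by ring

end DOOM

open DOOM

theorem specDOO : SpecDOO := by
  intro a ha
  have hc0 : 0 < (a - 1) / a := div_pos (by linarith) (by linarith)
  refine ⟨2 / ((a - 1) / a) * (2 / ((a - 1) / a)) ^ (a - 1), by positivity, fun L f => ?_⟩
  have h := doob a ha f
  have hMX0 : ∀ x, 0 ≤ MX f x := by
    intro x
    have h1 := Finset.le_sup' (fun k => |(EM L k *ᵥ f) x|) (show 0 ∈ range (L + 2) by simp)
    exact (abs_nonneg _).trans h1
  unfold mom
  simp only [abs_of_nonneg (hMX0 _)]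
  rw [← mul_div_assoc]
  gcongr

end

end Pool.Agent.MP_bc5265.R2
end

section
/-!
# Module FIN: the order of the sampling numbers and of the linear numbers
-/
set_option autoImplicit false

open MeasureTheory
open scoped ENNReal

namespace Pool.Agent.MP_bc5265.R2

open Pool.Agent.MP_bc5265

/-- Module FIN. -/
theorem specFIN (hUP : SpecUP) (hLOWR : SpecLOWR) (hLSN : SpecLSN) : SpecFIN := by
  intro 𝕜 _ d l p q r hd hq hqp hp hr hl
  have hp1 : 1 < p := lt_of_lt_of_le hq hqp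
  have hr0 : 0 < r := lt_trans (by positivity) hr
  obtain ⟨c, hc, hlow⟩ := hLOWR 𝕜 d l p q r hd hr0 hl hq hqp hp
  obtain ⟨C, hC, hup⟩ := hUP 𝕜 d l p q r hd hq.le hqp hp1 hp hr hl
  exact ⟨c, C, hc, hC, fun m hm => ⟨hlow m hm, hLSN 𝕜 d m _ _, hup m hm⟩⟩

end Pool.Agent.MP_bc5265.R2
end

section
/-!
# Region `R_2`, module KHI: Khinchine-Kahane for vectors
-/
set_option linter.unusedSectionVars false

open MeasureTheory Finset Matrix
open scoped ENNReal

namespace Pool.Agent.MP_bc5265.R2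

open Pool.Agent.MP_bc5265

namespace KHIM

variable {I E : Type} [Fintype I] [DecidableEq I] [Fintype E]

/-- flip of one sign -/
def fl (i : I) (ε : I → Bool) : I → Bool := Function.update ε i (!ε i)

lemma fl_inv (i : I) : Function.Involutive (fl i) := by
  intro ε
  funext x
  simp only [fl]
  by_cases hx : x = i
  · subst hx; simp
  · simp [hx]

lemma sum_fl (i : I) (F : (I → Bool) → ℝ) : ∑ ε, F (fl i ε) = ∑ ε, F ε :=
  Equiv.sum_comp (Function.Involutive.toPerm (fl i) (fl_inv i)) F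

/-- the square norm of the partial sum -/
noncomputable def W (V : I → E → ℝ) (A : Finset I) (ε : I → Bool) : ℝ :=
  ∑ e, (∑ i ∈ A, sg (ε i) * V i e) ^ 2

lemma W_insert (V : I → E → ℝ) (A : Finset I) (i : I) (hi : i ∉ A) (ε : I → Bool) :
    W V (insert i A) ε = W V A ε + ∑ e, V i e ^ 2 +
      2 * (sg (ε i) * ∑ e, (∑ j ∈ A, sg (ε j) * V j e) * V i e) := by
  unfold W
  rw [Finset.mul_sum, Finset.mul_sum, ← Finset.sum_add_distrib, ← Finset.sum_add_distrib]
  refine Finset.sum_congr rfl fun e _ => ?_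
  rw [Finset.sum_insert hi]
  have := sg_sq (ε i)
  linear_combination (V i e ^ 2) * this

lemma part_fl (V : I → E → ℝ) (A : Finset I) (i : I) (hi : i ∉ A) (ε : I → Bool) (e : E) :
    ∑ j ∈ A, sg (fl i ε j) * V j e = ∑ j ∈ A, sg (ε j) * V j e := by
  refine Finset.sum_congr rfl fun j hj => ?_
  have : j ≠ i := by rintro rfl; exact hi hj
  simp [fl, this]

lemma W_fl (V : I → E → ℝ) (A : Finset I) (i : I) (hi : i ∉ A) (ε : I → Bool) :
    W V A (fl i ε) = W V A ε := by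
  unfold W
  refine Finset.sum_congr rfl fun e _ => ?_
  rw [part_fl V A i hi]

lemma W_insert_fl (V : I → E → ℝ) (A : Finset I) (i : I) (hi : i ∉ A) (ε : I → Bool) :
    W V (insert i A) (fl i ε) = W V A ε + ∑ e, V i e ^ 2 -
      2 * (sg (ε i) * ∑ e, (∑ j ∈ A, sg (ε j) * V j e) * V i e) := by
  rw [W_insert V A i hi, W_fl V A i hi]
  have h1 : sg (fl i ε i) = -sg (ε i) := by simp [fl]
  simp_rw [part_fl V A i hi]
  rw [h1]
  ring

lemma first (V : I → E → ℝ) (A : Finset I) :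
    ∑ ε : I → Bool, W V A ε = 2 ^ Fintype.card I * ∑ i ∈ A, ∑ e, V i e ^ 2 := by
  induction A using Finset.induction_on with
  | empty => simp [W]
  | insert i A hi ih =>
    have h1 := sum_fl i (fun ε => W V (insert i A) ε)
    have h2 : 2 * ∑ ε : I → Bool, W V (insert i A) ε =
        ∑ ε : I → Bool, (2 * W V A ε + 2 * ∑ e, V i e ^ 2) := by
      rw [two_mul]
      nth_rewrite 2 [← h1]
      rw [← Finset.sum_add_distrib]
      refine Finset.sum_congr rfl fun ε _ => ?_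
      rw [W_insert V A i hi, W_insert_fl V A i hi]
      ring
    rw [Finset.sum_add_distrib, ← Finset.mul_sum, ih, Finset.sum_const, Finset.card_univ] at h2
    simp only [Fintype.card_fun, Fintype.card_bool, nsmul_eq_mul, Nat.cast_pow, Nat.cast_ofNat]
      at h2
    rw [Finset.sum_insert hi]
    linarith

lemma cs (V : I → E → ℝ) (A : Finset I) (i : I) (ε : I → Bool) :
    (∑ e, (∑ j ∈ A, sg (ε j) * V j e) * V i e) ^ 2 ≤ W V A ε * ∑ e, V i e ^ 2 := by
  unfold W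
  exact Finset.sum_mul_sq_le_sq_mul_sq _ _ _

lemma second (V : I → E → ℝ) (A : Finset I) :
    ∑ ε : I → Bool, W V A ε ^ 2 ≤ 2 ^ Fintype.card I * (3 * (∑ i ∈ A, ∑ e, V i e ^ 2) ^ 2) := by
  induction A using Finset.induction_on with
  | empty => simp [W]
  | insert i A hi ih =>
    set v := ∑ e, V i e ^ 2 with hv
    have hv0 : 0 ≤ v := Finset.sum_nonneg fun _ _ => sq_nonneg _
    have h1 := sum_fl i (fun ε => W V (insert i A) ε ^ 2)
    have h2 : 2 * ∑ ε : I → Bool, W V (insert i A) ε ^ 2 ≤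
        ∑ ε : I → Bool, (2 * W V A ε ^ 2 + 12 * v * W V A ε + 2 * v ^ 2) := by
      rw [two_mul]
      nth_rewrite 2 [← h1]
      rw [← Finset.sum_add_distrib]
      refine Finset.sum_le_sum fun ε _ => ?_
      rw [W_insert V A i hi, W_insert_fl V A i hi, ← hv]
      have h3 := cs V A i ε
      rw [← hv] at h3
      set c := ∑ e, (∑ j ∈ A, sg (ε j) * V j e) * V i e
      have h4 : (sg (ε i) * c) ^ 2 = c ^ 2 := by rw [mul_pow, sg_sq, one_mul]
      nlinarith
    rw [Finset.sum_add_distrib, Finset.sum_add_distrib, ← Finset.mul_sum, ← Finset.mul_sum,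
      first, Finset.sum_const, Finset.card_univ] at h2
    simp only [Fintype.card_fun, Fintype.card_bool, nsmul_eq_mul, Nat.cast_pow, Nat.cast_ofNat]
      at h2
    rw [Finset.sum_insert hi, ← hv]
    set S := ∑ i ∈ A, ∑ e, V i e ^ 2
    have hS0 : 0 ≤ S := Finset.sum_nonneg fun _ _ => Finset.sum_nonneg fun _ _ => sq_nonneg _
    have hM : (0 : ℝ) ≤ 2 ^ Fintype.card I := by positivity
    have h5 : 0 ≤ (2 : ℝ) ^ Fintype.card I * v ^ 2 := by positivity
    nlinarith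

lemma point (s M x : ℝ) (hs1 : s ≤ 1) (hM : 0 < M) (hx : 0 ≤ x) :
    M ^ (s - 1) * (x - x ^ 2 / M) ≤ x ^ s := by
  have hxs : 0 ≤ x ^ s := Real.rpow_nonneg hx _
  have hMs : 0 < M ^ (s - 1) := Real.rpow_pos_of_pos hM _
  have e : x - x ^ 2 / M = x * (1 - x / M) := by field_simp
  rw [e]
  rcases le_or_gt M x with h | h
  · have h1 : 1 ≤ x / M := by rw [le_div_iff₀ hM]; linarith
    have h2 : x * (1 - x / M) ≤ 0 := mul_nonpos_of_nonneg_of_nonpos hx (by linarith)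
    exact (mul_nonpos_of_nonneg_of_nonpos hMs.le h2).trans hxs
  · rcases hx.eq_or_lt with h0 | h0
    · rw [← h0]
      simp only [zero_mul, mul_zero]
      exact Real.rpow_nonneg le_rfl _
    · have h1 : M ^ (s - 1) ≤ x ^ (s - 1) := Real.rpow_le_rpow_of_nonpos h0 h.le (by linarith)
      have h2 : x * (1 - x / M) ≤ x := by
        have : 0 ≤ x / M := by positivity
        nlinarith
      have h3 : 0 ≤ x * (1 - x / M) := by
        have : x / M ≤ 1 := by rw [div_le_iff₀ hM]; linarith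
        exact mul_nonneg hx (by linarith)
      calc M ^ (s - 1) * (x * (1 - x / M)) ≤ x ^ (s - 1) * x :=
            mul_le_mul h1 h2 h3 (Real.rpow_nonneg hx _)
        _ = x ^ s := by
            rw [Real.rpow_sub_one h0.ne']
            field_simp

end KHIM

open KHIM in
theorem specKHI : SpecKHI := by
  intro q I E _ _ _ V hq hq2
  set S := ∑ i, ∑ e, V i e ^ 2 with hS
  have hS0 : 0 ≤ S := Finset.sum_nonneg fun _ _ => Finset.sum_nonneg fun _ _ => sq_nonneg _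
  set s := q / 2 with hs
  have hs0 : 0 < s := by positivity
  have hs1 : s ≤ 1 := by rw [hs]; linarith
  have hM : (0 : ℝ) < 2 ^ Fintype.card I := by positivity
  have hW : ∀ ε : I → Bool, ∑ e, (∑ i, sg (ε i) * V i e) ^ 2 = W V univ ε := fun ε => rfl
  simp_rw [hW]
  have hW0 : ∀ ε, 0 ≤ W V univ ε := fun ε => Finset.sum_nonneg fun _ _ => sq_nonneg _
  rcases hS0.eq_or_lt with h0 | h0
  · rw [← h0, Real.zero_rpow hs0.ne', zero_div, mul_zero]
    exact Finset.sum_nonneg fun ε _ => Real.rpow_nonneg (hW0 ε) _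
  · have h6 : (0 : ℝ) < 6 * S := by positivity
    have h1 := first V univ
    have h2 := second V univ
    rw [← hS] at h1 h2
    calc 2 ^ Fintype.card I * (S ^ s / 24)
        ≤ 2 ^ Fintype.card I * ((6 * S) ^ (s - 1) * (S / 2)) := by
          apply mul_le_mul_of_nonneg_left _ hM.le
          rw [Real.mul_rpow (by norm_num) hS0]
          have h3 : S ^ (s - 1) * S = S ^ s := by
            rw [Real.rpow_sub_one h0.ne']
            field_simp
          have h4 : (1 / 6 : ℝ) ≤ 6 ^ (s - 1) := by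
            calc (1 / 6 : ℝ) = 6 ^ (-1 : ℝ) := by rw [Real.rpow_neg_one]; norm_num
              _ ≤ 6 ^ (s - 1) := Real.rpow_le_rpow_of_exponent_le (by norm_num) (by linarith)
          have h5 : 0 ≤ S ^ s := Real.rpow_nonneg hS0 _
          calc S ^ s / 24 ≤ 1 / 6 * (S ^ s / 2) := by linarith
            _ ≤ 6 ^ (s - 1) * (S ^ s / 2) := mul_le_mul_of_nonneg_right h4 (by positivity)
            _ = 6 ^ (s - 1) * S ^ (s - 1) * (S / 2) := by rw [← h3]; ring
      _ ≤ (6 * S) ^ (s - 1) * (∑ ε, W V univ ε - (∑ ε, W V univ ε ^ 2) / (6 * S)) := by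
          rw [h1, mul_left_comm]
          apply mul_le_mul_of_nonneg_left _ (Real.rpow_nonneg h6.le _)
          have h3 : (∑ ε : I → Bool, W V univ ε ^ 2) / (6 * S) ≤
              2 ^ Fintype.card I * (S / 2) := by
            rw [div_le_iff₀ h6]
            refine h2.trans (le_of_eq ?_)
            ring
          linarith
      _ = ∑ ε, (6 * S) ^ (s - 1) * (W V univ ε - W V univ ε ^ 2 / (6 * S)) := by
          rw [← Finset.mul_sum, Finset.sum_sub_distrib, Finset.sum_div]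
      _ ≤ ∑ ε, W V univ ε ^ s :=
          Finset.sum_le_sum fun ε _ => point s (6 * S) _ hs1 h6 (hW0 ε)

end Pool.Agent.MP_bc5265.R2
end

section
/-!
# LAM: the normalisation
-/
set_option linter.unusedSectionVars false

open MeasureTheory Finset Matrix
open scoped ENNReal

namespace Pool.Agent.MP_bc5265.R2

open Pool.Agent.MP_bc5265.S Pool.Agent.MP_bc5265

noncomputable section

namespace LAMM

/-- the centred variable -/
def xc (K : ℕ) (t : Fin K) : ℝ := K * (if (t : ℕ) = 0 then 1 else 0) - 1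

lemma sum_xc (K : ℕ) (hK : 1 ≤ K) : ∑ t : Fin K, xc K t = 0 := by
  unfold xc
  rw [sum_sub_distrib, ← mul_sum]
  have h1 : ∑ t : Fin K, (if (t : ℕ) = 0 then (1 : ℝ) else 0) = 1 := by
    rw [sum_eq_single (⟨0, hK⟩ : Fin K)]
    · simp
    · intro b _ hb
      rw [if_neg]
      intro h
      exact hb (Fin.ext h)
    · simp
  rw [h1]
  simp

lemma sum_xc_sq (K : ℕ) (hK : 1 ≤ K) : ∑ t : Fin K, xc K t ^ 2 ≤ (K : ℝ) ^ 2 := by
  have e : ∀ t : Fin K, xc K t ^ 2 =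
      ((K : ℝ) ^ 2 - 2 * K) * (if (t : ℕ) = 0 then 1 else 0) + 1 := by
    intro t
    unfold xc
    split_ifs <;> ring
  have h1 : ∑ t : Fin K, (if (t : ℕ) = 0 then (1 : ℝ) else 0) = 1 := by
    rw [sum_eq_single (⟨0, hK⟩ : Fin K)]
    · simp
    · intro b _ hb
      rw [if_neg]
      intro h
      exact hb (Fin.ext h)
    · simp
  rw [sum_congr rfl fun t _ => e t, sum_add_distrib, ← mul_sum, h1]
  simp only [mul_one, sum_const, card_univ, Fintype.card_fin, nsmul_eq_mul]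
  have : (0 : ℝ) ≤ K := Nat.cast_nonneg K
  nlinarith

variable {I : Type} [Fintype I] [DecidableEq I]

lemma sum_prod (K : ℕ) (f : I → Fin K → ℝ) :
    ∑ ξ : I → Fin K, ∏ i, f i (ξ i) = ∏ i, ∑ t, f i t := by
  rw [Finset.prod_univ_sum]
  simp

lemma cross (K : ℕ) (hK : 1 ≤ K) (i j : I) (hij : i ≠ j) :
    ∑ ξ : I → Fin K, xc K (ξ i) * xc K (ξ j) = 0 := by
  have h1 : ∀ ξ : I → Fin K, xc K (ξ i) * xc K (ξ j) =
      ∏ a, (fun (a : I) (t : Fin K) => (if a = i then xc K t else 1) *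
        (if a = j then xc K t else 1)) a (ξ a) := by
    intro ξ
    simp only
    rw [prod_mul_distrib, prod_ite_eq' univ i (fun a => xc K (ξ a)),
      prod_ite_eq' univ j (fun a => xc K (ξ a))]
    simp
  rw [sum_congr rfl fun ξ _ => h1 ξ]
  refine (sum_prod K (fun (a : I) (t : Fin K) => (if a = i then xc K t else 1) *
        (if a = j then xc K t else 1))).trans ?_
  refine prod_eq_zero (mem_univ i) ?_
  simp only [if_true, if_neg hij, mul_one]
  exact sum_xc K hK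

lemma diag (K : ℕ) (hK : 1 ≤ K) (i : I) :
    ∑ ξ : I → Fin K, xc K (ξ i) ^ 2 ≤ K * (K : ℝ) ^ Fintype.card I := by
  have h1 : ∀ ξ : I → Fin K, xc K (ξ i) ^ 2 =
      ∏ a, (fun (a : I) (t : Fin K) => if a = i then xc K t ^ 2 else 1) a (ξ a) := by
    intro ξ
    simp only
    rw [prod_ite_eq' univ i (fun a => xc K (ξ a) ^ 2)]
    simp
  rw [sum_congr rfl fun ξ _ => h1 ξ]
  refine (sum_prod K (fun (a : I) (t : Fin K) => if a = i then xc K t ^ 2 else 1)).trans_le ?_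
  have h2 : ∏ a : I, ∑ t : Fin K, (if a = i then xc K t ^ 2 else (1 : ℝ)) =
      (∑ t : Fin K, xc K t ^ 2) * ∏ a ∈ univ.erase i, (K : ℝ) := by
    rw [← mul_prod_erase univ _ (mem_univ i)]
    congr 1
    · simp
    · refine prod_congr rfl fun a ha => ?_
      simp [ne_of_mem_erase ha]
  rw [h2, prod_const, card_erase_of_mem (mem_univ i), card_univ]
  have hI : 1 ≤ Fintype.card I := Fintype.card_pos_iff.2 ⟨i⟩
  have h3 : (K : ℝ) * (K : ℝ) ^ Fintype.card I = (K : ℝ) ^ 2 * (K : ℝ) ^ (Fintype.card I - 1) := by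
    rw [← pow_add, ← pow_succ']
    congr 1
    omega
  rw [h3]
  have := sum_xc_sq K hK
  gcongr

/-- variance of a sum -/
lemma variance (K : ℕ) (hK : 1 ≤ K) {J : Type} [Fintype J] [DecidableEq J] (φ : J → I)
    (hφ : Function.Injective φ) :
    ∑ ξ : I → Fin K, (∑ k, xc K (ξ (φ k))) ^ 2 ≤
      Fintype.card J * (K * (K : ℝ) ^ Fintype.card I) := by
  have h1 : ∀ ξ : I → Fin K, (∑ k, xc K (ξ (φ k))) ^ 2 =
      ∑ k, ∑ k', xc K (ξ (φ k)) * xc K (ξ (φ k')) := by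
    intro ξ
    rw [sq, sum_mul_sum]
  rw [sum_congr rfl fun ξ _ => h1 ξ, sum_comm]
  have h2 : ∀ k, ∑ ξ : I → Fin K, ∑ k', xc K (ξ (φ k)) * xc K (ξ (φ k')) ≤
      K * (K : ℝ) ^ Fintype.card I := by
    intro k
    rw [sum_comm, sum_eq_single k]
    · have := diag K hK (φ k)
      simpa only [sq] using this
    · intro k' _ hk
      exact cross K hK _ _ (fun h => hk (hφ h).symm)
    · simp
  calc ∑ k, ∑ ξ : I → Fin K, ∑ k', xc K (ξ (φ k)) * xc K (ξ (φ k'))
      ≤ ∑ _k : J, K * (K : ℝ) ^ Fintype.card I := sum_le_sum fun k _ => h2 k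
    _ = _ := by simp

end LAMM

open LAMM

theorem specLAM : SpecLAM := by
  intro A B _ _ ι _ _ K N hK hN hBK hι hA
  have hN0 : (0 : ℝ) < N := by exact_mod_cast hN
  have hK0 : (0 : ℝ) < K := by exact_mod_cast hK
  set cnt : ((Σ b, ι b) → Fin K) → B → ℝ := fun ξ b =>
    ∑ k : ι b, if (ξ ⟨b, k⟩ : ℕ) = 0 then (1 : ℝ) else 0 with hcnt
  refine ⟨fun ξ => 2 + ∑ b, (K * cnt ξ b / N - 1) ^ 2, ?_, ?_, ?_⟩
  · intro ξ
    have : 0 ≤ ∑ b, (K * cnt ξ b / N - 1) ^ 2 := sum_nonneg fun b _ => sq_nonneg _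
    linarith
  · intro ξ b
    have h1 : (K * cnt ξ b / N - 1) ^ 2 ≤ ∑ b, (K * cnt ξ b / N - 1) ^ 2 :=
      single_le_sum (f := fun b => (K * cnt ξ b / N - 1) ^ 2) (fun b _ => sq_nonneg _) (mem_univ b)
    have h2 : K * cnt ξ b / N ≤ 2 + (K * cnt ξ b / N - 1) ^ 2 := by
      nlinarith [sq_nonneg (K * cnt ξ b / N - 3 / 2)]
    have h3 : K * cnt ξ b / N ≤ 2 + ∑ b, (K * cnt ξ b / N - 1) ^ 2 := by linarith
    rw [div_le_iff₀ hN0] at h3
    rw [mul_comm (N : ℝ)]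
    exact h3
  · rw [sum_add_distrib, sum_comm]
    have e1 : ∀ b (ξ : (Σ b, ι b) → Fin K), K * cnt ξ b / N - 1 =
        1 / N * ∑ k : ι b, xc K (ξ ⟨b, k⟩) := by
      intro b ξ
      unfold xc
      rw [sum_sub_distrib, ← mul_sum]
      simp only [sum_const, card_univ, hι b, nsmul_eq_mul, mul_one]
      rw [hcnt]
      field_simp
    have h1 : ∀ b, ∑ ξ : (Σ b, ι b) → Fin K, (K * cnt ξ b / N - 1) ^ 2 ≤
        K / N * (K : ℝ) ^ Fintype.card (Σ b, ι b) := by
      intro b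
      have h2 := variance (I := Σ b, ι b) K hK (fun k : ι b => (⟨b, k⟩ : Σ b, ι b))
        (fun k k' h => by simpa using h)
      rw [hι b] at h2
      have h3 : ∑ ξ : (Σ b, ι b) → Fin K, (K * cnt ξ b / N - 1) ^ 2 =
          1 / N ^ 2 * ∑ ξ : (Σ b, ι b) → Fin K, (∑ k : ι b, xc K (ξ ⟨b, k⟩)) ^ 2 := by
        rw [mul_sum]
        refine sum_congr rfl fun ξ _ => ?_
        rw [e1 b ξ, mul_pow, one_div, inv_pow, one_div]
      rw [h3]
      calc 1 / (N : ℝ) ^ 2 * ∑ ξ : (Σ b, ι b) → Fin K, (∑ k : ι b, xc K (ξ ⟨b, k⟩)) ^ 2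
          ≤ 1 / (N : ℝ) ^ 2 * (N * (K * (K : ℝ) ^ Fintype.card (Σ b, ι b))) := by gcongr
        _ = _ := by field_simp
    have h4 : ∑ b, ∑ ξ : (Σ b, ι b) → Fin K, (K * cnt ξ b / N - 1) ^ 2 ≤
        A * (K : ℝ) ^ Fintype.card (Σ b, ι b) := by
      calc ∑ b, ∑ ξ : (Σ b, ι b) → Fin K, (K * cnt ξ b / N - 1) ^ 2
          ≤ ∑ _b : B, K / N * (K : ℝ) ^ Fintype.card (Σ b, ι b) := sum_le_sum fun b _ => h1 b
        _ = (K : ℝ) ^ 2 / N * (K : ℝ) ^ Fintype.card (Σ b, ι b) := by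
            rw [sum_const, card_univ, hBK, nsmul_eq_mul]
            ring
        _ ≤ A * (K : ℝ) ^ Fintype.card (Σ b, ι b) := by
            have : (K : ℝ) ^ 2 / N ≤ A := by rw [div_le_iff₀ hN0]; exact hA
            gcongr
    have h5 : ∑ _ξ : (Σ b, ι b) → Fin K, (2 : ℝ) = 2 * (K : ℝ) ^ Fintype.card (Σ b, ι b) := by
      rw [sum_const, card_univ, nsmul_eq_mul, Fintype.card_fun, Fintype.card_fin]
      push_cast
      ring
    rw [h5, add_mul]
    linarith

end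

end Pool.Agent.MP_bc5265.R2
end

section
/-!
# Region `R_2`: the lower bound with an explicit number of levels
-/
set_option linter.unusedSectionVars false

open MeasureTheory Finset Matrix
open scoped ENNReal

namespace Pool.Agent.MP_bc5265.R2

open Pool.Agent.MP_bc5265.S Pool.Agent.MP_bc5265

noncomputable section

namespace LOWLM

/-- the number of points of a dyadic cell -/
theorem card_cell (a s k M : ℕ) (hM : M = 2 ^ (a + s)) (hk : k < 2 ^ s) :
    (univ.filter fun x : Fin M => (x : ℕ) / 2 ^ a = k).card = 2 ^ a := by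
  have ha : 0 < 2 ^ a := by positivity
  have h1 : (univ.filter fun x : Fin M => (x : ℕ) / 2 ^ a = k).map Fin.valEmbedding =
      Finset.Ico (k * 2 ^ a) ((k + 1) * 2 ^ a) := by
    ext x
    simp only [Finset.mem_map, Finset.mem_filter, Finset.mem_univ, true_and,
      Fin.valEmbedding_apply, Finset.mem_Ico]
    constructor
    · rintro ⟨y, hy, rfl⟩
      rw [Nat.div_eq_iff ha] at hy
      refine ⟨hy.1, ?_⟩
      rw [add_mul, one_mul]
      omega
    · rintro ⟨h1, h2⟩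
      have h3 : x < M := by
        rw [hM, pow_add, mul_comm]
        refine lt_of_lt_of_le h2 ?_
        exact Nat.mul_le_mul_right _ hk
      refine ⟨⟨x, h3⟩, ?_, rfl⟩
      rw [Nat.div_eq_iff ha]
      rw [add_mul, one_mul] at h2
      exact ⟨h1, by simp only; omega⟩
  have h2 := congrArg Finset.card h1
  rw [Finset.card_map, Nat.card_Ico] at h2
  rw [h2, add_mul, one_mul, Nat.add_sub_cancel_left]

theorem sq_le (k : ℕ) : k ^ 2 ≤ 2 * 2 ^ k := by
  induction k with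
  | zero => norm_num
  | succ k ih =>
    rcases Nat.lt_or_ge k 3 with h | h
    · interval_cases k <;> norm_num
    · have : (k + 1) ^ 2 ≤ 2 * k ^ 2 := by nlinarith
      calc (k + 1) ^ 2 ≤ 2 * k ^ 2 := this
        _ ≤ 2 * (2 * 2 ^ k) := Nat.mul_le_mul_left _ ih
        _ = 2 * 2 ^ (k + 1) := by ring

theorem lev_le (e k : ℕ) (b : Fin e → Fin k) (j : Fin (e + 1)) : lev e k b j ≤ e * k := by
  rw [← lev_sum e k b]
  exact Finset.single_le_sum (f := lev e k b) (fun _ _ => Nat.zero_le _) (Finset.mem_univ j)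

/-- the cell of level `lev b` which contains `X` -/
def cl (e k : ℕ) (X : Gr (e + 1) (e * k + 1)) (b : Fin e → Fin k) :
    ∀ j : Fin (e + 1), Fin (2 ^ lev e k b j) := fun j =>
  ⟨(X j : ℕ) / 2 ^ (e * k + 1 - lev e k b j), by
    have h1 := (X j).2
    have h2 := lev_le e k b j
    have h3 : 2 ^ (e * k + 1) = 2 ^ lev e k b j * 2 ^ (e * k + 1 - lev e k b j) := by
      rw [← pow_add]; congr 1; omega
    rw [Nat.div_lt_iff_lt_mul (by positivity)]
    rwa [← h3]⟩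

theorem card_cl (e k : ℕ) (b : Fin e → Fin k) (κ : ∀ j : Fin (e + 1), Fin (2 ^ lev e k b j)) :
    (univ.filter fun X => cl e k X b = κ).card * 2 ^ (e * k) =
      Fintype.card (Gr (e + 1) (e * k + 1)) := by
  have h1 : (univ.filter fun X => cl e k X b = κ) = Fintype.piFinset fun j =>
      univ.filter fun x : Fin (2 ^ (e * k + 1)) =>
        (x : ℕ) / 2 ^ (e * k + 1 - lev e k b j) = κ j := by
    ext X
    simp only [Finset.mem_filter, Finset.mem_univ, true_and, Fintype.mem_piFinset]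
    rw [funext_iff]
    refine forall_congr' fun j => ?_
    rw [Fin.ext_iff]
    rfl
  rw [h1, Fintype.card_piFinset]
  have h2 : ∀ j, (univ.filter fun x : Fin (2 ^ (e * k + 1)) =>
      (x : ℕ) / 2 ^ (e * k + 1 - lev e k b j) = κ j).card = 2 ^ (e * k + 1 - lev e k b j) := by
    intro j
    refine card_cell _ (lev e k b j) _ _ ?_ (κ j).2
    have := lev_le e k b j
    congr 1
    omega
  simp only [h2]
  rw [Fintype.card_pi]
  simp only [Fintype.card_fin]
  have h3 : (2 : ℕ) ^ (e * k) = ∏ j, 2 ^ lev e k b j := by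
    rw [Finset.prod_pow_eq_pow_sum, lev_sum]
  rw [h3, ← Finset.prod_mul_distrib]
  refine Finset.prod_congr rfl fun j _ => ?_
  rw [← pow_add]
  congr 1
  have := lev_le e k b j
  omega

end LOWLM

open LOWLM in
/-- LOWL -/
theorem specLOWL (hLPT : SpecLPT) (hWTS : SpecWTS) (hRND : SpecRND) (hMEM : SpecMEM) :
    SpecLOWL := by
  intro 𝕜 _ e l p q r he hr hl hq1 hqp hp2
  have hq0 : 0 < q := by linarith
  have hp0 : 0 < p := by linarith
  have hp1 : 1 ≤ p := by linarith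
  obtain ⟨c1, hc1, htot⟩ := hMEM l r (e + 1) hr hl
  obtain ⟨C1, hC1, hlp⟩ := hLPT q (e + 1) hq1 (by linarith)
  obtain ⟨c2, hc2, hrnd⟩ := hRND p q (2 ^ e) hq0 hqp hp2.le (by positivity)
  set κ : ℝ := (2 * c0) ^ (e + 1) with hκ
  have hκ0 : 0 < κ := by have := c0_pos; positivity
  set c3 : ℝ := κ ^ q * c2 / C1 with hc3
  have hc30 : 0 < c3 := by
    have : 0 < κ ^ q := Real.rpow_pos_of_pos hκ0 _
    positivity
  refine ⟨c1 * c3 ^ (1 / q), by positivity, ?_⟩
  intro k m hm Λ ψ hψ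
  let lv := lev e k
  let ι : (Fin e → Fin k) → Type := fun b => ∀ j : Fin (e + 1), Fin (2 ^ lv b j)
  let φ : (Σ b, ι b) → Torus (e + 1) → ℝ := fun i => Phi (lv i.1) (fun j => (i.2 j : ℕ))
  let h : (Σ b, ι b) → Torus (e + 1) → ℝ := fun i => Haf (lv i.1) (fun j => (i.2 j : ℕ))
  let ψ' : Fin m ⊕ Fin m → Torus (e + 1) → ℝ :=
    Sum.elim (fun j x => RCLike.re (ψ j x)) (fun j x => RCLike.im (ψ j x))
  have hcard : ∀ b, Fintype.card (ι b) = 2 ^ (e * k) := by
    intro b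
    simp only [ι, Fintype.card_pi, Fintype.card_fin]
    rw [Finset.prod_pow_eq_pow_sum, lev_sum]
  have hcardB : Fintype.card (Fin e → Fin k) = k ^ e := by
    rw [Fintype.card_fun, Fintype.card_fin, Fintype.card_fin]
  have hcardI : Fintype.card (Σ b, ι b) = 2 ^ (e * k) * k ^ e := by
    rw [Fintype.card_sigma]
    simp only [hcard, Finset.sum_const, Finset.card_univ, hcardB, smul_eq_mul]
    ring
  have hJ : 4 * Fintype.card (Fin m ⊕ Fin m) ≤ Fintype.card (Σ b, ι b) := by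
    rw [Fintype.card_sum, Fintype.card_fin, hcardI]
    linarith
  have hφ : ∀ i, MemLp (φ i) (ENNReal.ofReal q) (μT (e + 1)) := by
    intro i
    refine MemLp.of_bound (Phi _ _).continuous.aestronglyMeasurable 1 ?_
    filter_upwards with x
    exact abs_Phi_le _ _ x
  have hhm : ∀ i, AEStronglyMeasurable (h i) (μT (e + 1)) := fun i =>
    (measurable_Haf _ _).aestronglyMeasurable
  have hh : ∀ i x, |h i x| ≤ 1 := by
    intro i x
    simp only [h]
    rw [abs_Haf]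
    exact Chi_le_one _ _ _
  have horth : ∀ i i', ∫ x, φ i' x * h i x ∂(μT (e + 1)) =
      if i = i' then κ / ((2 ^ (e * k) : ℕ) : ℝ) else 0 := by
    rintro ⟨b, x⟩ ⟨b', x'⟩
    simp only [φ, h]
    by_cases hb : b = b'
    · subst hb
      rw [integral_same _ _ _ (fun j => (x' j).2), lev_sum]
      by_cases hx : x = x'
      · subst hx
        simp [hκ]
      · rw [if_neg, if_neg]
        · intro h2
          apply hx
          rw [Sigma.mk.injEq] at h2
          exact eq_of_heq h2.2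
        · intro h2
          apply hx
          funext j
          exact Fin.ext (congrFun h2 j)
    · rw [if_neg, integral_ne _ _ _ _ (fun j => (x' j).2)]
      · intro h2
        exact hb (lev_injective e k h2)
      · rw [lev_sum, lev_sum]
      · intro h2
        apply hb
        rw [Sigma.mk.injEq] at h2
        exact h2.1
  have hψ' : ∀ j, MemLp (ψ' j) (ENNReal.ofReal q) (μT (e + 1)) := by
    rintro (j | j)
    · exact (hψ j).re
    · exact (hψ j).im
  have hone : (1 : ENNReal) ≤ ENNReal.ofReal q := by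
    rw [← ENNReal.ofReal_one]
    exact ENNReal.ofReal_le_ofReal hq1.le
  have hφi : ∀ i, Integrable (φ i) (μT (e + 1)) := fun i => (hφ i).integrable hone
  have hψi : ∀ j, Integrable (ψ' j) (μT (e + 1)) := fun j => (hψ' j).integrable hone
  set n := e * k with hn
  have hN0 : (0 : ℝ) < 2 ^ n := by positivity
  -- the test vector
  obtain ⟨a, ha, hlow⟩ : ∃ a : (Σ b, ι b) → ℝ, (∀ b, ∑ x, |a ⟨b, x⟩| ^ p ≤ 2 ^ n) ∧
      c3 * ((k : ℝ) ^ e) ^ (q / p) ≤ ∫ x, |gerr φ ψ' (Lmap lv Λ) a x| ^ q ∂(μT (e + 1)) := by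
    rcases Nat.eq_zero_or_pos k with hk | hk
    · refine ⟨0, fun b => ?_, ?_⟩
      · have : ∀ x : ι b, |(0 : (Σ b, ι b) → ℝ) ⟨b, x⟩| ^ p = 0 := by
          intro x
          rw [Pi.zero_apply, abs_zero, Real.zero_rpow hp0.ne']
        simp only [this, Finset.sum_const_zero]
        positivity
      · have h1 : ((k : ℝ) ^ e) ^ (q / p) = 0 := by
          rw [hk, Nat.cast_zero, zero_pow (by omega), Real.zero_rpow (by positivity)]
        rw [h1, mul_zero]
        exact integral_nonneg fun x => Real.rpow_nonneg (abs_nonneg _) _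
    · have : NeZero k := ⟨hk.ne'⟩
      have hneB : Nonempty (Fin e → Fin k) := ⟨fun _ => 0⟩
      have hneZ : Nonempty (Gr (e + 1) (n + 1)) := ⟨fun _ => ⟨0, by positivity⟩⟩
      obtain ⟨v, w, hv, hw, hcol, hrow, hsum⟩ := hWTS (Σ b, ι b) (Fin m ⊕ Fin m)
        (Ymat (μT (e + 1)) (2 ^ n) h ψ' κ) (Zmat (Lmap lv Λ))
        (Tmat (μT (e + 1)) (2 ^ n) h ψ' (Lmap lv Λ) κ) (fun i k' => rfl) hJ
      obtain ⟨x, hx1, hx2⟩ := hrnd (Fin e → Fin k) ι (2 ^ n) (Gr (e + 1) (n + 1)) (cl e k)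
        (Tmat (μT (e + 1)) (2 ^ n) h ψ' (Lmap lv Λ) κ) v w Nat.one_le_two_pow hcard (by
          rw [hcardB]
          have h1 : (k ^ e) ^ 2 ≤ 2 ^ e * 2 ^ n := by
            calc (k ^ e) ^ 2 = (k ^ 2) ^ e := by rw [← pow_mul, ← pow_mul, mul_comm]
              _ ≤ (2 * 2 ^ k) ^ e := Nat.pow_le_pow_left (sq_le k) e
              _ = 2 ^ e * 2 ^ n := by rw [mul_pow, ← pow_mul, hn, mul_comm k e]
          exact_mod_cast h1) (fun b κ' => card_cl e k b κ') hv hw hcol hrow (by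
          refine le_trans (le_of_eq ?_) hsum
          rw [hcardI, hcardB]
          push_cast
          ring)
      refine ⟨x, fun b => by simpa using hx1 b, ?_⟩
      have hg := memLp_gerr φ ψ' (Lmap lv Λ) hφ hψ' x
      have h1 := hlp n (Fin e → Fin k) lv (lev_injective e k) (lev_sum e k)
        (gerr φ ψ' (Lmap lv Λ) x) hg
      have h2 : ∀ (X : Gr (e + 1) (n + 1)) (b : Fin e → Fin k),
          2 ^ n * ∫ y, gerr φ ψ' (Lmap lv Λ) x y * Haf (lv b)
            (fun j => (X j : ℕ) / 2 ^ (n + 1 - lv b j)) y ∂(μT (e + 1)) =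
          κ * ∑ i', Tmat (μT (e + 1)) (2 ^ n) h ψ' (Lmap lv Λ) κ ⟨b, cl e k X b⟩ i' * x i' := by
        intro X b
        have h3 := pairing (μT (e + 1)) (2 ^ n) φ h ψ' (Lmap lv Λ) hκ0 (by positivity) hφi hhm hh
          horth hψi x ⟨b, cl e k X b⟩
        have h4 : (fun y => gerr φ ψ' (Lmap lv Λ) x y * Haf (lv b)
            (fun j => (X j : ℕ) / 2 ^ (n + 1 - lv b j)) y) =
            fun y => gerr φ ψ' (Lmap lv Λ) x y * h ⟨b, cl e k X b⟩ y := rfl
        rw [h4, h3]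
        push_cast
        field_simp
      have h5 : ∀ X : Gr (e + 1) (n + 1), (∑ b, (2 ^ n * ∫ y, gerr φ ψ' (Lmap lv Λ) x y *
            Haf (lv b) (fun j => (X j : ℕ) / 2 ^ (n + 1 - lv b j)) y ∂(μT (e + 1))) ^ 2) ^
            (q / 2) = κ ^ q * (∑ b, (∑ i', Tmat (μT (e + 1)) (2 ^ n) h ψ' (Lmap lv Λ) κ
              ⟨b, cl e k X b⟩ i' * x i') ^ 2) ^ (q / 2) := by
        intro X
        simp only [h2, mul_pow]
        rw [← Finset.mul_sum, Real.mul_rpow (by positivity)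
          (Finset.sum_nonneg fun _ _ => sq_nonneg _)]
        congr 1
        rw [← Real.rpow_natCast, ← Real.rpow_mul hκ0.le]
        congr 1
        push_cast
        ring
      simp only [h5] at h1
      rw [← Finset.mul_sum] at h1
      have h6 := mul_le_mul_of_nonneg_left hx2 (Real.rpow_nonneg hκ0.le q)
      have h7 := h6.trans h1
      have h8 : (Fintype.card (Gr (e + 1) (n + 1)) : ℝ) = 2 ^ ((e + 1) * (n + 1)) := by
        rw [Fintype.card_pi]
        simp only [Fintype.card_fin, Finset.prod_const, Finset.card_univ]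
        push_cast
        rw [← pow_mul, mul_comm (n + 1)]
      rw [h8, hcardB] at h7
      push_cast at h7
      have hZ : (0 : ℝ) < 2 ^ ((e + 1) * (n + 1)) := by positivity
      have h9 : κ ^ q * (c2 * ((k : ℝ) ^ e) ^ (q / p)) ≤
          C1 * ∫ y, |gerr φ ψ' (Lmap lv Λ) x y| ^ q ∂(μT (e + 1)) := by
        refine le_of_mul_le_mul_right ?_ hZ
        calc _ = κ ^ q * (c2 * ((k : ℝ) ^ e) ^ (q / p) * 2 ^ ((e + 1) * (n + 1))) := by ring
          _ ≤ _ := h7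
          _ = _ := by ring
      rw [hc3, div_mul_eq_mul_div, div_le_iff₀ hC1]
      linarith [h9]
  -- the error function
  have hre : ∀ x, |gerr φ ψ' (Lmap lv Λ) a x| ≤
      ‖fC (𝕜 := 𝕜) lv a x - ∑ j, Λ j (fC lv a) * ψ j x‖ := by
    intro x
    have h1 : gerr φ ψ' (Lmap lv Λ) a x =
        RCLike.re (fC (𝕜 := 𝕜) lv a x - ∑ j, Λ j (fC lv a) * ψ j x) := by
      unfold gerr
      rw [Fintype.sum_sum_type, Fintype.sum_sigma]
      simp only [map_sub, map_sum, RCLike.mul_re]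
      congr 1
      · simp only [fC, ContinuousMap.coe_mk, RCLike.ofReal_re, ftest, Finset.sum_apply,
          Pi.smul_apply, smul_eq_mul]
        rfl
      · rw [← Finset.sum_add_distrib]
        refine Finset.sum_congr rfl fun j _ => ?_
        simp only [Lmap, LinearMap.coe_mk, AddHom.coe_mk, Sum.elim_inl, Sum.elim_inr, ψ']
        ring
    rw [h1]
    exact RCLike.abs_re_le_norm _
  set c' : ℝ := c1 * (2 ^ n) ^ (-r) with hc'
  have hc'0 : 0 ≤ c' := by positivity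
  let f : C(Torus (e + 1), 𝕜) := (c' : 𝕜) • fC lv a
  have hfun : (f : Torus (e + 1) → 𝕜) = fun x => (((c' • ftest lv a) x : ℝ) : 𝕜) := by
    funext x
    simp [f, fC]
  have hnorm : ∀ (g : Torus (e + 1) → ℝ) (u : ℝ≥0∞),
      eLpNorm (fun x => ((g x : ℝ) : 𝕜)) u (μT (e + 1)) = eLpNorm g u (μT (e + 1)) := by
    intro g u
    refine eLpNorm_congr_norm_ae ?_
    filter_upwards with x
    simp
  have hmem : f ∈ HClass 𝕜 (e + 1) l r (ENNReal.ofReal p) := by
    have hb := htot (Fin e → Fin k) lv n (lev_injective e k) (lev_sum e k) p hp1 a ha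
    constructor
    · rw [hfun, hnorm]
      have h1 := hb ∅ 0
      simp only [Finset.prod_empty, ENNReal.ofReal_one, mixedDiff_empty] at h1
      exact h1
    · intro e' _ t
      rw [hfun, mixedDiff_ofReal, hnorm]
      exact hb e' t
  refine ⟨f, hmem, ?_⟩
  have herr : (fun y => f y - ∑ i, Λ i f * ψ i y) =
      (c' : 𝕜) • fun y => (fC (𝕜 := 𝕜) lv a y - ∑ i, Λ i (fC lv a) * ψ i y) := by
    funext y
    simp only [f, ContinuousMap.coe_smul, Pi.smul_apply, smul_eq_mul, map_smul, mul_sub,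
      Finset.mul_sum, mul_assoc]
  rw [herr, eLpNorm_const_smul]
  have hge : eLpNorm (gerr φ ψ' (Lmap lv Λ) a) (ENNReal.ofReal q) (μT (e + 1)) ≤
      eLpNorm (fun y => (fC (𝕜 := 𝕜) lv a y - ∑ i, Λ i (fC lv a) * ψ i y)) (ENNReal.ofReal q)
        (μT (e + 1)) := by
    refine eLpNorm_mono ?_
    intro x
    rw [Real.norm_eq_abs]
    exact hre x
  have hgm := memLp_gerr φ ψ' (Lmap lv Λ) hφ hψ' a
  have hge2 : ENNReal.ofReal ((c3 * ((k : ℝ) ^ e) ^ (q / p)) ^ (1 / q)) ≤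
      eLpNorm (gerr φ ψ' (Lmap lv Λ) a) (ENNReal.ofReal q) (μT (e + 1)) := by
    rw [hgm.eLpNorm_eq_integral_rpow_norm (by simpa using hq0) ENNReal.ofReal_ne_top,
      ENNReal.toReal_ofReal hq0.le]
    refine ENNReal.ofReal_le_ofReal ?_
    rw [one_div]
    refine Real.rpow_le_rpow (by positivity) ?_ (by positivity)
    exact hlow
  have he : ‖(c' : 𝕜)‖ₑ = ENNReal.ofReal c' := by
    rw [← ofReal_norm, RCLike.norm_ofReal, abs_of_nonneg hc'0]
  rw [he]
  refine le_trans ?_ (mul_le_mul_right (hge2.trans hge) _)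
  rw [← ENNReal.ofReal_mul hc'0]
  refine ENNReal.ofReal_le_ofReal (le_of_eq ?_)
  rw [Real.mul_rpow hc30.le (by positivity), ← Real.rpow_mul (by positivity), hc']
  have e1 : q / p * (1 / q) = 1 / p := by field_simp
  rw [e1]
  ring

end

end Pool.Agent.MP_bc5265.R2
end

section
/-!
# Module LOWR: the lower bound for the linear numbers
-/
set_option autoImplicit false

open MeasureTheory
open scoped ENNReal

namespace Pool.Agent.MP_bc5265.R2

open Pool.Agent.MP_bc5265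

namespace LOWRM

/-- `m^{-(r-1/p+1/q)} (log m)^{(d-1)(r-1/p+2/q)}`. -/
noncomputable def rt (d : ℕ) (p q r : ℝ) (m : ℕ) : ℝ :=
  (m : ℝ) ^ (-(r - 1 / p + 1 / q)) * Real.log m ^ (((d : ℝ) - 1) * (r - 1 / p + 2 / q))

/-- Choice of the number of blocks. -/
lemma exists_k (e m : ℕ) (he : 1 ≤ e) (hm : 2 ≤ m) : ∃ k : ℕ, 8 * m ≤ 2 ^ (e * k) * k ^ e ∧
    2 ^ (e * k) * k ^ e ≤ 4 ^ e * (8 * m) := by
  classical
  have hex : ∃ k : ℕ, 8 * m ≤ 2 ^ (e * k) * k ^ e := by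
    refine ⟨8 * m, ?_⟩
    calc 8 * m = (8 * m) ^ 1 := (pow_one _).symm
      _ ≤ (8 * m) ^ e := Nat.pow_le_pow_right (by omega) he
      _ ≤ 2 ^ (e * (8 * m)) * (8 * m) ^ e := Nat.le_mul_of_pos_left _ (by positivity)
  refine ⟨Nat.find hex, Nat.find_spec hex, ?_⟩
  set k := Nat.find hex with hk
  have hspec : 8 * m ≤ 2 ^ (e * k) * k ^ e := Nat.find_spec hex
  have hk0 : k ≠ 0 := by
    intro h0
    rw [h0] at hspec
    rw [zero_pow (by omega), mul_zero] at hspec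
    omega
  obtain ⟨j, hj⟩ : ∃ j, k = j + 1 := ⟨k - 1, by omega⟩
  rcases Nat.eq_zero_or_pos j with h0 | hpos
  · rw [hj, h0]
    simp only [zero_add, mul_one, one_pow]
    have h1 : (2 : ℕ) ^ e ≤ 4 ^ e := Nat.pow_le_pow_left (by norm_num) e
    have h2 : 4 ^ e * 1 ≤ 4 ^ e * (8 * m) := Nat.mul_le_mul_left _ (by omega)
    omega
  · have hlt : ¬ (8 * m ≤ 2 ^ (e * j) * j ^ e) := Nat.find_min hex (by omega)
    push Not at hlt
    have h1 : k ^ e ≤ 2 ^ e * j ^ e := by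
      rw [← mul_pow]
      exact Nat.pow_le_pow_left (by omega) e
    have h2 : (2 : ℕ) ^ (e * k) = 2 ^ e * 2 ^ (e * j) := by
      rw [hj, mul_add, mul_one, pow_add]
      ring
    calc 2 ^ (e * k) * k ^ e ≤ (2 ^ e * 2 ^ (e * j)) * (2 ^ e * j ^ e) := by
          rw [h2]; exact Nat.mul_le_mul_left _ h1
      _ = 4 ^ e * (2 ^ (e * j) * j ^ e) := by
          rw [show (4 : ℕ) = 2 * 2 by norm_num, mul_pow]; ring
      _ ≤ 4 ^ e * (8 * m) := Nat.mul_le_mul_left _ hlt.le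

/-- Comparison of the two forms of the rate. -/
lemma rate_le (e : ℕ) (he : 1 ≤ e) (p q r : ℝ) (hq : 0 < q) (hσ : 0 < r - 1 / p + 1 / q) :
    ∃ C : ℝ, 0 < C ∧ ∀ m : ℕ, 2 ≤ m → ∃ k : ℕ, 8 * m ≤ 2 ^ (e * k) * k ^ e ∧
      rt (e + 1) p q r m ≤
        C * (((2 : ℝ) ^ (e * k)) ^ (-(r - 1 / p + 1 / q)) * ((k : ℝ) ^ e) ^ (1 / q)) := by
  set σ := r - 1 / p + 1 / q with hσd
  set C1 : ℝ := (2 * e) ^ e * (4 ^ e * 8) with hC1
  have he0 : (0 : ℝ) < e := by exact_mod_cast he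
  have hC10 : 0 < C1 := by positivity
  refine ⟨C1 ^ σ * ((2 * e : ℝ) ^ e) ^ (1 / q), by positivity, ?_⟩
  intro m hm
  obtain ⟨k, hk1, hk2⟩ := exists_k e m he hm
  refine ⟨k, hk1, ?_⟩
  have hm0 : (0 : ℝ) < m := by positivity
  have hm1 : (1 : ℝ) < m := by exact_mod_cast hm
  have hlog : 0 < Real.log m := Real.log_pos hm1
  have hN : (0 : ℝ) < (2 : ℝ) ^ (e * k) := by positivity
  -- the logarithm
  have hlogle : Real.log m ≤ 2 * e * k := by
    have h1 : (m : ℝ) ≤ 2 ^ (e * k) * 2 ^ (e * k) := by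
      have h2 : m ≤ 2 ^ (e * k) * 2 ^ (e * k) := by
        calc m ≤ 8 * m := by omega
          _ ≤ 2 ^ (e * k) * k ^ e := hk1
          _ ≤ 2 ^ (e * k) * (2 ^ k) ^ e :=
            Nat.mul_le_mul_left _ (Nat.pow_le_pow_left Nat.lt_two_pow_self.le e)
          _ = 2 ^ (e * k) * 2 ^ (e * k) := by rw [← pow_mul, mul_comm k e]
      exact_mod_cast h2
    have h3 : Real.log m ≤ Real.log (2 ^ (e * k) * 2 ^ (e * k)) := Real.log_le_log hm0 h1
    rw [← pow_add, Real.log_pow] at h3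
    have h4 : Real.log 2 ≤ 1 := by linarith [Real.log_two_lt_d9]
    have h5 : (((e * k + e * k : ℕ)) : ℝ) * Real.log 2 ≤ ((e * k + e * k : ℕ) : ℝ) * 1 :=
      mul_le_mul_of_nonneg_left h4 (by positivity)
    push_cast at h3 h5
    linarith
  have hlogpow : Real.log m ^ e ≤ (2 * e) ^ e * (k : ℝ) ^ e := by
    rw [← mul_pow]
    exact pow_le_pow_left₀ hlog.le hlogle e
  have hk2' : (2 : ℝ) ^ (e * k) * (k : ℝ) ^ e ≤ 4 ^ e * (8 * m) := by exact_mod_cast hk2
  have hb : Real.log m ^ e / m ≤ C1 / 2 ^ (e * k) := by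
    rw [div_le_div_iff₀ hm0 hN]
    calc Real.log m ^ e * 2 ^ (e * k) ≤ ((2 * e) ^ e * (k : ℝ) ^ e) * 2 ^ (e * k) :=
          mul_le_mul_of_nonneg_right hlogpow hN.le
      _ = (2 * e) ^ e * (2 ^ (e * k) * (k : ℝ) ^ e) := by ring
      _ ≤ (2 * e) ^ e * (4 ^ e * (8 * m)) := mul_le_mul_of_nonneg_left hk2' (by positivity)
      _ = C1 * m := by rw [hC1]; ring
  have hA : (m : ℝ) ^ (-σ) * (Real.log m ^ e) ^ σ ≤ C1 ^ σ * ((2 : ℝ) ^ (e * k)) ^ (-σ) := by
    have h1 := Real.rpow_le_rpow (by positivity) hb hσ.le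
    rw [Real.div_rpow (by positivity) hm0.le, Real.div_rpow hC10.le hN.le] at h1
    rw [Real.rpow_neg hm0.le, Real.rpow_neg hN.le]
    calc ((m : ℝ) ^ σ)⁻¹ * (Real.log m ^ e) ^ σ = (Real.log m ^ e) ^ σ / (m : ℝ) ^ σ := by
          rw [div_eq_mul_inv, mul_comm]
      _ ≤ C1 ^ σ / ((2 : ℝ) ^ (e * k)) ^ σ := h1
      _ = _ := by rw [div_eq_mul_inv]
  have hB : (Real.log m ^ e) ^ (1 / q) ≤ ((2 * e : ℝ) ^ e) ^ (1 / q) * ((k : ℝ) ^ e) ^ (1 / q) := by
    rw [← Real.mul_rpow (by positivity) (by positivity)]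
    exact Real.rpow_le_rpow (by positivity) hlogpow (by positivity)
  have hrate : rt (e + 1) p q r m =
      ((m : ℝ) ^ (-σ) * (Real.log m ^ e) ^ σ) * (Real.log m ^ e) ^ (1 / q) := by
    unfold rt
    rw [mul_assoc, ← Real.rpow_natCast (Real.log m) e, ← Real.rpow_mul hlog.le,
      ← Real.rpow_mul hlog.le, ← Real.rpow_add hlog]
    congr 2
    push_cast
    rw [hσd]
    ring
  rw [hrate]
  calc ((m : ℝ) ^ (-σ) * (Real.log m ^ e) ^ σ) * (Real.log m ^ e) ^ (1 / q)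
      ≤ (C1 ^ σ * ((2 : ℝ) ^ (e * k)) ^ (-σ)) *
        (((2 * e : ℝ) ^ e) ^ (1 / q) * ((k : ℝ) ^ e) ^ (1 / q)) :=
        mul_le_mul hA hB (by positivity) (by positivity)
    _ = _ := by ring

end LOWRM

/-- Module LOWR. -/
theorem specLOWR (hLOWL : SpecLOWL) : SpecLOWR := by
  intro 𝕜 _ d l p q r hd hr hl hq hqp hp
  obtain ⟨e, rfl⟩ : ∃ e, d = e + 1 := ⟨d - 1, by omega⟩
  have he : 1 ≤ e := by omega
  have hp0 : 0 < p := by linarith
  obtain ⟨c0, hc0, hlow⟩ := hLOWL 𝕜 e l p q r he hr hl hq hqp hp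
  obtain ⟨C, hC, hrate⟩ := LOWRM.rate_le e he p p r hp0 (by linarith)
  refine ⟨c0 / C, by positivity, ?_⟩
  intro m hm
  unfold linearNumber
  refine le_iInf fun Λ => le_iInf fun ψ => le_iInf fun hψ => ?_
  obtain ⟨k, hk1, hk2⟩ := hrate m hm
  obtain ⟨f, hf, hf2⟩ := hlow k m hk1 Λ ψ hψ
  have h1 : ENNReal.ofReal (c0 / C * rate2 (e + 1) p r m) ≤
      ENNReal.ofReal (c0 * (((2 : ℝ) ^ (e * k)) ^ (-r) * ((k : ℝ) ^ e) ^ (1 / p))) := by
    apply ENNReal.ofReal_le_ofReal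
    have h2 : LOWRM.rt (e + 1) p p r m = rate2 (e + 1) p r m := by
      unfold LOWRM.rt rate2
      congr 2
      · ring
      · ring
    rw [h2, show r - 1 / p + 1 / p = r by ring] at hk2
    calc c0 / C * rate2 (e + 1) p r m
        ≤ c0 / C * (C * (((2 : ℝ) ^ (e * k)) ^ (-r) * ((k : ℝ) ^ e) ^ (1 / p))) :=
          mul_le_mul_of_nonneg_left hk2 (by positivity)
      _ = _ := by field_simp
  exact (h1.trans hf2).trans
    (le_iSup₂ (f := fun f (_ : f ∈ HClass 𝕜 (e + 1) l r (ENNReal.ofReal p)) =>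
      eLpNorm (fun y => f y - ∑ i, Λ i f * ψ i y) (ENNReal.ofReal q) (μT (e + 1))) f hf)

end Pool.Agent.MP_bc5265.R2
end

section
/-!
# Row 230, LP1 (helper70): Littlewood-Paley inequality, one dimension, vector valued
-/
set_option linter.unusedSectionVars false

open MeasureTheory Finset Matrix
open scoped ENNReal

namespace Pool.Agent.MP_bc5265.R2

open Pool.Agent.MP_bc5265.S Pool.Agent.MP_bc5265

namespace LP1M

theorem idem (hOPS : SpecOPS) (L k : ℕ) :
    (EM L (k + 1) - EM L k) * (EM L (k + 1) - EM L k) = EM L (k + 1) - EM L k := by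
  obtain ⟨o1, -⟩ := hOPS L
  rw [Matrix.sub_mul, Matrix.mul_sub, Matrix.mul_sub, o1, o1, o1, o1]
  rw [min_self, min_self, min_eq_right (Nat.le_succ k), min_eq_left (Nat.le_succ k)]
  simp

theorem two_add (s a b : ℝ) (hs : 0 ≤ s) (ha : 0 ≤ a) (hb : 0 ≤ b) :
    (2 * (a + b)) ^ s ≤ 4 ^ s * (a ^ s + b ^ s) := by
  have h1 : 0 ≤ a ^ s := Real.rpow_nonneg ha _
  have h2 : 0 ≤ b ^ s := Real.rpow_nonneg hb _
  have h4 : (0 : ℝ) ≤ 4 ^ s := by positivity
  rcases le_total a b with h | h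
  · calc (2 * (a + b)) ^ s ≤ (4 * b) ^ s :=
          Real.rpow_le_rpow (by positivity) (by linarith) hs
      _ = 4 ^ s * b ^ s := Real.mul_rpow (by norm_num) hb
      _ ≤ 4 ^ s * (a ^ s + b ^ s) := mul_le_mul_of_nonneg_left (by linarith) h4
  · calc (2 * (a + b)) ^ s ≤ (4 * a) ^ s :=
          Real.rpow_le_rpow (by positivity) (by linarith) hs
      _ = 4 ^ s * a ^ s := Real.mul_rpow (by norm_num) ha
      _ ≤ 4 ^ s * (a ^ s + b ^ s) := mul_le_mul_of_nonneg_left (by linarith) h4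

end LP1M

theorem specLP1 (hBDG : SpecBDG) (hSTE : SpecSTE) (hOPS : SpecOPS) : SpecLP1 := by
  intro Q hQ
  obtain ⟨CB, hCB, hB⟩ := hBDG Q hQ
  obtain ⟨CS, hCS, hS⟩ := hSTE Q hQ
  refine ⟨CB * (4 ^ (Q / 2) * (2 * CS)), by positivity, ?_⟩
  intro L J _ u
  obtain ⟨D, hD⟩ : ∃ D : ℕ → Fin (2 ^ L) → J → ℝ,
      D = fun k x i => ((EM L (k + 1) - EM L k) *ᵥ fun y => u k y i) x := ⟨_, rfl⟩
  have hb := hB L J D (by
    intro k i
    have e : (fun x => D k x i) = (EM L (k + 1) - EM L k) *ᵥ fun y => u k y i := by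
      rw [hD]
    rw [e, Matrix.mulVec_mulVec, LP1M.idem hOPS])
  obtain ⟨X1, hX1⟩ : ∃ X1 : Fin (2 ^ L) → ℝ, X1 = fun x =>
      ∑ k ∈ range (L + 1), ∑ i, ((EM L (k + 1) *ᵥ fun y => u k y i) x) ^ 2 := ⟨_, rfl⟩
  obtain ⟨X2, hX2⟩ : ∃ X2 : Fin (2 ^ L) → ℝ, X2 = fun x =>
      ∑ k ∈ range (L + 1), ∑ i, ((EM L k *ᵥ fun y => u k y i) x) ^ 2 := ⟨_, rfl⟩
  have hX1n : ∀ x, 0 ≤ X1 x := by
    intro x; rw [hX1]
    exact Finset.sum_nonneg fun k _ => Finset.sum_nonneg fun i _ => sq_nonneg _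
  have hX2n : ∀ x, 0 ≤ X2 x := by
    intro x; rw [hX2]
    exact Finset.sum_nonneg fun k _ => Finset.sum_nonneg fun i _ => sq_nonneg _
  -- X2
  have s2 : ∑ x, X2 x ^ (Q / 2) ≤
      CS * ∑ x, (∑ k ∈ range (L + 1), ∑ i, u k x i ^ 2) ^ (Q / 2) := by
    have h := hS L J (fun k x i => if k ≤ L then u k x i else 0)
    have e1 : ∀ x, (∑ k ∈ range (L + 2), ∑ i,
        ((EM L k *ᵥ fun y => if k ≤ L then u k y i else 0) x) ^ 2) = X2 x := by
      intro x
      rw [Finset.sum_range_succ, hX2]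
      have h0 : ∑ i : J, ((EM L (L + 1) *ᵥ fun y => if L + 1 ≤ L then u (L + 1) y i else 0) x) ^ 2
          = 0 := by
        apply Finset.sum_eq_zero
        intro i _
        have h1 : (fun y => if L + 1 ≤ L then u (L + 1) y i else 0) =
            (0 : Fin (2 ^ L) → ℝ) := by
          funext y
          rw [if_neg (by omega)]
          rfl
        rw [h1, Matrix.mulVec_zero]
        simp
      rw [h0, add_zero]
      apply Finset.sum_congr rfl
      intro k hk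
      have hk' : k ≤ L := by
        have := Finset.mem_range.1 hk
        omega
      simp only [if_pos hk']
    have e2 : ∀ x, (∑ k ∈ range (L + 2), ∑ i : J, (if k ≤ L then u k x i else 0) ^ 2) =
        ∑ k ∈ range (L + 1), ∑ i, u k x i ^ 2 := by
      intro x
      rw [Finset.sum_range_succ]
      have h0 : ∑ i : J, (if L + 1 ≤ L then u (L + 1) x i else 0) ^ 2 = 0 := by
        apply Finset.sum_eq_zero
        intro i _
        rw [if_neg (by omega)]
        simp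
      rw [h0, add_zero]
      apply Finset.sum_congr rfl
      intro k hk
      have hk' : k ≤ L := by
        have := Finset.mem_range.1 hk
        omega
      simp only [if_pos hk']
    simp only [e1, e2] at h
    exact h
  have s1 : ∑ x, X1 x ^ (Q / 2) ≤
      CS * ∑ x, (∑ k ∈ range (L + 1), ∑ i, u k x i ^ 2) ^ (Q / 2) := by
    have h := hS L J (fun k x i => if k = 0 then 0 else u (k - 1) x i)
    have e1 : ∀ x, (∑ k ∈ range (L + 2), ∑ i,
        ((EM L k *ᵥ fun y => if k = 0 then 0 else u (k - 1) y i) x) ^ 2) = X1 x := by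
      intro x
      rw [Finset.sum_range_succ', hX1]
      have h0 : ∑ i : J, ((EM L 0 *ᵥ fun y => if (0 : ℕ) = 0 then 0 else u (0 - 1) y i) x) ^ 2
          = 0 := by
        apply Finset.sum_eq_zero
        intro i _
        have h1 : (fun y => if (0 : ℕ) = 0 then 0 else u (0 - 1) y i) =
            (0 : Fin (2 ^ L) → ℝ) := by
          funext y
          rw [if_pos rfl]
          rfl
        rw [h1, Matrix.mulVec_zero]
        simp
      rw [h0, add_zero]
      apply Finset.sum_congr rfl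
      intro k _
      have hk' : ¬ (k + 1 = 0) := Nat.succ_ne_zero k
      simp only [if_neg hk', Nat.add_sub_cancel]
    have e2 : ∀ x, (∑ k ∈ range (L + 2), ∑ i : J, (if k = 0 then 0 else u (k - 1) x i) ^ 2) =
        ∑ k ∈ range (L + 1), ∑ i, u k x i ^ 2 := by
      intro x
      rw [Finset.sum_range_succ']
      have h0 : ∑ i : J, (if (0 : ℕ) = 0 then 0 else u (0 - 1) x i) ^ 2 = 0 := by
        apply Finset.sum_eq_zero
        intro i _
        rw [if_pos rfl]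
        simp
      rw [h0, add_zero]
      apply Finset.sum_congr rfl
      intro k _
      have hk' : ¬ (k + 1 = 0) := Nat.succ_ne_zero k
      simp only [if_neg hk', Nat.add_sub_cancel]
    simp only [e1, e2] at h
    exact h
  have hpt : ∀ x, (∑ k ∈ range (L + 1), ∑ i, D k x i ^ 2) ^ (Q / 2) ≤
      4 ^ (Q / 2) * (X1 x ^ (Q / 2) + X2 x ^ (Q / 2)) := by
    intro x
    have h1 : ∑ k ∈ range (L + 1), ∑ i, D k x i ^ 2 ≤ 2 * (X1 x + X2 x) := by
      rw [hX1, hX2, hD]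
      simp only []
      rw [← Finset.sum_add_distrib, Finset.mul_sum]
      apply Finset.sum_le_sum
      intro k _
      rw [← Finset.sum_add_distrib, Finset.mul_sum]
      apply Finset.sum_le_sum
      intro i _
      rw [Matrix.sub_mulVec, Pi.sub_apply]
      nlinarith [sq_nonneg ((EM L (k + 1) *ᵥ fun y => u k y i) x +
        (EM L k *ᵥ fun y => u k y i) x)]
    have h0 : 0 ≤ ∑ k ∈ range (L + 1), ∑ i, D k x i ^ 2 :=
      Finset.sum_nonneg fun k _ => Finset.sum_nonneg fun i _ => sq_nonneg _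
    exact (Real.rpow_le_rpow h0 h1 (by linarith)).trans
      (LP1M.two_add (Q / 2) _ _ (by linarith) (hX1n x) (hX2n x))
  have hb' : ∑ x, (∑ i, (∑ k ∈ range (L + 1),
      ((EM L (k + 1) - EM L k) *ᵥ fun y => u k y i) x) ^ 2) ^ (Q / 2) ≤
      CB * ∑ x, (∑ k ∈ range (L + 1), ∑ i, D k x i ^ 2) ^ (Q / 2) := by
    have e : ∀ x, (∑ i, (∑ k ∈ range (L + 1),
      ((EM L (k + 1) - EM L k) *ᵥ fun y => u k y i) x) ^ 2) =
        ∑ i, (∑ k ∈ range (L + 1), D k x i) ^ 2 := by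
      intro x
      rw [hD]
    simp only [e]
    exact hb
  refine hb'.trans ?_
  rw [mul_assoc]
  apply mul_le_mul_of_nonneg_left _ hCB.le
  calc ∑ x, (∑ k ∈ range (L + 1), ∑ i, D k x i ^ 2) ^ (Q / 2)
      ≤ ∑ x, 4 ^ (Q / 2) * (X1 x ^ (Q / 2) + X2 x ^ (Q / 2)) :=
        Finset.sum_le_sum fun x _ => hpt x
    _ = 4 ^ (Q / 2) * (∑ x, X1 x ^ (Q / 2) + ∑ x, X2 x ^ (Q / 2)) := by
        rw [← Finset.mul_sum, Finset.sum_add_distrib]
    _ ≤ 4 ^ (Q / 2) * (CS * ∑ x, (∑ k ∈ range (L + 1), ∑ i, u k x i ^ 2) ^ (Q / 2) +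
          CS * ∑ x, (∑ k ∈ range (L + 1), ∑ i, u k x i ^ 2) ^ (Q / 2)) :=
        mul_le_mul_of_nonneg_left (add_le_add s1 s2) (by positivity)
    _ = 4 ^ (Q / 2) * (2 * CS) * ∑ x, (∑ k ∈ range (L + 1), ∑ i, u k x i ^ 2) ^ (Q / 2) := by
        ring

end Pool.Agent.MP_bc5265.R2
end

section
/-!
# Row 230, LPD (helper70): Littlewood-Paley inequality in `d` dimensions
-/
set_option linter.unusedSectionVars false

open MeasureTheory Finset Matrix
open scoped ENNReal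

namespace Pool.Agent.MP_bc5265.R2

open Pool.Agent.MP_bc5265.S Pool.Agent.MP_bc5265

namespace LPDM

theorem sum_cons {d : ℕ} {α : Type} [Fintype α] (f : (Fin (d + 1) → α) → ℝ) :
    ∑ x, f x = ∑ b : Fin d → α, ∑ a : α, f (Fin.cons a b) := by
  rw [Finset.sum_comm, ← (Fin.consEquiv (fun _ : Fin (d + 1) => α)).sum_comp,
    Fintype.sum_prod_type]
  rfl

theorem sum_box {d m : ℕ} (f : (Fin (d + 1) → ℕ) → ℝ) :
    ∑ t ∈ box (d + 1) m, f t = ∑ k ∈ range m, ∑ t ∈ box d m, f (Fin.cons k t) := by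
  rw [← Finset.sum_product']
  apply Finset.sum_nbij' (fun t => (t 0, Fin.tail t)) (fun w => Fin.cons w.1 w.2)
  · intro t ht
    have h := Fintype.mem_piFinset.1 ht
    rw [Finset.mem_product]
    exact ⟨h 0, Fintype.mem_piFinset.2 fun j => h j.succ⟩
  · intro w hw
    rw [Finset.mem_product] at hw
    apply Fintype.mem_piFinset.2
    intro j
    refine Fin.cases ?_ (fun i => ?_) j
    · exact hw.1
    · exact Fintype.mem_piFinset.1 hw.2 i
  · intro t _
    exact Fin.cons_self_tail t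
  · intro w _
    simp
  · intro t _
    rw [Fin.cons_self_tail]

theorem Dt_cons {d L : ℕ} (k : ℕ) (t : Fin d → ℕ) (a c : Fin (2 ^ L)) (b e : Gr d L) :
    (Dt L (Fin.cons k t : Fin (d + 1) → ℕ) : MG (d + 1) L) (Fin.cons a b) (Fin.cons c e) =
      (EM L (k + 1) - EM L k) a c * (Dt L t : MG d L) b e := by
  unfold Dt tens
  rw [Fin.prod_univ_succ]
  simp only [Fin.cons_zero, Fin.cons_succ]

theorem Dt_mulVec {d L : ℕ} (k : ℕ) (t : Fin d → ℕ) (v : Gr (d + 1) L → ℝ) (a : Fin (2 ^ L))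
    (b : Gr d L) :
    ((Dt L (Fin.cons k t : Fin (d + 1) → ℕ) : MG (d + 1) L) *ᵥ v) (Fin.cons a b) =
      ((EM L (k + 1) - EM L k) *ᵥ fun c => ((Dt L t : MG d L) *ᵥ fun e => v (Fin.cons c e)) b) a := by
  have h1 : ((Dt L (Fin.cons k t : Fin (d + 1) → ℕ) : MG (d + 1) L) *ᵥ v) (Fin.cons a b) =
      ∑ y, (Dt L (Fin.cons k t : Fin (d + 1) → ℕ) : MG (d + 1) L) (Fin.cons a b) y * v y := rfl
  rw [h1, sum_cons, Finset.sum_comm]
  have h2 : ((EM L (k + 1) - EM L k) *ᵥ fun c => ((Dt L t : MG d L) *ᵥ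
      fun e => v (Fin.cons c e)) b) a = ∑ c, (EM L (k + 1) - EM L k) a c *
        ∑ e, (Dt L t : MG d L) b e * v (Fin.cons c e) := rfl
  rw [h2]
  apply Finset.sum_congr rfl
  intro c _
  rw [Finset.mul_sum]
  apply Finset.sum_congr rfl
  intro e _
  rw [Dt_cons]
  ring

theorem main (Q : ℝ) (C : ℝ) (hC : 0 < C)
    (hLP : ∀ (L : ℕ) (J : Type) [Fintype J] (u : ℕ → Fin (2 ^ L) → J → ℝ),
    ∑ x, (∑ i, (∑ k ∈ range (L + 1), ((EM L (k + 1) - EM L k) *ᵥ fun y => u k y i) x) ^ 2) ^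
        (Q / 2) ≤
      C * ∑ x, (∑ k ∈ range (L + 1), ∑ i, u k x i ^ 2) ^ (Q / 2)) (d : ℕ) :
    ∀ (L : ℕ) (I : Type) [Fintype I] (u : (Fin d → ℕ) → Gr d L → I → ℝ),
      ∑ x, (∑ i, (∑ t ∈ box d (L + 1), (Dt L t *ᵥ fun y => u t y i) x) ^ 2) ^ (Q / 2) ≤
        C ^ d * ∑ x, (∑ t ∈ box d (L + 1), ∑ i, u t x i ^ 2) ^ (Q / 2) := by
  induction d with
  | zero =>
    intro L I _ u
    rw [pow_zero, one_mul]
    apply le_of_eq
    apply Finset.sum_congr rfl
    intro x _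
    congr 1
    have hb : box 0 (L + 1) = {(0 : Fin 0 → ℕ)} := by
      ext t
      rw [Finset.mem_singleton]
      exact ⟨fun _ => Subsingleton.elim _ _, fun h => by
        rw [h]; exact Fintype.mem_piFinset.2 fun j => j.elim0⟩
    rw [hb, Finset.sum_singleton]
    apply Finset.sum_congr rfl
    intro i _
    rw [Finset.sum_singleton]
    have h1 : ((Dt L (0 : Fin 0 → ℕ) : MG 0 L) *ᵥ fun y => u 0 y i) x =
        ∑ y, (Dt L (0 : Fin 0 → ℕ) : MG 0 L) x y * u 0 y i := rfl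
    have h2 : ∀ y : Gr 0 L, (Dt L (0 : Fin 0 → ℕ) : MG 0 L) x y * u 0 y i = u 0 x i := by
      intro y
      have h3 : (Dt L (0 : Fin 0 → ℕ) : MG 0 L) x y = 1 := by
        unfold Dt tens
        simp
      rw [h3, one_mul, Subsingleton.elim y x]
    rw [h1, Finset.sum_congr rfl fun y _ => h2 y]
    simp
  | succ d ih =>
    intro L I _ u
    obtain ⟨U, hU⟩ : ∃ U : Gr d L → ℕ → Fin (2 ^ L) → I → ℝ,
        U = fun b k c i => ∑ t ∈ box d (L + 1),
          ((Dt L t : MG d L) *ᵥ fun e => u (Fin.cons k t) (Fin.cons c e) i) b := ⟨_, rfl⟩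
    -- the one dimensional inequality
    have e1 : ∀ (a : Fin (2 ^ L)) (b : Gr d L) (i : I),
        ∑ t ∈ box (d + 1) (L + 1), (Dt L t *ᵥ fun y => u t y i) (Fin.cons a b) =
          ∑ k ∈ range (L + 1), ((EM L (k + 1) - EM L k) *ᵥ fun c => U b k c i) a := by
      intro a b i
      rw [sum_box]
      apply Finset.sum_congr rfl
      intro k _
      have h1 : (fun c => U b k c i) = ∑ t ∈ box d (L + 1),
          (fun c => ((Dt L t : MG d L) *ᵥ fun e => u (Fin.cons k t) (Fin.cons c e) i) b) := by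
        funext c
        rw [hU, Finset.sum_apply]
      rw [h1, Matrix.mulVec_sum, Finset.sum_apply]
      apply Finset.sum_congr rfl
      intro t _
      exact Dt_mulVec k t _ a b
    have h1 : ∑ x : Gr (d + 1) L, (∑ i, (∑ t ∈ box (d + 1) (L + 1),
        (Dt L t *ᵥ fun y => u t y i) x) ^ 2) ^ (Q / 2) ≤
        C * ∑ b : Gr d L, ∑ a, (∑ k ∈ range (L + 1), ∑ i, U b k a i ^ 2) ^ (Q / 2) := by
      rw [sum_cons, Finset.mul_sum]
      apply Finset.sum_le_sum
      intro b _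
      have h2 := hLP L I (U b)
      refine le_trans (le_of_eq ?_) h2
      apply Finset.sum_congr rfl
      intro a _
      congr 1
      apply Finset.sum_congr rfl
      intro i _
      rw [e1]
    -- the induction hypothesis
    have h3 : ∀ a : Fin (2 ^ L), ∑ b : Gr d L,
        (∑ k ∈ range (L + 1), ∑ i, U b k a i ^ 2) ^ (Q / 2) ≤
        C ^ d * ∑ b : Gr d L,
          (∑ t ∈ box (d + 1) (L + 1), ∑ i, u t (Fin.cons a b) i ^ 2) ^ (Q / 2) := by
      intro a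
      have h4 := ih L (Fin (L + 1) × I)
        (fun t e w => u (Fin.cons (w.1 : ℕ) t) (Fin.cons a e) w.2)
      have e2 : ∀ b : Gr d L, (∑ k ∈ range (L + 1), ∑ i, U b k a i ^ 2) =
          ∑ w : Fin (L + 1) × I, (∑ t ∈ box d (L + 1), ((Dt L t : MG d L) *ᵥ fun e =>
            u (Fin.cons (w.1 : ℕ) t) (Fin.cons a e) w.2) b) ^ 2 := by
        intro b
        rw [Fintype.sum_prod_type, Finset.sum_range]
        apply Finset.sum_congr rfl
        intro k _
        apply Finset.sum_congr rfl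
        intro i _
        rw [hU]
      have e3 : ∀ b : Gr d L, (∑ t ∈ box (d + 1) (L + 1), ∑ i, u t (Fin.cons a b) i ^ 2) =
          ∑ t ∈ box d (L + 1), ∑ w : Fin (L + 1) × I,
            u (Fin.cons (w.1 : ℕ) t) (Fin.cons a b) w.2 ^ 2 := by
        intro b
        rw [sum_box, Finset.sum_comm]
        apply Finset.sum_congr rfl
        intro t _
        rw [Fintype.sum_prod_type, Finset.sum_range]
      simp only [e2, e3]
      exact h4
    calc ∑ x : Gr (d + 1) L, (∑ i, (∑ t ∈ box (d + 1) (L + 1),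
          (Dt L t *ᵥ fun y => u t y i) x) ^ 2) ^ (Q / 2)
        ≤ C * ∑ b : Gr d L, ∑ a, (∑ k ∈ range (L + 1), ∑ i, U b k a i ^ 2) ^ (Q / 2) := h1
      _ = C * ∑ a, ∑ b : Gr d L, (∑ k ∈ range (L + 1), ∑ i, U b k a i ^ 2) ^ (Q / 2) := by
          rw [Finset.sum_comm]
      _ ≤ C * ∑ a, C ^ d * ∑ b : Gr d L,
            (∑ t ∈ box (d + 1) (L + 1), ∑ i, u t (Fin.cons a b) i ^ 2) ^ (Q / 2) :=
          mul_le_mul_of_nonneg_left (Finset.sum_le_sum fun a _ => h3 a) hC.le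
      _ = C ^ (d + 1) * ∑ x : Gr (d + 1) L,
            (∑ t ∈ box (d + 1) (L + 1), ∑ i, u t x i ^ 2) ^ (Q / 2) := by
          rw [sum_cons, ← Finset.mul_sum, Finset.sum_comm (γ := Gr d L)]
          ring

end LPDM

theorem specLPD (hLP1 : SpecLP1) : SpecLPD := by
  intro Q d hQ
  obtain ⟨C, hC, h⟩ := hLP1 Q hQ
  refine ⟨C ^ d, by positivity, ?_⟩
  intro L u
  have h1 := LPDM.main Q C hC (fun L J _ u => h L J u) d L Unit (fun t x _ => u t x)
  have e1 : ∀ x : Gr d L, |∑ t ∈ box d (L + 1), (Dt L t *ᵥ u t) x| ^ Q =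
      (∑ _i : Unit, (∑ t ∈ box d (L + 1), (Dt L t *ᵥ fun y => u t y) x) ^ 2) ^ (Q / 2) := by
    intro x
    rw [Fintype.sum_unique, ← sq_abs, ← Real.rpow_natCast, ← Real.rpow_mul (abs_nonneg _)]
    congr 1
    push_cast
    ring
  have e2 : ∀ x : Gr d L, (∑ t ∈ box d (L + 1), u t x ^ 2) =
      ∑ t ∈ box d (L + 1), ∑ _i : Unit, u t x ^ 2 := by
    intro x
    apply Finset.sum_congr rfl
    intro t _
    rw [Fintype.sum_unique]
  simp only [e1, e2]
  exact h1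

end Pool.Agent.MP_bc5265.R2
end

section
/-!
# Region `R_2`, module LPG (Littlewood-Paley by duality)
-/
open MeasureTheory Finset Matrix
open scoped ENNReal

namespace Pool.Agent.MP_bc5265.R2

open Pool.Agent.MP_bc5265.S Pool.Agent.MP_bc5265

namespace LPGM

theorem Dt_symm (hOPS : SpecOPS) {d : ℕ} (L : ℕ) (t : Fin d → ℕ) (x y : Gr d L) :
    Dt L t x y = Dt L t y x := by
  unfold Dt tens
  refine Finset.prod_congr rfl (fun j _ => ?_)
  show EM L (t j + 1) (x j) (y j) - EM L (t j) (x j) (y j) =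
    EM L (t j + 1) (y j) (x j) - EM L (t j) (y j) (x j)
  rw [((hOPS L).2.2.2.2.1 (t j + 1) _ _).2, ((hOPS L).2.2.2.2.1 (t j) _ _).2]

theorem adj {X : Type} [Fintype X] (A : Matrix X X ℝ) (hA : ∀ x y, A x y = A y x) (F u : X → ℝ) :
    ∑ x, (A *ᵥ F) x * u x = ∑ x, F x * (A *ᵥ u) x := by
  simp only [Matrix.mulVec, dotProduct, Finset.sum_mul, Finset.mul_sum]
  rw [Finset.sum_comm]
  refine Finset.sum_congr rfl (fun x _ => Finset.sum_congr rfl (fun y _ => ?_))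
  rw [hA]
  ring

end LPGM

open LPGM in
theorem specLPG (hLPD : SpecLPD) (hOPS : SpecOPS) : SpecLPG := by
  intro q d hq1 hq2
  have hq0 : 0 < q := by linarith
  have hconj : q.HolderConjugate (q / (q - 1)) := Real.HolderConjugate.conjExponent hq1
  set Q := q / (q - 1) with hQ
  have hq1' : 0 < q - 1 := by linarith
  have hQ2 : 2 < Q := by
    rw [hQ, lt_div_iff₀ hq1']
    linarith
  have hQ0 : 0 < Q := by linarith
  obtain ⟨C, hC, hL⟩ := hLPD Q d hQ2
  refine ⟨C ^ (q - 1), Real.rpow_pos_of_pos hC _, ?_⟩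
  intro L F
  set S2 : Gr d L → ℝ := fun x => ∑ t ∈ box d (L + 1), ((Dt L t *ᵥ F) x) ^ 2 with hS2
  have hS0 : ∀ x, 0 ≤ S2 x := fun x => Finset.sum_nonneg (fun _ _ => sq_nonneg _)
  set u : (Fin d → ℕ) → Gr d L → ℝ := fun t x => (Dt L t *ᵥ F) x * S2 x ^ ((q - 2) / 2) with hu
  have hz : ∀ x, S2 x = 0 → ∀ t ∈ box d (L + 1), (Dt L t *ᵥ F) x = 0 := by
    intro x hx t ht
    have := (Finset.sum_eq_zero_iff_of_nonneg (fun t _ => sq_nonneg ((Dt L t *ᵥ F) x))).1 hx t ht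
    exact pow_eq_zero_iff (two_ne_zero) |>.1 this
  have hus : ∀ x, ∑ t ∈ box d (L + 1), (Dt L t *ᵥ F) x * u t x = S2 x ^ (q / 2) := by
    intro x
    have e1 : ∀ t, (Dt L t *ᵥ F) x * u t x = ((Dt L t *ᵥ F) x) ^ 2 * S2 x ^ ((q - 2) / 2) := by
      intro t
      simp only [hu]
      ring
    simp_rw [e1]
    rw [← Finset.sum_mul]
    show S2 x * S2 x ^ ((q - 2) / 2) = _
    rcases eq_or_lt_of_le (hS0 x) with h0 | h0
    · rw [← h0, zero_mul, Real.zero_rpow (by positivity)]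
    · rw [← Real.rpow_one_add' (hS0 x) (by intro h; linarith)]
      congr 1
      ring
  have husq : ∀ x, (∑ t ∈ box d (L + 1), u t x ^ 2) ^ (Q / 2) = S2 x ^ (q / 2) := by
    intro x
    have e1 : ∀ t, u t x ^ 2 = ((Dt L t *ᵥ F) x) ^ 2 * (S2 x ^ ((q - 2) / 2)) ^ 2 := by
      intro t
      simp only [hu]
      ring
    simp_rw [e1]
    rw [← Finset.sum_mul]
    show (S2 x * (S2 x ^ ((q - 2) / 2)) ^ 2) ^ (Q / 2) = _
    rcases eq_or_lt_of_le (hS0 x) with h0 | h0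
    · rw [← h0, zero_mul, Real.zero_rpow (by positivity), Real.zero_rpow (by positivity)]
    · have e2 : S2 x * (S2 x ^ ((q - 2) / 2)) ^ 2 = S2 x ^ (q - 1) := by
        rw [← Real.rpow_natCast, ← Real.rpow_mul (hS0 x)]
        nth_rewrite 1 [← Real.rpow_one (S2 x)]
        rw [← Real.rpow_add h0]
        congr 1
        push_cast
        ring
      rw [e2, ← Real.rpow_mul (hS0 x)]
      congr 1
      rw [hQ]
      field_simp
  set X := ∑ x, S2 x ^ (q / 2) with hX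
  have hX0 : 0 ≤ X := Finset.sum_nonneg (fun x _ => Real.rpow_nonneg (hS0 x) _)
  set A := ∑ x, |F x| ^ q with hA
  have hA0 : 0 ≤ A := Finset.sum_nonneg (fun x _ => Real.rpow_nonneg (abs_nonneg _) _)
  have hB := hL L u
  simp_rw [husq] at hB
  rw [← hX] at hB
  have hX1 : X = ∑ x, F x * (∑ t ∈ box d (L + 1), (Dt L t *ᵥ u t) x) := by
    rw [hX]
    simp_rw [← hus, Finset.mul_sum]
    rw [Finset.sum_comm, Finset.sum_comm (s := univ)]
    refine Finset.sum_congr rfl (fun t _ => ?_)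
    exact adj _ (Dt_symm hOPS L t) F (u t)
  have hH := Real.inner_le_Lp_mul_Lq univ F (fun x => ∑ t ∈ box d (L + 1), (Dt L t *ᵥ u t) x) hconj
  rw [← hX1, ← hA] at hH
  have h1 : X ≤ A ^ (1 / q) * (C * X) ^ (1 / Q) := by
    refine hH.trans (mul_le_mul_of_nonneg_left ?_ (Real.rpow_nonneg hA0 _))
    exact Real.rpow_le_rpow (Finset.sum_nonneg (fun x _ => Real.rpow_nonneg (abs_nonneg _) _)) hB
      (by positivity)
  rcases eq_or_lt_of_le hX0 with h0 | h0
  · rw [← h0]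
    exact mul_nonneg (Real.rpow_nonneg hC.le _) hA0
  · rw [Real.mul_rpow hC.le hX0, ← mul_assoc] at h1
    have hsum : 1 / q + 1 / Q = 1 := by
      have := hconj.inv_add_inv_eq_one
      rw [one_div, one_div]; exact this
    have h2 : X = X ^ (1 / q) * X ^ (1 / Q) := by
      rw [← Real.rpow_add h0, hsum, Real.rpow_one]
    have h3 : 0 < X ^ (1 / Q) := Real.rpow_pos_of_pos h0 _
    have h4 : X ^ (1 / q) ≤ A ^ (1 / q) * C ^ (1 / Q) := by
      nth_rewrite 1 [h2] at h1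
      exact le_of_mul_le_mul_right h1 h3
    have h5 := Real.rpow_le_rpow (Real.rpow_nonneg hX0 _) h4 hq0.le
    rw [← Real.rpow_mul hX0, one_div_mul_cancel hq0.ne', Real.rpow_one,
      Real.mul_rpow (Real.rpow_nonneg hA0 _) (Real.rpow_nonneg hC.le _), ← Real.rpow_mul hA0,
      one_div_mul_cancel hq0.ne', Real.rpow_one, ← Real.rpow_mul hC.le] at h5
    refine h5.trans (le_of_eq ?_)
    have e5 : 1 / Q * q = q - 1 := by
      rw [hQ]
      field_simp
    rw [e5, mul_comm]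

end Pool.Agent.MP_bc5265.R2
end

section
/-!
# Region `R_2`, module PHQ: a pointwise inequality
-/
set_option linter.unusedSectionVars false

open MeasureTheory Finset Matrix
open scoped ENNReal

namespace Pool.Agent.MP_bc5265.R2

namespace PHQM

lemma exp_le (M z : ℝ) (hz : |z| ≤ M) :
    Real.exp z ≤ 1 + z + (Real.exp M + 1) * z ^ 2 := by
  rcases le_or_gt |z| 1 with h | h
  · have h1 := Real.abs_exp_sub_one_sub_id_le h
    have h2 := (abs_le.mp h1).2
    have h3 : 0 < Real.exp M := Real.exp_pos M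
    nlinarith [sq_nonneg z, mul_nonneg h3.le (sq_nonneg z)]
  · have h1 : Real.exp z ≤ Real.exp M := Real.exp_le_exp.mpr ((le_abs_self z).trans hz)
    have h2 : 1 ≤ z ^ 2 := by
      rw [← sq_abs]
      nlinarith [abs_nonneg z]
    have h3 : -z ≤ z ^ 2 := by
      have : -z ≤ |z| := neg_le_abs z
      rw [← sq_abs]
      nlinarith [abs_nonneg z]
    have h4 : 0 < Real.exp M := Real.exp_pos M
    nlinarith [mul_le_mul_of_nonneg_left h2 h4.le]

end PHQM

open PHQM in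
theorem specPHQ : SpecPHQ := by
  intro Q hQ
  set α := Q / 2 with hα
  set K := Real.exp (α * (5 / 4)) + 1 with hK
  have hK0 : 0 < K := by positivity
  have hα1 : 1 ≤ α := by rw [hα]; linarith
  refine ⟨3 ^ Q + Q * 2 ^ (Q - 1) + (α + K * α ^ 2 * (25 / 4)), by positivity, ?_⟩
  intro a b s ha hb hs
  obtain ⟨hs1, hs2⟩ := abs_le.mp hs
  have hb1 : 0 ≤ a ^ 2 + 2 * s + b ^ 2 := by nlinarith [sq_nonneg (a - b)]
  have hb2 : a ^ 2 + 2 * s + b ^ 2 ≤ (a + b) ^ 2 := by nlinarith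
  have hbQ : 0 ≤ b ^ Q := Real.rpow_nonneg hb _
  have haQ : 0 ≤ a ^ Q := Real.rpow_nonneg ha _
  have haQ2 : 0 ≤ a ^ (Q - 2) := Real.rpow_nonneg ha _
  have hQ2 : (0 : ℝ) ≤ 2 ^ (Q - 1) := by positivity
  have h3Q : (0 : ℝ) ≤ 3 ^ Q := by positivity
  have hC1 : 0 ≤ α + K * α ^ 2 * (25 / 4) := by positivity
  have habb : 0 ≤ a ^ (Q - 2) * b ^ 2 := by positivity
  rcases le_or_gt a (2 * b) with h | h
  · have h1 : (a ^ 2 + 2 * s + b ^ 2) ^ (Q / 2) ≤ 3 ^ Q * b ^ Q := by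
      calc (a ^ 2 + 2 * s + b ^ 2) ^ (Q / 2) ≤ ((3 * b) ^ 2) ^ (Q / 2) := by
            apply Real.rpow_le_rpow hb1 _ (by positivity)
            refine hb2.trans (pow_le_pow_left₀ (by positivity) (by linarith) 2)
        _ = (3 * b) ^ Q := by
            rw [← Real.rpow_natCast, ← Real.rpow_mul (by positivity)]
            congr 1
            push_cast
            ring
        _ = 3 ^ Q * b ^ Q := Real.mul_rpow (by norm_num) hb
    have h2 : a ^ (Q - 2) * a ≤ 2 ^ (Q - 1) * b ^ (Q - 1) := by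
      calc a ^ (Q - 2) * a = a ^ (Q - 2 + 1) := (Real.rpow_add_one' ha (by linarith)).symm
        _ = a ^ (Q - 1) := by congr 1; ring
        _ ≤ (2 * b) ^ (Q - 1) := Real.rpow_le_rpow ha h (by linarith)
        _ = 2 ^ (Q - 1) * b ^ (Q - 1) := Real.mul_rpow (by norm_num) hb
    have h3 : b ^ (Q - 1) * b = b ^ Q := by
      rw [← Real.rpow_add_one' hb (by linarith)]
      congr 1
      ring
    have h4 : -(Q * (2 ^ (Q - 1) * b ^ Q)) ≤ Q * a ^ (Q - 2) * s := by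
      have h5 : -(a ^ (Q - 2) * (a * b)) ≤ a ^ (Q - 2) * s := by
        rw [← mul_neg]
        exact mul_le_mul_of_nonneg_left hs1 haQ2
      have h6 : a ^ (Q - 2) * (a * b) ≤ 2 ^ (Q - 1) * b ^ Q := by
        calc a ^ (Q - 2) * (a * b) = a ^ (Q - 2) * a * b := by ring
          _ ≤ 2 ^ (Q - 1) * b ^ (Q - 1) * b := mul_le_mul_of_nonneg_right h2 hb
          _ = 2 ^ (Q - 1) * b ^ Q := by rw [mul_assoc, h3]
      have h7 : -(2 ^ (Q - 1) * b ^ Q) ≤ a ^ (Q - 2) * s := by linarith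
      have h8 := mul_le_mul_of_nonneg_left h7 (show (0 : ℝ) ≤ Q by linarith)
      calc -(Q * (2 ^ (Q - 1) * b ^ Q)) = Q * -(2 ^ (Q - 1) * b ^ Q) := by ring
        _ ≤ Q * (a ^ (Q - 2) * s) := h8
        _ = Q * a ^ (Q - 2) * s := by ring
    have h9 : 0 ≤ (3 ^ Q + Q * 2 ^ (Q - 1) + (α + K * α ^ 2 * (25 / 4))) * (a ^ (Q - 2) * b ^ 2) := by
      positivity
    have h10 : 0 ≤ (α + K * α ^ 2 * (25 / 4)) * b ^ Q := mul_nonneg hC1 hbQ
    calc (a ^ 2 + 2 * s + b ^ 2) ^ (Q / 2) ≤ 3 ^ Q * b ^ Q := h1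
      _ ≤ a ^ Q + Q * a ^ (Q - 2) * s + (3 ^ Q + Q * 2 ^ (Q - 1) + (α + K * α ^ 2 * (25 / 4))) *
          (a ^ (Q - 2) * b ^ 2 + b ^ Q) := by
          rw [mul_add]
          nlinarith
  · have ha0 : 0 < a := by linarith
    set t := b / a with ht
    set s' := s / a ^ 2 with hs'
    have ht0 : 0 ≤ t := by positivity
    have ht1 : t ≤ 1 / 2 := by
      rw [ht, div_le_iff₀ ha0]; linarith
    have hbt : b = t * a := by rw [ht]; field_simp
    have hss : s = s' * a ^ 2 := by rw [hs']; field_simp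
    have ha2 : 0 < a ^ 2 := by positivity
    have hab2 : a * b = t * a ^ 2 := by rw [hbt]; ring
    have hs'1 : -t ≤ s' := by
      rw [hs', le_div_iff₀ ha2]
      rw [hab2] at hs1
      linarith
    have hs'2 : s' ≤ t := by
      rw [hs', div_le_iff₀ ha2]
      rw [hab2] at hs2
      linarith
    set y := 2 * s' + t ^ 2 with hy
    have hy1 : |y| ≤ 5 / 2 * t := by
      rw [abs_le]
      constructor <;> nlinarith
    have hy0 : 0 ≤ 1 + y := by nlinarith [sq_nonneg (1 - t)]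
    have hbase : a ^ 2 + 2 * s + b ^ 2 = a ^ 2 * (1 + y) := by
      rw [hss, hbt, hy]; ring
    have h1 : (1 + y) ^ α ≤ 1 + α * y + K * (α * y) ^ 2 := by
      calc (1 + y) ^ α ≤ (Real.exp y) ^ α := by
            apply Real.rpow_le_rpow hy0 _ (by linarith)
            have := Real.add_one_le_exp y
            linarith
        _ = Real.exp (α * y) := by rw [← Real.exp_mul, mul_comm]
        _ ≤ 1 + α * y + K * (α * y) ^ 2 := by
            apply exp_le
            rw [abs_mul, abs_of_nonneg (by linarith : (0 : ℝ) ≤ α)]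
            apply mul_le_mul_of_nonneg_left _ (by linarith)
            linarith
    have h2 : K * (α * y) ^ 2 ≤ K * α ^ 2 * (25 / 4) * t ^ 2 := by
      have h3 : y ^ 2 ≤ (5 / 2 * t) ^ 2 := by
        rw [← sq_abs y]
        exact pow_le_pow_left₀ (abs_nonneg _) hy1 2
      calc K * (α * y) ^ 2 = K * α ^ 2 * y ^ 2 := by ring
        _ ≤ K * α ^ 2 * (5 / 2 * t) ^ 2 := mul_le_mul_of_nonneg_left h3 (by positivity)
        _ = _ := by ring
    have h4 : (1 + y) ^ α ≤ 1 + Q * s' + (α + K * α ^ 2 * (25 / 4)) * t ^ 2 := by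
      have h5 : α * y = Q * s' + α * t ^ 2 := by rw [hy, hα]; ring
      calc (1 + y) ^ α ≤ 1 + α * y + K * (α * y) ^ 2 := h1
        _ ≤ 1 + (Q * s' + α * t ^ 2) + K * α ^ 2 * (25 / 4) * t ^ 2 := by
            rw [← h5]; linarith
        _ = _ := by ring
    have h6 : (a ^ 2) ^ α = a ^ Q := by
      rw [← Real.rpow_natCast, ← Real.rpow_mul ha0.le]
      congr 1
      rw [hα]
      push_cast
      ring
    have h7 : a ^ Q = a ^ (Q - 2) * a ^ 2 := by
      rw [Real.rpow_sub ha0, Real.rpow_two]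
      field_simp
    have h8 : 0 ≤ (3 ^ Q + Q * 2 ^ (Q - 1)) * (a ^ (Q - 2) * b ^ 2) := by positivity
    have h9 : 0 ≤ (3 ^ Q + Q * 2 ^ (Q - 1) + (α + K * α ^ 2 * (25 / 4))) * b ^ Q := by positivity
    calc (a ^ 2 + 2 * s + b ^ 2) ^ (Q / 2) = a ^ Q * (1 + y) ^ α := by
          rw [hbase, ← hα, Real.mul_rpow (by positivity) hy0, h6]
      _ ≤ a ^ Q * (1 + Q * s' + (α + K * α ^ 2 * (25 / 4)) * t ^ 2) :=
          mul_le_mul_of_nonneg_left h4 haQ
      _ = a ^ Q + Q * a ^ (Q - 2) * s + (α + K * α ^ 2 * (25 / 4)) * (a ^ (Q - 2) * b ^ 2) := by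
          rw [hss, hbt, mul_add, mul_add, mul_one]
          have e1 : a ^ Q * (Q * s') = Q * a ^ (Q - 2) * (s' * a ^ 2) := by rw [h7]; ring
          have e2 : a ^ Q * ((α + K * α ^ 2 * (25 / 4)) * t ^ 2) =
              (α + K * α ^ 2 * (25 / 4)) * (a ^ (Q - 2) * (t * a) ^ 2) := by rw [h7]; ring
          rw [e1, e2]
      _ ≤ _ := by
          have e3 : a ^ Q + Q * a ^ (Q - 2) * s +
              (3 ^ Q + Q * 2 ^ (Q - 1) + (α + K * α ^ 2 * (25 / 4))) *
                (a ^ (Q - 2) * b ^ 2 + b ^ Q) =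
              a ^ Q + Q * a ^ (Q - 2) * s + (α + K * α ^ 2 * (25 / 4)) * (a ^ (Q - 2) * b ^ 2) +
              ((3 ^ Q + Q * 2 ^ (Q - 1)) * (a ^ (Q - 2) * b ^ 2) +
              (3 ^ Q + Q * 2 ^ (Q - 1) + (α + K * α ^ 2 * (25 / 4))) * b ^ Q) := by ring
          rw [e3]
          exact le_add_of_nonneg_right (add_nonneg h8 h9)

end Pool.Agent.MP_bc5265.R2
end

section
/-!
# Region `R_2`, module RKB
-/
open MeasureTheory Finset Matrix
open scoped ENNReal

namespace Pool.Agent.MP_bc5265.R2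

open Pool.Agent.MP_bc5265.S Pool.Agent.MP_bc5265

theorem specRKB : SpecRKB := by
  classical
  intro I J _ _ _ Y Z I1 K0
  have h := rank_bound (n := {i // i ∈ I1 ∩ K0}) (J := J) (fun i j => Y i.1 j) (fun j i => Z j i.1)
  have hc : (Fintype.card {i // i ∈ I1 ∩ K0} : ℝ) = ((I1 ∩ K0).card : ℝ) := by
    rw [Fintype.card_coe]
  rw [hc] at h
  refine h.trans ?_
  have e : ∀ i i' : {i // i ∈ I1 ∩ K0}, (if i = i' then (1 : ℝ) else 0) =
      if i.1 = i'.1 then 1 else 0 := by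
    intro i i'
    simp only [Subtype.ext_iff]
  simp_rw [e]
  have h1 : ∑ i : {i // i ∈ I1 ∩ K0}, ∑ i' : {i // i ∈ I1 ∩ K0},
      ((if i.1 = i'.1 then (1 : ℝ) else 0) - ∑ j, Y i.1 j * Z j i'.1) ^ 2 =
      ∑ i ∈ I1 ∩ K0, ∑ k ∈ I1 ∩ K0, ((if i = k then (1 : ℝ) else 0) - ∑ j, Y i j * Z j k) ^ 2 := by
    rw [Finset.sum_coe_sort (I1 ∩ K0) (fun i => ∑ i' : {i // i ∈ I1 ∩ K0},
      ((if i = i'.1 then (1 : ℝ) else 0) - ∑ j, Y i j * Z j i'.1) ^ 2)]
    refine Finset.sum_congr rfl (fun i _ => ?_)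
    rw [Finset.sum_coe_sort (I1 ∩ K0) (fun i' =>
      ((if i = i' then (1 : ℝ) else 0) - ∑ j, Y i j * Z j i') ^ 2)]
  rw [h1]
  calc ∑ i ∈ I1 ∩ K0, ∑ k ∈ I1 ∩ K0, ((if i = k then (1 : ℝ) else 0) - ∑ j, Y i j * Z j k) ^ 2
      ≤ ∑ i ∈ I1 ∩ K0, ∑ k ∈ K0, ((if i = k then (1 : ℝ) else 0) - ∑ j, Y i j * Z j k) ^ 2 :=
        Finset.sum_le_sum (fun i _ => Finset.sum_le_sum_of_subset_of_nonneg
          Finset.inter_subset_right (fun _ _ _ => sq_nonneg _))
    _ ≤ _ := Finset.sum_le_sum_of_subset_of_nonneg Finset.inter_subset_left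
          (fun _ _ _ => Finset.sum_nonneg (fun _ _ => sq_nonneg _))

end Pool.Agent.MP_bc5265.R2
end

section
/-!
# STE: Stein's inequality on the dyadic grid, vector valued
-/
set_option linter.unusedSectionVars false

open MeasureTheory Finset Matrix
open scoped ENNReal

namespace Pool.Agent.MP_bc5265.R2

open Pool.Agent.MP_bc5265.S Pool.Agent.MP_bc5265

noncomputable section

namespace STEM

open OPSM DOOM

variable {L : ℕ}

lemma MX_nonneg (f : Fin (2 ^ L) → ℝ) (x : Fin (2 ^ L)) : 0 ≤ MX f x := by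
  have h1 := Finset.le_sup' (fun k => |(EM L k *ᵥ f) x|) (show 0 ∈ range (L + 2) by simp)
  exact (abs_nonneg _).trans h1

lemma row_le (k : ℕ) (x : Fin (2 ^ L)) : ∑ y, EM L k x y ≤ 1 := by
  cases k with
  | zero => simp [EM]
  | succ k => exact (EM_row L k x).le

lemma jensen (k : ℕ) (f : Fin (2 ^ L) → ℝ) (x : Fin (2 ^ L)) :
    ((EM L k *ᵥ f) x) ^ 2 ≤ (EM L k *ᵥ fun y => f y ^ 2) x := by
  have h1 : ∀ (g : Fin (2 ^ L) → ℝ) z, (EM L k *ᵥ g) z = ∑ w, EM L k z w * g w := fun g z => rfl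
  rw [h1, h1]
  have hcs := sum_mul_sq_le_sq_mul_sq univ (fun y => Real.sqrt (EM L k x y))
    (fun y => Real.sqrt (EM L k x y) * f y)
  have e1 : ∀ y, Real.sqrt (EM L k x y) * (Real.sqrt (EM L k x y) * f y) = EM L k x y * f y := by
    intro y
    rw [← mul_assoc, Real.mul_self_sqrt (EM_nonneg L k x y)]
  have e2 : ∀ y, Real.sqrt (EM L k x y) ^ 2 = EM L k x y := fun y =>
    Real.sq_sqrt (EM_nonneg L k x y)
  have e3 : ∀ y, (Real.sqrt (EM L k x y) * f y) ^ 2 = EM L k x y * f y ^ 2 := by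
    intro y
    rw [mul_pow, e2]
  simp only [e1, e2, e3] at hcs
  have h2 : 0 ≤ ∑ y, EM L k x y * f y ^ 2 :=
    sum_nonneg fun y _ => mul_nonneg (EM_nonneg L k x y) (sq_nonneg _)
  have h3 := row_le k x
  nlinarith

lemma rpow_sub_one_mul (a t : ℝ) (ha : 1 < a) (ht : 0 ≤ t) : t ^ (a - 1) * t = t ^ a := by
  rcases ht.eq_or_lt with h0 | h0
  · rw [← h0, mul_zero, Real.zero_rpow (by linarith : a ≠ 0)]
  · nth_rewrite 2 [← Real.rpow_one t]
    rw [← Real.rpow_add h0]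
    congr 1
    ring

/-- the scalar inequality for nonnegative functions -/
lemma scalar (a C : ℝ) (ha : 1 < a) (hC : 0 < C)
    (hD : ∀ f : Fin (2 ^ L) → ℝ, ∑ x, MX f x ^ (a / (a - 1)) ≤ C * ∑ x, |f x| ^ (a / (a - 1)))
    (w : ℕ → Fin (2 ^ L) → ℝ) (hw : ∀ k x, 0 ≤ w k x) :
    ∑ x, (∑ k ∈ range (L + 2), (EM L k *ᵥ w k) x) ^ a ≤
      (2 * ((2 * C) ^ (1 / (a / (a - 1)))) ^ a) * ∑ x, (∑ k ∈ range (L + 2), w k x) ^ a := by
  have ha0 : 0 < a := by linarith
  have ha1 : 0 < a - 1 := by linarith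
  set b : ℝ := a / (a - 1) with hb
  have hb1 : 1 < b := by
    rw [hb, lt_div_iff₀ ha1]; linarith
  have hb0 : 0 < b := by linarith
  have hconj : a.HolderConjugate b := by
    have := Real.HolderConjugate.conjExponent ha
    simpa [Real.conjExponent] using this
  set lam : ℝ := (2 * C) ^ (1 / b) with hlam
  have hlam0 : 0 < lam := by positivity
  have hlamb : lam ^ b = 2 * C := by
    rw [hlam, ← Real.rpow_mul (by positivity), one_div, inv_mul_cancel₀ hb0.ne', Real.rpow_one]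
  set G : Fin (2 ^ L) → ℝ := fun x => ∑ k ∈ range (L + 2), (EM L k *ᵥ w k) x with hG
  set W : Fin (2 ^ L) → ℝ := fun x => ∑ k ∈ range (L + 2), w k x with hW
  have hG0 : ∀ x, 0 ≤ G x := fun x => sum_nonneg fun k _ => EM_nn k (hw k) x
  have hW0 : ∀ x, 0 ≤ W x := fun x => sum_nonneg fun k _ => hw k x
  set h : Fin (2 ^ L) → ℝ := fun x => G x ^ (a - 1) with hh
  have hh0 : ∀ x, 0 ≤ h x := fun x => Real.rpow_nonneg (hG0 x) _
  have h1 : ∑ x, G x ^ a = ∑ x, ∑ k ∈ range (L + 2), w k x * (EM L k *ᵥ h) x := by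
    calc ∑ x, G x ^ a = ∑ x, h x * G x := by
          refine sum_congr rfl fun x _ => ?_
          rw [hh]
          exact (rpow_sub_one_mul a _ ha (hG0 x)).symm
      _ = ∑ x, ∑ k ∈ range (L + 2), (EM L k *ᵥ w k) x * h x := by
          refine sum_congr rfl fun x _ => ?_
          rw [mul_comm, hG]
          simp only
          rw [sum_mul]
      _ = ∑ k ∈ range (L + 2), ∑ x, (EM L k *ᵥ w k) x * h x := sum_comm
      _ = ∑ k ∈ range (L + 2), ∑ x, w k x * (EM L k *ᵥ h) x :=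
          sum_congr rfl fun k _ => sum_EM_mul k _ _
      _ = _ := sum_comm
  have h2 : ∀ x, ∑ k ∈ range (L + 2), w k x * (EM L k *ᵥ h) x ≤ W x * MX h x := by
    intro x
    rw [hW]
    simp only
    rw [sum_mul]
    refine sum_le_sum fun k hk => mul_le_mul_of_nonneg_left ?_ (hw k x)
    exact (le_abs_self _).trans (Finset.le_sup' (fun k => |(EM L k *ᵥ h) x|) hk)
  have h3 : ∀ x, W x * MX h x ≤ lam ^ a / a * W x ^ a + 1 / (b * (2 * C)) * MX h x ^ b := by
    intro x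
    have hy := Real.young_inequality_of_nonneg (mul_nonneg hlam0.le (hW0 x))
      (div_nonneg (MX_nonneg h x) hlam0.le) hconj
    have e1 : lam * W x * (MX h x / lam) = W x * MX h x := by field_simp
    rw [e1, Real.mul_rpow hlam0.le (hW0 x), Real.div_rpow (MX_nonneg h x) hlam0.le, hlamb] at hy
    refine hy.trans (le_of_eq ?_)
    field_simp
  have h4 : ∑ x, MX h x ^ b ≤ C * ∑ x, G x ^ a := by
    refine (hD h).trans (le_of_eq ?_)
    congr 1
    refine sum_congr rfl fun x _ => ?_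
    rw [abs_of_nonneg (hh0 x), hh]
    simp only
    rw [← Real.rpow_mul (hG0 x)]
    congr 1
    rw [hb]
    field_simp
  have h5 : ∑ x, G x ^ a ≤ lam ^ a / a * ∑ x, W x ^ a + 1 / (b * (2 * C)) * ∑ x, MX h x ^ b := by
    rw [mul_sum, mul_sum, ← sum_add_distrib, h1]
    exact sum_le_sum fun x _ => (h2 x).trans (h3 x)
  have hX0 : 0 ≤ ∑ x, G x ^ a := sum_nonneg fun x _ => Real.rpow_nonneg (hG0 x) _
  have hY0 : 0 ≤ ∑ x, W x ^ a := sum_nonneg fun x _ => Real.rpow_nonneg (hW0 x) _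
  have h6 : 1 / (b * (2 * C)) * ∑ x, MX h x ^ b ≤ 1 / 2 * ∑ x, G x ^ a := by
    calc 1 / (b * (2 * C)) * ∑ x, MX h x ^ b ≤ 1 / (b * (2 * C)) * (C * ∑ x, G x ^ a) := by gcongr
      _ = 1 / (2 * b) * ∑ x, G x ^ a := by field_simp
      _ ≤ _ := by
          have : 1 / (2 * b) ≤ 1 / 2 := one_div_le_one_div_of_le two_pos (by linarith)
          gcongr
  have h7 : lam ^ a / a * ∑ x, W x ^ a ≤ lam ^ a * ∑ x, W x ^ a := by
    have : lam ^ a / a ≤ lam ^ a := div_le_self (by positivity) ha.le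
    gcongr
  have h8 : ∑ x, G x ^ a ≤ 2 * lam ^ a * ∑ x, W x ^ a := by linarith
  exact h8

end STEM

open OPSM DOOM STEM

theorem specSTE (hDOO : SpecDOO) : SpecSTE := by
  intro Q hQ
  set a : ℝ := Q / 2 with ha
  have ha1 : 1 < a := by rw [ha]; linarith
  have ha0 : 0 < a := by linarith
  have hb1 : 1 < a / (a - 1) := by
    rw [lt_div_iff₀ (by linarith)]; linarith
  obtain ⟨C, hC, hD⟩ := hDOO (a / (a - 1)) hb1
  refine ⟨2 * ((2 * C) ^ (1 / (a / (a - 1)))) ^ a, by positivity, ?_⟩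
  intro L J _ u
  have hD' : ∀ f : Fin (2 ^ L) → ℝ,
      ∑ x, MX f x ^ (a / (a - 1)) ≤ C * ∑ x, |f x| ^ (a / (a - 1)) := by
    intro f
    have h1 := hD L f
    unfold mom at h1
    simp only [abs_of_nonneg (MX_nonneg f _)] at h1
    have hc : (0 : ℝ) < Fintype.card (Fin (2 ^ L)) := by
      rw [Fintype.card_fin]; positivity
    rw [← mul_div_assoc, div_le_div_iff_of_pos_right hc] at h1
    exact h1
  have h1 := scalar a C ha1 hC hD' (fun k x => ∑ i, u k x i ^ 2)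
    (fun k x => sum_nonneg fun i _ => sq_nonneg _)
  refine le_trans ?_ h1
  refine sum_le_sum fun x _ => ?_
  refine Real.rpow_le_rpow (sum_nonneg fun k _ => sum_nonneg fun i _ => sq_nonneg _) ?_ ha0.le
  refine sum_le_sum fun k _ => ?_
  calc ∑ i, ((EM L k *ᵥ fun y => u k y i) x) ^ 2
      ≤ ∑ i, (EM L k *ᵥ fun y => u k y i ^ 2) x := sum_le_sum fun i _ => jensen k _ x
    _ = (EM L k *ᵥ fun y => ∑ i, u k y i ^ 2) x := by
        have e1 : ∀ (g : Fin (2 ^ L) → ℝ) z, (EM L k *ᵥ g) z = ∑ w, EM L k z w * g w :=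
          fun g z => rfl
        simp only [e1, mul_sum]
        rw [sum_comm]

end

end Pool.Agent.MP_bc5265.R2
end

section
/-!
# BQ: the windows (region `R_1`, `q > 2`)
-/
set_option linter.unusedSectionVars false

open MeasureTheory Finset Matrix
open scoped ENNReal

namespace Pool.Agent.MP_bc5265.RQ

open Pool.Agent.MP_bc5265.S Pool.Agent.MP_bc5265.R2

open R2.BM in
theorem specBQ (hRWQ : SpecRWQ) (hWN2 : SpecWN2) (hWS2 : SpecWS2) (hFA2 : SpecFA2)
    (hSC2 : SpecSC2) (hWHC : R2.SpecWHC) (hDEC : R2.SpecDEC) (hWCO : R2.SpecWCO)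
    (hNRM : R2.SpecNRM) : SpecBQ := by
  classical
  intro d q p ρ hd hq hqp hρ hρ1 hρq
  have hd1 : 1 ≤ d := by omega
  have hq0 : 0 < q := by linarith
  have hp0 : 0 < p := by linarith
  have hdR : (2 : ℝ) ≤ d := by exact_mod_cast hd
  have hρ0 : 0 < ρ := lt_trans (by positivity) hρ
  set s : ℝ := min ρ (1 / q) with hs
  have hs0 : 0 < s := by rw [hs]; exact lt_min hρ0 (by positivity)
  have hs2 : s < 1 / 2 := by
    rw [hs]
    exact (min_le_right _ _).trans_lt (one_div_lt_one_div_of_lt (by norm_num) hq)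
  obtain ⟨α, C0, h0, hα, hC0, hrw⟩ := hRWQ d q p hd1 hq hqp
  obtain ⟨h1, hh1⟩ := eventually_le d
  obtain ⟨c2, hc2⟩ := exists_nat_gt ((d : ℝ) / α)
  set C1 : ℕ := d + h0 + h1 + c2 with hC1
  have hdC1 : d ≤ C1 := by omega
  have hC1p : 1 ≤ C1 := by omega
  have hαC1 : (d : ℝ) ≤ α * C1 := by
    have h2 : (d : ℝ) / α < C1 := hc2.trans_le (by rw [hC1]; exact_mod_cast (by omega))
    rw [div_lt_iff₀ hα] at h2
    linarith
  have hYex : ∀ h e : ℕ, ∃ Y : Finset (Gr d (3 * h)), C1 ≤ h → 2 ^ e ≤ h ^ d →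
      RWP2 d q p α C0 h e Y := by
    intro h e
    by_cases hc : C1 ≤ h ∧ 2 ^ e ≤ h ^ d
    · obtain ⟨Y, hY⟩ := hrw h e (by omega) hc.2
      exact ⟨Y, fun _ _ => hY⟩
    · exact ⟨∅, fun h1 h2 => absurd ⟨h1, h2⟩ hc⟩
  choose Y hY using hYex
  obtain ⟨CF, hCF, hfar⟩ := hFA2 d C1 q ρ hd1 hq hρ0
  obtain ⟨CN, hCN, hwno⟩ := hWN2 d q p ρ C0 hd1 hq hqp hρ hρq hC0
  obtain ⟨CS, hCS, hsca⟩ := hSC2 d C1 s hd hC1p hs0 hs2
  obtain ⟨CW, hCW, hwsc⟩ := hWS2 d q hq
  refine ⟨CF + CW * CN * CS + 2 ^ (d + 1) * CS, by positivity, ?_⟩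
  intro n hn
  obtain ⟨i0, hi0, hsum⟩ := hsca n hn
  set K : ℕ × (Fin d → ℕ) → ℝ := fun w => 2 ^ d * (((Y (ht n w) (i0 w.1)).card : ℝ) *
    2 ^ (∑ j, (aa w j + 2 ^ w.1 - 1 - aa w j)) / 2 ^ (ht n w + i0 w.1)) * 2 ^ d with hK
  have hK0 : ∀ w, 0 ≤ K w := fun w => by rw [hK]; positivity
  refine ⟨∑ w ∈ TT d C1 n, K w + 1, by
    have := sum_nonneg (s := TT d C1 n) (fun w _ => hK0 w); linarith, ?_⟩
  intro L hL
  obtain ⟨w1, w2, w3, w4⟩ := hWHC d C1 n hd1 hdC1
  obtain ⟨e1, e2, e3, e4, e5, e6, e7⟩ := hDEC d L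
  obtain ⟨-, hn0, -, -, hnadd, hnsum, -, -, -⟩ := hNRM (Gr d L) q (by linarith)
  obtain ⟨-, -, -, -, -, -, -, -, hnmono⟩ := hNRM (Gr d L) p (by linarith)
  -- facts on the windows
  have hfacts : ∀ w ∈ TT d C1 n, selW C1 n w.1 w.2 ∧ ∑ j, aa w j + ht n w = n ∧
      C1 * 2 ^ w.1 ≤ ht n w ∧ ht n w < 2 * C1 * 2 ^ w.1 ∧ C1 ≤ ht n w ∧ 1 ≤ ht n w ∧
      2 ^ i0 w.1 ≤ ht n w ^ d ∧ i0 w.1 ≤ ht n w ∧ (∀ j, aa w j ≤ n) ∧ ht n w ≤ n := by
    intro w hw
    have hsel : selW C1 n w.1 w.2 := (mem_filter.mp hw).2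
    obtain ⟨f1, f2, f3⟩ := sel_facts hWHC hd1 hdC1 hsel
    have f4 : C1 * 1 ≤ C1 * 2 ^ w.1 := Nat.mul_le_mul_left _ Nat.one_le_two_pow
    have f4' : 1 * 2 ^ w.1 ≤ C1 * 2 ^ w.1 := Nat.mul_le_mul_right _ hC1p
    have f5 : C1 ≤ ht n w := by omega
    have f6 : 2 ^ w.1 ≤ ht n w := by omega
    have f9 : ht n w ≤ n := by omega
    have f10 : 1 ≤ ht n w := by omega
    have f7 : 2 ^ i0 w.1 ≤ ht n w ^ d := by
      calc 2 ^ i0 w.1 ≤ (2 ^ w.1) ^ (d - 1) := hi0 w.1 (f6.trans f9)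
        _ ≤ ht n w ^ (d - 1) := Nat.pow_le_pow_left f6 _
        _ ≤ ht n w ^ d := Nat.pow_le_pow_right f10 (Nat.sub_le _ _)
    refine ⟨hsel, f1, f2, f3, f5, f10, f7, ?_, ?_, f9⟩
    · exact (Nat.pow_le_pow_iff_right (by norm_num)).mp (f7.trans (hh1 _ (by omega)))
    · intro j
      have : aa w j ≤ ∑ j, aa w j := single_le_sum (fun _ _ => Nat.zero_le _) (mem_univ j)
      omega
  set Pi : ℕ × (Fin d → ℕ) → MG d L :=
    fun w => tens fun j => EM L (aa w j + 2 ^ w.1) - EM L (aa w j) with hPi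
  set Ww : ℕ × (Fin d → ℕ) → MG d L := fun w => WM L (aa w) (fun j => aa w j + 2 ^ w.1 - 1)
    (2 ^ (ht n w + i0 w.1)) (Y (ht n w) (i0 w.1)) with hWw
  set Rr : ℕ × (Fin d → ℕ) → MG d L := fun w => tens fun j => 1 - IM L (aa w j) with hRr
  have hwco : ∀ w ∈ TT d C1 n, (∃ S : Finset (Gr d L),
      S.card ≤ 2 ^ d * (2 ^ (∑ j, aa w j) * (Y (ht n w) (i0 w.1)).card) ∧
        Cols (Pi w * Ww w * Rr w) S) ∧
      SupB (Pi w * Ww w * Rr w) (K w) := by
    intro w hw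
    obtain ⟨-, -, -, -, -, -, -, -, f8, -⟩ := hfacts w hw
    exact hWCO d L (3 * ht n w) (aa w) (fun j => aa w j + 2 ^ w.1 - 1) (2 ^ w.1)
      (2 ^ (ht n w + i0 w.1)) (Y (ht n w) (i0 w.1)) (fun j => by have := f8 j; omega)
      (by positivity)
  have hSex : ∀ w, ∃ S : Finset (Gr d L), w ∈ TT d C1 n →
      S.card ≤ 2 ^ d * (2 ^ (∑ j, aa w j) * (Y (ht n w) (i0 w.1)).card) ∧
        Cols (Pi w * Ww w * Rr w) S := by
    intro w
    by_cases hw : w ∈ TT d C1 n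
    · obtain ⟨S, hS⟩ := (hwco w hw).1
      exact ⟨S, fun _ => hS⟩
    · exact ⟨∅, fun h => absurd h hw⟩
  choose S hS using hSex
  -- bounds for the cardinalities of the scales
  set c : ℕ → ℝ := fun i =>
    (((box d (n + 1)).filter (fun κ => selW C1 n i κ)).card : ℝ) with hc
  have hc0 : ∀ i, 0 ≤ c i := fun i => by rw [hc]; positivity
  have hcz : ∀ i, n < 2 ^ i → c i = 0 := by
    intro i hi
    have h2 : (box d (n + 1)).filter (fun κ => selW C1 n i κ) = ∅ := by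
      rw [filter_eq_empty_iff]
      intro κ _ hκ
      have h3 := (w3 i κ hκ).1
      have h4 : 1 * 2 ^ i ≤ C1 * 2 ^ i := Nat.mul_le_mul_right _ hC1p
      omega
    show (((box d (n + 1)).filter (fun κ => selW C1 n i κ)).card : ℝ) = 0
    rw [h2]
    simp
  have hcb : ∀ i, c i * ((2 : ℝ) ^ i) ^ (d - 1) ≤ C1 * (n : ℝ) ^ (d - 1) := by
    intro i
    show (((box d (n + 1)).filter (fun κ => selW C1 n i κ)).card : ℝ) *
      ((2 : ℝ) ^ i) ^ (d - 1) ≤ C1 * (n : ℝ) ^ (d - 1)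
    exact_mod_cast w4 i (n + 1)
  obtain ⟨hs1, hs3⟩ := hsum (n + 1) c hc0 hcz hcb
  refine ⟨∑ w ∈ TT d C1 n, Pi w * Ww w * Rr w, (TT d C1 n).biUnion S, ?_, ?_, ?_, ?_⟩
  · -- cost
    have k1 : (((TT d C1 n).biUnion S).card : ℝ) ≤ ∑ w ∈ TT d C1 n, ((S w).card : ℝ) := by
      exact_mod_cast card_biUnion_le
    have k2 : ∀ w ∈ TT d C1 n, ((S w).card : ℝ) ≤
        2 ^ (d + 1) * 2 ^ n * (2 : ℝ) ^ i0 w.1 := by
      intro w hw
      obtain ⟨f0, f1, f2, f3, f5, f6, f7, f7', f8, f9⟩ := hfacts w hw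
      have k3 := (hS w hw).1
      have k4 := (hY (ht n w) (i0 w.1) f5 f7).1
      have k5 : (S w).card ≤ 2 ^ (d + 1) * 2 ^ n * 2 ^ i0 w.1 := by
        refine k3.trans ?_
        calc 2 ^ d * (2 ^ (∑ j, aa w j) * (Y (ht n w) (i0 w.1)).card)
            ≤ 2 ^ d * (2 ^ (∑ j, aa w j) * (2 * 2 ^ (ht n w + i0 w.1))) := by gcongr
          _ = 2 ^ (d + 1) * 2 ^ (∑ j, aa w j + ht n w) * 2 ^ i0 w.1 := by ring
          _ = _ := by rw [f1]
      exact_mod_cast k5
    have k3 : ∑ w ∈ TT d C1 n, ((S w).card : ℝ) ≤ 2 ^ (d + 1) * 2 ^ n *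
        ∑ i ∈ range (n + 1), c i * (2 : ℝ) ^ i0 i := by
      refine (sum_le_sum k2).trans_eq ?_
      rw [sum_TT, mul_sum]
      refine sum_congr rfl fun i _ => ?_
      show ∑ κ ∈ (box d (n + 1)).filter (fun κ => selW C1 n i κ),
        (2 : ℝ) ^ (d + 1) * 2 ^ n * (2 : ℝ) ^ i0 i = _
      rw [sum_const, nsmul_eq_mul]
      ring
    calc _ ≤ 2 ^ (d + 1) * 2 ^ n * (CS * (n : ℝ) ^ (d - 1)) :=
          k1.trans (k3.trans (mul_le_mul_of_nonneg_left hs3 (by positivity)))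
      _ = (2 ^ (d + 1) * CS) * (n : ℝ) ^ (d - 1) * 2 ^ n := by ring
      _ ≤ _ := by
          have : 0 ≤ CF + CW * CN * CS := by positivity
          gcongr
          linarith
  · exact cols_sum _ _ _ fun w hw => (hS w hw).2
  · exact supB_mono (supB_sum _ _ _ fun w hw => (hwco w hw).2) (by linarith)
  · -- error
    intro β g hβ hGG
    have hGGq : GG n q ρ β g := fun v =>
      ⟨(hGG v).1, fun h => (hnmono q _ (by linarith) hqp).trans ((hGG v).2 h)⟩
    set V : ℕ × (Fin d → ℕ) → Gr d L → ℝ := fun w =>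
      ((tens fun j => EM L (aa w j + 2 ^ w.1)) - Ww w) *ᵥ (Rr w *ᵥ g) with hV
    have hPV : ∀ w, Pi w *ᵥ g - (Pi w * Ww w * Rr w) *ᵥ g = Pi w *ᵥ V w := by
      intro w
      have k1 := (e6 (aa w) (2 ^ w.1)).1
      have k2 := (e6 (aa w) (2 ^ w.1)).2.1
      have k3 : Pi w * Rr w = Pi w := k1
      have k4 : (Pi w * tens fun j => EM L (aa w j + 2 ^ w.1)) = Pi w := k2
      show _ = Pi w *ᵥ (((tens fun j => EM L (aa w j + 2 ^ w.1)) - Ww w) *ᵥ (Rr w *ᵥ g))
      rw [Matrix.mulVec_mulVec, Matrix.mulVec_mulVec, ← Matrix.sub_mulVec, Matrix.mul_sub,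
        Matrix.sub_mul, k4, k3]
    have hdec : g - (∑ w ∈ TT d C1 n, Pi w * Ww w * Rr w) *ᵥ g =
        ∑ t ∈ (box d (L + 1)).filter (fun t => n < ∑ j, t j + C1), Dt L t *ᵥ g +
          ∑ w ∈ TT d C1 n, Pi w *ᵥ V w := by
      have k1 : g = ∑ t ∈ box d (L + 1), Dt L t *ᵥ g := by
        rw [← Matrix.sum_mulVec, e1 (L + 1) le_rfl, Matrix.one_mulVec]
      have k2 : ∑ t ∈ box d (L + 1), Dt L t *ᵥ g =
          ∑ t ∈ (box d (L + 1)).filter (fun t => n < ∑ j, t j + C1), Dt L t *ᵥ g +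
          ∑ t ∈ (box d (L + 1)).filter (fun t => ¬ (n < ∑ j, t j + C1)), Dt L t *ᵥ g :=
        (sum_filter_add_sum_filter_not _ _ _).symm
      have k3 := partition hDEC hWHC hd1 hdC1 (show n ≤ L by omega) g
      have k4 : ∑ w ∈ TT d C1 n, Pi w *ᵥ V w =
          ∑ w ∈ TT d C1 n, Pi w *ᵥ g - (∑ w ∈ TT d C1 n, Pi w * Ww w * Rr w) *ᵥ g := by
        rw [Matrix.sum_mulVec, ← sum_sub_distrib]
        exact sum_congr rfl fun w _ => (hPV w).symm
      rw [k4, ← k3]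
      nth_rewrite 1 [k1]
      rw [k2]
      abel
    -- one window
    have hwin : ∀ w ∈ TT d C1 n, nrm q (V w) ≤ CN * β *
        (((2 * C1 * 2 ^ w.1 : ℕ) : ℝ) ^ (d - 1) * (2 : ℝ) ^ (-(s * i0 w.1))) := by
      intro w hw
      obtain ⟨f0, f1, f2, f3, f5, f6, f7, f7', f8, f9⟩ := hfacts w hw
      have k0 : (d : ℝ) * (2 ^ w.1 : ℕ) ≤ α * (ht n w : ℕ) := by
        calc (d : ℝ) * (2 ^ w.1 : ℕ) ≤ α * C1 * (2 ^ w.1 : ℕ) :=
              mul_le_mul_of_nonneg_right hαC1 (by positivity)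
          _ = α * ((C1 * 2 ^ w.1 : ℕ) : ℝ) := by push_cast; ring
          _ ≤ α * (ht n w : ℕ) := mul_le_mul_of_nonneg_left (by exact_mod_cast f2) hα.le
      have k1 := hwno α (ht n w) (i0 w.1) (Y (ht n w) (i0 w.1)) hα f6 f7' (hY _ _ f5 f7) n L
        (2 ^ w.1) (aa w) β g Nat.one_le_two_pow f1 k0
        (le_trans (Nat.le_mul_of_pos_left _ hC1p) f2) (fun j => by have := f8 j; omega) hβ hGG
      refine k1.trans ?_
      have k2 : (ht n w : ℝ) ^ (d - 1) ≤ ((2 * C1 * 2 ^ w.1 : ℕ) : ℝ) ^ (d - 1) :=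
        pow_le_pow_left₀ (by positivity) (by exact_mod_cast f3.le) _
      gcongr
    have hscale : nrm q (∑ w ∈ TT d C1 n, Pi w *ᵥ V w) ≤
        CW * CN * CS * β * (n : ℝ) ^ (((d : ℝ) - 1) * (1 - s)) := by
      rw [sum_TT]
      refine (hnsum _ _ _).trans ?_
      have k1 : ∀ i ∈ range (n + 1),
          nrm q (∑ κ ∈ (box d (n + 1)).filter (fun κ => selW C1 n i κ),
            Pi (i, κ) *ᵥ V (i, κ)) ≤ CW * CN * β *
            (c i ^ (1 / 2 : ℝ) * (((2 * C1 * 2 ^ i : ℕ) : ℝ) ^ (d - 1) *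
              (2 : ℝ) ^ (-(s * i0 i)))) := by
        intro i hi
        have k2 := hwsc L i (n + 1) ((box d (n + 1)).filter (fun κ => selW C1 n i κ))
          (CN * β * (((2 * C1 * 2 ^ i : ℕ) : ℝ) ^ (d - 1) * (2 : ℝ) ^ (-(s * i0 i))))
          (fun κ => V (i, κ))
          (filter_subset _ _) (by positivity) (fun κ hκ => by
            apply hwin (i, κ)
            unfold TT
            rw [mem_filter] at hκ ⊢
            exact ⟨mem_product.mpr ⟨hi, hκ.1⟩, hκ.2⟩)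
        refine k2.trans_eq ?_
        rw [hc]
        ring
      refine (sum_le_sum k1).trans ?_
      rw [← mul_sum]
      calc _ ≤ CW * CN * β * (CS * (n : ℝ) ^ (((d : ℝ) - 1) * (1 - s))) :=
            mul_le_mul_of_nonneg_left hs1 (by positivity)
        _ = _ := by ring
    rw [hdec]
    refine (hnadd _ _).trans ?_
    have hn1 : (1 : ℝ) ≤ n := by exact_mod_cast hn
    have k0 : (n : ℝ) ^ (((d : ℝ) - 1) / 2) ≤ (n : ℝ) ^ (((d : ℝ) - 1) * (1 - s)) := by
      refine Real.rpow_le_rpow_of_exponent_le hn1 ?_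
      have : ((d : ℝ) - 1) * (1 / 2) ≤ ((d : ℝ) - 1) * (1 - s) :=
        mul_le_mul_of_nonneg_left (by linarith) (by linarith)
      linarith
    have k1 := hfar n L β g hn hβ hGGq
    have k1' : CF * β * (n : ℝ) ^ (((d : ℝ) - 1) / 2) ≤
        CF * β * (n : ℝ) ^ (((d : ℝ) - 1) * (1 - s)) := by gcongr
    have k2 : 0 ≤ 2 ^ (d + 1) * CS * β * (n : ℝ) ^ (((d : ℝ) - 1) * (1 - s)) := by positivity
    calc _ ≤ CF * β * (n : ℝ) ^ (((d : ℝ) - 1) * (1 - s)) +
          CW * CN * CS * β * (n : ℝ) ^ (((d : ℝ) - 1) * (1 - s)) :=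
            add_le_add (k1.trans k1') hscale
      _ ≤ _ := by linarith

end Pool.Agent.MP_bc5265.RQ
end
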