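import Pool.Agent.Lib.MP_bc5265_an.R2.SpecR
import Pool.Agent.Lib.MP_bc5265_an.R2.SpecB
import Mathlib
import Pool.Agent.Lib.MP_bc5265_an.RQ.Spec
import Pool.Agent.Lib.MP_bc5265_an.R2.RW

section
/-!
# DUA: duality
-/
open MeasureTheory Finset Matrix
open scoped ENNReal

namespace Pool.Agent.MP_bc5265.R2

open Pool.Agent.MP_bc5265.S

namespace DUAM

variable {d H : ℕ}

lemma card_axis (H b : ℕ) (hb : b ≤ H) (y : Fin (2 ^ H)) :
    (univ.filter fun x : Fin (2 ^ H) => (x : ℕ) / 2 ^ (H - b) = (y : ℕ) / 2 ^ (H - b)).card =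
      2 ^ (H - b) := by
  have hpos : 0 < 2 ^ (H - b) := by positivity
  have hc : (y : ℕ) / 2 ^ (H - b) < 2 ^ b := by
    rw [Nat.div_lt_iff_lt_mul hpos, ← pow_add]
    have : b + (H - b) = H := by omega
    rw [this]
    exact y.2
  set c := (y : ℕ) / 2 ^ (H - b) with hcd
  have himg : (univ.filter fun x : Fin (2 ^ H) => (x : ℕ) / 2 ^ (H - b) = c).image
      (fun x : Fin (2 ^ H) => (x : ℕ)) = Finset.Ico (c * 2 ^ (H - b)) ((c + 1) * 2 ^ (H - b)) := by
    ext n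
    simp only [mem_image, mem_filter, mem_univ, true_and, mem_Ico]
    constructor
    · rintro ⟨x, hx, rfl⟩
      rw [← hx]
      exact ⟨Nat.div_mul_le_self _ _, (Nat.div_lt_iff_lt_mul hpos).1 (Nat.lt_succ_self _)⟩
    · rintro ⟨h1, h2⟩
      have h3 : n < 2 ^ H := by
        have h4 : (c + 1) * 2 ^ (H - b) ≤ 2 ^ b * 2 ^ (H - b) := Nat.mul_le_mul_right _ hc
        rw [← pow_add, show b + (H - b) = H by omega] at h4
        omega
      exact ⟨⟨n, h3⟩, Nat.div_eq_of_lt_le (by simpa using h1) (by simpa using h2), rfl⟩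
  have hcard := congrArg Finset.card himg
  rw [Finset.card_image_of_injective _ Fin.val_injective, Nat.card_Ico] at hcard
  rw [hcard, ← Nat.sub_mul]
  simp

lemma card_cell (b : Fin d → ℕ) (hb : ∀ j, b j ≤ H) (y : Gr d H) :
    (univ.filter fun x : Gr d H => sameCell b x y).card = ∏ j, 2 ^ (H - b j) := by
  have h1 : (univ.filter fun x : Gr d H => sameCell b x y) =
      Fintype.piFinset fun j => univ.filter fun t : Fin (2 ^ H) =>
        (t : ℕ) / 2 ^ (H - b j) = (y j : ℕ) / 2 ^ (H - b j) := by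
    ext x
    simp only [Fintype.mem_piFinset, mem_filter, mem_univ, true_and]
    exact Iff.rfl
  rw [h1, Fintype.card_piFinset]
  exact Finset.prod_congr rfl fun j _ => card_axis H (b j) (hb j) (y j)

lemma prod_pow (b : Fin d → ℕ) (hb : ∀ j, b j ≤ H) :
    (∏ j, (2 : ℝ) ^ (H - b j)) * 2 ^ (∑ j, b j) = 2 ^ (d * H) := by
  rw [← Finset.prod_pow_eq_pow_sum, ← Finset.prod_mul_distrib]
  have : ∀ j, (2 : ℝ) ^ (H - b j) * 2 ^ b j = 2 ^ H := by
    intro j
    rw [← pow_add]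
    congr 1
    have := hb j
    omega
  simp only [this]
  rw [Finset.prod_const, Finset.card_univ, Fintype.card_fin, ← pow_mul, mul_comm]

lemma cell_one (b : Fin d → ℕ) (hb : ∀ j, b j ≤ H) (y : Gr d H) :
    (2 : ℝ) ^ (∑ j, b j) / 2 ^ (d * H) *
      ((univ.filter fun x : Gr d H => sameCell b x y).card : ℝ) = 1 := by
  rw [card_cell b hb y]
  push_cast
  have h1 := prod_pow b hb
  rw [div_mul_eq_mul_div, div_eq_one_iff_eq (by positivity), mul_comm]
  exact h1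

lemma same_symm (b : Fin d → ℕ) (x y : Gr d H) : sameCell b x y ↔ sameCell b y x :=
  ⟨fun h j => (h j).symm, fun h j => (h j).symm⟩

/-- averaging a function which is constant on the cells -/
lemma avg_cell (b : Fin d → ℕ) (hb : ∀ j, b j ≤ H) (u f : Gr d H → ℝ) (hu : CellC b u) :
    ∑ x, u x * ((2 : ℝ) ^ (∑ j, b j) / 2 ^ (d * H) *
      ∑ y, if sameCell b x y then f y else 0) = ∑ y, u y * f y := by
  calc ∑ x, u x * ((2 : ℝ) ^ (∑ j, b j) / 2 ^ (d * H) *
      ∑ y, if sameCell b x y then f y else 0)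
      = ∑ x, ∑ y, (2 : ℝ) ^ (∑ j, b j) / 2 ^ (d * H) *
          (if sameCell b x y then u y * f y else 0) := by
        refine Finset.sum_congr rfl fun x _ => ?_
        rw [← Finset.mul_sum, mul_left_comm, Finset.mul_sum]
        congr 1
        refine Finset.sum_congr rfl fun y _ => ?_
        split_ifs with h
        · rw [hu x y h]
        · rw [mul_zero]
    _ = ∑ y, ∑ x, (2 : ℝ) ^ (∑ j, b j) / 2 ^ (d * H) *
          (if sameCell b x y then u y * f y else 0) := Finset.sum_comm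
    _ = ∑ y, u y * f y := by
        refine Finset.sum_congr rfl fun y _ => ?_
        rw [← Finset.mul_sum, ← Finset.sum_filter, Finset.sum_const, nsmul_eq_mul, ← mul_assoc,
          cell_one b hb y, one_mul]

lemma avn_eq (b : Fin d → ℕ) (hb : ∀ j, b j ≤ H) (ψ : Gr d H → ℝ) (x : Gr d H) :
    avn b ψ x = (2 : ℝ) ^ (∑ j, b j) / 2 ^ (d * H) *
      ∑ y, if sameCell b x y then ψ y else 0 := by
  have h1 : ∀ y, (tens fun j => EM H (b j + 1)) x y =
      if sameCell b x y then (2 : ℝ) ^ (∑ j, b j) / 2 ^ (d * H) else 0 := by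
    intro y
    unfold tens
    by_cases h : sameCell b x y
    · rw [if_pos h]
      have : ∀ j, EM H (b j + 1) (x j) (y j) = 1 / (2 : ℝ) ^ (H - b j) := by
        intro j
        show (if (x j : ℕ) / 2 ^ (H - b j) = (y j : ℕ) / 2 ^ (H - b j) then
          1 / (2 : ℝ) ^ (H - b j) else 0) = _
        rw [if_pos (h j)]
      simp only [this]
      rw [Finset.prod_div_distrib, Finset.prod_const_one, eq_div_iff (by positivity),
        ← prod_pow b hb, one_div, ← mul_assoc, inv_mul_cancel₀, one_mul]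
      exact (Finset.prod_pos fun j _ => by positivity).ne'
    · rw [if_neg h]
      have h2 : ∃ j, ¬ (x j : ℕ) / 2 ^ (H - b j) = (y j : ℕ) / 2 ^ (H - b j) := by
        by_contra hcon
        push Not at hcon
        exact h hcon
      obtain ⟨j, hj⟩ := h2
      refine Finset.prod_eq_zero (Finset.mem_univ j) ?_
      show (if (x j : ℕ) / 2 ^ (H - b j) = (y j : ℕ) / 2 ^ (H - b j) then
          1 / (2 : ℝ) ^ (H - b j) else 0) = 0
      rw [if_neg hj]
  unfold avn Matrix.mulVec dotProduct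
  rw [Finset.mul_sum]
  refine Finset.sum_congr rfl fun y _ => ?_
  show (tens fun j => EM H (b j + 1)) x y * ψ y = _
  rw [h1]
  split_ifs <;> simp

lemma noise (g h i0 : ℕ) (b : Fin d → ℕ) (hb : ∀ j, b j ≤ H) (hg : g + h + i0 = d * H)
    (ω : Gr d H → Fin (2 ^ g)) (ψ : Gr d H → ℝ) (x : Gr d H) :
    avn b ψ x - smn b (2 ^ (h + i0)) (univ.filter fun y => (ω y : ℕ) = 0) ψ x =
      -((2 : ℝ) ^ (∑ j, b j) / 2 ^ (d * H) *
        ∑ y, if sameCell b x y then zt g (ω y) * ψ y else 0) := by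
  rw [avn_eq b hb]
  unfold smn
  rw [Finset.sum_filter]
  have e : (2 : ℝ) ^ (∑ j, b j) / 2 ^ (h + i0) = (2 : ℝ) ^ (∑ j, b j) / 2 ^ (d * H) * 2 ^ g := by
    rw [← hg]
    field_simp
    ring
  rw [e, mul_assoc, ← mul_sub, ← mul_neg]
  congr 1
  rw [Finset.mul_sum, ← Finset.sum_sub_distrib, ← Finset.sum_neg_distrib]
  refine Finset.sum_congr rfl fun y _ => ?_
  by_cases h1 : sameCell b x y
  · by_cases h2 : (ω y : ℕ) = 0
    · simp only [if_pos h1, if_pos h2, zt]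
      ring
    · simp only [if_pos h1, if_neg h2, zt]
      ring
  · by_cases h2 : (ω y : ℕ) = 0
    · simp [if_neg h1]
    · simp [if_neg h1]

end DUAM

open DUAM in
theorem specDUA : SpecDUA := by
  intro d H g h i0 p K v b ω hp hg hv hb hK hT ψ hψ
  set N : Gr d H → ℝ := fun x => avn b ψ x -
      smn b (2 ^ (h + i0)) (univ.filter fun y => (ω y : ℕ) = 0) ψ x with hN
  have hNx : ∀ x, N x = -((2 : ℝ) ^ (∑ j, b j) / 2 ^ (d * H) *
        ∑ y, if sameCell b x y then zt g (ω y) * ψ y else 0) :=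
    fun x => noise g h i0 b hb hg ω ψ x
  have hNc : CellC b N := by
    intro x x' hx
    rw [hNx, hNx]
    congr 2
    refine Finset.sum_congr rfl fun y _ => ?_
    have : sameCell b x y ↔ sameCell b x' y :=
      ⟨fun h j => (hx j).symm.trans (h j), fun h j => (hx j).trans (h j)⟩
    by_cases h1 : sameCell b x y
    · rw [if_pos h1, if_pos (this.1 h1)]
    · rw [if_neg h1, if_neg fun h2 => h1 (this.2 h2)]
  set P : ℝ := p / (p - 1) with hP
  have hp1 : 0 < p - 1 := by linarith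
  have hpq : p.HolderConjugate P := Real.HolderConjugate.conjExponent hp
  have hP0 : 0 < P := hpq.symm.pos
  set u : Gr d H → ℝ := fun x => SignType.sign (N x) * |N x| ^ (p - 1) with hu
  have huc : CellC b u := fun x x' hx => by
    simp only [hu]
    rw [hNc x x' hx]
  have hcard : (0 : ℝ) < Fintype.card (Gr d H) := by
    have : Nonempty (Gr d H) := ⟨fun _ => ⟨0, by positivity⟩⟩
    exact_mod_cast Fintype.card_pos
  -- `|u|^P = |N|^p`, `u N = |N|^p`
  have hpne : p ≠ 0 := by linarith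
  have e1 : ∀ x, |u x| ^ P = |N x| ^ p := by
    intro x
    simp only [hu]
    by_cases h0 : N x = 0
    · rw [h0]
      simp [Real.zero_rpow hP0.ne', Real.zero_rpow hpne]
    · have hs : |((SignType.sign (N x) : SignType) : ℝ)| = 1 := by
        rcases lt_or_gt_of_ne h0 with h1 | h1
        · simp [sign_neg h1]
        · simp [sign_pos h1]
      rw [abs_mul, hs, one_mul, abs_of_nonneg (Real.rpow_nonneg (abs_nonneg _) _),
        ← Real.rpow_mul (abs_nonneg _)]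
      congr 1
      rw [hP]
      field_simp
  have e2 : ∀ x, u x * N x = |N x| ^ p := by
    intro x
    simp only [hu]
    by_cases h0 : N x = 0
    · rw [h0]
      simp [Real.zero_rpow hpne]
    · have hs : ((SignType.sign (N x) : SignType) : ℝ) * N x = |N x| := sign_mul_self _
      have habs : 0 < |N x| := abs_pos.2 h0
      calc ((SignType.sign (N x) : SignType) : ℝ) * |N x| ^ (p - 1) * N x
          = |N x| ^ (p - 1) * (((SignType.sign (N x) : SignType) : ℝ) * N x) := by ring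
        _ = |N x| ^ (p - 1) * |N x| ^ (1 : ℝ) := by rw [hs, Real.rpow_one]
        _ = |N x| ^ p := by rw [← Real.rpow_add habs]; congr 1; ring
  have hmom : mom P u = mom p N := by
    unfold mom
    simp only [e1]
  -- duality
  have hdual : ∑ x, u x * N x = -∑ x, ψ x * Tu g v ω u x := by
    have h1 := avg_cell b hb u (fun y => zt g (ω y) * ψ y) huc
    have h2 := avg_cell v hv ψ (fun y => zt g (ω y) * u y) hψ
    have h3 : ∑ x, u x * N x = -∑ x, u x * ((2 : ℝ) ^ (∑ j, b j) / 2 ^ (d * H) *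
        ∑ y, if sameCell b x y then zt g (ω y) * ψ y else 0) := by
      rw [← Finset.sum_neg_distrib]
      refine Finset.sum_congr rfl fun x _ => ?_
      rw [hNx]
      ring
    rw [h3, h1]
    congr 1
    unfold Tu
    rw [h2]
    refine Finset.sum_congr rfl fun y _ => ?_
    ring
  -- Hölder
  have hhol : ∑ x, |N x| ^ p ≤ (∑ x, |ψ x| ^ p) ^ (1 / p) * (∑ x, |Tu g v ω u x| ^ P) ^ (1 / P) := by
    have h1 := Real.inner_le_Lp_mul_Lq univ (fun x => -ψ x) (fun x => Tu g v ω u x) hpq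
    simp only [abs_neg] at h1
    refine le_trans (le_of_eq ?_) h1
    rw [← Finset.sum_congr rfl fun x _ => e2 x, hdual, ← Finset.sum_neg_distrib]
    refine Finset.sum_congr rfl fun x _ => ?_
    ring
  have hmp : mom p N ≤ nrm p ψ * nrm P (Tu g v ω u) := by
    unfold nrm mom
    have hs : (Fintype.card (Gr d H) : ℝ) ^ (1 / p) * (Fintype.card (Gr d H) : ℝ) ^ (1 / P) =
        Fintype.card (Gr d H) := by
      rw [← Real.rpow_add hcard, one_div, one_div, hpq.inv_add_inv_eq_one, Real.rpow_one]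
    have h0 : 0 ≤ ∑ x, |ψ x| ^ p := Finset.sum_nonneg fun x _ => Real.rpow_nonneg (abs_nonneg _) _
    have h0' : 0 ≤ ∑ x, |Tu g v ω u x| ^ P :=
      Finset.sum_nonneg fun x _ => Real.rpow_nonneg (abs_nonneg _) _
    rw [Real.div_rpow h0 hcard.le, Real.div_rpow h0' hcard.le, div_mul_div_comm, hs]
    exact div_le_div_of_nonneg_right hhol hcard.le
  have hm0 : 0 ≤ mom p N :=
    div_nonneg (Finset.sum_nonneg fun x _ => Real.rpow_nonneg (abs_nonneg _) _) hcard.le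
  have hn0 : 0 ≤ nrm p ψ := Real.rpow_nonneg (div_nonneg
    (Finset.sum_nonneg fun x _ => Real.rpow_nonneg (abs_nonneg _) _) hcard.le) _
  have hfin : mom p N ≤ (K * nrm p ψ) * mom p N ^ (1 / P) := by
    refine hmp.trans ?_
    have h1 := hT u huc
    have h2 : nrm P u = mom p N ^ (1 / P) := by
      unfold nrm
      rw [hmom]
    rw [h2] at h1
    calc nrm p ψ * nrm P (Tu g v ω u) ≤ nrm p ψ * (K * mom p N ^ (1 / P)) :=
          mul_le_mul_of_nonneg_left h1 hn0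
      _ = _ := by ring
  show mom p N ^ (1 / p) ≤ K * nrm p ψ
  rcases eq_or_lt_of_le hm0 with h0 | h0
  · rw [← h0, Real.zero_rpow (by positivity)]
    positivity
  · have h1 : mom p N ^ (1 / p) * mom p N ^ (1 / P) = mom p N := by
      rw [← Real.rpow_add h0, one_div, one_div, hpq.inv_add_inv_eq_one, Real.rpow_one]
    have h2 : 0 < mom p N ^ (1 / P) := Real.rpow_pos_of_pos h0 _
    refine le_of_mul_le_mul_right ?_ h2
    rw [h1]
    exact hfin

end Pool.Agent.MP_bc5265.R2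
end

section
/-!
# Row 230, FAR (helper70): the levels which are not covered by windows
-/
set_option linter.unusedSectionVars false

open MeasureTheory Finset Matrix
open scoped ENNReal

namespace Pool.Agent.MP_bc5265.R2

open Pool.Agent.MP_bc5265.S

namespace FARM

/-- the numbers: bound of one block -/
theorem one_block (x K : ℝ) (hx0 : 0 < x) (hx1 : x < 1) (hK : 1 ≤ K) (C1 n S j : ℕ)
    (hj : S + C1 = n + 1 + j) :
    (S ≤ n → K ≤ K / x ^ C1 * x ^ j) ∧ (n < S → x ^ (S - n) ≤ K / x ^ C1 * x ^ j) := by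
  have hxC : 0 < x ^ C1 := pow_pos hx0 _
  constructor
  · intro hS
    have h1 : j ≤ C1 := by omega
    have h2 : x ^ C1 ≤ x ^ j := pow_le_pow_of_le_one hx0.le hx1.le h1
    rw [div_mul_eq_mul_div, le_div_iff₀ hxC]
    exact mul_le_mul_of_nonneg_left h2 (by linarith)
  · intro hS
    have h1 : j ≤ (S - n) + C1 := by omega
    have h2 : x ^ ((S - n) + C1) ≤ x ^ j := pow_le_pow_of_le_one hx0.le hx1.le h1
    rw [div_mul_eq_mul_div, le_div_iff₀ hxC, ← pow_add]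
    have h3 : 0 < x ^ j := pow_pos hx0 _
    calc x ^ (S - n + C1) ≤ x ^ j := h2
      _ ≤ K * x ^ j := by nlinarith

end FARM

theorem specFAR (hDTG : SpecDTG) (hMTP : SpecMTP) (hLAY : SpecLAY) (hSER : SpecSER)
    (hNRM : SpecNRM) (hDEC : SpecDEC) : SpecFAR := by
  intro d C1 p ρ hd hp1 hp2 hρ
  have hp0 : 0 < p := by linarith
  obtain ⟨C0, hC0, hdtg⟩ := hDTG d p ρ hd hp1 hρ
  obtain ⟨x, hx⟩ : ∃ x : ℝ, x = (2 : ℝ) ^ (-(ρ * p)) := ⟨_, rfl⟩
  have hx0 : 0 < x := by rw [hx]; positivity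
  have hx1 : x < 1 := by
    rw [hx]
    apply Real.rpow_lt_one_of_one_lt_of_neg (by norm_num)
    have := mul_pos hρ hp0
    linarith
  obtain ⟨C', hC', hser⟩ := hSER (d - 1) x hx0.le hx1
  obtain ⟨K, hK⟩ : ∃ K : ℝ, K = (((C1 : ℝ) + 1) ^ (d - 1)) ^ p := ⟨_, rfl⟩
  have hK1 : 1 ≤ K := by
    rw [hK]
    apply Real.one_le_rpow _ hp0.le
    apply one_le_pow₀
    have : (0 : ℝ) ≤ C1 := Nat.cast_nonneg _
    linarith
  have hK0 : 0 < K := by linarith
  obtain ⟨Q, hQ⟩ : ∃ Q : ℝ, Q = 2 ^ d * (K / x ^ C1 * (C' * 2 ^ (d - 1))) := ⟨_, rfl⟩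
  have hQ0 : 0 < Q := by rw [hQ]; positivity
  refine ⟨C0 * Q ^ (1 / p), by positivity, ?_⟩
  intro n L β g hn hβ hg
  obtain ⟨n1, n2, n3, -, -, -, -, -, -⟩ := hNRM (Gr d L) p hp1
  obtain ⟨-, -, -, -, -, d6, -⟩ := hDEC d L
  obtain ⟨s, hs⟩ : ∃ s : Finset (Fin d → ℕ),
      s = (box d (L + 1)).filter (fun t => n < ∑ j, t j + C1) := ⟨_, rfl⟩
  rw [← hs]
  have hsub : s ⊆ box d (L + 1) := by rw [hs]; exact Finset.filter_subset _ _
  obtain ⟨U, hU⟩ : ∃ U : (Fin d → ℕ) → Gr d L → ℝ,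
      U = fun κ => if κ ∈ s then Dt L κ *ᵥ g else 0 := ⟨_, rfl⟩
  have hidem : ∀ κ : Fin d → ℕ, (Dt L κ * Dt L κ : MG d L) = Dt L κ := fun κ => (d6 κ 1).2.2
  have hsum : ∑ κ ∈ box d (L + 1), U κ = ∑ κ ∈ s, Dt L κ *ᵥ g := by
    rw [hU, ← Finset.sum_subset hsub]
    · exact Finset.sum_congr rfl fun κ hκ => by rw [if_pos hκ]
    · intro κ _ hκ
      rw [if_neg hκ]
  have hmtp := hMTP d L (L + 1) p (fun k => k) U hp1 hp2 (fun a b hab => hab) (by
      intro κ _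
      have e : (tens fun j => EM L (κ j + 1) - EM L (κ j) : MG d L) = Dt L κ := rfl
      rw [e, hU]
      by_cases hκ : κ ∈ s
      · simp only [if_pos hκ]
        rw [Matrix.mulVec_mulVec, hidem]
      · simp only [if_neg hκ]
        exact Matrix.mulVec_zero _)
  rw [hsum] at hmtp
  have hbox : ∑ κ ∈ box d (L + 1), mom p (U κ) = ∑ κ ∈ s, mom p (Dt L κ *ᵥ g) := by
    rw [← Finset.sum_subset hsub]
    · exact Finset.sum_congr rfl fun κ hκ => by rw [hU]; simp only [if_pos hκ]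
    · intro κ _ hκ
      rw [hU]
      simp only [if_neg hκ]
      unfold mom
      simp [Real.zero_rpow hp0.ne']
  rw [hbox] at hmtp
  have hb0 : 0 ≤ C0 * β := mul_nonneg hC0.le hβ
  -- one block
  have hone : ∀ t ∈ s, ∀ j : ℕ, ∑ i, t i + C1 = n + 1 + j →
      mom p (Dt L t *ᵥ g) ≤ (C0 * β) ^ p * (K / x ^ C1 * x ^ j) := by
    intro t _ j hj
    obtain ⟨e1, e2⟩ := FARM.one_block x K hx0 hx1 hK1 C1 n (∑ i, t i) j hj
    obtain ⟨g1, g2⟩ := hdtg n L β g t hβ hg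
    have hpow0 : 0 ≤ (C0 * β) ^ p := Real.rpow_nonneg hb0 _
    rw [← n3]
    by_cases hS : ∑ i, t i ≤ n
    · have h1 := g1 hS
      have h2 : ((n - ∑ i, t i : ℕ) + 1 : ℝ) ≤ (C1 : ℝ) + 1 := by
        have h3 : n - ∑ i, t i ≤ C1 := by omega
        have h4 : ((n - ∑ i, t i : ℕ) : ℝ) ≤ C1 := by exact_mod_cast h3
        linarith
      have h3 : ((n - ∑ i, t i : ℕ) + 1 : ℝ) ^ (d - 1) ≤ ((C1 : ℝ) + 1) ^ (d - 1) :=
        pow_le_pow_left₀ (by positivity) h2 _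
      have h4 : nrm p (Dt L t *ᵥ g) ≤ C0 * β * ((C1 : ℝ) + 1) ^ (d - 1) :=
        h1.trans (mul_le_mul_of_nonneg_left h3 hb0)
      calc nrm p (Dt L t *ᵥ g) ^ p ≤ (C0 * β * ((C1 : ℝ) + 1) ^ (d - 1)) ^ p :=
            Real.rpow_le_rpow (n2 _) h4 hp0.le
        _ = (C0 * β) ^ p * K := by rw [Real.mul_rpow hb0 (by positivity), hK]
        _ ≤ (C0 * β) ^ p * (K / x ^ C1 * x ^ j) := mul_le_mul_of_nonneg_left (e1 hS) hpow0
    · have hS' : n < ∑ i, t i := not_le.1 hS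
      have h1 := g2 hS'
      have h2 : ((2 : ℝ) ^ (-(ρ * (((∑ i, t i : ℕ) : ℝ) - (n : ℝ))))) ^ p = x ^ (∑ i, t i - n) := by
        rw [hx, ← Real.rpow_mul (by norm_num), ← Real.rpow_natCast, ← Real.rpow_mul (by norm_num)]
        congr 1
        rw [Nat.cast_sub hS'.le]
        ring
      calc nrm p (Dt L t *ᵥ g) ^ p
          ≤ (C0 * β * (2 : ℝ) ^ (-(ρ * (((∑ i, t i : ℕ) : ℝ) - (n : ℝ))))) ^ p :=
            Real.rpow_le_rpow (n2 _) h1 hp0.le
        _ = (C0 * β) ^ p * x ^ (∑ i, t i - n) := by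
            rw [Real.mul_rpow hb0 (by positivity), h2]
        _ ≤ (C0 * β) ^ p * (K / x ^ C1 * x ^ j) := mul_le_mul_of_nonneg_left (e2 hS') hpow0
  -- grouping
  obtain ⟨J, hJ⟩ : ∃ J : ℕ, J = d * (L + 1) + C1 + 1 := ⟨_, rfl⟩
  have hmap : ∀ t ∈ s, (∑ i, t i + C1 - n - 1) ∈ range J := by
    intro t ht
    have h1 := hsub ht
    have h2 : ∑ i, t i ≤ d * (L + 1) := by
      calc ∑ i, t i ≤ ∑ _i : Fin d, (L + 1) := Finset.sum_le_sum fun i _ => by
            have h3 := Fintype.mem_piFinset.1 h1 i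
            exact (Finset.mem_range.1 h3).le
        _ = d * (L + 1) := by simp
    rw [Finset.mem_range]
    omega
  have hcard : ∀ j ∈ range J, ((s.filter fun t => ∑ i, t i + C1 - n - 1 = j).card : ℝ) ≤
      (((n + 1 : ℕ) : ℝ) + j + 1) ^ (d - 1) := by
    intro j _
    have h1 := hLAY d (L + 1) (n + 1 + j - C1) 0 hd (by simp)
    have h2 : (s.filter fun t => ∑ i, t i + C1 - n - 1 = j) ⊆
        (box d (L + 1)).filter fun v => (∀ i, (0 : Fin d → ℕ) i ≤ v i) ∧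
          ∑ i, v i = n + 1 + j - C1 := by
      intro t ht
      rw [Finset.mem_filter] at ht ⊢
      obtain ⟨ht1, ht2⟩ := ht
      refine ⟨hsub ht1, fun i => Nat.zero_le _, ?_⟩
      rw [hs, Finset.mem_filter] at ht1
      omega
    have h3 : (s.filter fun t => ∑ i, t i + C1 - n - 1 = j).card ≤
        (n + 1 + j - C1 - ∑ i, (0 : Fin d → ℕ) i + 1) ^ (d - 1) :=
      (Finset.card_le_card h2).trans h1
    have h4 : (n + 1 + j - C1 - ∑ i, (0 : Fin d → ℕ) i + 1) ^ (d - 1) ≤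
        (n + 1 + j + 1) ^ (d - 1) := Nat.pow_le_pow_left (by omega) _
    have h5 : ((s.filter fun t => ∑ i, t i + C1 - n - 1 = j).card : ℝ) ≤
        (((n + 1 + j + 1) ^ (d - 1) : ℕ) : ℝ) := by exact_mod_cast h3.trans h4
    refine h5.trans (le_of_eq ?_)
    push_cast
    ring
  have hgrp : ∑ κ ∈ s, mom p (Dt L κ *ᵥ g) ≤
      (C0 * β) ^ p * (K / x ^ C1 * (C' * ((n + 1 : ℕ) : ℝ) ^ (d - 1))) := by
    rw [← Finset.sum_fiberwise_of_maps_to hmap]
    have hpow0 : 0 ≤ (C0 * β) ^ p := Real.rpow_nonneg hb0 _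
    calc ∑ j ∈ range J, ∑ t ∈ s.filter (fun t => ∑ i, t i + C1 - n - 1 = j), mom p (Dt L t *ᵥ g)
        ≤ ∑ j ∈ range J, (C0 * β) ^ p * (K / x ^ C1) *
            ((((n + 1 : ℕ) : ℝ) + j + 1) ^ (d - 1) * x ^ j) := by
          apply Finset.sum_le_sum
          intro j hj
          calc ∑ t ∈ s.filter (fun t => ∑ i, t i + C1 - n - 1 = j), mom p (Dt L t *ᵥ g)
              ≤ ∑ _t ∈ s.filter (fun t => ∑ i, t i + C1 - n - 1 = j),
                (C0 * β) ^ p * (K / x ^ C1 * x ^ j) := by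
                apply Finset.sum_le_sum
                intro t ht
                rw [Finset.mem_filter] at ht
                obtain ⟨ht1, ht2⟩ := ht
                apply hone t ht1 j
                rw [hs, Finset.mem_filter] at ht1
                omega
            _ = ((s.filter fun t => ∑ i, t i + C1 - n - 1 = j).card : ℝ) *
                ((C0 * β) ^ p * (K / x ^ C1 * x ^ j)) := by
                rw [Finset.sum_const, nsmul_eq_mul]
            _ ≤ (((n + 1 : ℕ) : ℝ) + j + 1) ^ (d - 1) *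
                ((C0 * β) ^ p * (K / x ^ C1 * x ^ j)) :=
                mul_le_mul_of_nonneg_right (hcard j hj) (by positivity)
            _ = (C0 * β) ^ p * (K / x ^ C1) *
                ((((n + 1 : ℕ) : ℝ) + j + 1) ^ (d - 1) * x ^ j) := by ring
      _ = (C0 * β) ^ p * (K / x ^ C1) *
            ∑ j ∈ range J, (((n + 1 : ℕ) : ℝ) + j + 1) ^ (d - 1) * x ^ j :=
          (Finset.mul_sum _ _ _).symm
      _ ≤ (C0 * β) ^ p * (K / x ^ C1) * (C' * ((n + 1 : ℕ) : ℝ) ^ (d - 1)) :=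
          mul_le_mul_of_nonneg_left (hser (n + 1) J (by omega)) (by positivity)
      _ = (C0 * β) ^ p * (K / x ^ C1 * (C' * ((n + 1 : ℕ) : ℝ) ^ (d - 1))) := by ring
  have hn1 : ((n + 1 : ℕ) : ℝ) ^ (d - 1) ≤ 2 ^ (d - 1) * (n : ℝ) ^ (d - 1) := by
    rw [← mul_pow]
    apply pow_le_pow_left₀ (by positivity)
    have : (1 : ℝ) ≤ n := by exact_mod_cast hn
    push_cast
    linarith
  have hfin : mom p (∑ κ ∈ s, Dt L κ *ᵥ g) ≤ (C0 * β) ^ p * (Q * (n : ℝ) ^ (d - 1)) := by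
    have hpow0 : 0 ≤ (C0 * β) ^ p := Real.rpow_nonneg hb0 _
    calc mom p (∑ κ ∈ s, Dt L κ *ᵥ g) ≤ 2 ^ d * ∑ κ ∈ s, mom p (Dt L κ *ᵥ g) := hmtp
      _ ≤ 2 ^ d * ((C0 * β) ^ p * (K / x ^ C1 * (C' * ((n + 1 : ℕ) : ℝ) ^ (d - 1)))) :=
          mul_le_mul_of_nonneg_left hgrp (by positivity)
      _ ≤ 2 ^ d * ((C0 * β) ^ p * (K / x ^ C1 * (C' * (2 ^ (d - 1) * (n : ℝ) ^ (d - 1))))) := by
          apply mul_le_mul_of_nonneg_left _ (by positivity)
          apply mul_le_mul_of_nonneg_left _ hpow0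
          apply mul_le_mul_of_nonneg_left _ (by positivity)
          exact mul_le_mul_of_nonneg_left hn1 hC'.le
      _ = (C0 * β) ^ p * (Q * (n : ℝ) ^ (d - 1)) := by rw [hQ]; ring
  unfold nrm
  have hnn : (0 : ℝ) ≤ (n : ℝ) ^ (d - 1) := by positivity
  calc mom p (∑ κ ∈ s, Dt L κ *ᵥ g) ^ (1 / p)
      ≤ ((C0 * β) ^ p * (Q * (n : ℝ) ^ (d - 1))) ^ (1 / p) :=
        Real.rpow_le_rpow (n1 _) hfin (by positivity)
    _ = C0 * Q ^ (1 / p) * β * (n : ℝ) ^ (((d : ℝ) - 1) / p) := by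
        rw [Real.mul_rpow (Real.rpow_nonneg hb0 _) (mul_nonneg hQ0.le hnn),
          Real.mul_rpow hQ0.le hnn, ← Real.rpow_mul hb0, mul_one_div_cancel hp0.ne', Real.rpow_one,
          ← Real.rpow_natCast (n : ℝ) (d - 1), ← Real.rpow_mul (Nat.cast_nonneg _),
          Nat.cast_sub hd, Nat.cast_one, mul_one_div]
        ring

end Pool.Agent.MP_bc5265.R2
end

section
/-!
# Region `R_2`: module ZEX (expansion and expectation of the moments of the dual operator)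
-/
set_option linter.unusedSectionVars false

open MeasureTheory Finset Matrix
open scoped ENNReal

namespace Pool.Agent.MP_bc5265.R2

open Pool.Agent.MP_bc5265.S

namespace ZEXM

/-- Number of points in a dyadic interval. -/
theorem axis (H a : ℕ) (ha : a ≤ H) (q : ℕ) (hq : q < 2 ^ a) :
    (∑ t : Fin (2 ^ H), if (t : ℕ) / 2 ^ (H - a) = q then (1 : ℝ) else 0) = 2 ^ (H - a) := by
  have h1 := Fin.sum_univ_eq_sum_range (fun t : ℕ => if t / 2 ^ (H - a) = q then (1 : ℝ) else 0)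
    (2 ^ H)
  rw [h1, Finset.sum_boole]
  have h2 : (range (2 ^ H)).filter (fun t : ℕ => t / 2 ^ (H - a) = q) =
      Finset.Ico (q * 2 ^ (H - a)) ((q + 1) * 2 ^ (H - a)) := by
    ext t
    simp only [Finset.mem_filter, Finset.mem_range, Finset.mem_Ico]
    have hp : 0 < 2 ^ (H - a) := by positivity
    have hH : 2 ^ a * 2 ^ (H - a) = 2 ^ H := by
      rw [← pow_add]; congr 1; omega
    constructor
    · rintro ⟨-, h⟩
      rw [Nat.div_eq_iff hp] at h
      have : (q + 1) * 2 ^ (H - a) = q * 2 ^ (H - a) + 2 ^ (H - a) := by ring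
      omega
    · rintro ⟨h, h'⟩
      have h3 : (q + 1) * 2 ^ (H - a) ≤ 2 ^ a * 2 ^ (H - a) :=
        Nat.mul_le_mul_right _ hq
      refine ⟨by omega, ?_⟩
      rw [Nat.div_eq_iff hp]
      have : (q + 1) * 2 ^ (H - a) = q * 2 ^ (H - a) + 2 ^ (H - a) := by ring
      omega
  rw [h2, Nat.card_Ico]
  have : (q + 1) * 2 ^ (H - a) - q * 2 ^ (H - a) = 2 ^ (H - a) := by
    rw [← Nat.sub_mul]; simp
  rw [this]; push_cast; rfl

theorem quo (H a : ℕ) (ha : a ≤ H) (y : Fin (2 ^ H)) : (y : ℕ) / 2 ^ (H - a) < 2 ^ a := by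
  rw [Nat.div_lt_iff_lt_mul (by positivity), ← pow_add]
  have : a + (H - a) = H := by omega
  rw [this]; exact y.2

/-- Number of points in a cell. -/
theorem cellcard {d H : ℕ} (v : Fin d → ℕ) (hv : ∀ j, v j ≤ H) (x : Gr d H) :
    (2 : ℝ) ^ (∑ j, v j) / 2 ^ (d * H) *
      (∑ y : Gr d H, if sameCell v x y then (1 : ℝ) else 0) = 1 := by
  have h1 : (∑ y : Gr d H, if sameCell v x y then (1 : ℝ) else 0) =
      ∏ j, ∑ t : Fin (2 ^ H), if (t : ℕ) / 2 ^ (H - v j) = (x j : ℕ) / 2 ^ (H - v j) then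
        (1 : ℝ) else 0 := by
    rw [Finset.prod_univ_sum, Fintype.piFinset_univ]
    refine Finset.sum_congr rfl fun y _ => ?_
    rw [Finset.prod_boole]
    congr 1
    simp only [sameCell, Finset.mem_univ, true_imp_iff, eq_iff_iff]
    exact forall_congr' fun j => eq_comm
  rw [h1]
  have h2 : ∀ j, (∑ t : Fin (2 ^ H), if (t : ℕ) / 2 ^ (H - v j) = (x j : ℕ) / 2 ^ (H - v j) then
        (1 : ℝ) else 0) = 2 ^ (H - v j) := fun j => axis H (v j) (hv j) _ (quo H (v j) (hv j) (x j))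
  rw [Finset.prod_congr rfl fun j _ => h2 j, Finset.prod_pow_eq_pow_sum]
  have h3 : ∑ j, v j + ∑ j, (H - v j) = d * H := by
    rw [← Finset.sum_add_distrib]
    rw [Finset.sum_congr rfl fun j _ => Nat.add_sub_cancel' (hv j)]
    simp
  rw [← h3, pow_add]
  have : (2 : ℝ) ^ (∑ j, v j) ≠ 0 := by positivity
  have : (2 : ℝ) ^ (∑ j, (H - v j)) ≠ 0 := by positivity
  field_simp

theorem sameCell_comm {d H : ℕ} (v : Fin d → ℕ) (x y : Gr d H) :
    sameCell v x y ↔ sameCell v y x := by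
  unfold sameCell
  exact forall_congr' fun j => eq_comm

theorem cardGr (d H : ℕ) : (Fintype.card (Gr d H) : ℝ) = 2 ^ (d * H) := by
  have : Fintype.card (Gr d H) = (2 ^ H) ^ d := by simp
  rw [this]; push_cast; rw [← pow_mul, mul_comm]

theorem abspow (y : ℝ) (k : ℕ) : |y| ^ ((2 * k : ℕ) : ℝ) = y ^ (2 * k) := by
  rw [Real.rpow_natCast, ← abs_pow, abs_of_nonneg (Even.pow_nonneg ⟨k, by ring⟩ y)]

theorem momeq {d H : ℕ} (k : ℕ) (f : Gr d H → ℝ) :
    mom (2 * k : ℕ) f = (∑ x, f x ^ (2 * k)) / 2 ^ (d * H) := by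
  unfold mom
  rw [cardGr]
  congr 1
  exact Finset.sum_congr rfl fun x _ => abspow _ _

/-- The dual operator as a sum over the cells. -/
theorem Tu_eq {d H : ℕ} (g : ℕ) (v b : Fin d → ℕ) (hb : ∀ j, b j ≤ H) (U : (Fin d → ℕ) → ℝ)
    (ω : Gr d H → Fin (2 ^ g)) (x : Gr d H) :
    Tu g v ω (fun y => U fun j => (y j : ℕ) / 2 ^ (H - b j)) x =
      ∑ c ∈ Fintype.piFinset (fun j : Fin d => range (2 ^ b j)), U c * Bc g v b c x ω := by
  unfold Tu Bc
  have h1 : ∀ c : Fin d → ℕ, U c * ((2 : ℝ) ^ (∑ j, v j) / 2 ^ (d * H) *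
      ∑ y : Gr d H, if sameCell v x y ∧ inC b c y then zt g (ω y) else 0) =
      (2 : ℝ) ^ (∑ j, v j) / 2 ^ (d * H) *
      ∑ y : Gr d H, U c * if sameCell v x y ∧ inC b c y then zt g (ω y) else 0 := by
    intro c
    rw [← Finset.mul_sum]; ring
  rw [Finset.sum_congr rfl fun c _ => h1 c, ← Finset.mul_sum, Finset.sum_comm]
  congr 1
  refine Finset.sum_congr rfl fun y _ => ?_
  rw [Finset.sum_eq_single (fun j => (y j : ℕ) / 2 ^ (H - b j))]
  · by_cases hs : sameCell v x y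
    · have : inC b (fun j => (y j : ℕ) / 2 ^ (H - b j)) y := fun j => rfl
      rw [if_pos hs, if_pos ⟨hs, this⟩, mul_comm]
    · rw [if_neg hs, if_neg (fun h => hs h.1), mul_zero]
  · intro c _ hc
    rw [if_neg, mul_zero]
    rintro ⟨-, h⟩
    exact hc (funext fun j => (h j).symm)
  · intro h
    exfalso
    apply h
    rw [Fintype.mem_piFinset]
    intro j
    rw [Finset.mem_range]
    exact quo H (b j) (hb j) (y j)

/-- Expansion. -/
theorem expand {d H : ℕ} (g k : ℕ) (v b : Fin d → ℕ) (hb : ∀ j, b j ≤ H)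
    (U : (Fin d → ℕ) → ℝ) (ω : Gr d H → Fin (2 ^ g)) :
    mom (2 * k : ℕ) (Tu g v ω fun y => U fun j => (y j : ℕ) / 2 ^ (H - b j)) =
        ∑ c ∈ Fintype.piFinset (fun _ : Fin (2 * k) =>
            Fintype.piFinset fun j : Fin d => range (2 ^ b j)),
          (∏ i, U (c i)) * Zc g k v b c ω := by
  rw [momeq]
  have h1 : ∀ x : Gr d H, Tu g v ω (fun y => U fun j => (y j : ℕ) / 2 ^ (H - b j)) x ^ (2 * k) =
      ∑ c ∈ Fintype.piFinset (fun _ : Fin (2 * k) =>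
            Fintype.piFinset fun j : Fin d => range (2 ^ b j)),
          (∏ i, U (c i)) * ∏ i, Bc g v b (c i) x ω := by
    intro x
    rw [Tu_eq g v b hb U ω x]
    have h2 := Finset.prod_univ_sum (fun _ : Fin (2 * k) =>
      Fintype.piFinset fun j : Fin d => range (2 ^ b j)) (fun _ c => U c * Bc g v b c x ω)
    rw [Finset.prod_const, Finset.card_univ, Fintype.card_fin] at h2
    rw [h2]
    refine Finset.sum_congr rfl fun c _ => ?_
    rw [Finset.prod_mul_distrib]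
  rw [Finset.sum_congr rfl fun x _ => h1 x, Finset.sum_comm, Finset.sum_div]
  refine Finset.sum_congr rfl fun c _ => ?_
  rw [← Finset.mul_sum, mul_div_assoc]
  rfl

theorem EX_mono {X : Type} [Fintype X] [DecidableEq X] (g : ℕ)
    {f f' : (X → Fin (2 ^ g)) → ℝ} (h : ∀ ω, f ω ≤ f' ω) : EX g f ≤ EX g f' := by
  unfold EX
  exact div_le_div_of_nonneg_right (Finset.sum_le_sum fun ω _ => h ω) (by positivity)

theorem prodpow (s t : ℝ) (hs : 0 ≤ s) (ht : 0 ≤ t) (j k : ℕ) (hj : j ≤ k) :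
    s ^ j * t ^ (k - j) ≤ s ^ k + t ^ k := by
  rcases le_total s t with h | h
  · calc s ^ j * t ^ (k - j) ≤ t ^ j * t ^ (k - j) :=
        mul_le_mul_of_nonneg_right (pow_le_pow_left₀ hs h j) (by positivity)
      _ = t ^ k := by rw [← pow_add]; congr 1; omega
      _ ≤ s ^ k + t ^ k := by have := pow_nonneg hs k; linarith
  · calc s ^ j * t ^ (k - j) ≤ s ^ j * s ^ (k - j) :=
        mul_le_mul_of_nonneg_left (pow_le_pow_left₀ ht h _) (by positivity)
      _ = s ^ k := by rw [← pow_add]; congr 1; omega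
      _ ≤ s ^ k + t ^ k := by have := pow_nonneg ht k; linarith

/-- One term of the moment bound. -/
theorem term {Y : Type} [Fintype Y] (w z : ℝ) (hw : 0 < w) (hz : 0 < z)
    (P : Y → Prop) [DecidablePred P] (hP : w * (∑ y, if P y then (1 : ℝ) else 0) = 1)
    (u : Y → ℝ) (k j : ℕ) (hj1 : 1 ≤ j) (hjk : j ≤ k) :
    (z * ∑ y, (if P y then w * u y else 0) ^ 2) ^ (k - j) *
      (z ^ (2 * j - 1) * ∑ y, (if P y then w * u y else 0) ^ (2 * j)) ≤
      2 * (z * w) ^ (k + j - 1) * (w * ∑ y, if P y then u y ^ (2 * k) else 0) := by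
  have hpow : ∀ m : ℕ, 1 ≤ m → ∑ y, (if P y then w * u y else 0) ^ (2 * m) =
      w ^ (2 * m - 1) * (w * ∑ y, if P y then (u y ^ 2) ^ m else 0) := by
    intro m hm
    rw [← mul_assoc, ← pow_succ, show 2 * m - 1 + 1 = 2 * m by omega, Finset.mul_sum]
    refine Finset.sum_congr rfl fun y _ => ?_
    by_cases h : P y
    · rw [if_pos h, if_pos h, mul_pow, pow_mul (u y)]
    · rw [if_neg h, if_neg h, mul_zero, zero_pow (by omega)]
  have hA : ∀ m : ℕ, 0 ≤ w * ∑ y, if P y then (u y ^ 2) ^ m else 0 := by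
    intro m
    refine mul_nonneg hw.le (Finset.sum_nonneg fun y _ => ?_)
    split_ifs
    · positivity
    · exact le_rfl
  set A1 : ℝ := w * ∑ y, if P y then (u y ^ 2) ^ 1 else 0 with hA1
  have h1 := hpow 1 le_rfl
  have h2 := hpow j hj1
  rw [show 2 * 1 = 2 by norm_num, show 2 - 1 = 1 by norm_num, pow_one, ← hA1] at h1
  rw [h1, h2]
  have hkk : (∑ y, if P y then u y ^ (2 * k) else 0) = ∑ y, if P y then (u y ^ 2) ^ k else 0 := by
    refine Finset.sum_congr rfl fun y _ => ?_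
    rw [pow_mul]
  rw [hkk]
  -- Jensen
  have hJ : A1 ^ k ≤ w * ∑ y, if P y then (u y ^ 2) ^ k else 0 := by
    have hh := Real.pow_arith_mean_le_arith_mean_pow (univ.filter P) (fun _ => w)
      (fun y => u y ^ 2) (fun _ _ => hw.le) (by
        rw [← hP, Finset.mul_sum, Finset.sum_filter]
        refine Finset.sum_congr rfl fun y _ => ?_
        split_ifs <;> simp) (fun y _ => sq_nonneg _) k
    rw [← Finset.mul_sum, ← Finset.mul_sum, Finset.sum_filter, Finset.sum_filter] at hh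
    rw [hA1]
    simpa only [pow_one] using hh
  -- the mixed term
  have hM : A1 ^ (k - j) * (w * ∑ y, if P y then (u y ^ 2) ^ j else 0) ≤
      2 * (w * ∑ y, if P y then (u y ^ 2) ^ k else 0) := by
    have e1 : A1 ^ (k - j) * (w * ∑ y, if P y then (u y ^ 2) ^ j else 0) =
        w * ∑ y, if P y then (u y ^ 2) ^ j * A1 ^ (k - j) else 0 := by
      rw [← mul_assoc, mul_comm (A1 ^ (k - j)) w, mul_assoc, Finset.mul_sum]
      congr 1
      refine Finset.sum_congr rfl fun y _ => ?_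
      split_ifs <;> ring
    have e2 : w * ∑ y, (if P y then (u y ^ 2) ^ j * A1 ^ (k - j) else 0) ≤
        w * ∑ y, (if P y then (u y ^ 2) ^ k + A1 ^ k else 0) := by
      refine mul_le_mul_of_nonneg_left (Finset.sum_le_sum fun y _ => ?_) hw.le
      split_ifs
      · exact prodpow _ _ (sq_nonneg _) (hA 1) j k hjk
      · exact le_rfl
    have e3 : w * ∑ y, (if P y then (u y ^ 2) ^ k + A1 ^ k else 0) =
        (w * ∑ y, if P y then (u y ^ 2) ^ k else 0) + A1 ^ k := by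
      have e4 : ∀ y, (if P y then (u y ^ 2) ^ k + A1 ^ k else 0) =
          (if P y then (u y ^ 2) ^ k else 0) + A1 ^ k * (if P y then (1 : ℝ) else 0) := by
        intro y
        split_ifs <;> ring
      rw [Finset.sum_congr rfl fun y _ => e4 y, Finset.sum_add_distrib, ← Finset.mul_sum, mul_add]
      congr 1
      rw [← mul_assoc, mul_comm w, mul_assoc, hP, mul_one]
    rw [e1]
    linarith
  have e5 : (z * (w * A1)) ^ (k - j) * (z ^ (2 * j - 1) * (w ^ (2 * j - 1) *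
      (w * ∑ y, if P y then (u y ^ 2) ^ j else 0))) =
      (z * w) ^ (k + j - 1) * (A1 ^ (k - j) * (w * ∑ y, if P y then (u y ^ 2) ^ j else 0)) := by
    rw [show k + j - 1 = (k - j) + (2 * j - 1) by omega, pow_add]
    ring
  rw [e5]
  have : 0 ≤ (z * w) ^ (k + j - 1) := by positivity
  calc (z * w) ^ (k + j - 1) * (A1 ^ (k - j) * (w * ∑ y, if P y then (u y ^ 2) ^ j else 0))
      ≤ (z * w) ^ (k + j - 1) * (2 * (w * ∑ y, if P y then (u y ^ 2) ^ k else 0)) :=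
        mul_le_mul_of_nonneg_left hM this
    _ = _ := by ring

/-- The power of `1/ν`. -/
theorem pbound (k j : ℕ) (hk : 1 ≤ k) (hj1 : 1 ≤ j) (hjk : j ≤ k) (J : ℤ) :
    ((2 : ℝ) ^ (J : ℝ)) ^ (k + j - 1) ≤ pb k J := by
  unfold pb
  have h0 : (0 : ℝ) ≤ 2 := by norm_num
  have e : ((2 : ℝ) ^ (J : ℝ)) ^ (k + j - 1) = (2 : ℝ) ^ ((J : ℝ) * ((k + j - 1 : ℕ) : ℝ)) := by
    rw [← Real.rpow_natCast, ← Real.rpow_mul h0]
  rw [e]
  have hc : ((k + j - 1 : ℕ) : ℝ) = k + j - 1 := by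
    rw [Nat.cast_sub (by omega)]; push_cast; ring
  have hj1' : (1 : ℝ) ≤ j := by exact_mod_cast hj1
  have hjk' : (j : ℝ) ≤ k := by exact_mod_cast hjk
  split_ifs with h
  · apply Real.rpow_le_rpow_of_exponent_le (by norm_num)
    have hJ : (J : ℝ) ≤ 0 := by exact_mod_cast h
    rw [hc]
    nlinarith
  · apply Real.rpow_le_rpow_of_exponent_le (by norm_num)
    have hJ : (0 : ℝ) ≤ J := by
      have : 0 ≤ J := by omega
      exact_mod_cast this
    rw [hc]
    nlinarith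

theorem zw (d H g h i0 s : ℕ) (hg : g + h + i0 = d * H) :
    (2 : ℝ) ^ g * ((2 : ℝ) ^ s / 2 ^ (d * H)) =
      (2 : ℝ) ^ (((s : ℤ) - ((h + i0 : ℕ) : ℤ) : ℤ) : ℝ) := by
  rw [Real.rpow_intCast, zpow_sub₀ (by norm_num), zpow_natCast, zpow_natCast, ← hg]
  rw [show g + h + i0 = g + (h + i0) by ring, pow_add 2 g]
  have : (2 : ℝ) ^ g ≠ 0 := by positivity
  have : (2 : ℝ) ^ (h + i0) ≠ 0 := by positivity
  field_simp

theorem pb_nonneg (k : ℕ) (J : ℤ) : 0 ≤ pb k J := by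
  unfold pb
  split_ifs <;> positivity

end ZEXM

open ZEXM in
theorem specZEX (hMOM : SpecMOM) : SpecZEX := by
  intro k hk
  obtain ⟨C, hC, hM⟩ := hMOM k hk
  refine ⟨C * (2 * k), by positivity, ?_⟩
  intro d H g h i0 v b U hg hv hb
  refine ⟨fun ω => expand g k v b hb U ω, ?_⟩
  set u : Gr d H → ℝ := fun y => U fun j => (y j : ℕ) / 2 ^ (H - b j) with hu
  set w : ℝ := (2 : ℝ) ^ (∑ j, v j) / 2 ^ (d * H) with hw
  have hw0 : 0 < w := by positivity
  set J : ℤ := ((∑ j, v j : ℕ) : ℤ) - ((h + i0 : ℕ) : ℤ) with hJ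
  -- bound at a point
  have hpt : ∀ x : Gr d H, EX g (fun ω : Gr d H → Fin (2 ^ g) => Tu g v ω u x ^ (2 * k)) ≤
      C * (2 * k) * pb k J * (w * ∑ y, if sameCell v x y then u y ^ (2 * k) else 0) := by
    intro x
    have h1 := hM (Gr d H) g (fun y => if sameCell v x y then w * u y else 0)
    have h2 : (fun ω : Gr d H → Fin (2 ^ g) => (∑ y, (if sameCell v x y then w * u y else 0) *
        zt g (ω y)) ^ (2 * k)) = fun ω => Tu g v ω u x ^ (2 * k) := by
      funext ω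
      congr 1
      unfold Tu
      rw [← hw, Finset.mul_sum]
      refine Finset.sum_congr rfl fun y _ => ?_
      split_ifs <;> ring
    rw [h2] at h1
    refine h1.trans ?_
    have h3 : mbd g k (fun y => if sameCell v x y then w * u y else 0) ≤
        (2 * k) * pb k J * (w * ∑ y, if sameCell v x y then u y ^ (2 * k) else 0) := by
      unfold mbd
      have h4 : ∀ j ∈ Icc 1 k, ((2 : ℝ) ^ g * ∑ y : Gr d H,
          (if sameCell v x y then w * u y else 0) ^ 2) ^ (k - j) *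
          (((2 : ℝ) ^ g) ^ (2 * j - 1) * ∑ y : Gr d H,
            (if sameCell v x y then w * u y else 0) ^ (2 * j)) ≤
          2 * pb k J * (w * ∑ y, if sameCell v x y then u y ^ (2 * k) else 0) := by
        intro j hj
        rw [Finset.mem_Icc] at hj
        refine (term w ((2 : ℝ) ^ g) hw0 (by positivity) (fun y => sameCell v x y)
          (cellcard v hv x) u k j hj.1 hj.2).trans ?_
        have h5 : ((2 : ℝ) ^ g * w) ^ (k + j - 1) ≤ pb k J := by
          rw [hw, zw d H g h i0 _ hg]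
          exact pbound k j hk hj.1 hj.2 _
        have h6 : 0 ≤ w * ∑ y : Gr d H, (if sameCell v x y then u y ^ (2 * k) else 0) := by
          refine mul_nonneg hw0.le (Finset.sum_nonneg fun y _ => ?_)
          split_ifs
          · rw [pow_mul]; positivity
          · exact le_rfl
        exact mul_le_mul_of_nonneg_right (mul_le_mul_of_nonneg_left h5 (by norm_num)) h6
      refine (Finset.sum_le_sum h4).trans (le_of_eq ?_)
      rw [Finset.sum_const, Nat.card_Icc, nsmul_eq_mul]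
      simp only [Nat.add_sub_cancel]
      ring
    calc C * mbd g k (fun y => if sameCell v x y then w * u y else 0)
        ≤ C * ((2 * k) * pb k J * (w * ∑ y, if sameCell v x y then u y ^ (2 * k) else 0)) :=
          mul_le_mul_of_nonneg_left h3 hC.le
      _ = _ := by ring
  -- average over the points
  have h7 : EX g (fun ω : Gr d H → Fin (2 ^ g) => mom (2 * k : ℕ) (Tu g v ω u)) =
      (∑ x, EX g (fun ω : Gr d H → Fin (2 ^ g) => Tu g v ω u x ^ (2 * k))) / 2 ^ (d * H) := by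
    unfold EX
    simp only [momeq]
    rw [← Finset.sum_div, Finset.sum_comm, ← Finset.sum_div]
    ring
  rw [h7, momeq]
  have h8 : ∑ x : Gr d H, (w * ∑ y, if sameCell v x y then u y ^ (2 * k) else 0) =
      ∑ y, u y ^ (2 * k) := by
    rw [← Finset.mul_sum, Finset.sum_comm, Finset.mul_sum]
    refine Finset.sum_congr rfl fun y _ => ?_
    have h9 : ∀ x : Gr d H, (if sameCell v x y then u y ^ (2 * k) else 0) =
        u y ^ (2 * k) * (if sameCell v y x then (1 : ℝ) else 0) := by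
      intro x
      by_cases hs : sameCell v x y
      · rw [if_pos hs, if_pos ((sameCell_comm v x y).1 hs), mul_one]
      · rw [if_neg hs, if_neg (fun hh => hs ((sameCell_comm v x y).2 hh)), mul_zero]
    rw [Finset.sum_congr rfl fun x _ => h9 x, ← Finset.mul_sum, ← mul_assoc, mul_comm w, mul_assoc,
      cellcard v hv y, mul_one]
  have h10 : ∑ x : Gr d H, EX g (fun ω : Gr d H → Fin (2 ^ g) => Tu g v ω u x ^ (2 * k)) ≤
      C * (2 * k) * pb k J * ∑ y, u y ^ (2 * k) := by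
    rw [← h8, Finset.mul_sum]
    exact Finset.sum_le_sum fun x _ => hpt x
  calc (∑ x : Gr d H, EX g (fun ω : Gr d H → Fin (2 ^ g) => Tu g v ω u x ^ (2 * k))) /
        2 ^ (d * H) ≤ (C * (2 * k) * pb k J * ∑ y, u y ^ (2 * k)) / 2 ^ (d * H) :=
        div_le_div_of_nonneg_right h10 (by positivity)
    _ = C * (2 * k) * pb k J * ((∑ y, u y ^ (2 * k)) / 2 ^ (d * H)) := by ring

end Pool.Agent.MP_bc5265.R2
end

section
/-!
# Region `R_2`: module GOO (existence of good selections)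
-/
set_option linter.unusedSectionVars false

open MeasureTheory Finset Matrix
open scoped ENNReal

namespace Pool.Agent.MP_bc5265.R2

open Pool.Agent.MP_bc5265.S

noncomputable section

namespace GOOM

theorem lsum {ι : Type} (s : Finset ι) (f : ι → ℝ) (M N : ℝ) (hM : 0 ≤ M)
    (h : ∀ i ∈ s, f i ≤ M) (hN : (s.card : ℝ) ≤ N) : ∑ i ∈ s, f i ≤ N * M := by
  refine (Finset.sum_le_card_nsmul s f M h).trans ?_
  rw [nsmul_eq_mul]
  exact mul_le_mul_of_nonneg_right hN hM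

section EXL

variable {X : Type} [Fintype X] [DecidableEq X] (g : ℕ)

theorem EX_add (f f' : (X → Fin (2 ^ g)) → ℝ) :
    EX g (fun ω => f ω + f' ω) = EX g f + EX g f' := by
  unfold EX
  rw [Finset.sum_add_distrib, add_div]

theorem EX_sum {ι : Type} (s : Finset ι) (F : ι → (X → Fin (2 ^ g)) → ℝ) :
    EX g (fun ω => ∑ i ∈ s, F i ω) = ∑ i ∈ s, EX g (F i) := by
  unfold EX
  rw [Finset.sum_comm, Finset.sum_div]

theorem EX_mulc (f : (X → Fin (2 ^ g)) → ℝ) (c : ℝ) :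
    EX g (fun ω => f ω * c) = EX g f * c := by
  unfold EX
  rw [← Finset.sum_mul]; ring

theorem EX_cmul (f : (X → Fin (2 ^ g)) → ℝ) (c : ℝ) :
    EX g (fun ω => c * f ω) = c * EX g f := by
  unfold EX
  rw [← Finset.mul_sum]; ring

theorem exists_lt (f : (X → Fin (2 ^ g)) → ℝ) (h : EX g f < 1) : ∃ ω, f ω < 1 := by
  by_contra hcon
  push Not at hcon
  have hne : Nonempty (X → Fin (2 ^ g)) := ⟨fun _ => ⟨0, by positivity⟩⟩
  have hc : (0 : ℝ) < Fintype.card (X → Fin (2 ^ g)) := by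
    exact_mod_cast Fintype.card_pos
  have h1 : (Fintype.card (X → Fin (2 ^ g)) : ℝ) ≤ ∑ ω, f ω := by
    calc (Fintype.card (X → Fin (2 ^ g)) : ℝ) = ∑ _ω : X → Fin (2 ^ g), (1 : ℝ) := by simp
      _ ≤ _ := Finset.sum_le_sum fun ω _ => hcon ω
  unfold EX at h
  rw [div_lt_one hc] at h
  linarith

end EXL

open Classical in
/-- The levels of `zc`. -/
def VV (d h : ℕ) (δ : ℝ) : Finset (Fin d → ℕ) :=
  (Fintype.piFinset fun _ : Fin d => range (3 * h + 1)).filter fun v =>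
    h < ∑ j, v j ∧ ((∑ j, v j : ℕ) : ℝ) < (1 + δ) * h

open Classical in
/-- The levels `b`. -/
def BB (d h : ℕ) (α : ℝ) : Finset (Fin d → ℕ) :=
  (Fintype.piFinset fun _ : Fin d => range (3 * h + 1)).filter fun b =>
    ((∑ j, b j : ℕ) : ℝ) ≤ α * h

open Classical in
/-- The levels of `oc`. -/
def WW (d h : ℕ) (δ : ℝ) : Finset (Fin d → ℕ) :=
  (Fintype.piFinset fun _ : Fin d => range (3 * h + 1)).filter fun v =>
    (1 + δ) * h ≤ ((∑ j, v j : ℕ) : ℝ)

/-- Tuples of cells. -/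
def CC (d m : ℕ) (b : Fin d → ℕ) : Finset (Fin m → Fin d → ℕ) :=
  Fintype.piFinset fun _ : Fin m => Fintype.piFinset fun j : Fin d => range (2 ^ b j)

/-- Cells. -/
def C1 (d : ℕ) (b : Fin d → ℕ) : Finset (Fin d → ℕ) :=
  Fintype.piFinset fun j : Fin d => range (2 ^ b j)

theorem cardbox (d h : ℕ) : ((Fintype.piFinset fun _ : Fin d => range (3 * h + 1)).card : ℝ) =
    (3 * h + 1 : ℝ) ^ d := by
  rw [Fintype.card_piFinset]
  simp

theorem cardVV (d h : ℕ) (δ : ℝ) : ((VV d h δ).card : ℝ) ≤ (3 * h + 1 : ℝ) ^ d := by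
  rw [← cardbox d h]
  exact_mod_cast Finset.card_filter_le _ _

theorem cardBB (d h : ℕ) (α : ℝ) : ((BB d h α).card : ℝ) ≤ (3 * h + 1 : ℝ) ^ d := by
  rw [← cardbox d h]
  exact_mod_cast Finset.card_filter_le _ _

theorem cardWW (d h : ℕ) (δ : ℝ) : ((WW d h δ).card : ℝ) ≤ (3 * h + 1 : ℝ) ^ d := by
  rw [← cardbox d h]
  exact_mod_cast Finset.card_filter_le _ _

theorem cardC1 (d : ℕ) (b : Fin d → ℕ) : (C1 d b).card = 2 ^ (∑ j, b j) := by
  unfold C1
  rw [Fintype.card_piFinset]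
  simp [Finset.prod_pow_eq_pow_sum]

theorem cardCC (d m : ℕ) (b : Fin d → ℕ) : (CC d m b).card = 2 ^ (m * ∑ j, b j) := by
  unfold CC
  rw [Fintype.card_piFinset]
  have := cardC1 d b
  unfold C1 at this
  rw [Finset.prod_congr rfl fun _ _ => this]
  simp [← pow_mul, mul_comm]

theorem memVV {d h : ℕ} {δ : ℝ} {v : Fin d → ℕ} (h1 : ∀ j, v j ≤ 3 * h) (h2 : h < ∑ j, v j)
    (h3 : ((∑ j, v j : ℕ) : ℝ) < (1 + δ) * h) : v ∈ VV d h δ := by
  unfold VV
  rw [Finset.mem_filter]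
  refine ⟨?_, h2, h3⟩
  rw [Fintype.mem_piFinset]
  intro j
  rw [Finset.mem_range]
  have := h1 j
  omega

theorem memBB {d h : ℕ} {α : ℝ} {b : Fin d → ℕ} (h1 : ∀ j, b j ≤ 3 * h)
    (h3 : ((∑ j, b j : ℕ) : ℝ) ≤ α * h) : b ∈ BB d h α := by
  unfold BB
  rw [Finset.mem_filter]
  refine ⟨?_, h3⟩
  rw [Fintype.mem_piFinset]
  intro j
  rw [Finset.mem_range]
  have := h1 j
  omega

theorem memWW {d h : ℕ} {δ : ℝ} {v : Fin d → ℕ} (h1 : ∀ j, v j ≤ 3 * h)
    (h3 : (1 + δ) * h ≤ ((∑ j, v j : ℕ) : ℝ)) : v ∈ WW d h δ := by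
  unfold WW
  rw [Finset.mem_filter]
  refine ⟨?_, h3⟩
  rw [Fintype.mem_piFinset]
  intro j
  rw [Finset.mem_range]
  have := h1 j
  omega

theorem outVV {d h : ℕ} {δ : ℝ} {v : Fin d → ℕ} (hv : v ∈ VV d h δ) :
    (∀ j, v j ≤ 3 * h) ∧ h < ∑ j, v j ∧ ((∑ j, v j : ℕ) : ℝ) < (1 + δ) * h := by
  unfold VV at hv
  rw [Finset.mem_filter, Fintype.mem_piFinset] at hv
  refine ⟨fun j => ?_, hv.2⟩
  have := hv.1 j
  rw [Finset.mem_range] at this
  omega

theorem outBB {d h : ℕ} {α : ℝ} {b : Fin d → ℕ} (hb : b ∈ BB d h α) :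
    (∀ j, b j ≤ 3 * h) ∧ ((∑ j, b j : ℕ) : ℝ) ≤ α * h := by
  unfold BB at hb
  rw [Finset.mem_filter, Fintype.mem_piFinset] at hb
  refine ⟨fun j => ?_, hb.2⟩
  have := hb.1 j
  rw [Finset.mem_range] at this
  omega

theorem outWW {d h : ℕ} {δ : ℝ} {v : Fin d → ℕ} (hv : v ∈ WW d h δ) :
    (∀ j, v j ≤ 3 * h) ∧ (1 + δ) * h ≤ ((∑ j, v j : ℕ) : ℝ) := by
  unfold WW at hv
  rw [Finset.mem_filter, Fintype.mem_piFinset] at hv
  refine ⟨fun j => ?_, hv.2⟩
  have := hv.1 j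
  rw [Finset.mem_range] at this
  omega

/-- First kind of failure. -/
def F1 {d H : ℕ} (g i0 k : ℕ) (v b : Fin d → ℕ) (c : Fin (2 * k) → Fin d → ℕ)
    (ω : Gr d H → Fin (2 ^ g)) : ℝ :=
  (Zc g k v b c ω - EX g (fun ω' : Gr d H → Fin (2 ^ g) => Zc g k v b c ω')) ^ 2 *
    ((2 : ℝ) ^ (2 * k * ∑ j, b j) * 2 ^ (k * i0)) ^ 2

/-- Second kind of failure. -/
def F2 {d H : ℕ} (g h i0 : ℕ) (b c : Fin d → ℕ) (ω : Gr d H → Fin (2 ^ g)) : ℝ :=
  if 2 * (2 : ℝ) ^ (h + i0) < 2 ^ (∑ j, b j) *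
      ((univ.filter fun y : Gr d H => inC b c y ∧ (ω y : ℕ) = 0).card : ℝ) then 1 else 0

/-- Third kind of failure. -/
def F3 {d H : ℕ} (g κ : ℕ) (v : Fin d → ℕ) (x : Gr d H) (ω : Gr d H → Fin (2 ^ g)) : ℝ :=
  if κ ≤ (univ.filter fun y : Gr d H => sameCell v x y ∧ (ω y : ℕ) = 0).card then 1 else 0

theorem F1_nonneg {d H : ℕ} (g i0 k : ℕ) (v b : Fin d → ℕ) (c : Fin (2 * k) → Fin d → ℕ)
    (ω : Gr d H → Fin (2 ^ g)) : 0 ≤ F1 g i0 k v b c ω := by
  unfold F1; positivity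

theorem F2_nonneg {d H : ℕ} (g h i0 : ℕ) (b c : Fin d → ℕ) (ω : Gr d H → Fin (2 ^ g)) :
    0 ≤ F2 g h i0 b c ω := by
  unfold F2; split_ifs <;> norm_num

theorem F3_nonneg {d H : ℕ} (g κ : ℕ) (v : Fin d → ℕ) (x : Gr d H) (ω : Gr d H → Fin (2 ^ g)) :
    0 ≤ F3 g κ v x ω := by
  unfold F3; split_ifs <;> norm_num

theorem F1_big {d H : ℕ} (g i0 k : ℕ) (v b : Fin d → ℕ) (c : Fin (2 * k) → Fin d → ℕ)
    (ω : Gr d H → Fin (2 ^ g))
    (h : (2 : ℝ) ^ (-((2 * k * ∑ j, b j : ℕ) : ℝ)) * (2 : ℝ) ^ (-((k * i0 : ℕ) : ℝ)) <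
      |Zc g k v b c ω - EX g (fun ω' : Gr d H → Fin (2 ^ g) => Zc g k v b c ω')|) :
    1 ≤ F1 g i0 k v b c ω := by
  unfold F1
  rw [Real.rpow_neg (by norm_num), Real.rpow_neg (by norm_num), Real.rpow_natCast,
    Real.rpow_natCast, ← mul_inv] at h
  set Λ : ℝ := (2 : ℝ) ^ (2 * k * ∑ j, b j) * 2 ^ (k * i0) with hΛ
  have hΛ0 : 0 < Λ := by positivity
  rw [← mul_pow, ← sq_abs, abs_mul, abs_of_pos hΛ0]
  apply one_le_pow₀
  have := mul_lt_mul_of_pos_right h hΛ0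
  rw [inv_mul_cancel₀ hΛ0.ne'] at this
  exact this.le

/-- The power `pw`. -/
theorem pwb (k k' : ℕ) (hk : k' ≤ k) (δ h : ℝ) (i0 s h' : ℕ) (hδ : 0 ≤ δ * h)
    (hh : (h' : ℝ) = h) (hs : (s : ℝ) < (1 + δ) * h) :
    pw (2 * k') ((s : ℤ) - ((h' + i0 : ℕ) : ℤ)) ≤ (2 : ℝ) ^ (4 * k * δ * h) := by
  unfold pw
  have hk0 : (0 : ℝ) ≤ k := by positivity
  split_ifs with h1
  · apply Real.one_le_rpow (by norm_num)
    have := mul_nonneg (mul_nonneg (by norm_num : (0 : ℝ) ≤ 4) hk0) hδ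
    nlinarith
  · apply Real.rpow_le_rpow_of_exponent_le (by norm_num)
    push_cast
    have hJ : (s : ℝ) - (h' + i0) ≤ δ * h := by
      have : (0 : ℝ) ≤ i0 := by positivity
      rw [hh]; linarith
    have hJ0 : (0 : ℝ) ≤ (s : ℝ) - (h' + i0) := by
      have : (0 : ℤ) ≤ (s : ℤ) - ((h' + i0 : ℕ) : ℤ) := by omega
      exact_mod_cast this
    have hk' : (k' : ℝ) ≤ k := by exact_mod_cast hk
    have hk'0 : (0 : ℝ) ≤ k' := by positivity
    calc 2 * (2 * (k' : ℝ)) * ((s : ℝ) - (h' + i0)) ≤ 2 * (2 * (k' : ℝ)) * (δ * h) :=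
          mul_le_mul_of_nonneg_left hJ (by positivity)
      _ ≤ 2 * (2 * (k : ℝ)) * (δ * h) := mul_le_mul_of_nonneg_right (by linarith) hδ
      _ = 4 * k * δ * h := by ring

theorem F1_EX {d : ℕ} (C α δ : ℝ) (hC : 0 ≤ C) (hδ : 0 ≤ δ) (g h i0 k k' : ℕ) (hk : k' ≤ k)
    (v b : Fin d → ℕ) (c : Fin (2 * k') → Fin d → ℕ)
    (hZ : EX g (fun ω : Gr d (3 * h) → Fin (2 ^ g) =>
      (Zc g k' v b c ω - EX g (fun ω' : Gr d (3 * h) → Fin (2 ^ g) => Zc g k' v b c ω')) ^ 2) ≤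
      C * 2 ^ (-((∑ j, v j : ℕ) : ℝ)) * pw (2 * k') (((∑ j, v j : ℕ) : ℤ) - ((h + i0 : ℕ) : ℤ)))
    (hv : h < ∑ j, v j) (hv' : ((∑ j, v j : ℕ) : ℝ) < (1 + δ) * h)
    (hb : ((∑ j, b j : ℕ) : ℝ) ≤ α * h) :
    EX g (fun ω : Gr d (3 * h) → Fin (2 ^ g) => F1 g i0 k' v b c ω) ≤
      C * (2 : ℝ) ^ (-(h : ℝ)) * (2 : ℝ) ^ (4 * k * δ * h) *
            ((2 : ℝ) ^ (2 * k * α * h) * (2 : ℝ) ^ ((k * i0 : ℕ) : ℝ)) ^ 2 := by
  unfold F1
  rw [EX_mulc]
  have h2 : (1 : ℝ) ≤ 2 := by norm_num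
  have a1 : (2 : ℝ) ^ (-((∑ j, v j : ℕ) : ℝ)) ≤ (2 : ℝ) ^ (-(h : ℝ)) := by
    apply Real.rpow_le_rpow_of_exponent_le h2
    have : (h : ℝ) ≤ ((∑ j, v j : ℕ) : ℝ) := by exact_mod_cast hv.le
    linarith
  have a2 : pw (2 * k') (((∑ j, v j : ℕ) : ℤ) - ((h + i0 : ℕ) : ℤ)) ≤
      (2 : ℝ) ^ (4 * k * δ * h) :=
    pwb k k' hk δ h i0 _ h (by positivity) rfl hv'
  have a3 : (2 : ℝ) ^ (2 * k' * ∑ j, b j) ≤ (2 : ℝ) ^ (2 * k * α * h) := by
    rw [← Real.rpow_natCast]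
    apply Real.rpow_le_rpow_of_exponent_le h2
    have hk' : (k' : ℝ) ≤ k := by exact_mod_cast hk
    have hb0 : (0 : ℝ) ≤ ((∑ j, b j : ℕ) : ℝ) := by positivity
    have hk0 : (0 : ℝ) ≤ k := by positivity
    have e : ((2 * k' * ∑ j, b j : ℕ) : ℝ) = 2 * k' * ((∑ j, b j : ℕ) : ℝ) := by push_cast; ring
    rw [e]
    calc 2 * (k' : ℝ) * ((∑ j, b j : ℕ) : ℝ) ≤ 2 * (k : ℝ) * ((∑ j, b j : ℕ) : ℝ) :=
          mul_le_mul_of_nonneg_right (by linarith) hb0
      _ ≤ 2 * (k : ℝ) * (α * h) := mul_le_mul_of_nonneg_left hb (by positivity)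
      _ = 2 * k * α * h := by ring
  have a4 : (2 : ℝ) ^ (k' * i0) ≤ (2 : ℝ) ^ ((k * i0 : ℕ) : ℝ) := by
    rw [Real.rpow_natCast]
    exact pow_le_pow_right₀ h2 (Nat.mul_le_mul_right _ hk)
  have a5 : 0 ≤ pw (2 * k') (((∑ j, v j : ℕ) : ℤ) - ((h + i0 : ℕ) : ℤ)) := by
    unfold pw; split_ifs <;> positivity
  refine mul_le_mul (hZ.trans ?_) ?_ (by positivity) (by positivity)
  · exact mul_le_mul (mul_le_mul_of_nonneg_left a1 hC) a2 a5 (by positivity)
  · exact pow_le_pow_left₀ (by positivity) (mul_le_mul a3 a4 (by positivity) (by positivity)) 2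

theorem F2_EX {d : ℕ} (hPCO : SpecPCO) (α : ℝ) (g h i0 : ℕ) (hg : g + h + i0 = d * (3 * h))
    (b c : Fin d → ℕ) (hb1 : ∀ j, b j ≤ 3 * h) (hb : ((∑ j, b j : ℕ) : ℝ) ≤ α * h)
    (hc : ∀ j, c j < 2 ^ b j) :
    EX g (fun ω : Gr d (3 * h) → Fin (2 ^ g) => F2 g h i0 b c ω) ≤
      (2 : ℝ) ^ (α * h) * (2 : ℝ) ^ (-(h : ℝ)) := by
  have h1 := hPCO d (3 * h) g h i0 b c hg hb1 hc
  unfold F2
  refine h1.trans ?_
  have h2 : (1 : ℝ) ≤ 2 := by norm_num
  rw [div_eq_mul_inv]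
  refine mul_le_mul ?_ ?_ (by positivity) (by positivity)
  · rw [← Real.rpow_natCast]
    exact Real.rpow_le_rpow_of_exponent_le h2 hb
  · rw [Real.rpow_neg (by norm_num), Real.rpow_natCast]
    exact inv_anti₀ (by positivity) (pow_le_pow_right₀ h2 (Nat.le_add_right _ _))

theorem F3_EX {d : ℕ} (hPOC : SpecPOC) (δ : ℝ) (g h i0 κ : ℕ) (hκ : 1 ≤ κ)
    (hg : g + h + i0 = d * (3 * h))
    (v : Fin d → ℕ) (hv1 : ∀ j, v j ≤ 3 * h) (hv : (1 + δ) * h ≤ ((∑ j, v j : ℕ) : ℝ)) :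
    EX g (fun ω : Gr d (3 * h) → Fin (2 ^ g) =>
      (2 : ℝ) ^ (∑ j, v j) / 2 ^ (d * (3 * h)) * ∑ x, F3 g κ v x ω) ≤
      (2 : ℝ) ^ ((1 + δ) * h) * (2 : ℝ) ^ (((i0 : ℝ) - δ * h) * κ) := by
  rw [EX_cmul, EX_sum]
  have h1 : ∀ x : Gr d (3 * h), EX g (F3 g κ v x) ≤
      ((2 : ℝ) ^ (h + i0) / 2 ^ (∑ j, v j)) ^ κ := fun x =>
    hPOC d (3 * h) g h i0 κ v x hg hv1
  have h2 : ∑ x : Gr d (3 * h), EX g (F3 g κ v x) ≤
      (2 : ℝ) ^ (d * (3 * h)) * ((2 : ℝ) ^ (h + i0) / 2 ^ (∑ j, v j)) ^ κ := by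
    refine lsum _ _ _ _ (by positivity) (fun x _ => h1 x) (le_of_eq ?_)
    rw [Finset.card_univ, ZEXM.cardGr]
  refine (mul_le_mul_of_nonneg_left h2 (by positivity)).trans ?_
  have h3 : (2 : ℝ) ^ (∑ j, v j) / 2 ^ (d * (3 * h)) *
      ((2 : ℝ) ^ (d * (3 * h)) * ((2 : ℝ) ^ (h + i0) / 2 ^ (∑ j, v j)) ^ κ) =
      (2 : ℝ) ^ (∑ j, v j) * ((2 : ℝ) ^ (h + i0) / 2 ^ (∑ j, v j)) ^ κ := by
    have : (2 : ℝ) ^ (d * (3 * h)) ≠ 0 := by positivity
    field_simp
  rw [h3]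
  set s : ℕ := ∑ j, v j with hs
  have h4 : (2 : ℝ) ^ s * ((2 : ℝ) ^ (h + i0) / 2 ^ s) ^ κ =
      (2 : ℝ) ^ ((s : ℝ) + ((h : ℝ) + i0 - s) * κ) := by
    have h0 : (0 : ℝ) < 2 := by norm_num
    rw [Real.rpow_add h0, Real.rpow_mul h0.le, Real.rpow_natCast, Real.rpow_natCast,
      Real.rpow_sub h0, Real.rpow_natCast]
    congr 3
    rw [← Real.rpow_natCast]
    push_cast
    rfl
  rw [h4, ← Real.rpow_add (by norm_num)]
  apply Real.rpow_le_rpow_of_exponent_le (by norm_num)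
  have hκ' : (1 : ℝ) ≤ κ := by exact_mod_cast hκ
  nlinarith

/-- If an `oc` event happens, the weighted sum is at least one. -/
theorem F3_big {d H : ℕ} (g κ : ℕ) (v : Fin d → ℕ) (hv : ∀ j, v j ≤ H) (x : Gr d H)
    (ω : Gr d H → Fin (2 ^ g))
    (h : κ ≤ (univ.filter fun y : Gr d H => sameCell v x y ∧ (ω y : ℕ) = 0).card) :
    1 ≤ (2 : ℝ) ^ (∑ j, v j) / 2 ^ (d * H) * ∑ x' : Gr d H, F3 g κ v x' ω := by
  rw [← ZEXM.cellcard v hv x]
  refine mul_le_mul_of_nonneg_left (Finset.sum_le_sum fun x' _ => ?_) (by positivity)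
  split_ifs with hs
  · unfold F3
    rw [if_pos]
    have : (univ.filter fun y : Gr d H => sameCell v x' y ∧ (ω y : ℕ) = 0) =
        (univ.filter fun y : Gr d H => sameCell v x y ∧ (ω y : ℕ) = 0) := by
      ext y
      simp only [Finset.mem_filter, Finset.mem_univ, true_and]
      refine and_congr_left fun _ => ?_
      exact forall_congr' fun j => by rw [hs j]
    rw [this]
    exact h
  · exact F3_nonneg _ _ _ _ _

/-- Sum of all failures. -/
def FF (d k κ : ℕ) (α δ : ℝ) (h i0 g : ℕ) (ω : Gr d (3 * h) → Fin (2 ^ g)) : ℝ :=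
  (∑ k' ∈ ({1, k} : Finset ℕ), ∑ v ∈ VV d h δ, ∑ b ∈ BB d h α, ∑ c ∈ CC d (2 * k') b,
    F1 g i0 k' v b c ω) +
  (∑ b ∈ BB d h α, ∑ c ∈ C1 d b, F2 g h i0 b c ω) +
  ∑ v ∈ WW d h δ, (2 : ℝ) ^ (∑ j, v j) / 2 ^ (d * (3 * h)) * ∑ x, F3 g κ v x ω

theorem good (d k κ : ℕ) (α δ : ℝ) (h i0 g : ℕ) (ω : Gr d (3 * h) → Fin (2 ^ g))
    (hF : FF d k κ α δ h i0 g ω < 1) : GoodO d k κ α δ h i0 g ω := by
  have n1 : ∀ k' v b, 0 ≤ ∑ c ∈ CC d (2 * k') b, F1 g i0 k' v b c ω := fun k' v b =>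
    Finset.sum_nonneg fun c _ => F1_nonneg _ _ _ _ _ _ _
  have n2 : ∀ k' v, 0 ≤ ∑ b ∈ BB d h α, ∑ c ∈ CC d (2 * k') b, F1 g i0 k' v b c ω := fun k' v =>
    Finset.sum_nonneg fun b _ => n1 k' v b
  have n3 : ∀ k', 0 ≤ ∑ v ∈ VV d h δ, ∑ b ∈ BB d h α, ∑ c ∈ CC d (2 * k') b,
      F1 g i0 k' v b c ω := fun k' => Finset.sum_nonneg fun v _ => n2 k' v
  have n4 : 0 ≤ ∑ k' ∈ ({1, k} : Finset ℕ), ∑ v ∈ VV d h δ, ∑ b ∈ BB d h α,
      ∑ c ∈ CC d (2 * k') b, F1 g i0 k' v b c ω := Finset.sum_nonneg fun k' _ => n3 k'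
  have m1 : ∀ b, 0 ≤ ∑ c ∈ C1 d b, F2 g h i0 b c ω := fun b =>
    Finset.sum_nonneg fun c _ => F2_nonneg _ _ _ _ _ _
  have m2 : 0 ≤ ∑ b ∈ BB d h α, ∑ c ∈ C1 d b, F2 g h i0 b c ω :=
    Finset.sum_nonneg fun b _ => m1 b
  have l1 : ∀ v : Fin d → ℕ, 0 ≤ (2 : ℝ) ^ (∑ j, v j) / 2 ^ (d * (3 * h)) *
      ∑ x, F3 g κ v x ω := fun v =>
    mul_nonneg (by positivity) (Finset.sum_nonneg fun x _ => F3_nonneg _ _ _ _ _)
  have l2 : 0 ≤ ∑ v ∈ WW d h δ, (2 : ℝ) ^ (∑ j, v j) / 2 ^ (d * (3 * h)) *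
      ∑ x, F3 g κ v x ω := Finset.sum_nonneg fun v _ => l1 v
  unfold FF at hF
  refine ⟨?_, ?_, ?_⟩
  · intro k' hk' v b c hv1 hv2 hv3 hb1 hb2 hc
    by_contra hcon
    rw [not_le] at hcon
    have hbig := F1_big g i0 k' v b c ω hcon
    have s1 : F1 g i0 k' v b c ω ≤ ∑ c ∈ CC d (2 * k') b, F1 g i0 k' v b c ω := by
      refine Finset.single_le_sum (f := fun c => F1 g i0 k' v b c ω)
        (fun c _ => F1_nonneg _ _ _ _ _ _ _) ?_
      unfold CC
      rw [Fintype.mem_piFinset]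
      intro i
      rw [Fintype.mem_piFinset]
      intro j
      rw [Finset.mem_range]
      exact hc i j
    have s2 := Finset.single_le_sum (f := fun b => ∑ c ∈ CC d (2 * k') b, F1 g i0 k' v b c ω)
      (fun b _ => n1 k' v b) (memBB hb1 hb2)
    have s3 := Finset.single_le_sum (f := fun v => ∑ b ∈ BB d h α, ∑ c ∈ CC d (2 * k') b,
      F1 g i0 k' v b c ω) (fun v _ => n2 k' v) (memVV hv1 hv2 hv3)
    have s4 := Finset.single_le_sum (f := fun k' => ∑ v ∈ VV d h δ, ∑ b ∈ BB d h α,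
      ∑ c ∈ CC d (2 * k') b, F1 g i0 k' v b c ω) (s := ({1, k} : Finset ℕ)) (fun k' _ => n3 k')
      (by simpa using hk' : k' ∈ ({1, k} : Finset ℕ))
    linarith
  · intro b c hb1 hb2 hc
    by_contra hcon
    rw [not_le] at hcon
    have hbig : F2 g h i0 b c ω = 1 := by
      unfold F2
      rw [if_pos hcon]
    have s1 : F2 g h i0 b c ω ≤ ∑ c ∈ C1 d b, F2 g h i0 b c ω := by
      refine Finset.single_le_sum (f := fun c => F2 g h i0 b c ω)
        (fun c _ => F2_nonneg _ _ _ _ _ _) ?_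
      unfold C1
      rw [Fintype.mem_piFinset]
      intro j
      rw [Finset.mem_range]
      exact hc j
    have s2 := Finset.single_le_sum (f := fun b => ∑ c ∈ C1 d b, F2 g h i0 b c ω)
      (fun b _ => m1 b) (memBB hb1 hb2)
    linarith
  · intro v x hv1 hv2
    by_contra hcon
    rw [not_lt] at hcon
    have hbig := F3_big g κ v hv1 x ω hcon
    have s1 := Finset.single_le_sum (f := fun v : Fin d → ℕ => (2 : ℝ) ^ (∑ j, v j) /
      2 ^ (d * (3 * h)) * ∑ x, F3 g κ v x ω) (fun v _ => l1 v) (memWW hv1 hv2)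
    linarith

end GOOM

open GOOM in
theorem specGOO (hZVB : SpecZVB) (hPCO : SpecPCO) (hPOC : SpecPOC) (hUNB : SpecUNB) :
    SpecGOO := by
  intro d k hd hk
  obtain ⟨Ca, hCa, hZa⟩ := hZVB 1 le_rfl
  obtain ⟨Cb, hCb, hZb⟩ := hZVB k hk
  set C : ℝ := max Ca Cb with hC
  have hC0 : 0 < C := lt_max_of_lt_left hCa
  obtain ⟨α, δ, κ, h0, hα, hδ, hα1, hδ1, hκ, hh0, hU⟩ := hUNB d k C hd hk hC0
  refine ⟨α, δ, κ, h0, hα, hδ, hα1, hδ1, hκ, hh0, ?_⟩
  intro h i0 hh hi g hg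
  have hnum := hU h i0 hh hi
  have h2 : (1 : ℝ) ≤ 2 := by norm_num
  -- variance bound with the common constant
  have hZ : ∀ k' ∈ ({1, k} : Finset ℕ), ∀ (v b : Fin d → ℕ) (c : Fin (2 * k') → Fin d → ℕ),
      (∀ j, v j ≤ 3 * h) → EX g (fun ω : Gr d (3 * h) → Fin (2 ^ g) =>
      (Zc g k' v b c ω - EX g (fun ω' : Gr d (3 * h) → Fin (2 ^ g) => Zc g k' v b c ω')) ^ 2) ≤
      C * 2 ^ (-((∑ j, v j : ℕ) : ℝ)) *
        pw (2 * k') (((∑ j, v j : ℕ) : ℤ) - ((h + i0 : ℕ) : ℤ)) := by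
    intro k' hk' v b c hv
    have a5 : 0 ≤ pw (2 * k') (((∑ j, v j : ℕ) : ℤ) - ((h + i0 : ℕ) : ℤ)) := by
      unfold pw; split_ifs <;> positivity
    have key : ∀ C' : ℝ, C' ≤ C → C' * 2 ^ (-((∑ j, v j : ℕ) : ℝ)) *
        pw (2 * k') (((∑ j, v j : ℕ) : ℤ) - ((h + i0 : ℕ) : ℤ)) ≤
        C * 2 ^ (-((∑ j, v j : ℕ) : ℝ)) *
        pw (2 * k') (((∑ j, v j : ℕ) : ℤ) - ((h + i0 : ℕ) : ℤ)) := fun C' hC' =>
      mul_le_mul_of_nonneg_right (mul_le_mul_of_nonneg_right hC' (by positivity)) a5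
    rw [Finset.mem_insert, Finset.mem_singleton] at hk'
    rcases hk' with rfl | rfl
    · exact (hZa d (3 * h) g h i0 v b c hg hv).trans (key Ca (le_max_left _ _))
    · exact (hZb d (3 * h) g h i0 v b c hg hv).trans (key Cb (le_max_right _ _))
  set T1 : ℝ := C * (2 : ℝ) ^ (-(h : ℝ)) * (2 : ℝ) ^ (4 * k * δ * h) *
            ((2 : ℝ) ^ (2 * k * α * h) * (2 : ℝ) ^ ((k * i0 : ℕ) : ℝ)) ^ 2 with hT1
  have hT1p : 0 ≤ T1 := by positivity
  have hle : ∀ k' ∈ ({1, k} : Finset ℕ), k' ≤ k := by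
    intro k' hk'
    rw [Finset.mem_insert, Finset.mem_singleton] at hk'
    rcases hk' with rfl | rfl
    · exact hk
    · exact le_rfl
  -- the expectation of the sum of the failures
  have hEX : EX g (FF d k κ α δ h i0 g) < 1 := by
    have e : EX g (FF d k κ α δ h i0 g) =
        (∑ k' ∈ ({1, k} : Finset ℕ), ∑ v ∈ VV d h δ, ∑ b ∈ BB d h α, ∑ c ∈ CC d (2 * k') b,
          EX g (fun ω : Gr d (3 * h) → Fin (2 ^ g) => F1 g i0 k' v b c ω)) +
        (∑ b ∈ BB d h α, ∑ c ∈ C1 d b,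
          EX g (fun ω : Gr d (3 * h) → Fin (2 ^ g) => F2 g h i0 b c ω)) +
        ∑ v ∈ WW d h δ, EX g (fun ω : Gr d (3 * h) → Fin (2 ^ g) =>
          (2 : ℝ) ^ (∑ j, v j) / 2 ^ (d * (3 * h)) * ∑ x, F3 g κ v x ω) := by
      have e0 : FF d k κ α δ h i0 g = fun ω => (fun ω =>
        (∑ k' ∈ ({1, k} : Finset ℕ), ∑ v ∈ VV d h δ, ∑ b ∈ BB d h α, ∑ c ∈ CC d (2 * k') b,
          F1 g i0 k' v b c ω) + (∑ b ∈ BB d h α, ∑ c ∈ C1 d b, F2 g h i0 b c ω)) ω +
        ∑ v ∈ WW d h δ, (2 : ℝ) ^ (∑ j, v j) / 2 ^ (d * (3 * h)) * ∑ x, F3 g κ v x ω := rfl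
      rw [e0, EX_add, EX_add, EX_sum, EX_sum, EX_sum]
      congr 1
      congr 1
      · refine Finset.sum_congr rfl fun k' _ => ?_
        rw [EX_sum]
        refine Finset.sum_congr rfl fun v _ => ?_
        rw [EX_sum]
        refine Finset.sum_congr rfl fun b _ => ?_
        rw [EX_sum]
      · refine Finset.sum_congr rfl fun b _ => ?_
        rw [EX_sum]
    rw [e]
    refine lt_of_le_of_lt (add_le_add (add_le_add ?_ ?_) ?_) hnum
    · -- first sum
      have q1 : ∀ k' ∈ ({1, k} : Finset ℕ), ∀ v ∈ VV d h δ, ∀ b ∈ BB d h α,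
          ∑ c ∈ CC d (2 * k') b, EX g (fun ω : Gr d (3 * h) → Fin (2 ^ g) =>
            F1 g i0 k' v b c ω) ≤ (2 : ℝ) ^ (2 * k * α * h) * T1 := by
        intro k' hk' v hv b hb
        obtain ⟨hv1, hv2, hv3⟩ := outVV hv
        obtain ⟨hb1, hb2⟩ := outBB hb
        refine lsum _ _ _ _ hT1p (fun c _ => ?_) ?_
        · exact F1_EX C α δ hC0.le hδ.le g h i0 k k' (hle k' hk') v b c (hZ k' hk' v b c hv1)
            hv2 hv3 hb2
        · rw [cardCC]
          push_cast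
          rw [← Real.rpow_natCast]
          apply Real.rpow_le_rpow_of_exponent_le h2
          have hk'' : (k' : ℝ) ≤ k := by exact_mod_cast hle k' hk'
          have hb0 : (0 : ℝ) ≤ ((∑ j, b j : ℕ) : ℝ) := by positivity
          have ee : ((2 * k' * ∑ j, b j : ℕ) : ℝ) = 2 * k' * ((∑ j, b j : ℕ) : ℝ) := by
            push_cast; ring
          rw [ee]
          calc 2 * (k' : ℝ) * ((∑ j, b j : ℕ) : ℝ) ≤ 2 * (k : ℝ) * ((∑ j, b j : ℕ) : ℝ) :=
                mul_le_mul_of_nonneg_right (by linarith) hb0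
            _ ≤ 2 * (k : ℝ) * (α * h) := mul_le_mul_of_nonneg_left hb2 (by positivity)
            _ = 2 * k * α * h := by ring
      have q2 : ∀ k' ∈ ({1, k} : Finset ℕ), ∀ v ∈ VV d h δ,
          ∑ b ∈ BB d h α, ∑ c ∈ CC d (2 * k') b, EX g (fun ω : Gr d (3 * h) → Fin (2 ^ g) =>
            F1 g i0 k' v b c ω) ≤ (3 * h + 1 : ℝ) ^ d * ((2 : ℝ) ^ (2 * k * α * h) * T1) := by
        intro k' hk' v hv
        exact lsum _ _ _ _ (by positivity) (fun b hb => q1 k' hk' v hv b hb) (cardBB d h α)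
      have q3 : ∀ k' ∈ ({1, k} : Finset ℕ), ∑ v ∈ VV d h δ,
          ∑ b ∈ BB d h α, ∑ c ∈ CC d (2 * k') b, EX g (fun ω : Gr d (3 * h) → Fin (2 ^ g) =>
            F1 g i0 k' v b c ω) ≤
          (3 * h + 1 : ℝ) ^ d * ((3 * h + 1 : ℝ) ^ d * ((2 : ℝ) ^ (2 * k * α * h) * T1)) := by
        intro k' hk'
        exact lsum _ _ _ _ (by positivity) (fun v hv => q2 k' hk' v hv) (cardVV d h δ)
      have q4 : ∑ k' ∈ ({1, k} : Finset ℕ), ∑ v ∈ VV d h δ,
          ∑ b ∈ BB d h α, ∑ c ∈ CC d (2 * k') b, EX g (fun ω : Gr d (3 * h) → Fin (2 ^ g) =>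
            F1 g i0 k' v b c ω) ≤
          2 * ((3 * h + 1 : ℝ) ^ d * ((3 * h + 1 : ℝ) ^ d *
            ((2 : ℝ) ^ (2 * k * α * h) * T1))) := by
        refine lsum _ _ _ _ (by positivity) q3 ?_
        exact_mod_cast Finset.card_le_two
      refine q4.trans (le_of_eq ?_)
      rw [two_mul d, pow_add]
      ring
    · -- second sum
      have r1 : ∀ b ∈ BB d h α, ∑ c ∈ C1 d b, EX g (fun ω : Gr d (3 * h) → Fin (2 ^ g) =>
          F2 g h i0 b c ω) ≤
          (2 : ℝ) ^ (α * h) * ((2 : ℝ) ^ (α * h) * (2 : ℝ) ^ (-(h : ℝ))) := by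
        intro b hb
        obtain ⟨hb1, hb2⟩ := outBB hb
        refine lsum _ _ _ _ (by positivity) (fun c hc => ?_) ?_
        · refine F2_EX hPCO α g h i0 hg b c hb1 hb2 fun j => ?_
          unfold C1 at hc
          rw [Fintype.mem_piFinset] at hc
          exact Finset.mem_range.1 (hc j)
        · rw [cardC1]
          push_cast
          rw [← Real.rpow_natCast]
          exact Real.rpow_le_rpow_of_exponent_le h2 hb2
      refine (lsum _ _ _ _ (by positivity) r1 (cardBB d h α)).trans (le_of_eq ?_)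
      ring
    · -- third sum
      refine lsum _ _ _ _ (by positivity) (fun v hv => ?_) (cardWW d h δ)
      obtain ⟨hv1, hv2⟩ := outWW hv
      exact F3_EX hPOC δ g h i0 κ hκ hg v hv1 hv2
  obtain ⟨ω, hω⟩ := exists_lt g _ hEX
  exact ⟨ω, good d k κ α δ h i0 g ω hω⟩

end

end Pool.Agent.MP_bc5265.R2
end

section
/-!
# Region `R_2`, module HIG: the levels `|v| ≥ (1+δ) h`
-/
set_option linter.unusedSectionVars false

open MeasureTheory Finset Matrix
open scoped ENNReal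

namespace Pool.Agent.MP_bc5265.R2

open Pool.Agent.MP_bc5265.S

noncomputable section

namespace HIGM

/-- one coordinate: size of a cell -/
theorem card1 {H k : ℕ} (hk : k ≤ H) (y : Fin (2 ^ H)) :
    (univ.filter fun x : Fin (2 ^ H) =>
      (x : ℕ) / 2 ^ (H - k) = (y : ℕ) / 2 ^ (H - k)).card = 2 ^ (H - k) := by
  have hm : 0 < 2 ^ (H - k) := by positivity
  have hH : 2 ^ H = 2 ^ k * 2 ^ (H - k) := by
    rw [← pow_add]
    congr 1
    omega
  have hy : (y : ℕ) / 2 ^ (H - k) < 2 ^ k := by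
    rw [Nat.div_lt_iff_lt_mul hm, ← hH]
    exact y.2
  have hlt : ∀ i < 2 ^ (H - k), (y : ℕ) / 2 ^ (H - k) * 2 ^ (H - k) + i < 2 ^ H := by
    intro i hi
    have h1 : ((y : ℕ) / 2 ^ (H - k) + 1) * 2 ^ (H - k) ≤ 2 ^ k * 2 ^ (H - k) :=
      Nat.mul_le_mul_right _ hy
    have h2 : ((y : ℕ) / 2 ^ (H - k) + 1) * 2 ^ (H - k) ≤ 2 ^ H := h1.trans hH.symm.le
    rw [add_mul, one_mul] at h2
    omega
  have hbij : (Finset.range (2 ^ (H - k))).card = (univ.filter fun x : Fin (2 ^ H) =>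
      (x : ℕ) / 2 ^ (H - k) = (y : ℕ) / 2 ^ (H - k)).card := by
    apply Finset.card_bij (fun i hi => (⟨(y : ℕ) / 2 ^ (H - k) * 2 ^ (H - k) + i,
      hlt i (Finset.mem_range.1 hi)⟩ : Fin (2 ^ H)))
    · intro i hi
      rw [Finset.mem_range] at hi
      rw [Finset.mem_filter]
      refine ⟨Finset.mem_univ _, ?_⟩
      show ((y : ℕ) / 2 ^ (H - k) * 2 ^ (H - k) + i) / 2 ^ (H - k) = _
      rw [mul_comm, Nat.mul_add_div hm, Nat.div_eq_of_lt hi, add_zero]
    · intro i hi i' hi' h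
      have := congrArg (fun z : Fin (2 ^ H) => (z : ℕ)) h
      simp only at this
      omega
    · intro x hx
      rw [Finset.mem_filter] at hx
      refine ⟨(x : ℕ) % 2 ^ (H - k), Finset.mem_range.2 (Nat.mod_lt _ hm), ?_⟩
      apply Fin.ext
      show (y : ℕ) / 2 ^ (H - k) * 2 ^ (H - k) + (x : ℕ) % 2 ^ (H - k) = x
      rw [← hx.2, mul_comm]
      exact Nat.div_add_mod _ _
  rw [← hbij, Finset.card_range]

/-- size of a cell -/
theorem card_same {d H : ℕ} {v : Fin d → ℕ} (hv : ∀ j, v j ≤ H) (y : Gr d H) :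
    ((univ.filter fun x : Gr d H => sameCell v x y).card : ℝ) * 2 ^ (∑ j, v j)
      = 2 ^ (d * H) := by
  have h1 : (univ.filter fun x : Gr d H => sameCell v x y)
      = Fintype.piFinset fun j => univ.filter fun x : Fin (2 ^ H) =>
        (x : ℕ) / 2 ^ (H - v j) = (y j : ℕ) / 2 ^ (H - v j) := by
    ext x
    simp only [Finset.mem_filter, Finset.mem_univ, true_and, Fintype.mem_piFinset]
    rfl
  rw [h1, Fintype.card_piFinset]
  have h2 : ∀ j, (univ.filter fun x : Fin (2 ^ H) =>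
        (x : ℕ) / 2 ^ (H - v j) = (y j : ℕ) / 2 ^ (H - v j)).card = 2 ^ (H - v j) :=
    fun j => card1 (hv j) (y j)
  rw [Finset.prod_congr rfl (fun j _ => h2 j)]
  push_cast
  rw [← Finset.prod_pow_eq_pow_sum, ← Finset.prod_mul_distrib]
  have h3 : ∀ j, (2 : ℝ) ^ (H - v j) * 2 ^ v j = 2 ^ H := by
    intro j
    rw [← pow_add]
    congr 1
    have := hv j
    omega
  rw [Finset.prod_congr rfl (fun j _ => h3 j), Finset.prod_const, Finset.card_univ,
    Fintype.card_fin, ← pow_mul, mul_comm]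

theorem same_symm {d L : ℕ} {v : Fin d → ℕ} {x y : Gr d L} (h : sameCell v x y) :
    sameCell v y x := fun j => (h j).symm

theorem card_gr (d H : ℕ) : (Fintype.card (Gr d H) : ℝ) = 2 ^ (d * H) := by
  have : Fintype.card (Gr d H) = (2 ^ H) ^ d := by
    simp [Gr]
  rw [this]
  push_cast
  rw [← pow_mul, mul_comm]

theorem mom_nonneg {p : ℝ} {X : Type} [Fintype X] (g : X → ℝ) : 0 ≤ mom p g := by
  unfold mom
  apply div_nonneg _ (Nat.cast_nonneg _)
  exact Finset.sum_nonneg fun x _ => Real.rpow_nonneg (abs_nonneg _) _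

/-- the number of selected points in the cells of levels `v` -/
theorem sum_Y {d H κ : ℕ} {p : ℝ} {v : Fin d → ℕ} (hv : ∀ j, v j ≤ H) (Y : Finset (Gr d H))
    {ψ : Gr d H → ℝ} (hψ : CellC v ψ)
    (hκ : ∀ x, (Y.filter fun y => sameCell v x y).card ≤ κ) :
    ∑ y ∈ Y, |ψ y| ^ p ≤ 2 ^ (∑ j, v j) * κ * mom p ψ := by
  have hD : (0 : ℝ) < 2 ^ (d * H) := by positivity
  have h1 : ∀ y ∈ Y, |ψ y| ^ p = 2 ^ (∑ j, v j) / 2 ^ (d * H) *
      ∑ x : Gr d H, if sameCell v x y then |ψ x| ^ p else 0 := by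
    intro y _
    have h2 : ∑ x : Gr d H, (if sameCell v x y then |ψ x| ^ p else 0)
        = ((univ.filter fun x : Gr d H => sameCell v x y).card : ℝ) * |ψ y| ^ p := by
      rw [← Finset.sum_filter, Finset.card_eq_sum_ones]
      push_cast
      rw [Finset.sum_mul]
      apply Finset.sum_congr rfl
      intro x hx
      rw [Finset.mem_filter] at hx
      rw [hψ x y hx.2, one_mul]
    rw [h2]
    have h3 := card_same hv y
    have h4 : ((univ.filter fun x : Gr d H => sameCell v x y).card : ℝ)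
        = 2 ^ (d * H) / 2 ^ (∑ j, v j) := by
      rw [eq_div_iff (by positivity)]
      exact h3
    rw [h4]
    field_simp
  rw [Finset.sum_congr rfl h1, ← Finset.mul_sum, Finset.sum_comm]
  have h5 : ∑ x : Gr d H, ∑ y ∈ Y, (if sameCell v x y then |ψ x| ^ p else 0)
      ≤ ∑ x : Gr d H, κ * |ψ x| ^ p := by
    apply Finset.sum_le_sum
    intro x _
    rw [← Finset.sum_filter, Finset.sum_const, nsmul_eq_mul]
    apply mul_le_mul_of_nonneg_right _ (Real.rpow_nonneg (abs_nonneg _) _)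
    exact_mod_cast hκ x
  calc 2 ^ (∑ j, v j) / 2 ^ (d * H) * ∑ x : Gr d H, ∑ y ∈ Y,
        (if sameCell v x y then |ψ x| ^ p else 0)
      ≤ 2 ^ (∑ j, v j) / 2 ^ (d * H) * ∑ x : Gr d H, κ * |ψ x| ^ p :=
        mul_le_mul_of_nonneg_left h5 (by positivity)
    _ = 2 ^ (∑ j, v j) * κ * mom p ψ := by
        unfold mom
        rw [card_gr, ← Finset.mul_sum]
        field_simp

/-- the moment of the sample means -/
theorem mom_smn {d H κ : ℕ} {p M : ℝ} (hp : 1 < p) (hM : 0 < M) {v b : Fin d → ℕ}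
    (hv : ∀ j, v j ≤ H) (hb : ∀ j, b j ≤ H) (Y : Finset (Gr d H))
    {ψ : Gr d H → ℝ} (hψ : CellC v ψ)
    (hκ : ∀ x, (Y.filter fun y => sameCell v x y).card ≤ κ)
    (hco : ∀ x, (2 : ℝ) ^ (∑ j, b j) * ((Y.filter fun y => sameCell b x y).card : ℝ) ≤ 2 * M) :
    mom p (smn b M Y ψ) ≤ 2 ^ (p - 1) * κ * (2 ^ (∑ j, v j) / M) * mom p ψ := by
  set β : ℝ := (2 : ℝ) ^ (∑ j, b j) with hβ
  have hβ0 : 0 < β := by positivity
  have hD : (0 : ℝ) < 2 ^ (d * H) := by positivity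
  have h1 : ∀ x, |smn b M Y ψ x| ^ p ≤ 2 ^ (p - 1) * (β / M) *
      ∑ y ∈ Y, if sameCell b x y then |ψ y| ^ p else 0 := by
    intro x
    have h2 : |smn b M Y ψ x| ≤ β / M * ∑ y ∈ Y.filter (fun y => sameCell b x y), |ψ y| := by
      unfold smn
      rw [abs_mul, abs_of_pos (by positivity : 0 < (2 : ℝ) ^ (∑ j, b j) / M),
        ← Finset.sum_filter]
      exact mul_le_mul_of_nonneg_left (Finset.abs_sum_le_sum_abs _ _) (by positivity)
    have h3 : (∑ y ∈ Y.filter (fun y => sameCell b x y), |ψ y|) ^ p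
        ≤ ((Y.filter fun y => sameCell b x y).card : ℝ) ^ (p - 1) *
          ∑ y ∈ Y.filter (fun y => sameCell b x y), |ψ y| ^ p :=
      Real.rpow_sum_le_const_mul_sum_rpow _ _ hp.le
    have h4 : ((Y.filter fun y => sameCell b x y).card : ℝ) ^ (p - 1) ≤ (2 * M / β) ^ (p - 1) := by
      apply Real.rpow_le_rpow (Nat.cast_nonneg _) _ (by linarith)
      rw [le_div_iff₀ hβ0, mul_comm]
      exact hco x
    have hs0 : 0 ≤ ∑ y ∈ Y.filter (fun y => sameCell b x y), |ψ y| ^ p :=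
      Finset.sum_nonneg fun y _ => Real.rpow_nonneg (abs_nonneg _) _
    have hs1 : 0 ≤ ∑ y ∈ Y.filter (fun y => sameCell b x y), |ψ y| :=
      Finset.sum_nonneg fun y _ => abs_nonneg _
    calc |smn b M Y ψ x| ^ p
        ≤ (β / M * ∑ y ∈ Y.filter (fun y => sameCell b x y), |ψ y|) ^ p :=
          Real.rpow_le_rpow (abs_nonneg _) h2 (by linarith)
      _ = (β / M) ^ p * (∑ y ∈ Y.filter (fun y => sameCell b x y), |ψ y|) ^ p :=
          Real.mul_rpow (by positivity) hs1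
      _ ≤ (β / M) ^ p * ((2 * M / β) ^ (p - 1) *
          ∑ y ∈ Y.filter (fun y => sameCell b x y), |ψ y| ^ p) := by
          apply mul_le_mul_of_nonneg_left _ (by positivity)
          exact h3.trans (mul_le_mul_of_nonneg_right h4 hs0)
      _ = 2 ^ (p - 1) * (β / M) * ∑ y ∈ Y.filter (fun y => sameCell b x y), |ψ y| ^ p := by
          have e1 : (β / M) ^ p = (β / M) ^ (p - 1) * (β / M) := by
            rw [← Real.rpow_add_one (by positivity)]
            congr 1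
            ring
          have e2 : (β / M) ^ (p - 1) * (2 * M / β) ^ (p - 1) = 2 ^ (p - 1) := by
            rw [← Real.mul_rpow (by positivity) (by positivity)]
            congr 1
            field_simp
          rw [e1]
          calc (β / M) ^ (p - 1) * (β / M) * ((2 * M / β) ^ (p - 1) *
              ∑ y ∈ Y.filter (fun y => sameCell b x y), |ψ y| ^ p)
              = ((β / M) ^ (p - 1) * (2 * M / β) ^ (p - 1)) * (β / M) *
                ∑ y ∈ Y.filter (fun y => sameCell b x y), |ψ y| ^ p := by ring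
            _ = _ := by rw [e2]
      _ = _ := by rw [← Finset.sum_filter]
  have h5 : ∑ x, |smn b M Y ψ x| ^ p ≤ 2 ^ (p - 1) * (β / M) * (2 ^ (d * H) / β *
      ∑ y ∈ Y, |ψ y| ^ p) := by
    calc ∑ x, |smn b M Y ψ x| ^ p
        ≤ ∑ x, 2 ^ (p - 1) * (β / M) * ∑ y ∈ Y, (if sameCell b x y then |ψ y| ^ p else 0) :=
          Finset.sum_le_sum fun x _ => h1 x
      _ = 2 ^ (p - 1) * (β / M) * ∑ y ∈ Y, ∑ x, (if sameCell b x y then |ψ y| ^ p else 0) := by
          rw [← Finset.mul_sum, Finset.sum_comm]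
      _ = _ := by
          congr 1
          rw [Finset.mul_sum]
          apply Finset.sum_congr rfl
          intro y _
          rw [← Finset.sum_filter, Finset.sum_const, nsmul_eq_mul]
          congr 1
          rw [eq_div_iff hβ0.ne']
          exact card_same hb y
  unfold mom
  rw [card_gr, div_le_iff₀ hD]
  refine h5.trans ?_
  have h6 := sum_Y (p := p) hv Y hψ hκ
  calc 2 ^ (p - 1) * (β / M) * (2 ^ (d * H) / β * ∑ y ∈ Y, |ψ y| ^ p)
      = 2 ^ (p - 1) / M * 2 ^ (d * H) * ∑ y ∈ Y, |ψ y| ^ p := by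
        field_simp
    _ ≤ 2 ^ (p - 1) / M * 2 ^ (d * H) * (2 ^ (∑ j, v j) * κ * mom p ψ) :=
        mul_le_mul_of_nonneg_left h6 (by positivity)
    _ = 2 ^ (p - 1) * κ * (2 ^ (∑ j, v j) / M) * ((∑ x, |ψ x| ^ p) / 2 ^ (d * H)) *
          2 ^ (d * H) := by
        unfold mom
        rw [card_gr]
        ring

end HIGM

open HIGM in
theorem specHIG (hCON : SpecCON) (hNRM : SpecNRM) : SpecHIG := by
  intro p k κ d h i0 g α δ ω hp hp2 hκ1 hg hi0 hgood v b hv hvδ hb hbα ψ hψ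
  have hp0 : 0 < p := by linarith
  obtain ⟨-, hn0, -, hsm, htri, -, -, -, -⟩ := hNRM (Gr d (3 * h)) p hp.le
  have hκ0 : (1 : ℝ) ≤ κ := by exact_mod_cast hκ1
  set M : ℝ := 2 ^ (h + i0) with hM
  have hM0 : 0 < M := by positivity
  set Y : Finset (Gr d (3 * h)) := univ.filter fun y => (ω y : ℕ) = 0 with hY
  set j : ℤ := ((∑ j, v j : ℕ) : ℤ) - ((h + i0 : ℕ) : ℤ) with hj
  have hj0 : 0 ≤ j := by
    have h1 : ((h + i0 : ℕ) : ℝ) ≤ ((∑ j, v j : ℕ) : ℝ) := by
      push_cast at hvδ ⊢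
      linarith
    have h2 : h + i0 ≤ ∑ j, v j := by exact_mod_cast h1
    rw [hj]
    omega
  have hNU : NU p j = (2 : ℝ) ^ ((j : ℝ) / p) := by
    unfold NU
    split_ifs with h1
    · have : j = 0 := le_antisymm h1 hj0
      rw [this]
      simp
    · rfl
  have hpow : (2 : ℝ) ^ (∑ j, v j) / M = (2 : ℝ) ^ (j : ℝ) := by
    rw [hM, ← Real.rpow_natCast, ← Real.rpow_natCast, ← Real.rpow_sub (by norm_num)]
    congr 1
    rw [hj]
    push_cast
    ring
  -- the first part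
  have h1 : nrm p (avn b ψ) ≤ nrm p ψ := (hCON d (3 * h) p hp.le).1 (fun j => b j + 1) ψ
  -- the second part
  have h2 : mom p (smn b M Y ψ) ≤ 2 ^ (p - 1) * κ * (2 ^ (∑ j, v j) / M) * mom p ψ := by
    apply mom_smn hp hM0 hv hb Y hψ
    · intro x
      have := hgood.oc v x hv hvδ
      rw [hY, Finset.filter_filter]
      refine le_trans (Finset.card_le_card ?_) this.le
      intro y hy
      rw [Finset.mem_filter] at hy ⊢
      exact ⟨hy.1, hy.2.2, hy.2.1⟩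
    · intro x
      have hc : ∀ j, (x j : ℕ) / 2 ^ (3 * h - b j) < 2 ^ b j := by
        intro j
        rw [Nat.div_lt_iff_lt_mul (by positivity), ← pow_add]
        have : b j + (3 * h - b j) = 3 * h := by
          have := hb j
          omega
        rw [this]
        exact (x j).2
      have := hgood.co b (fun j => (x j : ℕ) / 2 ^ (3 * h - b j)) hb hbα hc
      refine le_trans ?_ this
      apply mul_le_mul_of_nonneg_left _ (by positivity)
      rw [hY, Finset.filter_filter]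
      norm_cast
      apply Finset.card_le_card
      intro y hy
      rw [Finset.mem_filter] at hy ⊢
      refine ⟨hy.1, ?_, hy.2.1⟩
      intro j
      exact (hy.2.2 j).symm
  have h3 : nrm p (smn b M Y ψ) ≤ 2 * κ * (2 : ℝ) ^ ((j : ℝ) / p) * nrm p ψ := by
    unfold nrm
    rw [hpow] at h2
    calc mom p (smn b M Y ψ) ^ (1 / p)
        ≤ (2 ^ (p - 1) * κ * (2 : ℝ) ^ (j : ℝ) * mom p ψ) ^ (1 / p) :=
          Real.rpow_le_rpow (mom_nonneg _) h2 (by positivity)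
      _ = (2 ^ (p - 1) : ℝ) ^ (1 / p) * (κ : ℝ) ^ (1 / p) * ((2 : ℝ) ^ (j : ℝ)) ^ (1 / p) *
            mom p ψ ^ (1 / p) := by
          rw [Real.mul_rpow (by positivity) (mom_nonneg _), Real.mul_rpow (by positivity)
            (by positivity), Real.mul_rpow (by positivity) (by positivity)]
      _ ≤ 2 * κ * (2 : ℝ) ^ ((j : ℝ) / p) * mom p ψ ^ (1 / p) := by
          apply mul_le_mul_of_nonneg_right _ (Real.rpow_nonneg (mom_nonneg _) _)
          rw [← Real.rpow_mul (by norm_num), ← Real.rpow_mul (by norm_num), mul_one_div,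
            mul_one_div]
          apply mul_le_mul_of_nonneg_right _ (by positivity)
          apply mul_le_mul _ _ (by positivity) (by norm_num)
          · calc (2 : ℝ) ^ ((p - 1) / p) ≤ 2 ^ (1 : ℝ) := by
                  apply Real.rpow_le_rpow_of_exponent_le (by norm_num)
                  rw [div_le_one hp0]
                  linarith
              _ = 2 := Real.rpow_one 2
          · calc (κ : ℝ) ^ (1 / p) ≤ (κ : ℝ) ^ (1 : ℝ) := by
                  apply Real.rpow_le_rpow_of_exponent_le hκ0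
                  rw [div_le_one hp0]
                  linarith
              _ = κ := Real.rpow_one _
  -- the triangle inequality
  have h4 : nrm p (fun x => avn b ψ x - smn b M Y ψ x)
      ≤ nrm p (avn b ψ) + nrm p (smn b M Y ψ) := by
    have e1 : (fun x => avn b ψ x - smn b M Y ψ x) = avn b ψ + (-1 : ℝ) • smn b M Y ψ := by
      funext x
      simp [sub_eq_add_neg]
    rw [e1]
    refine (htri _ _).trans ?_
    rw [hsm]
    norm_num
  have h5 : 1 ≤ (2 : ℝ) ^ ((j : ℝ) / p) := by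
    apply Real.one_le_rpow (by norm_num)
    have : (0 : ℝ) ≤ j := by exact_mod_cast hj0
    positivity
  rw [hNU]
  have h6 := hn0 ψ
  calc nrm p (fun x => avn b ψ x - smn b M Y ψ x)
      ≤ nrm p (avn b ψ) + nrm p (smn b M Y ψ) := h4
    _ ≤ nrm p ψ + 2 * κ * (2 : ℝ) ^ ((j : ℝ) / p) * nrm p ψ := add_le_add h1 h3
    _ ≤ (2 : ℝ) ^ ((j : ℝ) / p) * nrm p ψ + 2 * κ * (2 : ℝ) ^ ((j : ℝ) / p) * nrm p ψ := by
        have := mul_le_mul_of_nonneg_right h5 h6
        linarith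
    _ = _ := by ring

end

end Pool.Agent.MP_bc5265.R2
end

section
/-! # I0: choice of the oversampling exponents -/
set_option linter.unusedSectionVars false

open MeasureTheory Finset Matrix
open scoped ENNReal

namespace Pool.Agent.MP_bc5265.R2

open Pool.Agent.MP_bc5265.S

noncomputable section

/-- I0 -/
theorem specI0 : SpecI0 := by
  intro γ d hγ hγd _
  refine ⟨fun h => Nat.log 2 ⌊(h : ℝ) ^ γ⌋₊, fun h hh => ?_⟩
  have hh' : (1 : ℝ) ≤ h := by exact_mod_cast hh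
  have h1 : (1 : ℝ) ≤ (h : ℝ) ^ γ := Real.one_le_rpow hh' hγ.le
  have h2 : ⌊(h : ℝ) ^ γ⌋₊ ≠ 0 := by
    have := Nat.floor_pos.2 h1
    omega
  have h3 : 2 ^ Nat.log 2 ⌊(h : ℝ) ^ γ⌋₊ ≤ ⌊(h : ℝ) ^ γ⌋₊ := Nat.pow_log_le_self 2 h2
  have h4 : ((⌊(h : ℝ) ^ γ⌋₊ : ℕ) : ℝ) ≤ (h : ℝ) ^ γ := Nat.floor_le (by positivity)
  have h5 : (2 : ℝ) ^ Nat.log 2 ⌊(h : ℝ) ^ γ⌋₊ ≤ (h : ℝ) ^ γ := by
    refine le_trans ?_ h4
    exact_mod_cast h3
  refine ⟨h5, ?_, ?_⟩
  · have h6 := Nat.lt_pow_succ_log_self (b := 2) (by norm_num) ⌊(h : ℝ) ^ γ⌋₊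
    have h7 := Nat.lt_floor_add_one ((h : ℝ) ^ γ)
    have h8 : ((⌊(h : ℝ) ^ γ⌋₊ : ℕ) : ℝ) + 1 ≤ 2 ^ (Nat.log 2 ⌊(h : ℝ) ^ γ⌋₊ + 1) := by
      exact_mod_cast h6
    rw [pow_succ] at h8
    linarith
  · have h6 : (h : ℝ) ^ γ ≤ (h : ℝ) ^ (d : ℝ) := Real.rpow_le_rpow_of_exponent_le hh' hγd
    rw [Real.rpow_natCast] at h6
    exact_mod_cast h5.trans h6

end

end Pool.Agent.MP_bc5265.R2
end

section
/-!
# Module IND: independence and the moments of `ζ`
-/
set_option autoImplicit false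
set_option linter.unusedSectionVars false

open Finset

namespace Pool.Agent.MP_bc5265.R2

namespace INDM

variable {X : Type} [Fintype X] [DecidableEq X] {g : ℕ}

/-- Exchange of the coordinates outside of `S`. -/
noncomputable def mix (S : Set X) (ω ω' : X → Fin (2 ^ g)) : X → Fin (2 ^ g) := by
  classical
  exact fun x => if x ∈ S then ω x else ω' x

theorem mix_in (S : Set X) (ω ω' : X → Fin (2 ^ g)) (x : X) (hx : x ∈ S) :
    mix S ω ω' x = ω x := by
  simp [mix, hx]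

theorem mix_out (S : Set X) (ω ω' : X → Fin (2 ^ g)) (x : X) (hx : x ∉ S) :
    mix S ω ω' x = ω' x := by
  simp [mix, hx]

noncomputable def swp (S : Set X) (p : (X → Fin (2 ^ g)) × (X → Fin (2 ^ g))) :
    (X → Fin (2 ^ g)) × (X → Fin (2 ^ g)) := (mix S p.1 p.2, mix S p.2 p.1)

theorem swp_inv (S : Set X) : Function.Involutive (swp (g := g) S) := by
  intro p
  refine Prod.ext ?_ ?_
  · funext x
    by_cases hx : x ∈ S
    · simp [swp, mix_in, hx]
    · simp [swp, mix_out, hx]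
  · funext x
    by_cases hx : x ∈ S
    · simp [swp, mix_in, hx]
    · simp [swp, mix_out, hx]

theorem factor (S : Set X) (f f' : (X → Fin (2 ^ g)) → ℝ) (hf : DepOn S f) (hf' : DepOn Sᶜ f') :
    (∑ ω, f ω) * (∑ ω, f' ω) = Fintype.card (X → Fin (2 ^ g)) * ∑ ω, f ω * f' ω := by
  have h1 : (∑ ω, f ω) * (∑ ω, f' ω) =
      ∑ p : (X → Fin (2 ^ g)) × (X → Fin (2 ^ g)), f p.1 * f' p.2 := by
    rw [Fintype.sum_prod_type, Finset.sum_mul_sum]
  have h2 : ∑ p : (X → Fin (2 ^ g)) × (X → Fin (2 ^ g)), f p.1 * f' p.2 =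
      ∑ p : (X → Fin (2 ^ g)) × (X → Fin (2 ^ g)), f (swp S p).1 * f' (swp S p).1 := by
    refine Finset.sum_congr rfl (fun p _ => ?_)
    rw [hf p.1 (swp S p).1 (fun x hx => (mix_in S _ _ x hx).symm),
      hf' p.2 (swp S p).1 (fun x hx => (mix_out S _ _ x hx).symm)]
  have h3 : ∑ p : (X → Fin (2 ^ g)) × (X → Fin (2 ^ g)), f (swp S p).1 * f' (swp S p).1 =
      ∑ p : (X → Fin (2 ^ g)) × (X → Fin (2 ^ g)), f p.1 * f' p.1 :=
    Equiv.sum_comp (swp_inv S).toPerm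
      (fun p : (X → Fin (2 ^ g)) × (X → Fin (2 ^ g)) => f p.1 * f' p.1)
  rw [h1, h2, h3, Fintype.sum_prod_type]
  simp only [Finset.sum_const, Finset.card_univ, nsmul_eq_mul]
  rw [← Finset.mul_sum]

def upd (x : X) (p : (X → Fin (2 ^ g)) × Fin (2 ^ g)) : (X → Fin (2 ^ g)) × Fin (2 ^ g) :=
  (Function.update p.1 x p.2, p.1 x)

theorem upd_inv (x : X) : Function.Involutive (upd (g := g) x) := by
  intro p
  simp [upd]

theorem coord (x : X) (φ : Fin (2 ^ g) → ℝ) :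
    (2 : ℝ) ^ g * ∑ ω : X → Fin (2 ^ g), φ (ω x) =
      Fintype.card (X → Fin (2 ^ g)) * ∑ t, φ t := by
  have h1 : ∑ p : (X → Fin (2 ^ g)) × Fin (2 ^ g), φ ((upd x p).1 x) =
      ∑ p : (X → Fin (2 ^ g)) × Fin (2 ^ g), φ (p.1 x) :=
    Equiv.sum_comp (upd_inv x).toPerm
      (fun p : (X → Fin (2 ^ g)) × Fin (2 ^ g) => φ (p.1 x))
  have h2 : ∑ p : (X → Fin (2 ^ g)) × Fin (2 ^ g), φ ((upd x p).1 x) =
      Fintype.card (X → Fin (2 ^ g)) * ∑ t, φ t := by
    rw [Fintype.sum_prod_type]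
    simp [upd]
  have h3 : ∑ p : (X → Fin (2 ^ g)) × Fin (2 ^ g), φ (p.1 x) =
      (2 : ℝ) ^ g * ∑ ω : X → Fin (2 ^ g), φ (ω x) := by
    rw [Fintype.sum_prod_type]
    simp [Finset.mul_sum]
  rw [← h3, ← h1, h2]

/-- Sum of a function of `1[t = 0]`. -/
theorem sum_ite (g : ℕ) (a b : ℝ) : ∑ t : Fin (2 ^ g), (if (t : ℕ) = 0 then a else b) =
    a + (2 ^ g - 1) * b := by
  have h1 : ∀ t : Fin (2 ^ g), (if (t : ℕ) = 0 then a else b) =
      b + (if t = (⟨0, by positivity⟩ : Fin (2 ^ g)) then a - b else 0) := by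
    intro t
    by_cases h : (t : ℕ) = 0
    · have h' : t = ⟨0, by positivity⟩ := Fin.ext h
      rw [if_pos h, if_pos h']
      ring
    · have h' : t ≠ ⟨0, by positivity⟩ := fun e => h (by rw [e])
      rw [if_neg h, if_neg h']
      ring
  simp only [h1, Finset.sum_add_distrib, Finset.sum_const, Finset.card_univ, Fintype.card_fin,
    nsmul_eq_mul, Finset.sum_ite_eq', Finset.mem_univ, if_true]
  push_cast
  ring

theorem card_pos : (0 : ℝ) < Fintype.card (X → Fin (2 ^ g)) := by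
  have : Nonempty (Fin (2 ^ g)) := ⟨⟨0, by positivity⟩⟩
  exact_mod_cast Fintype.card_pos

theorem EX_mul (S : Set X) (f f' : (X → Fin (2 ^ g)) → ℝ) (hf : DepOn S f)
    (hf' : DepOn Sᶜ f') : EX g (fun ω => f ω * f' ω) = EX g f * EX g f' := by
  have h := factor S f f' hf hf'
  have hc := card_pos (X := X) (g := g)
  unfold EX
  rw [div_mul_div_comm, h]
  field_simp

theorem EX_coord (x : X) (φ : Fin (2 ^ g) → ℝ) :
    EX g (fun ω : X → Fin (2 ^ g) => φ (ω x)) = (∑ t, φ t) / 2 ^ g := by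
  have h := coord (g := g) x φ
  have hc := card_pos (X := X) (g := g)
  unfold EX
  rw [div_eq_div_iff hc.ne' (by positivity)]
  linarith

theorem sum_zt (g : ℕ) : ∑ t : Fin (2 ^ g), zt g t = 0 := by
  unfold zt
  rw [sum_ite]
  ring

theorem sum_zt_pow (g j : ℕ) : ∑ t : Fin (2 ^ g), zt g t ^ (2 * j) =
    ((2 : ℝ) ^ g - 1) ^ (2 * j) + ((2 : ℝ) ^ g - 1) := by
  have h1 : ∀ t : Fin (2 ^ g), zt g t ^ (2 * j) =
      if (t : ℕ) = 0 then ((2 : ℝ) ^ g - 1) ^ (2 * j) else 1 := by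
    intro t
    unfold zt
    by_cases h : (t : ℕ) = 0
    · rw [if_pos h, if_pos h]
    · rw [if_neg h, if_neg h]
      simp
  simp only [h1]
  rw [sum_ite]
  ring

end INDM

/-- Module IND. -/
theorem specIND : SpecIND := by
  intro X _ _ g
  refine ⟨fun S f f' hf hf' => INDM.EX_mul S f f' hf hf', fun x φ => INDM.EX_coord x φ,
    INDM.sum_zt g, ?_⟩
  intro j hj
  have hn : (1 : ℝ) ≤ (2 : ℝ) ^ g := one_le_pow₀ (by norm_num)
  rw [INDM.sum_zt_pow, div_le_iff₀ (by positivity), mul_assoc, ← pow_succ,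
    show 2 * j - 1 + 1 = 2 * j by omega]
  have h1 : ((2 : ℝ) ^ g - 1) ^ (2 * j) ≤ ((2 : ℝ) ^ g) ^ (2 * j) :=
    pow_le_pow_left₀ (by linarith) (by linarith) _
  have h2 : (2 : ℝ) ^ g ≤ ((2 : ℝ) ^ g) ^ (2 * j) := le_self_pow₀ hn (by omega)
  linarith

end Pool.Agent.MP_bc5265.R2
end

section
set_option linter.unusedSectionVars false

open MeasureTheory Finset Matrix
open scoped ENNReal

namespace Pool.Agent.MP_bc5265.R2

open Pool.Agent.MP_bc5265.S

namespace RELM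

/-- One coordinate of `pt`. -/
def P1 (L a H : ℕ) (x : Fin (2 ^ L)) (y : Fin (2 ^ H)) : Fin (2 ^ L) :=
  ⟨((x : ℕ) / 2 ^ (L - a) * 2 ^ (L - a) + (y : ℕ) * 2 ^ (L - a - H)) % 2 ^ L,
    Nat.mod_lt _ (by positivity)⟩

lemma P1val (L a H : ℕ) (h : a + H ≤ L) (x : Fin (2 ^ L)) (y : Fin (2 ^ H)) :
    (P1 L a H x y : ℕ) = (x : ℕ) / 2 ^ (L - a) * 2 ^ (L - a) + (y : ℕ) * 2 ^ (L - a - H) := by
  show ((x : ℕ) / 2 ^ (L - a) * 2 ^ (L - a) + (y : ℕ) * 2 ^ (L - a - H)) % 2 ^ L = _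
  apply Nat.mod_eq_of_lt
  have h1 : (2 : ℕ) ^ L = 2 ^ a * 2 ^ (L - a) := by rw [← pow_add]; congr 1; omega
  have h2 : (2 : ℕ) ^ (L - a) = 2 ^ H * 2 ^ (L - a - H) := by rw [← pow_add]; congr 1; omega
  have h3 : (x : ℕ) / 2 ^ (L - a) < 2 ^ a := by
    apply Nat.div_lt_of_lt_mul
    rw [mul_comm, ← h1]; exact x.2
  have h4 : (y : ℕ) * 2 ^ (L - a - H) < 2 ^ (L - a) := by
    rw [h2]; exact Nat.mul_lt_mul_of_pos_right y.2 (by positivity)
  calc _ < (x : ℕ) / 2 ^ (L - a) * 2 ^ (L - a) + 2 ^ (L - a) := by omega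
    _ = ((x : ℕ) / 2 ^ (L - a) + 1) * 2 ^ (L - a) := by ring
    _ ≤ 2 ^ a * 2 ^ (L - a) := Nat.mul_le_mul_right _ h3
    _ = 2 ^ L := h1.symm

lemma P1div (L a H b : ℕ) (h : a + H ≤ L) (hab : a ≤ b) (hb : b ≤ a + H) (x : Fin (2 ^ L))
    (y : Fin (2 ^ H)) : (P1 L a H x y : ℕ) / 2 ^ (L - b) =
      (x : ℕ) / 2 ^ (L - a) * 2 ^ (b - a) + (y : ℕ) / 2 ^ (H - (b - a)) := by
  rw [P1val L a H h]
  have h1 : (2 : ℕ) ^ (L - a) = 2 ^ (b - a) * 2 ^ (L - b) := by rw [← pow_add]; congr 1; omega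
  have h2 : (2 : ℕ) ^ (L - b) = 2 ^ (H - (b - a)) * 2 ^ (L - a - H) := by
    rw [← pow_add]; congr 1; omega
  have h3 : (x : ℕ) / 2 ^ (L - a) * 2 ^ (L - a) + (y : ℕ) * 2 ^ (L - a - H) =
      (y : ℕ) * 2 ^ (L - a - H) + (x : ℕ) / 2 ^ (L - a) * 2 ^ (b - a) * 2 ^ (L - b) := by
    rw [mul_assoc, ← h1]; ring
  rw [h3, Nat.add_mul_div_right _ _ (by positivity), add_comm]
  congr 1
  rw [h2, Nat.mul_div_mul_right _ _ (by positivity)]

lemma divdiv (L b v : ℕ) (h : b ≤ v) (z : ℕ) :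
    z / 2 ^ (L - b) = z / 2 ^ (L - v) / 2 ^ ((L - b) - (L - v)) := by
  rw [Nat.div_div_eq_div_mul, ← pow_add]
  congr 2
  omega

lemma P1a (L a H : ℕ) (h : a + H ≤ L) (x : Fin (2 ^ L)) (y : Fin (2 ^ H)) :
    (P1 L a H x y : ℕ) / 2 ^ (L - a) = (x : ℕ) / 2 ^ (L - a) := by
  rw [P1div L a H a h le_rfl (by omega)]
  simp

lemma sameCell_mono {d L : ℕ} {b v : Fin d → ℕ} (h : ∀ j, b j ≤ v j) {x y : Gr d L}
    (hs : sameCell v x y) : sameCell b x y := by
  intro j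
  rw [divdiv L (b j) (v j) (h j) (x j), divdiv L (b j) (v j) (h j) (y j), hs j]

lemma EMval (L k : ℕ) (x y : Fin (2 ^ L)) : EM L (k + 1) x y =
    if (x : ℕ) / 2 ^ (L - k) = (y : ℕ) / 2 ^ (L - k) then 1 / (2 : ℝ) ^ (L - k) else 0 := rfl

/-- The one-dimensional identity. -/
lemma one (L a H b : ℕ) (h : a + H ≤ L) (hab : a ≤ b) (hb : b ≤ a + H) (x z : Fin (2 ^ L))
    (y : Fin (2 ^ H)) : ∑ y' : Fin (2 ^ H), EM H (b - a + 1) y y' *
      EM L (a + H + 1) (P1 L a H x y') z = EM L (b + 1) (P1 L a H x y) z := by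
  have hβ : L - (a + H) = L - a - H := by omega
  have hA : ∀ w : ℕ, w / 2 ^ (L - a) = w / 2 ^ (L - (a + H)) / 2 ^ H := by
    intro w
    rw [divdiv L a (a + H) (by omega)]
    congr 2
    omega
  have hP : ∀ y' : Fin (2 ^ H), (P1 L a H x y' : ℕ) / 2 ^ (L - (a + H)) =
      (x : ℕ) / 2 ^ (L - a) * 2 ^ H + y' := by
    intro y'
    rw [P1div L a H (a + H) h (by omega) le_rfl]
    simp
  by_cases hz : (z : ℕ) / 2 ^ (L - a) = (x : ℕ) / 2 ^ (L - a)
  · set y0 : Fin (2 ^ H) := ⟨(z : ℕ) / 2 ^ (L - (a + H)) % 2 ^ H, Nat.mod_lt _ (by positivity)⟩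
      with hy0
    have hz2 : (z : ℕ) / 2 ^ (L - (a + H)) = (x : ℕ) / 2 ^ (L - a) * 2 ^ H + y0 := by
      rw [← hz, hA z]
      have := Nat.div_add_mod ((z : ℕ) / 2 ^ (L - (a + H))) (2 ^ H)
      rw [hy0]
      show _ = _ + (z : ℕ) / 2 ^ (L - (a + H)) % 2 ^ H
      rw [mul_comm]
      exact this.symm
    have hiff : ∀ y' : Fin (2 ^ H), ((P1 L a H x y' : ℕ) / 2 ^ (L - (a + H)) =
        (z : ℕ) / 2 ^ (L - (a + H))) ↔ y' = y0 := by
      intro y'
      rw [hP, hz2]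
      constructor
      · intro h1
        exact Fin.ext (by omega)
      · rintro rfl; rfl
    rw [sum_eq_single y0]
    · rw [EMval, EMval, EMval, if_pos ((hiff y0).mpr rfl), P1div L a H b h hab hb]
      have hzb : (z : ℕ) / 2 ^ (L - b) =
          (x : ℕ) / 2 ^ (L - a) * 2 ^ (b - a) + (y0 : ℕ) / 2 ^ (H - (b - a)) := by
        rw [divdiv L b (a + H) hb, hz2]
        have h1 : (L - b) - (L - (a + H)) = H - (b - a) := by omega
        have h2 : (2 : ℕ) ^ H = 2 ^ (b - a) * 2 ^ (H - (b - a)) := by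
          rw [← pow_add]; congr 1; omega
        have h3 : (x : ℕ) / 2 ^ (L - a) * 2 ^ H + (y0 : ℕ) = (y0 : ℕ) +
            (x : ℕ) / 2 ^ (L - a) * 2 ^ (b - a) * 2 ^ (H - (b - a)) := by
          rw [mul_assoc, ← h2]; ring
        rw [h1, h3, Nat.add_mul_div_right _ _ (by positivity), add_comm]
      rw [hzb]
      have h4 : (1 : ℝ) / 2 ^ (H - (b - a)) * (1 / 2 ^ (L - (a + H))) = 1 / 2 ^ (L - b) := by
        rw [div_mul_div_comm, one_mul, ← pow_add]
        congr 2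
        omega
      by_cases h5 : (y : ℕ) / 2 ^ (H - (b - a)) = (y0 : ℕ) / 2 ^ (H - (b - a))
      · rw [if_pos h5, if_pos (by rw [h5]), h4]
      · rw [if_neg h5, if_neg (by omega), zero_mul]
    · intro y' _ hne
      rw [EMval L, if_neg (fun h1 => hne ((hiff y').mp h1)), mul_zero]
    · intro h1
      exact absurd (mem_univ _) h1
  · rw [sum_eq_zero, EMval, if_neg]
    · intro h1
      apply hz
      rw [divdiv L a b hab, ← h1, ← divdiv L a b hab, P1a L a H h]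
    · intro y' _
      rw [EMval L, if_neg, mul_zero]
      intro h1
      apply hz
      rw [hA z, ← h1, ← hA, P1a L a H h]

/-- Number of elements of a dyadic cell. -/
lemma cellcard (L k : ℕ) (hk : k ≤ L) (x : Fin (2 ^ L)) :
    (univ.filter fun y : Fin (2 ^ L) => (x : ℕ) / 2 ^ (L - k) = (y : ℕ) / 2 ^ (L - k)).card =
      2 ^ (L - k) := by
  set c : ℕ := (x : ℕ) / 2 ^ (L - k) with hc
  have h1 : (2 : ℕ) ^ L = 2 ^ k * 2 ^ (L - k) := by rw [← pow_add]; congr 1; omega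
  have hc2 : c < 2 ^ k := by
    apply Nat.div_lt_of_lt_mul
    rw [mul_comm, ← h1]; exact x.2
  have h2 : (univ.filter fun y : Fin (2 ^ L) => c = (y : ℕ) / 2 ^ (L - k)).card =
      (Ico (c * 2 ^ (L - k)) (c * 2 ^ (L - k) + 2 ^ (L - k))).card := by
    apply card_bij (fun (y : Fin (2 ^ L)) _ => (y : ℕ))
    · intro y hy
      rw [mem_filter] at hy
      rw [mem_Ico]
      have h3 := Nat.div_add_mod (y : ℕ) (2 ^ (L - k))
      have h4 := Nat.mod_lt (y : ℕ) (show 0 < 2 ^ (L - k) by positivity)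
      rw [← hy.2, mul_comm] at h3
      omega
    · intro y _ y' _ h3
      exact Fin.ext h3
    · intro m hm
      rw [mem_Ico] at hm
      have h3 : m < 2 ^ L := by
        calc m < c * 2 ^ (L - k) + 2 ^ (L - k) := hm.2
          _ = (c + 1) * 2 ^ (L - k) := by ring
          _ ≤ 2 ^ k * 2 ^ (L - k) := Nat.mul_le_mul_right _ hc2
          _ = 2 ^ L := h1.symm
      refine ⟨⟨m, h3⟩, ?_, rfl⟩
      rw [mem_filter]
      refine ⟨mem_univ _, ?_⟩
      symm
      show m / 2 ^ (L - k) = c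
      apply Nat.div_eq_of_lt_le hm.1
      calc m < c * 2 ^ (L - k) + 2 ^ (L - k) := hm.2
        _ = (c + 1) * 2 ^ (L - k) := by ring
  rw [h2, Nat.card_Ico, Nat.add_sub_cancel_left]

lemma EMrow (L k : ℕ) (hk : k ≤ L) (x : Fin (2 ^ L)) : ∑ y, EM L (k + 1) x y = 1 := by
  simp only [EMval]
  rw [← sum_filter, sum_const, cellcard L k hk, nsmul_eq_mul]
  push_cast
  field_simp

lemma EMsymm (L k : ℕ) (x y : Fin (2 ^ L)) : EM L (k + 1) x y = EM L (k + 1) y x := by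
  simp only [EMval, eq_comm]

lemma EMcol (L k : ℕ) (hk : k ≤ L) (y : Fin (2 ^ L)) : ∑ x, EM L (k + 1) x y = 1 := by
  rw [← EMrow L k hk y]
  exact sum_congr rfl fun x _ => EMsymm L k x y

lemma prodsum {d N : ℕ} (f : Fin d → Fin N → ℝ) :
    ∑ x : Fin d → Fin N, ∏ j, f j (x j) = ∏ j, ∑ y, f j y := by
  rw [Finset.prod_univ_sum, Fintype.piFinset_univ]

lemma tensrow {d L : ℕ} (k : Fin d → ℕ) (hk : ∀ j, k j ≤ L) (x : Gr d L) :
    ∑ z, tens (fun j => EM L (k j + 1)) x z = 1 := by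
  show ∑ z : Gr d L, ∏ j, EM L (k j + 1) (x j) (z j) = 1
  rw [prodsum fun j => EM L (k j + 1) (x j)]
  exact prod_eq_one fun j _ => EMrow L (k j) (hk j) (x j)

lemma tenscol {d L : ℕ} (k : Fin d → ℕ) (hk : ∀ j, k j ≤ L) (z : Gr d L) :
    ∑ x, tens (fun j => EM L (k j + 1)) x z = 1 := by
  show ∑ x : Gr d L, ∏ j, EM L (k j + 1) (x j) (z j) = 1
  rw [prodsum fun j x => EM L (k j + 1) x (z j)]
  exact prod_eq_one fun j _ => EMcol L (k j) (hk j) (z j)

lemma tensne {d L : ℕ} (k : Fin d → ℕ) (x z : Gr d L) (h : ¬ sameCell k x z) :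
    tens (fun j => EM L (k j + 1)) x z = 0 := by
  unfold sameCell at h
  push Not at h
  obtain ⟨j, hj⟩ := h
  show ∏ j, EM L (k j + 1) (x j) (z j) = 0
  apply prod_eq_zero (mem_univ j)
  rw [EMval, if_neg hj]

lemma fixed {d L : ℕ} (k : Fin d → ℕ) (hk : ∀ j, k j ≤ L) (ψ : Gr d L → ℝ) (h : CellC k ψ)
    (x : Gr d L) : ∑ z, tens (fun j => EM L (k j + 1)) x z * ψ z = ψ x := by
  calc _ = ∑ z, tens (fun j => EM L (k j + 1)) x z * ψ x := by
        refine sum_congr rfl fun z _ => ?_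
        by_cases hc : sameCell k x z
        · rw [h x z hc]
        · rw [tensne k x z hc]; ring
    _ = ψ x := by rw [← sum_mul, tensrow k hk, one_mul]

lemma tenscell {d L : ℕ} (k : Fin d → ℕ) (x x' z : Gr d L) (h : sameCell k x x') :
    tens (fun j => EM L (k j + 1)) x z = tens (fun j => EM L (k j + 1)) x' z := by
  show ∏ j, EM L (k j + 1) (x j) (z j) = ∏ j, EM L (k j + 1) (x' j) (z j)
  refine prod_congr rfl fun j _ => ?_
  rw [EMval, EMval, h j]

lemma pteq {d L H : ℕ} (a : Fin d → ℕ) (x : Gr d L) (y : Gr d H) (j : Fin d) :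
    pt a H x y j = P1 L (a j) H (x j) (y j) := rfl

lemma ptcell {d L H : ℕ} (a : Fin d → ℕ) (x x' : Gr d L) (y : Gr d H) (h : sameCell a x x') :
    pt a H x y = pt a H x' y := by
  funext j
  apply Fin.ext
  show ((x j : ℕ) / 2 ^ (L - a j) * 2 ^ (L - a j) + (y j : ℕ) * 2 ^ (L - a j - H)) % 2 ^ L =
    ((x' j : ℕ) / 2 ^ (L - a j) * 2 ^ (L - a j) + (y j : ℕ) * 2 ^ (L - a j - H)) % 2 ^ L
  rw [h j]

lemma ptsame {d L H : ℕ} (a : Fin d → ℕ) (hH : ∀ j, a j + H ≤ L) (x : Gr d L) (y : Gr d H) :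
    sameCell a (pt a H x y) x := fun j => P1a L (a j) H (hH j) (x j) (y j)

lemma ptpt {d L H : ℕ} (a : Fin d → ℕ) (hH : ∀ j, a j + H ≤ L) (x : Gr d L) (y y' : Gr d H) :
    pt a H (pt a H x y) y' = pt a H x y' :=
  ptcell a _ _ y' (ptsame a hH x y)

lemma cellrel {d L H : ℕ} (a b : Fin d → ℕ) (hH : ∀ j, a j + H ≤ L) (hab : ∀ j, a j ≤ b j)
    (hb : ∀ j, b j ≤ a j + H) (x : Gr d L) (y y' : Gr d H) :
    sameCell b (pt a H x y) (pt a H x y') ↔ sameCell (fun j => b j - a j) y y' := by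
  unfold sameCell
  refine forall_congr' fun j => ?_
  rw [pteq, pteq, P1div L (a j) H (b j) (hH j) (hab j) (hb j),
    P1div L (a j) H (b j) (hH j) (hab j) (hb j)]
  exact Nat.add_left_cancel_iff

lemma part3 {d L H : ℕ} (a b : Fin d → ℕ) (hH : ∀ j, a j + H ≤ L) (hab : ∀ j, a j ≤ b j)
    (hb : ∀ j, b j ≤ a j + H) (ψ : Gr d L → ℝ) (hψ : CellC (fun j => a j + H) ψ)
    (x : Gr d L) (y : Gr d H) :
    ((tens fun j => EM L (b j + 1)) *ᵥ ψ) (pt a H x y) =
      avn (fun j => b j - a j) (fun y' => ψ (pt a H x y')) y := by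
  show ∑ z, tens (fun j => EM L (b j + 1)) (pt a H x y) z * ψ z =
    ∑ y', tens (fun j => EM H (b j - a j + 1)) y y' * ψ (pt a H x y')
  have h1 : ∀ z : Gr d L, tens (fun j => EM L (b j + 1)) (pt a H x y) z =
      ∑ y' : Gr d H, tens (fun j => EM H (b j - a j + 1)) y y' *
        tens (fun j => EM L (a j + H + 1)) (pt a H x y') z := by
    intro z
    show ∏ j, EM L (b j + 1) (pt a H x y j) (z j) =
      ∑ y' : Gr d H, (∏ j, EM H (b j - a j + 1) (y j) (y' j)) *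
        ∏ j, EM L (a j + H + 1) (pt a H x y' j) (z j)
    simp only [← prod_mul_distrib, pteq]
    rw [prodsum fun j y' => EM H (b j - a j + 1) (y j) y' *
      EM L (a j + H + 1) (P1 L (a j) H (x j) y') (z j)]
    exact prod_congr rfl fun j _ => (one L (a j) H (b j) (hH j) (hab j) (hb j) (x j) (z j)
      (y j)).symm
  calc _ = ∑ z, ∑ y' : Gr d H, (tens (fun j => EM H (b j - a j + 1)) y y' *
        tens (fun j => EM L (a j + H + 1)) (pt a H x y') z) * ψ z := by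
        refine sum_congr rfl fun z _ => ?_
        rw [h1 z, sum_mul]
    _ = ∑ y' : Gr d H, ∑ z, (tens (fun j => EM H (b j - a j + 1)) y y' *
        tens (fun j => EM L (a j + H + 1)) (pt a H x y') z) * ψ z := sum_comm
    _ = _ := by
        refine sum_congr rfl fun y' _ => ?_
        rw [← fixed (fun j => a j + H) hH ψ hψ (pt a H x y'), mul_sum]
        exact sum_congr rfl fun z _ => by ring

lemma part4 {d L H : ℕ} (a : Fin d → ℕ) (hH : ∀ j, a j + H ≤ L) (ψ : Gr d L → ℝ)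
    (hψ : CellC (fun j => a j + H) ψ) :
    ∑ x : Gr d L, (∑ y : Gr d H, ψ (pt a H x y)) / Fintype.card (Gr d H) = ∑ z, ψ z := by
  have h0 : ∀ x : Gr d L, (∑ y : Gr d H, ψ (pt a H x y)) / Fintype.card (Gr d H) =
      ∑ z, tens (fun j => EM L (a j + 1)) x z * ψ z := by
    intro x
    have y0 : Gr d H := fun _ => ⟨0, by positivity⟩
    have h1 := part3 a a hH (fun _ => le_rfl) (fun j => by omega) ψ hψ x y0
    have h2 : ((tens fun j => EM L (a j + 1)) *ᵥ ψ) (pt a H x y0) =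
        ∑ z, tens (fun j => EM L (a j + 1)) x z * ψ z := by
      show ∑ z, tens (fun j => EM L (a j + 1)) (pt a H x y0) z * ψ z = _
      refine sum_congr rfl fun z _ => ?_
      rw [tenscell a (pt a H x y0) x z (ptsame a hH x y0)]
    have h3 : avn (fun j => a j - a j) (fun y' => ψ (pt a H x y')) y0 =
        (∑ y : Gr d H, ψ (pt a H x y)) / Fintype.card (Gr d H) := by
      show ∑ y', tens (fun j => EM H (a j - a j + 1)) y0 y' * ψ (pt a H x y') = _
      rw [sum_div]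
      refine sum_congr rfl fun y' _ => ?_
      have h4 : tens (fun j => EM H (a j - a j + 1)) y0 y' = 1 / Fintype.card (Gr d H) := by
        show ∏ j, EM H (a j - a j + 1) (y0 j) (y' j) = _
        have h5 : ∀ j : Fin d, EM H (a j - a j + 1) (y0 j) (y' j) = 1 / (2 : ℝ) ^ H := by
          intro j
          rw [EMval, Nat.sub_self, Nat.sub_zero, if_pos]
          rw [Nat.div_eq_of_lt (y0 j).2, Nat.div_eq_of_lt (y' j).2]
        rw [prod_congr rfl fun j _ => h5 j, prod_const, card_univ, Fintype.card_fin,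
          Fintype.card_fun, Fintype.card_fin, Fintype.card_fin]
        push_cast
        rw [div_pow, one_pow]
      rw [h4]; ring
    rw [← h3, ← h1, h2]
  rw [sum_congr rfl fun x _ => h0 x, sum_comm]
  refine sum_congr rfl fun z _ => ?_
  rw [← sum_mul, tenscol a (fun j => by have := hH j; omega) z, one_mul]

end RELM

open RELM in
theorem specREL : SpecREL := by
  intro d L H a b v M p Y ψ hH hab hb hav hv hψ
  have hψ2 : CellC (fun j => a j + H) ψ := fun x y hxy => hψ x y (sameCell_mono hv hxy)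
  refine ⟨?_, ?_, ?_, ?_, ?_, ?_⟩
  · intro x y y' h
    exact hψ _ _ ((cellrel a v hH hav hv x y y').mpr h)
  · intro x y
    show ∑ z, WM L a b M Y (pt a H x y) z * ψ z =
      (2 : ℝ) ^ (∑ j, (b j - a j)) / M *
        ∑ y' ∈ Y, if sameCell (fun j => b j - a j) y y' then ψ (pt a H x y') else 0
    have h1 : ∀ z, WM L a b M Y (pt a H x y) z * ψ z = ∑ y' ∈ Y,
        if z = pt a H x y' then (if sameCell (fun j => b j - a j) y y' then
          (2 : ℝ) ^ (∑ j, (b j - a j)) / M * ψ (pt a H x y') else 0) else 0 := by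
      intro z
      show (∑ y' ∈ Y, if z = pt a H (pt a H x y) y' ∧ sameCell b (pt a H x y) z then
        (2 : ℝ) ^ (∑ j, (b j - a j)) / M else 0) * ψ z = _
      rw [sum_mul]
      refine sum_congr rfl fun y' _ => ?_
      rw [ptpt a hH]
      by_cases hz : z = pt a H x y'
      · subst hz
        rw [if_pos rfl]
        by_cases hc : sameCell (fun j => b j - a j) y y'
        · rw [if_pos hc, if_pos ⟨rfl, (cellrel a b hH hab hb x y y').mpr hc⟩]
        · rw [if_neg hc, if_neg, zero_mul]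
          rintro ⟨-, h3⟩
          exact hc ((cellrel a b hH hab hb x y y').mp h3)
      · rw [if_neg hz, if_neg (fun h3 => hz h3.1), zero_mul]
    rw [sum_congr rfl fun z _ => h1 z, sum_comm, mul_sum]
    refine sum_congr rfl fun y' _ => ?_
    rw [sum_ite_eq' univ (pt a H x y'), if_pos (mem_univ _)]
    split_ifs with hc <;> ring
  · intro x y
    exact part3 a b hH hab hb ψ hψ2 x y
  · intro Φ hΦ
    have h1 := part4 a hH (fun z => |Φ z| ^ p) (fun x y hxy => by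
      show |Φ x| ^ p = |Φ y| ^ p
      rw [hΦ x y hxy])
    unfold mom
    rw [h1]
  · intro x x' h
    show ∑ z, WM L a b M Y x z * ψ z = ∑ z, WM L a b M Y x' z * ψ z
    refine sum_congr rfl fun z _ => ?_
    congr 1
    show (∑ y' ∈ Y, if z = pt a H x y' ∧ sameCell b x z then
        (2 : ℝ) ^ (∑ j, (b j - a j)) / M else 0) = ∑ y' ∈ Y,
        if z = pt a H x' y' ∧ sameCell b x' z then (2 : ℝ) ^ (∑ j, (b j - a j)) / M else 0
    have ha : sameCell a x x' := sameCell_mono (fun j => by omega) h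
    have hbb : sameCell b x x' := sameCell_mono hb h
    have hbz : sameCell b x z ↔ sameCell b x' z := by
      constructor
      · intro h2 j; rw [← hbb j]; exact h2 j
      · intro h2 j; rw [hbb j]; exact h2 j
    refine sum_congr rfl fun y' _ => ?_
    rw [ptcell a x x' y' ha]
    simp only [hbz]
  · intro x x' h
    show ∑ z, tens (fun j => EM L (b j + 1)) x z * ψ z =
      ∑ z, tens (fun j => EM L (b j + 1)) x' z * ψ z
    refine sum_congr rfl fun z _ => ?_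
    rw [tenscell b x x' z (sameCell_mono hb h)]

end Pool.Agent.MP_bc5265.R2
end

section
/-!
# UNB: numbers for the union bound
-/
open MeasureTheory Finset Matrix
open scoped ENNReal

namespace Pool.Agent.MP_bc5265.R2

open Pool.Agent.MP_bc5265.S

namespace UNBM

lemma pow_le (h n N : ℕ) (hh : 1 ≤ h) (hn : n ≤ N) : (h : ℝ) ^ n ≤ (h : ℝ) ^ N :=
  pow_le_pow_right₀ (by exact_mod_cast hh) hn

lemma lin_le (h n : ℕ) (hh : 1 ≤ h) : (3 * h + 1 : ℝ) ^ n ≤ 4 ^ n * (h : ℝ) ^ n := by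
  rw [← mul_pow]
  have : (1 : ℝ) ≤ h := by exact_mod_cast hh
  exact pow_le_pow_left₀ (by positivity) (by linarith) n

lemma i0_le (h i0 d n : ℕ) (hi : 2 ^ i0 ≤ h ^ d) : ((2 : ℝ) ^ i0) ^ n ≤ (h : ℝ) ^ (d * n) := by
  rw [pow_mul]
  exact pow_le_pow_left₀ (by positivity) (by exact_mod_cast hi) n

lemma exp_le (c : ℝ) (h : ℕ) (hc : c ≤ -(3 / 4)) :
    (2 : ℝ) ^ (c * h) ≤ ((2 : ℝ) ^ (-(3 / 4) : ℝ)) ^ h := by
  rw [← Real.rpow_mul_natCast (by norm_num)]
  refine Real.rpow_le_rpow_of_exponent_le (by norm_num) ?_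
  have : (0 : ℝ) ≤ h := Nat.cast_nonneg h
  nlinarith

end UNBM

open UNBM in
theorem specUNB : SpecUNB := by
  intro d k C hd hk hC
  have hk' : (1 : ℝ) ≤ k := by exact_mod_cast hk
  have hk0 : (k : ℝ) ≠ 0 := by positivity
  set r : ℝ := (2 : ℝ) ^ (-(3 / 4) : ℝ) with hr
  have hr0 : 0 < r := by positivity
  have hr1 : r < 1 := Real.rpow_lt_one_of_one_lt_of_neg (by norm_num) (by norm_num)
  set N : ℕ := 2 * d + 2 * k * d + d + d * (160 * k) with hN
  set K : ℝ := 2 * C * 4 ^ (2 * d) + 4 ^ d + 4 ^ d with hK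
  have hK0 : 0 < K := by positivity
  have ht : Filter.Tendsto (fun n : ℕ => K * ((n : ℝ) ^ N * r ^ n)) Filter.atTop (nhds 0) := by
    have := (tendsto_pow_const_mul_const_pow_of_abs_lt_one N
      (by rw [abs_of_pos hr0]; exact hr1)).const_mul K
    simpa using this
  obtain ⟨h0, hh0⟩ := Filter.eventually_atTop.1 ((ht.eventually_lt_const one_pos).and
    (Filter.eventually_ge_atTop 1))
  have hα : (1 / (40 * k) : ℝ) ≤ 1 := by
    rw [div_le_one (by positivity)]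
    linarith
  refine ⟨1 / (40 * k), 1 / (40 * k), 160 * k, h0, by positivity, by positivity, hα, hα, by omega,
    (hh0 h0 le_rfl).2, fun h i0 hh hi => ?_⟩
  obtain ⟨hlt, h1⟩ := hh0 h hh
  refine lt_of_le_of_lt ?_ hlt
  have hh1 : (1 : ℝ) ≤ h := by exact_mod_cast h1
  have hpos : (0 : ℝ) ≤ r ^ h := by positivity
  -- first term
  have t1 : 2 * ((3 * h + 1 : ℝ) ^ (2 * d) * (2 : ℝ) ^ (2 * k * (1 / (40 * k) : ℝ) * h)) *
      (C * (2 : ℝ) ^ (-(h : ℝ)) * (2 : ℝ) ^ (4 * k * (1 / (40 * k) : ℝ) * h) *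
        ((2 : ℝ) ^ (2 * k * (1 / (40 * k) : ℝ) * h) * (2 : ℝ) ^ ((k * i0 : ℕ) : ℝ)) ^ 2) ≤
      2 * C * 4 ^ (2 * d) * ((h : ℝ) ^ N * r ^ h) := by
    have e1 : (2 * k * (1 / (40 * k)) * h : ℝ) = 1 / 20 * h := by field_simp; norm_num
    have e2 : (4 * k * (1 / (40 * k)) * h : ℝ) = 1 / 10 * h := by field_simp; norm_num
    have e3 : ((2 : ℝ) ^ ((k * i0 : ℕ) : ℝ)) ^ 2 = ((2 : ℝ) ^ i0) ^ (2 * k) := by
      rw [Real.rpow_natCast, ← pow_mul, ← pow_mul]
      congr 1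
      ring
    rw [e1, e2, mul_pow, e3]
    have e4 : (2 : ℝ) ^ (1 / 20 * (h : ℝ)) * (2 : ℝ) ^ (-(h : ℝ)) * (2 : ℝ) ^ (1 / 10 * (h : ℝ)) *
        ((2 : ℝ) ^ (1 / 20 * (h : ℝ))) ^ 2 = (2 : ℝ) ^ (-(3 / 4) * (h : ℝ)) := by
      rw [← Real.rpow_natCast, ← Real.rpow_mul (by norm_num), ← Real.rpow_add (by norm_num),
        ← Real.rpow_add (by norm_num), ← Real.rpow_add (by norm_num)]
      congr 1
      push_cast
      ring
    have e5 : 2 * ((3 * h + 1 : ℝ) ^ (2 * d) * (2 : ℝ) ^ (1 / 20 * (h : ℝ))) *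
        (C * (2 : ℝ) ^ (-(h : ℝ)) * (2 : ℝ) ^ (1 / 10 * (h : ℝ)) *
        (((2 : ℝ) ^ (1 / 20 * (h : ℝ))) ^ 2 * ((2 : ℝ) ^ i0) ^ (2 * k))) =
        2 * C * ((3 * h + 1 : ℝ) ^ (2 * d) * ((2 : ℝ) ^ i0) ^ (2 * k)) *
          (2 : ℝ) ^ (-(3 / 4) * (h : ℝ)) := by
      rw [← e4]
      ring
    rw [e5]
    have a1 := lin_le h (2 * d) h1
    have a2 := i0_le h i0 d (2 * k) hi
    have a3 := exp_le (-(3 / 4)) h le_rfl
    have a4 : (h : ℝ) ^ (2 * d) * (h : ℝ) ^ (d * (2 * k)) ≤ (h : ℝ) ^ N := by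
      rw [← pow_add]
      refine pow_le h _ _ h1 ?_
      rw [hN]
      nlinarith
    calc 2 * C * ((3 * h + 1 : ℝ) ^ (2 * d) * ((2 : ℝ) ^ i0) ^ (2 * k)) *
          (2 : ℝ) ^ (-(3 / 4) * (h : ℝ))
        ≤ 2 * C * ((4 ^ (2 * d) * (h : ℝ) ^ (2 * d)) * (h : ℝ) ^ (d * (2 * k))) * r ^ h := by
          gcongr
      _ = 2 * C * 4 ^ (2 * d) * ((h : ℝ) ^ (2 * d) * (h : ℝ) ^ (d * (2 * k))) * r ^ h := by ring
      _ ≤ 2 * C * 4 ^ (2 * d) * (h : ℝ) ^ N * r ^ h := by gcongr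
      _ = _ := by ring
  have t2 : (3 * h + 1 : ℝ) ^ d * (2 : ℝ) ^ ((1 / (40 * k) : ℝ) * h) *
      ((2 : ℝ) ^ ((1 / (40 * k) : ℝ) * h) * (2 : ℝ) ^ (-(h : ℝ))) ≤
      4 ^ d * ((h : ℝ) ^ N * r ^ h) := by
    have e1 : (3 * h + 1 : ℝ) ^ d * (2 : ℝ) ^ ((1 / (40 * k) : ℝ) * h) *
        ((2 : ℝ) ^ ((1 / (40 * k) : ℝ) * h) * (2 : ℝ) ^ (-(h : ℝ))) =
        (3 * h + 1 : ℝ) ^ d * (2 : ℝ) ^ ((2 * (1 / (40 * k) : ℝ) - 1) * h) := by
      rw [mul_assoc, ← Real.rpow_add (by norm_num), ← Real.rpow_add (by norm_num)]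
      congr 2
      ring
    rw [e1]
    have hα2 : (1 / (40 * k) : ℝ) ≤ 1 / 40 := by
      apply one_div_le_one_div_of_le (by norm_num)
      linarith
    have a1 := lin_le h d h1
    have a3 := exp_le (2 * (1 / (40 * k) : ℝ) - 1) h (by linarith)
    have a4 : (h : ℝ) ^ d ≤ (h : ℝ) ^ N := pow_le h _ _ h1 (by rw [hN]; omega)
    calc (3 * h + 1 : ℝ) ^ d * (2 : ℝ) ^ ((2 * (1 / (40 * k) : ℝ) - 1) * h)
        ≤ (4 ^ d * (h : ℝ) ^ d) * r ^ h := by gcongr
      _ ≤ (4 ^ d * (h : ℝ) ^ N) * r ^ h := by gcongr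
      _ = _ := by ring
  have t3 : (3 * h + 1 : ℝ) ^ d * ((2 : ℝ) ^ ((1 + (1 / (40 * k) : ℝ)) * h) *
      (2 : ℝ) ^ (((i0 : ℝ) - (1 / (40 * k) : ℝ) * h) * ((160 * k : ℕ) : ℝ))) ≤
      4 ^ d * ((h : ℝ) ^ N * r ^ h) := by
    have e1 : (2 : ℝ) ^ ((1 + (1 / (40 * k) : ℝ)) * h) *
        (2 : ℝ) ^ (((i0 : ℝ) - (1 / (40 * k) : ℝ) * h) * ((160 * k : ℕ) : ℝ)) =
        ((2 : ℝ) ^ i0) ^ (160 * k) * (2 : ℝ) ^ ((1 / (40 * k) - 3 : ℝ) * h) := by
      rw [← Real.rpow_natCast, ← Real.rpow_natCast, ← Real.rpow_mul (by norm_num),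
        ← Real.rpow_add (by norm_num), ← Real.rpow_add (by norm_num)]
      congr 1
      push_cast
      field_simp
      ring
    rw [e1]
    have hα2 : (1 / (40 * k) : ℝ) ≤ 1 / 40 := by
      apply one_div_le_one_div_of_le (by norm_num)
      linarith
    have a1 := lin_le h d h1
    have a2 := i0_le h i0 d (160 * k) hi
    have a3 := exp_le ((1 / (40 * k) - 3 : ℝ)) h (by linarith)
    have a4 : (h : ℝ) ^ d * (h : ℝ) ^ (d * (160 * k)) ≤ (h : ℝ) ^ N := by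
      rw [← pow_add]
      exact pow_le h _ _ h1 (by rw [hN]; omega)
    calc (3 * h + 1 : ℝ) ^ d * (((2 : ℝ) ^ i0) ^ (160 * k) * (2 : ℝ) ^ ((1 / (40 * k) - 3 : ℝ) * h))
        ≤ (4 ^ d * (h : ℝ) ^ d) * ((h : ℝ) ^ (d * (160 * k)) * r ^ h) := by gcongr
      _ = 4 ^ d * ((h : ℝ) ^ d * (h : ℝ) ^ (d * (160 * k))) * r ^ h := by ring
      _ ≤ 4 ^ d * (h : ℝ) ^ N * r ^ h := by gcongr
      _ = _ := by ring
  calc _ ≤ 2 * C * 4 ^ (2 * d) * ((h : ℝ) ^ N * r ^ h) + 4 ^ d * ((h : ℝ) ^ N * r ^ h) +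
        4 ^ d * ((h : ℝ) ^ N * r ^ h) := add_le_add (add_le_add t1 t2) t3
    _ = K * ((h : ℝ) ^ N * r ^ h) := by rw [hK]; ring

end Pool.Agent.MP_bc5265.R2
end

section
/-!
# Region `R_1`, `q > 2`, module HI2: the levels `|v| ≥ (1+δ) h`

Copy of `R2/HIG.lean` for all exponents `p > 1`.
-/
set_option linter.unusedSectionVars false

open MeasureTheory Finset Matrix
open scoped ENNReal

namespace Pool.Agent.MP_bc5265.RQ

open Pool.Agent.MP_bc5265.S Pool.Agent.MP_bc5265.R2 Pool.Agent.MP_bc5265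

noncomputable section

open Pool.Agent.MP_bc5265.R2.HIGM in
theorem specHI2 (hCON : R2.SpecCON) (hNRM : R2.SpecNRM) : SpecHI2 := by
  intro p k κ d h i0 g α δ ω hp hκ1 hg hi0 hgood v b hv hvδ hb hbα ψ hψ
  have hp0 : 0 < p := by linarith
  obtain ⟨-, hn0, -, hsm, htri, -, -, -, -⟩ := hNRM (Gr d (3 * h)) p hp.le
  have hκ0 : (1 : ℝ) ≤ κ := by exact_mod_cast hκ1
  set M : ℝ := 2 ^ (h + i0) with hM
  have hM0 : 0 < M := by positivity
  set Y : Finset (Gr d (3 * h)) := univ.filter fun y => (ω y : ℕ) = 0 with hY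
  set j : ℝ := ((∑ j, v j : ℕ) : ℝ) - ((h + i0 : ℕ) : ℝ) with hj
  have hj0 : 0 ≤ j := by
    have h1 : ((h + i0 : ℕ) : ℝ) ≤ ((∑ j, v j : ℕ) : ℝ) := by
      push_cast at hvδ ⊢
      linarith
    rw [hj]
    linarith
  have hpow : (2 : ℝ) ^ (∑ j, v j) / M = (2 : ℝ) ^ j := by
    rw [hM, ← Real.rpow_natCast, ← Real.rpow_natCast, ← Real.rpow_sub (by norm_num)]
  -- the first part
  have h1 : nrm p (avn b ψ) ≤ nrm p ψ := (hCON d (3 * h) p hp.le).1 (fun j => b j + 1) ψ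
  -- the second part
  have h2 : mom p (smn b M Y ψ) ≤ 2 ^ (p - 1) * κ * (2 ^ (∑ j, v j) / M) * mom p ψ := by
    apply mom_smn hp hM0 hv hb Y hψ
    · intro x
      have := hgood.oc v x hv hvδ
      rw [hY, Finset.filter_filter]
      refine le_trans (Finset.card_le_card ?_) this.le
      intro y hy
      rw [Finset.mem_filter] at hy ⊢
      exact ⟨hy.1, hy.2.2, hy.2.1⟩
    · intro x
      have hc : ∀ j, (x j : ℕ) / 2 ^ (3 * h - b j) < 2 ^ b j := by
        intro j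
        rw [Nat.div_lt_iff_lt_mul (by positivity), ← pow_add]
        have : b j + (3 * h - b j) = 3 * h := by
          have := hb j
          omega
        rw [this]
        exact (x j).2
      have := hgood.co b (fun j => (x j : ℕ) / 2 ^ (3 * h - b j)) hb hbα hc
      refine le_trans ?_ this
      apply mul_le_mul_of_nonneg_left _ (by positivity)
      rw [hY, Finset.filter_filter]
      norm_cast
      apply Finset.card_le_card
      intro y hy
      rw [Finset.mem_filter] at hy ⊢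
      refine ⟨hy.1, ?_, hy.2.1⟩
      intro j
      exact (hy.2.2 j).symm
  have h3 : nrm p (smn b M Y ψ) ≤ 2 * κ * (2 : ℝ) ^ (j / p) * nrm p ψ := by
    unfold nrm
    rw [hpow] at h2
    calc mom p (smn b M Y ψ) ^ (1 / p)
        ≤ (2 ^ (p - 1) * κ * (2 : ℝ) ^ j * mom p ψ) ^ (1 / p) :=
          Real.rpow_le_rpow (mom_nonneg _) h2 (by positivity)
      _ = (2 ^ (p - 1) : ℝ) ^ (1 / p) * (κ : ℝ) ^ (1 / p) * ((2 : ℝ) ^ j) ^ (1 / p) *
            mom p ψ ^ (1 / p) := by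
          rw [Real.mul_rpow (by positivity) (mom_nonneg _), Real.mul_rpow (by positivity)
            (by positivity), Real.mul_rpow (by positivity) (by positivity)]
      _ ≤ 2 * κ * (2 : ℝ) ^ (j / p) * mom p ψ ^ (1 / p) := by
          apply mul_le_mul_of_nonneg_right _ (Real.rpow_nonneg (mom_nonneg _) _)
          rw [← Real.rpow_mul (by norm_num), ← Real.rpow_mul (by norm_num), mul_one_div,
            mul_one_div]
          apply mul_le_mul_of_nonneg_right _ (by positivity)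
          apply mul_le_mul _ _ (by positivity) (by norm_num)
          · calc (2 : ℝ) ^ ((p - 1) / p) ≤ 2 ^ (1 : ℝ) := by
                  apply Real.rpow_le_rpow_of_exponent_le (by norm_num)
                  rw [div_le_one hp0]
                  linarith
              _ = 2 := Real.rpow_one 2
          · calc (κ : ℝ) ^ (1 / p) ≤ (κ : ℝ) ^ (1 : ℝ) := by
                  apply Real.rpow_le_rpow_of_exponent_le hκ0
                  rw [div_le_one hp0]
                  linarith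
              _ = κ := Real.rpow_one _
  -- the triangle inequality
  have h4 : nrm p (fun x => avn b ψ x - smn b M Y ψ x)
      ≤ nrm p (avn b ψ) + nrm p (smn b M Y ψ) := by
    have e1 : (fun x => avn b ψ x - smn b M Y ψ x) = avn b ψ + (-1 : ℝ) • smn b M Y ψ := by
      funext x
      simp [sub_eq_add_neg]
    rw [e1]
    refine (htri _ _).trans ?_
    rw [hsm]
    norm_num
  have h5 : 1 ≤ (2 : ℝ) ^ (j / p) := by
    apply Real.one_le_rpow (by norm_num)
    positivity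
  have h6 := hn0 ψ
  calc nrm p (nse g h i0 b ω ψ)
      = nrm p (fun x => avn b ψ x - smn b M Y ψ x) := rfl
    _ ≤ nrm p (avn b ψ) + nrm p (smn b M Y ψ) := h4
    _ ≤ nrm p ψ + 2 * κ * (2 : ℝ) ^ (j / p) * nrm p ψ := add_le_add h1 h3
    _ ≤ (2 : ℝ) ^ (j / p) * nrm p ψ + 2 * κ * (2 : ℝ) ^ (j / p) * nrm p ψ := by
        have := mul_le_mul_of_nonneg_right h5 h6
        linarith
    _ = _ := by ring

end

end Pool.Agent.MP_bc5265.RQ
end

section
/-!
# Region `R_1`, `q > 2`, module NO2: the noise operator in `L_2` and in the maximum norm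
-/
set_option linter.unusedSectionVars false

open MeasureTheory Finset Matrix
open scoped ENNReal

namespace Pool.Agent.MP_bc5265.RQ

open Pool.Agent.MP_bc5265.S Pool.Agent.MP_bc5265.R2 Pool.Agent.MP_bc5265

noncomputable section

namespace NO2M

theorem avn_abs {d H : ℕ} {b : Fin d → ℕ} (hb : ∀ j, b j ≤ H) {ψ : Gr d H → ℝ} {M : ℝ}
    (hψ : ∀ x, |ψ x| ≤ M) (x : Gr d H) : |avn b ψ x| ≤ M := by
  have hM : 0 ≤ M := (abs_nonneg _).trans (hψ x)
  rw [DUAM.avn_eq b hb, abs_mul, abs_of_nonneg (by positivity :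
    (0 : ℝ) ≤ (2 : ℝ) ^ (∑ j, b j) / 2 ^ (d * H))]
  have h1 : |∑ y, if sameCell b x y then ψ y else 0| ≤
      ((univ.filter fun y : Gr d H => sameCell b y x).card : ℝ) * M := by
    refine (Finset.abs_sum_le_sum_abs _ _).trans ?_
    have h2 : ∀ y ∈ (univ : Finset (Gr d H)), |if sameCell b x y then ψ y else 0| ≤
        if sameCell b y x then M else 0 := by
      intro y _
      by_cases h : sameCell b x y
      · rw [if_pos h, if_pos ((DUAM.same_symm b x y).1 h)]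
        exact hψ y
      · rw [if_neg h, if_neg (fun h' => h ((DUAM.same_symm b y x).1 h')), abs_zero]
    refine (Finset.sum_le_sum h2).trans ?_
    rw [← Finset.sum_filter, Finset.sum_const, nsmul_eq_mul]
  calc (2 : ℝ) ^ (∑ j, b j) / 2 ^ (d * H) * |∑ y, if sameCell b x y then ψ y else 0|
      ≤ (2 : ℝ) ^ (∑ j, b j) / 2 ^ (d * H) *
        (((univ.filter fun y : Gr d H => sameCell b y x).card : ℝ) * M) :=
        mul_le_mul_of_nonneg_left h1 (by positivity)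
    _ = M := by rw [← mul_assoc, DUAM.cell_one b hb x, one_mul]

theorem smn_abs {d h i0 g κ : ℕ} {α δ : ℝ} {ω : Gr d (3 * h) → Fin (2 ^ g)}
    (hgood : GoodO d 1 κ α δ h i0 g ω) {b : Fin d → ℕ} (hb : ∀ j, b j ≤ 3 * h)
    (hbα : ((∑ j, b j : ℕ) : ℝ) ≤ α * h) {ψ : Gr d (3 * h) → ℝ} {M : ℝ}
    (hψ : ∀ x, |ψ x| ≤ M) (x : Gr d (3 * h)) :
    |smn b (2 ^ (h + i0)) (univ.filter fun y => (ω y : ℕ) = 0) ψ x| ≤ 2 * M := by
  have hM : 0 ≤ M := (abs_nonneg _).trans (hψ x)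
  unfold smn
  rw [abs_mul, abs_of_nonneg (by positivity :
    (0 : ℝ) ≤ (2 : ℝ) ^ (∑ j, b j) / 2 ^ (h + i0))]
  have hc : ∀ j, (x j : ℕ) / 2 ^ (3 * h - b j) < 2 ^ b j := by
    intro j
    rw [Nat.div_lt_iff_lt_mul (by positivity), ← pow_add]
    have : b j + (3 * h - b j) = 3 * h := by
      have := hb j
      omega
    rw [this]
    exact (x j).2
  have hco := hgood.co b (fun j => (x j : ℕ) / 2 ^ (3 * h - b j)) hb hbα hc
  set N : ℝ := ((univ.filter fun y : Gr d (3 * h) =>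
    inC b (fun j => (x j : ℕ) / 2 ^ (3 * h - b j)) y ∧ (ω y : ℕ) = 0).card : ℝ) with hN
  have h1 : |∑ y ∈ univ.filter (fun y => (ω y : ℕ) = 0), if sameCell b x y then ψ y else 0| ≤
      N * M := by
    refine (Finset.abs_sum_le_sum_abs _ _).trans ?_
    have h2 : ∀ y ∈ univ.filter (fun y => (ω y : ℕ) = 0),
        |if sameCell b x y then ψ y else 0| ≤ if sameCell b x y then M else 0 := by
      intro y _
      by_cases h : sameCell b x y
      · rw [if_pos h, if_pos h]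
        exact hψ y
      · rw [if_neg h, if_neg h, abs_zero]
    refine (Finset.sum_le_sum h2).trans ?_
    rw [← Finset.sum_filter, Finset.sum_const, nsmul_eq_mul, Finset.filter_filter]
    apply mul_le_mul_of_nonneg_right _ hM
    rw [hN]
    norm_cast
    apply Finset.card_le_card
    intro y hy
    rw [Finset.mem_filter] at hy ⊢
    refine ⟨hy.1, ?_, hy.2.1⟩
    intro j
    exact (hy.2.2 j).symm
  calc (2 : ℝ) ^ (∑ j, b j) / 2 ^ (h + i0) *
        |∑ y ∈ univ.filter (fun y => (ω y : ℕ) = 0), if sameCell b x y then ψ y else 0|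
      ≤ (2 : ℝ) ^ (∑ j, b j) / 2 ^ (h + i0) * (N * M) :=
        mul_le_mul_of_nonneg_left h1 (by positivity)
    _ = ((2 : ℝ) ^ (∑ j, b j) * N) / 2 ^ (h + i0) * M := by ring
    _ ≤ 2 * M := by
        apply mul_le_mul_of_nonneg_right _ hM
        rw [div_le_iff₀ (by positivity)]
        exact hco

end NO2M

open NO2M in
theorem specNO2 (hOPB : R2.SpecOPB) (hDUA : R2.SpecDUA) : SpecNO2 := by
  obtain ⟨C1, hC1, hOPB⟩ := hOPB 1 le_rfl
  refine ⟨C1 ^ (1 / 2 : ℝ), by positivity, ?_⟩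
  intro d κ h i0 g α δ ω hd hg hgood v b hv hb hbα
  constructor
  · intro hvh hvδ ψ hψ
    have e2 : (2 : ℝ) / (2 - 1) = 2 := by norm_num
    refine hDUA d (3 * h) g h i0 2 _ v b ω (by norm_num) hg hv hb (by positivity) ?_ ψ hψ
    intro u hu
    rw [e2]
    have h1 := hOPB d κ h i0 g α δ ω hd hg hgood 1 (Or.inl rfl) v b hv hvh hvδ hb hbα u hu
    rw [LOWM.pb_one] at h1
    have e3 : ((2 * 1 : ℕ) : ℝ) = 2 := by norm_num
    rw [e3] at h1
    have e4 : ((((∑ j, v j : ℕ) : ℤ) - ((h + i0 : ℕ) : ℤ) : ℤ) : ℝ) =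
        ((∑ j, v j : ℕ) : ℝ) - ((h + i0 : ℕ) : ℝ) := by push_cast; ring
    rw [e4] at h1
    unfold nrm
    have h2 := Real.rpow_le_rpow (LOWM.mom_nonneg _) h1 (by norm_num : (0 : ℝ) ≤ 1 / 2)
    refine h2.trans_eq ?_
    rw [Real.mul_rpow (by positivity) (LOWM.mom_nonneg _), Real.mul_rpow (by positivity)
      (by positivity), ← Real.rpow_mul (by norm_num : (0 : ℝ) ≤ 2)]
    congr 3
    ring
  · intro ψ M hψ x
    have h1 := avn_abs hb hψ x
    have h2 := smn_abs hgood hb hbα hψ x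
    unfold nse
    rw [abs_le] at h1 h2 ⊢
    constructor <;> linarith [h1.1, h1.2, h2.1, h2.2]

end

end Pool.Agent.MP_bc5265.RQ
end
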