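import Pool.Agent.Lib.MP_bc5265_an.R2.SpecB
import Pool.Agent.Lib.MP_bc5265_an.R2.SpecR
import Pool.Agent.Lib.MP_bc5265_an.RQ.Spec
import Pool.Agent.Lib.MP_bc5265_an.R2.RW

section
/-! # SER: a series -/
set_option linter.unusedSectionVars false

open MeasureTheory Finset Matrix
open scoped ENNReal

namespace Pool.Agent.MP_bc5265.R2

open Pool.Agent.MP_bc5265.S

noncomputable section

/-- SER -/
theorem specSER : SpecSER := by
  intro e x hx0 hx1
  set y : ℝ := max x (1 / 2) with hy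
  have hy0 : 0 < y := lt_of_lt_of_le (by norm_num) (le_max_right _ _)
  have hy1 : y < 1 := max_lt hx1 (by norm_num)
  have hxy : x ≤ y := le_max_left _ _
  have hs : Summable (fun n : ℕ => (n : ℝ) ^ e * y ^ n) :=
    summable_pow_mul_geometric_of_norm_lt_one e (by rwa [Real.norm_of_nonneg hy0.le])
  have hs2 : Summable (fun n : ℕ => ((n + 2 : ℕ) : ℝ) ^ e * y ^ (n + 2)) :=
    (summable_nat_add_iff (f := fun n : ℕ => (n : ℝ) ^ e * y ^ n) 2).2 hs
  have hs3 : Summable (fun n : ℕ => (y ^ 2)⁻¹ * (((n + 2 : ℕ) : ℝ) ^ e * y ^ (n + 2))) :=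
    hs2.mul_left _
  refine ⟨∑' n : ℕ, (y ^ 2)⁻¹ * (((n + 2 : ℕ) : ℝ) ^ e * y ^ (n + 2)) + 1, ?_, ?_⟩
  · have : 0 ≤ ∑' n : ℕ, (y ^ 2)⁻¹ * (((n + 2 : ℕ) : ℝ) ^ e * y ^ (n + 2)) :=
      tsum_nonneg fun n => by positivity
    linarith
  · intro h J hh
    have hh' : (1 : ℝ) ≤ h := by exact_mod_cast hh
    have h1 : ∀ j ∈ range J, ((h : ℝ) + j + 1) ^ e * x ^ j ≤
        (h : ℝ) ^ e * ((y ^ 2)⁻¹ * (((j + 2 : ℕ) : ℝ) ^ e * y ^ (j + 2))) := by
      intro j _
      have h2 : (h : ℝ) + j + 1 ≤ h * (j + 2) := by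
        have : (0 : ℝ) ≤ j := Nat.cast_nonneg j
        nlinarith
      have h3 : ((h : ℝ) + j + 1) ^ e ≤ (h : ℝ) ^ e * ((j : ℝ) + 2) ^ e := by
        rw [← mul_pow]
        exact pow_le_pow_left₀ (by positivity) h2 e
      have h4 : x ^ j ≤ y ^ j := pow_le_pow_left₀ hx0 hxy j
      have h5 : (y ^ 2)⁻¹ * (((j + 2 : ℕ) : ℝ) ^ e * y ^ (j + 2)) = ((j : ℝ) + 2) ^ e * y ^ j := by
        push_cast
        rw [pow_add]
        field_simp
      rw [h5, ← mul_assoc]
      exact mul_le_mul h3 h4 (by positivity) (by positivity)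
    refine (Finset.sum_le_sum h1).trans ?_
    rw [← Finset.mul_sum, mul_comm]
    refine mul_le_mul_of_nonneg_right ?_ (by positivity)
    have h6 := hs3.sum_le_tsum (range J) (fun n _ => by positivity)
    linarith

end

end Pool.Agent.MP_bc5265.R2
end

section
/-! Region `R_2`, module TEN: algebra of tensor products. -/
set_option autoImplicit false

open MeasureTheory Finset Matrix
open scoped ENNReal

namespace Pool.Agent.MP_bc5265.R2

open Pool.Agent.MP_bc5265.S

namespace TENM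

theorem prod_sum_univ {d N : ℕ} (f : Fin d → Fin N → ℝ) :
    ∏ j, ∑ z, f j z = ∑ z : Fin d → Fin N, ∏ j, f j (z j) := by
  rw [prod_univ_sum, Fintype.piFinset_univ]

theorem row {d L : ℕ} (A : Fin d → M1 L) (C : Fin d → ℝ) (h : ∀ j x, ∑ y, |A j x y| ≤ C j)
    (x : Gr d L) : ∑ y, |tens A x y| ≤ ∏ j, C j := by
  have h1 : ∑ y, |tens A x y| = ∏ j, ∑ y, |A j (x j) y| := by
    rw [prod_sum_univ]
    exact sum_congr rfl fun y _ => by rw [tens, abs_prod]
  rw [h1]
  exact prod_le_prod (fun j _ => sum_nonneg fun y _ => abs_nonneg _) fun j _ => h j (x j)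

theorem col {d L : ℕ} (A : Fin d → M1 L) (C : Fin d → ℝ) (h : ∀ j y, ∑ x, |A j x y| ≤ C j)
    (y : Gr d L) : ∑ x, |tens A x y| ≤ ∏ j, C j := by
  have h1 : ∑ x, |tens A x y| = ∏ j, ∑ x, |A j x (y j)| := by
    rw [prod_sum_univ]
    exact sum_congr rfl fun y _ => by rw [tens, abs_prod]
  rw [h1]
  exact prod_le_prod (fun j _ => sum_nonneg fun y _ => abs_nonneg _) fun j _ => h j (y j)

end TENM

open TENM in
theorem specTEN : SpecTEN := by
  intro d L
  refine ⟨fun A B => ?_, ?_, fun S A => ?_, fun A j hj => ?_, row, col⟩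
  · ext x y
    rw [Matrix.mul_apply]
    unfold tens
    simp only [Matrix.mul_apply]
    rw [prod_sum_univ]
    exact sum_congr rfl fun z _ => prod_mul_distrib.symm
  · ext x y
    unfold tens
    simp only [Matrix.one_apply]
    by_cases h : x = y
    · subst h
      simp
    · rw [if_neg h]
      obtain ⟨j, hj⟩ : ∃ j, x j ≠ y j := by
        by_contra hcon
        push Not at hcon
        exact h (funext hcon)
      exact prod_eq_zero (mem_univ j) (if_neg hj)
  · ext x y
    rw [Matrix.sum_apply]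
    unfold tens
    simp only [Matrix.sum_apply]
    rw [prod_univ_sum]
  · ext x y
    unfold tens
    refine prod_eq_zero (mem_univ j) ?_
    rw [hj]
    rfl

end Pool.Agent.MP_bc5265.R2
end

section
/-!
# Region `R_2`, module ZVB: variance of `Zc`
-/
set_option linter.unusedSectionVars false

open MeasureTheory Finset Matrix
open scoped ENNReal

namespace Pool.Agent.MP_bc5265.R2

open Pool.Agent.MP_bc5265.S

noncomputable section

namespace ZVBM

variable {d H : ℕ}

/-- the cells of levels `v` -/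
abbrev Rv (v : Fin d → ℕ) : Type := (j : Fin d) → Fin (2 ^ v j)

/-- the cell of a point -/
def cl (v : Fin d → ℕ) (hv : ∀ j, v j ≤ H) (x : Gr d H) : Rv v := fun j =>
  ⟨(x j : ℕ) / 2 ^ (H - v j), by
    apply Nat.div_lt_of_lt_mul
    rw [← pow_add, Nat.sub_add_cancel (hv j)]
    exact (x j).2⟩

theorem sameCell_iff (v : Fin d → ℕ) (hv : ∀ j, v j ≤ H) (x y : Gr d H) :
    sameCell v x y ↔ cl v hv y = cl v hv x := by
  constructor
  · intro h
    funext j
    exact Fin.ext (h j).symm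
  · intro h j
    exact (congrArg Fin.val (congrFun h j)).symm

theorem card_fin {N m q : ℕ} (hm : 0 < m) (hq : (q + 1) * m ≤ N) :
    (univ.filter fun a : Fin N => (a : ℕ) / m = q).card = m := by
  have h1 : (univ : Finset (Fin m)).card = m := by rw [Finset.card_univ, Fintype.card_fin]
  conv_rhs => rw [← h1]
  refine Finset.card_bij' (fun a _ => (⟨(a : ℕ) % m, Nat.mod_lt _ hm⟩ : Fin m))
    (fun r _ => (⟨q * m + r, by
      have := r.2
      rw [add_mul, one_mul] at hq
      omega⟩ : Fin N)) ?_ ?_ ?_ ?_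
  · intro a _
    exact mem_univ _
  · intro r _
    rw [mem_filter]
    refine ⟨mem_univ _, ?_⟩
    show (q * m + (r : ℕ)) / m = q
    rw [Nat.add_comm, Nat.add_mul_div_right _ _ hm, Nat.div_eq_of_lt r.2, zero_add]
  · intro a ha
    rw [mem_filter] at ha
    apply Fin.ext
    show q * m + (a : ℕ) % m = a
    rw [← ha.2]
    exact Nat.div_add_mod' _ _
  · intro r _
    apply Fin.ext
    show (q * m + (r : ℕ)) % m = r
    rw [Nat.add_comm, Nat.add_mul_mod_self_right, Nat.mod_eq_of_lt r.2]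

theorem card_cell (v : Fin d → ℕ) (hv : ∀ j, v j ≤ H) (ρ : Rv v) :
    ((univ.filter fun x : Gr d H => cl v hv x = ρ).card : ℝ) * 2 ^ (∑ j, v j) = 2 ^ (d * H) := by
  have h1 : (univ.filter fun x : Gr d H => cl v hv x = ρ) =
      Fintype.piFinset fun j => univ.filter fun a : Fin (2 ^ H) =>
        (a : ℕ) / 2 ^ (H - v j) = (ρ j : ℕ) := by
    ext x
    rw [mem_filter, Fintype.mem_piFinset]
    constructor
    · rintro ⟨-, h⟩ j
      rw [mem_filter]
      exact ⟨mem_univ _, congrArg Fin.val (congrFun h j)⟩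
    · intro h
      refine ⟨mem_univ _, funext fun j => Fin.ext ?_⟩
      have := h j
      rw [mem_filter] at this
      exact this.2
  have h2 : (univ.filter fun x : Gr d H => cl v hv x = ρ).card = ∏ j, 2 ^ (H - v j) := by
    rw [h1, Fintype.card_piFinset]
    refine Finset.prod_congr rfl fun j _ => card_fin (by positivity) ?_
    have h3 : 2 ^ v j * 2 ^ (H - v j) = 2 ^ H := by
      rw [← pow_add, Nat.add_sub_cancel' (hv j)]
    rw [← h3]
    exact Nat.mul_le_mul_right _ (ρ j).2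
  rw [h2]
  push_cast
  rw [← Finset.prod_pow_eq_pow_sum, ← Finset.prod_mul_distrib]
  have h4 : ∀ j : Fin d, (2 : ℝ) ^ (H - v j) * 2 ^ v j = 2 ^ H := fun j => by
    rw [← pow_add, Nat.sub_add_cancel (hv j)]
  rw [Finset.prod_congr rfl fun j _ => h4 j, Finset.prod_const, Finset.card_univ,
    Fintype.card_fin, ← pow_mul, mul_comm]

end ZVBM

open ZVBM in
/-- **ZVB** -/
theorem specZVB (hMOM : SpecMOM) (hZVA : SpecZVA) : SpecZVB := by
  intro k hk
  obtain ⟨CM, hCM, hmom⟩ := hMOM (2 * k) (by omega)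
  have hkp : 0 < (k : ℝ) := by exact_mod_cast hk
  refine ⟨CM * (2 * k), by positivity, ?_⟩
  intro d H g h i0 v b c hg hv
  set n : ℕ := ∑ j, v j with hn
  set J : ℤ := (n : ℤ) - ((h + i0 : ℕ) : ℤ) with hJ
  -- the coefficient
  set q : ℝ := (2 : ℝ) ^ n / 2 ^ (d * H) with hq
  have hqp : 0 < q := by positivity
  have hlam : (2 : ℝ) ^ g * q = (2 : ℝ) ^ J := by
    rw [hq, hJ, ← hg, zpow_sub₀ two_ne_zero, zpow_natCast, zpow_natCast, add_assoc, pow_add]
    field_simp
  set lam : ℝ := (2 : ℝ) ^ g * q with hlamd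
  have hlamp : 0 < lam := by positivity
  have hpw0 : 0 ≤ pw (2 * k) J := by
    unfold pw
    split_ifs <;> positivity
  -- powers of `lam`
  have hpw : ∀ j ∈ Icc 1 (2 * k), lam ^ (2 * k + j - 1) ≤ pw (2 * k) J := by
    intro j hj
    rw [mem_Icc] at hj
    unfold pw
    split_ifs with hJ0
    · refine pow_le_one₀ hlamp.le ?_
      rw [hlam]
      exact zpow_le_one_of_nonpos₀ one_le_two hJ0
    · have h1 : 1 ≤ lam := by
        rw [hlam]
        exact one_le_zpow₀ one_le_two (by omega)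
      refine (pow_le_pow_right₀ h1 (show 2 * k + j - 1 ≤ 4 * k by omega)).trans (le_of_eq ?_)
      rw [hlam, ← _root_.zpow_natCast, ← _root_.zpow_mul, ← Real.rpow_intCast]
      congr 1
      push_cast
      ring
  -- the functions of one cell
  let B : Fin (2 * k) → Rv v → (Gr d H → Fin (2 ^ g)) → ℝ := fun i ρ ω =>
    ∑ y : Gr d H, (if cl v hv y = ρ ∧ inC b (c i) y then q else 0) * zt g (ω y)
  have hB : ∀ i x ω, Bc g v b (c i) x ω = B i (cl v hv x) ω := by
    intro i x ω
    show (2 : ℝ) ^ n / 2 ^ (d * H) * _ = ∑ y : Gr d H, _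
    rw [← hq, Finset.mul_sum]
    refine Finset.sum_congr rfl fun y _ => ?_
    by_cases hy : sameCell v x y ∧ inC b (c i) y
    · rw [if_pos hy, if_pos ⟨(sameCell_iff v hv x y).1 hy.1, hy.2⟩]
    · rw [if_neg hy, if_neg fun hy' => hy ⟨(sameCell_iff v hv x y).2 hy'.1, hy'.2⟩]
      ring
  have hZ : ∀ ω, Zc g k v b c ω = ∑ ρ, (1 / (2 : ℝ) ^ n) * ∏ i, B i ρ ω := by
    intro ω
    unfold Zc
    have e1 : ∑ x : Gr d H, ∏ i, Bc g v b (c i) x ω = ∑ x : Gr d H, ∏ i, B i (cl v hv x) ω :=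
      Finset.sum_congr rfl fun x _ => Finset.prod_congr rfl fun i _ => hB i x ω
    rw [e1, ← Finset.sum_fiberwise univ (cl v hv), Finset.sum_div]
    refine Finset.sum_congr rfl fun ρ _ => ?_
    have e2 : ∑ x ∈ univ.filter (fun x : Gr d H => cl v hv x = ρ), ∏ i, B i (cl v hv x) ω =
        ∑ x ∈ univ.filter (fun x : Gr d H => cl v hv x = ρ), ∏ i, B i ρ ω :=
      Finset.sum_congr rfl fun x hx => by rw [(mem_filter.1 hx).2]
    rw [e2, Finset.sum_const, nsmul_eq_mul]
    have e3 := card_cell v hv ρ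
    rw [← hn] at e3
    rw [← e3]
    have e4 : (2 : ℝ) ^ n ≠ 0 := by positivity
    have e5 : ((univ.filter fun x : Gr d H => cl v hv x = ρ).card : ℝ) ≠ 0 := by
      intro h0
      rw [h0, zero_mul] at e3
      exact (by positivity : (2 : ℝ) ^ (d * H) ≠ 0) e3.symm
    field_simp
  -- the moments
  have hQ : ∀ i ρ, EX g (fun ω => B i ρ ω ^ (2 * (2 * k))) ≤ CM * (2 * k) * pw (2 * k) J := by
    intro i ρ
    refine (hmom (Gr d H) g (fun y => if cl v hv y = ρ ∧ inC b (c i) y then q else 0)).trans ?_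
    rw [mul_assoc CM]
    refine mul_le_mul_of_nonneg_left ?_ hCM.le
    unfold mbd
    have hcard := card_cell v hv ρ
    rw [← hn] at hcard
    have hN : ((univ.filter fun x : Gr d H => cl v hv x = ρ).card : ℝ) = 1 / q := by
      rw [hq, one_div_div, eq_div_iff (by positivity), hcard]
    have hsum : ∀ m : ℕ, 1 ≤ m → ∑ y : Gr d H, (if cl v hv y = ρ ∧ inC b (c i) y then q else 0) ^ m ≤
        q ^ (m - 1) := by
      intro m hm
      calc ∑ y : Gr d H, (if cl v hv y = ρ ∧ inC b (c i) y then q else 0) ^ m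
          ≤ ∑ y : Gr d H, (if cl v hv y = ρ then q ^ m else 0) := by
            refine Finset.sum_le_sum fun y _ => ?_
            by_cases h1 : cl v hv y = ρ
            · by_cases h2 : inC b (c i) y
              · rw [if_pos ⟨h1, h2⟩, if_pos h1]
              · rw [if_neg fun h3 => h2 h3.2, if_pos h1, zero_pow (by omega)]
                positivity
            · rw [if_neg fun h3 => h1 h3.1, if_neg h1, zero_pow (by omega)]
        _ = q ^ (m - 1) := by
            rw [← Finset.sum_filter, Finset.sum_const, nsmul_eq_mul, hN]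
            obtain ⟨m', rfl⟩ : ∃ m', m = m' + 1 := ⟨m - 1, by omega⟩
            rw [Nat.add_sub_cancel, pow_succ]
            field_simp
    have hterm : ∀ j ∈ Icc 1 (2 * k),
        ((2 : ℝ) ^ g * ∑ y : Gr d H, (if cl v hv y = ρ ∧ inC b (c i) y then q else 0) ^ 2) ^
          (2 * k - j) * (((2 : ℝ) ^ g) ^ (2 * j - 1) *
          ∑ y : Gr d H, (if cl v hv y = ρ ∧ inC b (c i) y then q else 0) ^ (2 * j)) ≤
          pw (2 * k) J := by
      intro j hj
      refine le_trans ?_ (hpw j hj)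
      rw [mem_Icc] at hj
      have h1 := hsum 2 (by norm_num)
      have h2 := hsum (2 * j) (by omega)
      have h3 : 0 ≤ ∑ y : Gr d H, (if cl v hv y = ρ ∧ inC b (c i) y then q else 0) ^ 2 :=
        Finset.sum_nonneg fun y _ => by positivity
      have h4 : 0 ≤ ∑ y : Gr d H, (if cl v hv y = ρ ∧ inC b (c i) y then q else 0) ^ (2 * j) :=
        Finset.sum_nonneg fun y _ => by
          rw [pow_mul]
          positivity
      calc _ ≤ ((2 : ℝ) ^ g * q ^ (2 - 1)) ^ (2 * k - j) *
            (((2 : ℝ) ^ g) ^ (2 * j - 1) * q ^ (2 * j - 1)) := by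
            refine mul_le_mul (pow_le_pow_left₀ (by positivity)
              (mul_le_mul_of_nonneg_left h1 (by positivity)) _)
              (mul_le_mul_of_nonneg_left h2 (by positivity)) (by positivity) (by positivity)
        _ = lam ^ (2 * k + j - 1) := by
            rw [← mul_pow, show 2 - 1 = 1 from rfl, pow_one, ← hlamd, ← pow_add]
            congr 1
            omega
    refine (Finset.sum_le_sum hterm).trans ?_
    rw [Finset.sum_const, Nat.card_Icc, nsmul_eq_mul]
    push_cast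
    simp
  have hdep : ∀ i ρ, DepOn {x | cl v hv x = ρ} (B i ρ) := by
    intro i ρ ω ω' hω
    refine Finset.sum_congr rfl fun y _ => ?_
    by_cases hy : cl v hv y = ρ ∧ inC b (c i) y
    · rw [hω y hy.1]
    · rw [if_neg hy, zero_mul, zero_mul]
  have key := hZVA (Gr d H) (Rv v) g (2 * k) (cl v hv) (1 / (2 : ℝ) ^ n)
    (CM * (2 * k) * pw (2 * k) J) B (by omega) hdep hQ
  have e1 : (fun ω' : Gr d H → Fin (2 ^ g) => Zc g k v b c ω') =
      fun ω => ∑ ρ, (1 / (2 : ℝ) ^ n) * ∏ i, B i ρ ω := funext hZ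
  have e2 : (fun ω : Gr d H → Fin (2 ^ g) =>
      (Zc g k v b c ω - EX g (fun ω' : Gr d H → Fin (2 ^ g) => Zc g k v b c ω')) ^ 2) =
      fun ω => (∑ ρ, (1 / (2 : ℝ) ^ n) * ∏ i, B i ρ ω -
        EX g (fun ω => ∑ ρ, (1 / (2 : ℝ) ^ n) * ∏ i, B i ρ ω)) ^ 2 := by
    rw [e1]
    funext ω
    rw [hZ ω]
  rw [e2]
  refine key.trans (le_of_eq ?_)
  have e3 : (Fintype.card (Rv v) : ℝ) = 2 ^ n := by
    have : Fintype.card (Rv v) = ∏ j, 2 ^ v j := by
      rw [Fintype.card_pi]
      simp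
    rw [this, hn]
    push_cast
    rw [Finset.prod_pow_eq_pow_sum]
  rw [e3, Real.rpow_neg zero_le_two, Real.rpow_natCast]
  field_simp

end

end Pool.Agent.MP_bc5265.R2
end

section
/-!
# Region `R_1`, `q > 2`, module LO2: the levels `h < |v| < (1+δ) h`
-/
set_option linter.unusedSectionVars false

open MeasureTheory Finset Matrix
open scoped ENNReal

namespace Pool.Agent.MP_bc5265.RQ

open Pool.Agent.MP_bc5265.S Pool.Agent.MP_bc5265.R2 Pool.Agent.MP_bc5265

noncomputable section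

namespace LO2M

theorem nse_add {d H : ℕ} (g h i0 : ℕ) (b : Fin d → ℕ) (ω : Gr d H → Fin (2 ^ g))
    (u u' : Gr d H → ℝ) :
    nse g h i0 b ω (fun x => u x + u' x) = fun x => nse g h i0 b ω u x + nse g h i0 b ω u' x := by
  funext x
  have h1 : avn b (fun x => u x + u' x) x = avn b u x + avn b u' x := by
    unfold avn
    have : (fun x => u x + u' x) = u + u' := rfl
    rw [this, Matrix.mulVec_add]
    rfl
  have h2 : smn b (2 ^ (h + i0)) (univ.filter fun y => (ω y : ℕ) = 0) (fun x => u x + u' x) x =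
      smn b (2 ^ (h + i0)) (univ.filter fun y => (ω y : ℕ) = 0) u x +
      smn b (2 ^ (h + i0)) (univ.filter fun y => (ω y : ℕ) = 0) u' x := by
    unfold smn
    rw [← mul_add, ← Finset.sum_add_distrib]
    congr 1
    apply Finset.sum_congr rfl
    intro y _
    split_ifs
    · ring
    · ring
  unfold nse
  rw [h1, h2]
  ring

theorem nrm_sq {X : Type} [Fintype X] (g : X → ℝ) : nrm 2 g ^ 2 = mom 2 g := by
  unfold nrm
  rw [← Real.rpow_natCast, ← Real.rpow_mul (LOWM.mom_nonneg g)]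
  norm_num

theorem nrm_nonneg {p : ℝ} {X : Type} [Fintype X] (g : X → ℝ) : 0 ≤ nrm p g :=
  Real.rpow_nonneg (LOWM.mom_nonneg g) _

end LO2M

open LO2M in
theorem specLO2 (hNO2 : SpecNO2) (hINT : SpecINT) : SpecLO2 := by
  obtain ⟨C0, hC0, hNO2⟩ := hNO2
  intro P hP
  obtain ⟨C1, hC1, hINT⟩ := hINT P hP
  refine ⟨(C1 * C0 ^ 2) ^ (1 / P), by positivity, ?_⟩
  intro d κ h i0 g α δ ω hd hg hgood v b hv hvh hvδ hb hbα ψ hψ
  obtain ⟨h2, hinf⟩ := hNO2 d κ h i0 g α δ ω hd hg hgood v b hv hb hbα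
  have h2' := h2 hvh hvδ
  set j : ℝ := ((∑ j, v j : ℕ) : ℝ) - ((h + i0 : ℕ) : ℝ) with hj
  have hA : 0 < C0 ^ 2 * (2 : ℝ) ^ j := by positivity
  have : Nonempty (Gr d (3 * h)) := ⟨fun _ => ⟨0, by positivity⟩⟩
  have hmain := hINT (Gr d (3 * h)) {u | CellC v u} (nse g h i0 b ω) (C0 ^ 2 * (2 : ℝ) ^ j) hA
    (by
      intro u hu s
      constructor
      · intro x y hxy
        have h1 := hu x y hxy
        show (if s < |u x| then u x else 0) = if s < |u y| then u y else 0
        rw [h1]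
      · intro x y hxy
        have h1 := hu x y hxy
        show (if s < |u x| then 0 else u x) = if s < |u y| then 0 else u y
        rw [h1])
    (nse_add g h i0 b ω)
    (by
      intro u hu
      have h3 := h2' u hu
      have h4 := pow_le_pow_left₀ (nrm_nonneg _) h3 2
      rw [nrm_sq, mul_pow, mul_pow, nrm_sq] at h4
      refine h4.trans_eq ?_
      congr 2
      rw [← Real.rpow_natCast, ← Real.rpow_mul (by norm_num)]
      congr 1
      push_cast
      ring)
    (fun u _ M hM => hinf u M hM)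
    ψ hψ
  unfold nrm
  refine (Real.rpow_le_rpow (LOWM.mom_nonneg _) hmain (by positivity)).trans_eq ?_
  rw [Real.mul_rpow (by positivity) (LOWM.mom_nonneg _), ← mul_assoc, Real.mul_rpow
    (by positivity) (by positivity), ← Real.rpow_mul (by norm_num : (0 : ℝ) ≤ 2)]
  congr 3
  ring

end

end Pool.Agent.MP_bc5265.RQ
end

section
/-!
# Region `R_1`, `q > 2`: module MT2 (martingale type `2`, tensor form)
-/
set_option linter.unusedSectionVars false

open MeasureTheory Finset Matrix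
open scoped ENNReal

namespace Pool.Agent.MP_bc5265.RQ

open Pool.Agent.MP_bc5265.S Pool.Agent.MP_bc5265.R2 Pool.Agent.MP_bc5265

namespace MT2M

open MTPM

variable {d L : ℕ}

/-- one step of martingale type `2` with a constant `C` -/
def Step (q C : ℝ) : Prop := ∀ (X : Type) [Fintype X] [Nonempty X]
  (S V : X → ℝ), ∑ x, SignType.sign (S x) * |S x| ^ (q - 1) * V x = 0 →
  nrm q (S + V) ^ 2 ≤ nrm q S ^ 2 + C * nrm q V ^ 2

theorem nrm_zero {q : ℝ} (hq : 1 ≤ q) : nrm q (0 : Gr d L → ℝ) = 0 := by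
  unfold nrm
  rw [mom_zero hq, Real.zero_rpow (by positivity)]

/-- the inequality in one coordinate -/
theorem coord (hTEN : SpecTEN) (hOPS : SpecOPS) {q C : ℝ} (hq : 2 < q) (hC : Step q C)
    (j₀ : Fin d) {lev : ℕ → ℕ} (hlev : Monotone lev) (V : ℕ → Gr d L → ℝ) (n : ℕ)
    (hV : ∀ i < n, one j₀ (EM L (lev (i + 1)) - EM L (lev i)) *ᵥ V i = V i) :
    nrm q (∑ i ∈ range n, V i) ^ 2 ≤ C * ∑ i ∈ range n, nrm q (V i) ^ 2 := by
  induction n with
  | zero =>
    rw [Finset.range_zero, Finset.sum_empty, Finset.sum_empty, nrm_zero (by linarith), mul_zero]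
    norm_num
  | succ n ih =>
    have ih' := ih (fun i hi => hV i (by omega))
    rw [Finset.sum_range_succ, Finset.sum_range_succ]
    set S : Gr d L → ℝ := ∑ i ∈ range n, V i with hS
    set E : MG d L := one j₀ (EM L (lev n)) with hE
    have hES : E *ᵥ S = S := by
      rw [hS, Matrix.mulVec_sum]
      refine Finset.sum_congr rfl fun i hi => ?_
      rw [Finset.mem_range] at hi
      have h1 := hV i (by omega)
      have h2 : E * one j₀ (EM L (lev (i + 1)) - EM L (lev i)) =
          one j₀ (EM L (lev (i + 1)) - EM L (lev i)) := by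
        rw [hE, one_mul_one' hTEN]
        congr 1
        rw [mul_sub, (hOPS L).1, (hOPS L).1, min_eq_right (hlev (by omega : i + 1 ≤ n)),
          min_eq_right (hlev (by omega : i ≤ n))]
      rw [← h1, Matrix.mulVec_mulVec, h2]
    have hEV : E *ᵥ V n = 0 := by
      have h1 := hV n (by omega)
      have h2 : E * one j₀ (EM L (lev (n + 1)) - EM L (lev n)) = 0 := by
        rw [hE, one_mul_one' hTEN, mul_sub, (hOPS L).1, (hOPS L).1, min_self,
          min_eq_left (hlev (by omega : n ≤ n + 1)), sub_self, one_zero hTEN]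
      rw [← h1, Matrix.mulVec_mulVec, h2, Matrix.zero_mulVec]
    have hφ := inv_phi E (fun x y h z => rows j₀ (lev n) x y h z) S hES
      (fun t => (SignType.sign t : ℝ) * |t| ^ (q - 1)) (by simp)
    have horth := orth E (one_symm hOPS j₀ (lev n)) _ _ hφ hEV
    have h3 := hC (Gr d L) S (V n) horth
    rw [mul_add]
    linarith

theorem main (hTEN : SpecTEN) (hOPS : SpecOPS) {q C : ℝ} (hq : 2 < q) (hC1 : 1 ≤ C)
    (hC : Step q C) {lev : ℕ → ℕ} (hlev : Monotone lev) (m : ℕ)
    (U : (Fin d → ℕ) → Gr d L → ℝ)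
    (hU : ∀ κ ∈ box d m, ∀ j,
      one j (EM L (lev (κ j + 1)) - EM L (lev (κ j))) *ᵥ U κ = U κ) (J : Finset (Fin d)) :
    ∀ κ₀ : Fin d → ℕ, nrm q (∑ κ ∈ Bx m J κ₀, U κ) ^ 2 ≤
      C ^ J.card * ∑ κ ∈ Bx m J κ₀, nrm q (U κ) ^ 2 := by
  induction J using Finset.induction_on with
  | empty =>
    intro κ₀
    rw [Finset.card_empty, pow_zero, one_mul]
    by_cases h : κ₀ ∈ box d m
    · have h1 : Bx m ∅ κ₀ = {κ₀} := by
        ext κ
        rw [mem_Bx, Finset.mem_singleton]
        constructor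
        · rintro ⟨-, h2⟩
          funext j
          exact h2 j (Finset.notMem_empty j)
        · rintro rfl
          exact ⟨h, fun _ _ => rfl⟩
      rw [h1, Finset.sum_singleton, Finset.sum_singleton]
    · have h1 : Bx m ∅ κ₀ = ∅ := by
        rw [Finset.eq_empty_iff_forall_notMem]
        intro κ hκ
        rw [mem_Bx] at hκ
        apply h
        have h2 : κ = κ₀ := funext fun j => hκ.2 j (Finset.notMem_empty j)
        rw [← h2]
        exact hκ.1
      rw [h1, Finset.sum_empty, Finset.sum_empty, nrm_zero (by linarith)]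
      norm_num
  | insert j₀ J hj ih =>
    intro κ₀
    rw [sum_Bx m J j₀ hj, sum_Bx m J j₀ hj, Finset.card_insert_of_notMem hj]
    have h1 := coord hTEN hOPS hq hC j₀ hlev
      (fun i => ∑ κ ∈ Bx m J (Function.update κ₀ j₀ i), U κ) m (by
        intro i _
        show _ *ᵥ (∑ κ ∈ Bx m J (Function.update κ₀ j₀ i), U κ) = _
        rw [Matrix.mulVec_sum]
        refine Finset.sum_congr rfl fun κ hκ => ?_
        rw [mem_Bx] at hκ
        have h2 := hκ.2 j₀ hj
        rw [Function.update_self] at h2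
        have h3 := hU κ hκ.1 j₀
        rw [h2] at h3
        exact h3)
    refine h1.trans ?_
    have h3 : C ^ (J.card + 1) * ∑ i ∈ range m,
        ∑ κ ∈ Bx m J (Function.update κ₀ j₀ i), nrm q (U κ) ^ 2 =
        C * ∑ i ∈ range m, C ^ J.card *
          ∑ κ ∈ Bx m J (Function.update κ₀ j₀ i), nrm q (U κ) ^ 2 := by
      rw [Finset.mul_sum, Finset.mul_sum]
      exact Finset.sum_congr rfl fun i _ => by ring
    rw [h3]
    exact mul_le_mul_of_nonneg_left (Finset.sum_le_sum fun i _ => ih _) (by linarith)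

end MT2M

theorem specMT2 (hTY2 : SpecTY2) (hTEN : SpecTEN) (hOPS : SpecOPS) : SpecMT2 := by
  intro d q hq
  obtain ⟨C, hC1, hC⟩ := hTY2 q hq
  refine ⟨C ^ d, one_le_pow₀ hC1, ?_⟩
  intro L m lev U hlev hU
  have hPP : ∀ i, (EM L (lev (i + 1)) - EM L (lev i)) * (EM L (lev (i + 1)) - EM L (lev i)) =
      EM L (lev (i + 1)) - EM L (lev i) := by
    intro i
    have h1 : lev i ≤ lev (i + 1) := hlev (by omega)
    rw [mul_sub, sub_mul, sub_mul, (hOPS L).1, (hOPS L).1, (hOPS L).1, (hOPS L).1, min_self,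
      min_self, min_eq_left h1, min_eq_right h1, sub_self, sub_zero]
  have h := MT2M.main hTEN hOPS hq hC1 (fun X _ _ S V => hC X S V) hlev m U (by
    intro κ hκ j
    have h1 := hU κ hκ
    have h2 := MTPM.one_mul_tens hTEN j (EM L (lev (κ j + 1)) - EM L (lev (κ j)))
      (fun j => EM L (lev (κ j + 1)) - EM L (lev (κ j))) (hPP (κ j))
    conv_lhs => rw [← h1]
    rw [Matrix.mulVec_mulVec, h2, h1]) Finset.univ (fun _ => 0)
  have h1 : MTPM.Bx m Finset.univ (fun _ : Fin d => 0) = box d m := by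
    ext κ
    rw [MTPM.mem_Bx]
    exact ⟨fun h => h.1, fun h => ⟨h, fun j hj => absurd (Finset.mem_univ j) hj⟩⟩
  rw [h1, Finset.card_univ, Fintype.card_fin] at h
  exact h

end Pool.Agent.MP_bc5265.RQ
end

section
/-!
# Region `R_1`, `q > 2`: module RWQ (existence of good patterns)
-/
set_option linter.unusedSectionVars false

open MeasureTheory Finset Matrix Filter
open scoped ENNReal

namespace Pool.Agent.MP_bc5265.RQ

open Pool.Agent.MP_bc5265.S Pool.Agent.MP_bc5265.R2 Pool.Agent.MP_bc5265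

open RWM in
theorem specRWQ (hGOO : SpecGOO) (hLO2 : SpecLO2) (hHI2 : SpecHI2) : SpecRWQ := by
  intro d q p hd hq hqp
  obtain ⟨α, δ, κ, h0, hα, hδ, hα1, hδ1, hκ, hh0, hG⟩ := hGOO d 1 hd le_rfl
  obtain ⟨Cq, hCq, hLq⟩ := hLO2 q hq
  obtain ⟨Cp, hCp, hLp⟩ := hLO2 p (by linarith)
  obtain ⟨N, hN⟩ := large d δ hδ
  refine ⟨α, max (max Cq Cp) (1 + 2 * κ), max h0 N, hα,
    lt_of_lt_of_le hCq ((le_max_left _ _).trans (le_max_left _ _)), ?_⟩
  intro h i0 hh hi
  have hi1 := hN h i0 ((le_max_right _ _).trans hh) hi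
  have hh' := (le_max_left _ _).trans hh
  have hi2 : i0 ≤ h := by
    have : (i0 : ℝ) ≤ 1 * h := hi1.trans (mul_le_mul_of_nonneg_right hδ1 (Nat.cast_nonneg _))
    rw [one_mul] at this
    exact_mod_cast this
  have hg : ∃ g : ℕ, g + h + i0 = d * (3 * h) := by
    refine ⟨d * (3 * h) - h - i0, ?_⟩
    have : 1 * (3 * h) ≤ d * (3 * h) := Nat.mul_le_mul_right _ hd
    omega
  obtain ⟨g, hg⟩ := hg
  obtain ⟨ω, hω⟩ := hG h i0 hh' hi g hg
  refine ⟨univ.filter fun y => (ω y : ℕ) = 0, ?_, ?_⟩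
  · have hc := hω.co (fun _ => 0) (fun _ => 0) (fun _ => Nat.zero_le _)
      (by simp; positivity) (fun _ => by simp)
    have e : (univ.filter fun y : Gr d (3 * h) => inC (fun _ => 0) (fun _ => 0) y ∧
        (ω y : ℕ) = 0) = univ.filter fun y => (ω y : ℕ) = 0 := by
      ext y
      simp only [mem_filter, mem_univ, true_and, and_iff_right_iff_imp]
      intro _ j
      rw [Nat.sub_zero]
      exact Nat.div_eq_of_lt (y j).2
    rw [e] at hc
    simp only [Finset.sum_const_zero, pow_zero, one_mul] at hc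
    exact_mod_cast hc
  · intro b v hb hv hhv ψ hψ P hP
    have hbj : ∀ j, b j ≤ 3 * h := by
      intro j
      have h1 : b j ≤ ∑ j, b j := Finset.single_le_sum (fun _ _ => Nat.zero_le _) (mem_univ j)
      have h2 : ((∑ j, b j : ℕ) : ℝ) ≤ h := hb.trans (by
        calc α * h ≤ 1 * h := mul_le_mul_of_nonneg_right hα1 (Nat.cast_nonneg _)
          _ = h := one_mul _)
      have h3 : ∑ j, b j ≤ h := by exact_mod_cast h2
      omega
    have hP2 : 2 < P := by rcases hP with rfl | rfl <;> linarith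
    have hNn : 0 ≤ (2 : ℝ) ^ ((((∑ j, v j : ℕ) : ℝ) - ((h + i0 : ℕ) : ℝ)) / P) * nrm P ψ :=
      mul_nonneg (by positivity) (nrm_nonneg' _ _)
    rcases lt_or_ge ((∑ j, v j : ℕ) : ℝ) ((1 + δ) * h) with hlt | hge
    · rcases hP with rfl | rfl
      · refine (hLq d κ h i0 g α δ ω hd hg hω v b hv hhv hlt hbj hb ψ hψ).trans ?_
        rw [mul_assoc, mul_assoc]
        exact mul_le_mul_of_nonneg_right ((le_max_left _ _).trans (le_max_left _ _)) hNn
      · refine (hLp d κ h i0 g α δ ω hd hg hω v b hv hhv hlt hbj hb ψ hψ).trans ?_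
        rw [mul_assoc, mul_assoc]
        exact mul_le_mul_of_nonneg_right ((le_max_right _ _).trans (le_max_left _ _)) hNn
    · refine (hHI2 P 1 κ d h i0 g α δ ω (by linarith) hκ hg hi1 hω v b hv hge hbj hb ψ hψ).trans ?_
      rw [mul_assoc, mul_assoc]
      exact mul_le_mul_of_nonneg_right (le_max_right _ _) hNn

end Pool.Agent.MP_bc5265.RQ
end
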