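import Mathlib
import Pool.Agent.Lib.MP_bc5265_an.S.Defs
import Pool.Agent.Lib.MP_bc5265_an.R2.SpecA
import Pool.Agent.Lib.MP_bc5265_an.R2.SpecB
import Pool.Agent.Lib.MP_bc5265_an.RQ.Spec

section
/-!
# FINAL: from the upper bound for finite `p`, `q = 2` and the lower bound to the theorem
-/
set_option linter.unusedSectionVars false

open MeasureTheory Finset
open scoped ENNReal fwdDiff

namespace Pool.Agent.MP_bc5265.S

noncomputable section

/-- The statement of the theorem. -/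
def Statement : Prop := ∀ (𝕜 : Type) [RCLike 𝕜] (d l : ℕ) (p q : ℝ≥0∞) (r : ℝ), 2 ≤ d → 1 ≤ l →
  2 < p → 1 ≤ q → q ≤ 2 → (1 / p).toReal < r → r < 1 / 2 →
  ∃ c C : ℝ, 0 < c ∧ 0 < C ∧ ∀ m : ℕ, 2 ≤ m →
    ENNReal.ofReal (c * ((m : ℝ) ^ (-r) * Real.log m ^ (d - 1))) ≤
      samplingNumber m (HClass 𝕜 d l r p) q ∧
    samplingNumber m (HClass 𝕜 d l r p) q ≤
      ENNReal.ofReal (C * ((m : ℝ) ^ (-r) * Real.log m ^ (d - 1)))

namespace FinalM

variable {𝕜 : Type} [RCLike 𝕜] {d : ℕ}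

lemma continuous_fwd (l : ℕ) (h : Torus d) : ∀ f : Torus d → 𝕜, Continuous f →
    Continuous ((fwdDiff h)^[l] f) := by
  induction l with
  | zero => intro f hf; exact hf
  | succ l ih =>
    intro f hf
    rw [Function.iterate_succ_apply]
    apply ih
    exact (hf.comp (continuous_id.add continuous_const)).sub hf

lemma continuous_mixedDiff (l : ℕ) (e : Finset (Fin d)) (t : Fin d → ℝ) (f : Torus d → 𝕜)
    (hf : Continuous f) : Continuous (mixedDiff l e t f) := by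
  unfold mixedDiff
  induction e.sort (· ≤ ·) with
  | nil => exact hf
  | cons a L ih =>
    rw [List.foldr_cons]
    exact continuous_fwd _ _ _ ih

lemma HClass_mono (l : ℕ) (r : ℝ) {p p' : ℝ≥0∞} (h : p ≤ p') :
    HClass 𝕜 d l r p' ⊆ HClass 𝕜 d l r p := by
  rintro f ⟨h1, h2⟩
  refine ⟨?_, fun e he t => ?_⟩
  · exact (eLpNorm_le_eLpNorm_of_exponent_le h f.continuous.aestronglyMeasurable).trans h1
  · exact (eLpNorm_le_eLpNorm_of_exponent_le h
      (continuous_mixedDiff l e t f f.continuous).aestronglyMeasurable).trans (h2 e he t)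

lemma samplingNumber_mono (m : ℕ) {F F' : Set C(Torus d, 𝕜)} (hF : F ⊆ F') {q q' : ℝ≥0∞}
    (hq : q ≤ q') : samplingNumber m F q ≤ samplingNumber m F' q' := by
  unfold samplingNumber
  refine iInf_mono fun x => iInf_mono fun ψ => ?_
  refine iSup₂_le fun f hf => ?_
  refine le_trans ?_ (le_iSup₂ (f := fun f (_ : f ∈ F') =>
      eLpNorm (fun y => f y - ∑ i, f (x i) * ψ i y) q' (μT d)) f (hF hf))
  refine eLpNorm_le_eLpNorm_of_exponent_le hq ?_
  exact (f.continuous.sub (continuous_finsetSum _ fun i _ =>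
    continuous_const.mul (ψ i).continuous)).aestronglyMeasurable

end FinalM

open FinalM

theorem final (hU : SpecUp) (hL : SpecLow) : Statement := by
  intro 𝕜 _ d l p q r hd hl hp hq1 hq2 hr1 hr2
  have hr0 : 0 < r := lt_of_le_of_lt ENNReal.toReal_nonneg hr1
  -- a finite exponent
  obtain ⟨p', hp2, hpr, hpp⟩ : ∃ p' : ℝ, 2 < p' ∧ 1 / p' < r ∧ ENNReal.ofReal p' ≤ p := by
    by_cases hpt : p = ⊤
    · refine ⟨max 3 (2 / r), lt_of_lt_of_le (by norm_num) (le_max_left _ _), ?_, ?_⟩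
      · have h1 : 2 / r ≤ max 3 (2 / r) := le_max_right _ _
        have h2 : 0 < 2 / r := by positivity
        calc 1 / max 3 (2 / r) ≤ 1 / (2 / r) := one_div_le_one_div_of_le h2 h1
          _ = r / 2 := by rw [one_div_div]
          _ < r := by linarith
      · rw [hpt]; exact le_top
    · refine ⟨p.toReal, ?_, ?_, ?_⟩
      · have := (ENNReal.toReal_lt_toReal (by norm_num) hpt).2 hp
        simpa using this
      · rw [one_div, ENNReal.toReal_inv] at hr1
        rwa [one_div]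
      · rw [ENNReal.ofReal_toReal hpt]
  obtain ⟨C, hC, hup⟩ := hU 𝕜 d l p' r (by omega) hl hp2 hpr hr2
  obtain ⟨c, hc, hlow⟩ := hL 𝕜 d l r (by omega) hr0
    (lt_of_lt_of_le (by linarith : r < 1) (by exact_mod_cast hl))
  refine ⟨c, C, hc, hC, fun m hm => ⟨?_, ?_⟩⟩
  · unfold samplingNumber
    refine le_iInf fun x => le_iInf fun ψ => ?_
    obtain ⟨f, hf, hfx, hf1⟩ := hlow m hm x
    have hfp : f ∈ HClass 𝕜 d l r p := HClass_mono l r le_top hf
    refine le_trans ?_ (le_iSup₂ (f := fun f (_ : f ∈ HClass 𝕜 d l r p) =>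
      eLpNorm (fun y => f y - ∑ i, f (x i) * ψ i y) q (μT d)) f hfp)
    have h1 : (fun y => f y - ∑ i, f (x i) * ψ i y) = (f : Torus d → 𝕜) := by
      funext y
      simp [hfx]
    rw [h1]
    exact hf1.trans (eLpNorm_le_eLpNorm_of_exponent_le hq1 f.continuous.aestronglyMeasurable)
  · exact (samplingNumber_mono m (HClass_mono l r hpp) hq2).trans (hup m hm)

end

end Pool.Agent.MP_bc5265.S
end

section
/-!
# UP: the upper bound
-/
set_option linter.unusedSectionVars false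

open MeasureTheory Finset Matrix
open scoped ENNReal

namespace Pool.Agent.MP_bc5265.R2

open Pool.Agent.MP_bc5265.S

noncomputable section

theorem specUP (hUPT : SpecUPT) (hRAT : SpecRAT) : SpecUP := by
  intro 𝕜 _ d l p q r hd hq hqp hp1 hp2 hr hrl
  have hr0 : 0 < r := lt_trans (by positivity) hr
  obtain ⟨C, hC, hU⟩ := hUPT 𝕜 d l p r hd hp1 hp2 hr hrl
  obtain ⟨m0, C', hm0, hC', hR1, hR2⟩ := hRAT d p r C hd hp1 hr0 hC
  refine ⟨C * C' + C', by positivity, fun m hm => ?_⟩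
  have hmono : samplingNumber m (HClass 𝕜 d l r (ENNReal.ofReal p)) (ENNReal.ofReal q) ≤
      samplingNumber m (HClass 𝕜 d l r (ENNReal.ofReal p)) (ENNReal.ofReal p) :=
    FinalM.samplingNumber_mono m (le_refl _) (ENNReal.ofReal_le_ofReal hqp)
  refine hmono.trans ?_
  have hrate : 0 ≤ rate2 d p r m := by
    unfold rate2
    have h1 : 0 ≤ Real.log m := Real.log_natCast_nonneg m
    have := Real.rpow_nonneg h1 (((d : ℝ) - 1) * (r + 1 / p))
    positivity
  rcases le_or_gt m0 m with h | h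
  · obtain ⟨n, hn1, hn2, hn3⟩ := hR1 m h
    obtain ⟨x, ψ, hf⟩ := hU n m hn1 hn2
    unfold samplingNumber
    refine (iInf_le _ x).trans ((iInf_le _ ψ).trans ?_)
    refine iSup₂_le fun f hfm => (hf f hfm).trans ?_
    refine ENNReal.ofReal_le_ofReal ?_
    calc C * ((2 : ℝ) ^ (-(r * n)) * (n : ℝ) ^ (((d : ℝ) - 1) / p))
        ≤ C * (C' * rate2 d p r m) := by gcongr
      _ ≤ (C * C' + C') * rate2 d p r m := by
          have : 0 ≤ C' * rate2 d p r m := by positivity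
          nlinarith
  · have h1 := hR2 m hm h
    unfold samplingNumber
    refine (iInf_le _ (fun _ => 0)).trans ((iInf_le _ (fun _ => 0)).trans ?_)
    refine iSup₂_le fun f hfm => ?_
    have e1 : (fun y => f y - ∑ i : Fin m, f ((fun _ => (0 : Torus d)) i) *
        ((fun _ => (0 : C(Torus d, 𝕜))) i) y) = (f : Torus d → 𝕜) := by
      funext y
      simp
    rw [e1]
    refine hfm.1.trans ?_
    have h2 : (1 : ℝ) ≤ (C * C' + C') * rate2 d p r m := by
      have : 0 ≤ C * C' * rate2 d p r m := by positivity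
      nlinarith
    calc (1 : ℝ≥0∞) = ENNReal.ofReal 1 := ENNReal.ofReal_one.symm
      _ ≤ _ := ENNReal.ofReal_le_ofReal h2

end

end Pool.Agent.MP_bc5265.R2
end

section
/-! # VAN: facts on the interpolation differences -/
set_option linter.unusedSectionVars false

open MeasureTheory Finset Matrix
open scoped ENNReal

namespace Pool.Agent.MP_bc5265.R2

open Pool.Agent.MP_bc5265.S

noncomputable section

namespace VANM

theorem div_eq {L k v x y : ℕ} (hkv : k ≤ v) (h : x / 2 ^ (L - v) = y / 2 ^ (L - v)) :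
    x / 2 ^ (L - k) = y / 2 ^ (L - k) := by
  have h1 : L - k = (L - v) + ((L - k) - (L - v)) := by omega
  rw [h1, pow_add, ← Nat.div_div_eq_div_mul, ← Nat.div_div_eq_div_mul, h]

theorem IM_congr {L k v : ℕ} (hkv : k ≤ v + 1) {x y : Fin (2 ^ L)}
    (h : (x : ℕ) / 2 ^ (L - v) = (y : ℕ) / 2 ^ (L - v)) (z : Fin (2 ^ L)) :
    IM L k x z = IM L k y z := by
  cases k with
  | zero => rfl
  | succ k =>
    have h1 := div_eq (L := L) (k := k) (v := v) (by omega) h
    show (if (z : ℕ) = (x : ℕ) / 2 ^ (L - k) * 2 ^ (L - k) then (1 : ℝ) else 0) =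
      if (z : ℕ) = (y : ℕ) / 2 ^ (L - k) * 2 ^ (L - k) then 1 else 0
    rw [h1]

theorem IM_dvd {L k m : ℕ} (hk : m < k) {x : Fin (2 ^ L)}
    (h : 2 ^ (L - m) ∣ (x : ℕ)) (z : Fin (2 ^ L)) :
    IM L k x z = if (z : ℕ) = (x : ℕ) then 1 else 0 := by
  cases k with
  | zero => omega
  | succ k =>
    have h1 : 2 ^ (L - k) ∣ (x : ℕ) := (pow_dvd_pow 2 (by omega)).trans h
    show (if (z : ℕ) = (x : ℕ) / 2 ^ (L - k) * 2 ^ (L - k) then (1 : ℝ) else 0) =
      if (z : ℕ) = (x : ℕ) then 1 else 0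
    rw [Nat.div_mul_cancel h1]

theorem pt_dvd {d L H : ℕ} {a : Fin d → ℕ} (x : Gr d L) (y : Gr d H) (j : Fin d) :
    2 ^ (L - (a j + H)) ∣ ((pt a H x y j : Fin (2 ^ L)) : ℕ) := by
  show 2 ^ (L - (a j + H)) ∣
    ((x j : ℕ) / 2 ^ (L - a j) * 2 ^ (L - a j) + (y j : ℕ) * 2 ^ (L - a j - H)) % 2 ^ L
  rw [Nat.dvd_mod_iff (pow_dvd_pow 2 (Nat.sub_le _ _))]
  refine dvd_add ?_ ?_
  · exact (pow_dvd_pow 2 (by omega)).trans (dvd_mul_left _ _)
  · rw [Nat.sub_sub]
    exact dvd_mul_left _ _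

end VANM

/-- VAN -/
theorem specVAN : SpecVAN := by
  intro d L H a b v M Y g
  refine ⟨?_, ?_⟩
  · intro x y hxy
    show ∑ z, Et L v x z * g z = ∑ z, Et L v y z * g z
    refine Finset.sum_congr rfl fun z _ => ?_
    congr 1
    show ∏ j, (IM L (v j + 1) - IM L (v j)) (x j) (z j) =
      ∏ j, (IM L (v j + 1) - IM L (v j)) (y j) (z j)
    refine Finset.prod_congr rfl fun j _ => ?_
    rw [Matrix.sub_apply, Matrix.sub_apply, VANM.IM_congr (by omega) (hxy j),
      VANM.IM_congr (k := v j) (by omega) (hxy j)]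
  · intro _ hj
    obtain ⟨j, hj⟩ := hj
    have key : ∀ (x : Gr d L) (y : Gr d H), (Et L v *ᵥ g) (pt a H x y) = 0 := by
      intro x y
      show ∑ z, Et L v (pt a H x y) z * g z = 0
      refine Finset.sum_eq_zero fun z _ => ?_
      have h1 : Et L v (pt a H x y) z = 0 := by
        show ∏ j, (IM L (v j + 1) - IM L (v j)) (pt a H x y j) (z j) = 0
        refine Finset.prod_eq_zero (Finset.mem_univ j) ?_
        rw [Matrix.sub_apply, VANM.IM_dvd (m := a j + H) (by omega) (VANM.pt_dvd x y j),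
          VANM.IM_dvd (m := a j + H) hj (VANM.pt_dvd x y j), sub_self]
      rw [h1, zero_mul]
    refine ⟨key, ?_⟩
    funext x
    show ∑ z, WM L a b M Y x z * (Et L v *ᵥ g) z = 0
    refine Finset.sum_eq_zero fun z _ => ?_
    by_cases hz : ∃ y : Gr d H, z = pt a H x y
    · obtain ⟨y, rfl⟩ := hz
      rw [key, mul_zero]
    · have h1 : WM L a b M Y x z = 0 := by
        show (∑ y ∈ Y, if z = pt a H x y ∧ sameCell b x z then
          (2 : ℝ) ^ (∑ j, (b j - a j)) / M else 0) = 0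
        refine Finset.sum_eq_zero fun y _ => ?_
        rw [if_neg]
        rintro ⟨h2, -⟩
        exact hz ⟨y, h2⟩
      rw [h1, zero_mul]

end

end Pool.Agent.MP_bc5265.R2
end

section
/-!
# Row 230, WCO (helper70): cost of one window, bound in the maximum norm
-/
set_option linter.unusedSectionVars false

open MeasureTheory Finset Matrix
open scoped ENNReal

namespace Pool.Agent.MP_bc5265.R2

open Pool.Agent.MP_bc5265.S

namespace WCOM

theorem supB_mul {d L : ℕ} (A B : MG d L) (c c' : ℝ) (hA : SupB A c) (hB : SupB B c') :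
    SupB (A * B) (c * c') := by
  intro g M hM x
  rw [← Matrix.mulVec_mulVec, mul_assoc]
  exact hA _ _ (hB g M hM) x

/-- the left end point of the cell -/
def le (L a z : ℕ) : ℕ := z / 2 ^ (L - (a - 1)) * 2 ^ (L - (a - 1))

theorem le_le (L a z : ℕ) : le L a z ≤ z := Nat.div_mul_le_self _ _

theorem one_sub_im {L a : ℕ} (z u : Fin (2 ^ L)) (h : (1 - IM L a : M1 L) z u ≠ 0) :
    u = z ∨ (u : ℕ) = le L a z := by
  by_contra hcon
  push Not at hcon
  obtain ⟨h1, h2⟩ := hcon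
  apply h
  have e1 : (1 : M1 L) z u = 0 := by
    rw [Matrix.one_apply, if_neg]
    exact fun h => h1 h.symm
  have e2 : IM L a z u = 0 := by
    cases a with
    | zero => rfl
    | succ k =>
      have h3 : IM L (k + 1) z u =
        if (u : ℕ) = (z : ℕ) / 2 ^ (L - k) * 2 ^ (L - k) then 1 else 0 := rfl
      rw [h3, if_neg]
      exact h2
  rw [Matrix.sub_apply, e1, e2, sub_zero]

/-- the point given by the index of the cell and the relative coordinates -/
def pq {d : ℕ} (L : ℕ) (a : Fin d → ℕ) (H : ℕ) (w : (Fin d → ℕ) × Gr d H) : Gr d L := fun j =>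
  ⟨(w.1 j * 2 ^ (L - a j) + (w.2 j : ℕ) * 2 ^ (L - a j - H)) % 2 ^ L,
    Nat.mod_lt _ (by positivity)⟩

/-- the points of the window -/
def P1 {d : ℕ} (L : ℕ) (a : Fin d → ℕ) (H : ℕ) (Y : Finset (Gr d H)) : Finset (Gr d L) :=
  ((Fintype.piFinset fun j : Fin d => range (2 ^ a j)) ×ˢ Y).image (pq L a H)

theorem card_P1 {d : ℕ} (L : ℕ) (a : Fin d → ℕ) (H : ℕ) (Y : Finset (Gr d H)) :
    (P1 L a H Y).card ≤ 2 ^ (∑ j, a j) * Y.card := by
  refine Finset.card_image_le.trans (le_of_eq ?_)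
  rw [Finset.card_product, Fintype.card_piFinset, ← Finset.prod_pow_eq_pow_sum]
  congr 1
  exact Finset.prod_congr rfl fun j _ => Finset.card_range _

theorem wm_ne {d : ℕ} (L : ℕ) (a b : Fin d → ℕ) (H : ℕ) (M : ℝ) (Y : Finset (Gr d H))
    (ha : ∀ j, a j ≤ L) (x z : Gr d L) (h : WM L a b M Y x z ≠ 0) : z ∈ P1 L a H Y := by
  by_contra hcon
  apply h
  unfold WM
  apply Finset.sum_eq_zero
  intro y hy
  rw [if_neg]
  rintro ⟨hz, -⟩
  apply hcon
  rw [hz]
  unfold P1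
  rw [Finset.mem_image]
  refine ⟨(fun j => (x j : ℕ) / 2 ^ (L - a j), y), ?_, ?_⟩
  · rw [Finset.mem_product]
    refine ⟨Fintype.mem_piFinset.2 fun j => ?_, hy⟩
    rw [Finset.mem_range, Nat.div_lt_iff_lt_mul (by positivity), ← pow_add,
      Nat.add_sub_cancel' (ha j)]
    exact (x j).2
  · rfl

/-- the modified point -/
def md {d : ℕ} (L : ℕ) (a : Fin d → ℕ) (w : Gr d L × Finset (Fin d)) : Gr d L := fun j =>
  if j ∈ w.2 then w.1 j else ⟨le L (a j) (w.1 j), (le_le _ _ _).trans_lt (w.1 j).2⟩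

theorem tens_ne {d : ℕ} (L : ℕ) (a : Fin d → ℕ) (z u : Gr d L)
    (h : (tens fun j => 1 - IM L (a j) : MG d L) z u ≠ 0) : ∃ e : Finset (Fin d),
      md L a (z, e) = u := by
  classical
  have h1 : ∀ j, (1 - IM L (a j) : M1 L) (z j) (u j) ≠ 0 := by
    intro j hj
    apply h
    exact Finset.prod_eq_zero (Finset.mem_univ j) hj
  refine ⟨Finset.univ.filter fun j => u j = z j, ?_⟩
  funext j
  unfold md
  by_cases hj : u j = z j
  · rw [if_pos (by simp [hj])]
    exact hj.symm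
  · rw [if_neg (by simp [hj])]
    rcases one_sub_im (z j) (u j) (h1 j) with h2 | h2
    · exact absurd h2 hj
    · exact Fin.ext h2.symm

theorem row_wm {d : ℕ} (L : ℕ) (a b : Fin d → ℕ) (H : ℕ) (M : ℝ) (hM : 0 < M)
    (Y : Finset (Gr d H)) (x : Gr d L) :
    ∑ z, |WM L a b M Y x z| ≤ Y.card * 2 ^ (∑ j, (b j - a j)) / M := by
  have hc : (0 : ℝ) ≤ (2 : ℝ) ^ (∑ j, (b j - a j)) / M := by positivity
  have h1 : ∀ z, |WM L a b M Y x z| ≤ ∑ y ∈ Y, if z = pt a H x y then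
      (2 : ℝ) ^ (∑ j, (b j - a j)) / M else 0 := by
    intro z
    unfold WM
    refine (Finset.abs_sum_le_sum_abs _ _).trans (Finset.sum_le_sum fun y _ => ?_)
    by_cases hz : z = pt a H x y
    · rw [if_pos hz]
      split_ifs
      · rw [abs_of_nonneg hc]
      · rw [abs_zero]; exact hc
    · rw [if_neg hz, if_neg (fun h => hz h.1), abs_zero]
  calc ∑ z, |WM L a b M Y x z| ≤ ∑ z, ∑ y ∈ Y, (if z = pt a H x y then
      (2 : ℝ) ^ (∑ j, (b j - a j)) / M else 0) := Finset.sum_le_sum fun z _ => h1 z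
    _ = ∑ y ∈ Y, ∑ z, (if z = pt a H x y then
      (2 : ℝ) ^ (∑ j, (b j - a j)) / M else 0) := Finset.sum_comm
    _ = ∑ _y ∈ Y, (2 : ℝ) ^ (∑ j, (b j - a j)) / M := by
        apply Finset.sum_congr rfl
        intro y _
        rw [Finset.sum_ite_eq' Finset.univ, if_pos (Finset.mem_univ _)]
    _ = Y.card * 2 ^ (∑ j, (b j - a j)) / M := by
        rw [Finset.sum_const, nsmul_eq_mul, mul_div_assoc]

end WCOM

theorem specWCO (hTEN : SpecTEN) (hOPS : SpecOPS) (hCON : SpecCON) : SpecWCO := by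
  classical
  intro d L H a b w M Y ha hM
  refine ⟨?_, ?_⟩
  · refine ⟨(WCOM.P1 L a H Y ×ˢ (Finset.univ : Finset (Finset (Fin d)))).image (WCOM.md L a),
      ?_, ?_⟩
    · refine Finset.card_image_le.trans ?_
      rw [Finset.card_product, Finset.card_univ, Fintype.card_finset, Fintype.card_fin, mul_comm]
      exact Nat.mul_le_mul_left _ (WCOM.card_P1 L a H Y)
    · intro x u hu
      by_contra hne
      apply hu
      have h1 : ∃ z, ((tens fun j => EM L (a j + w) - EM L (a j)) * WM L a b M Y : MG d L) x z *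
          (tens fun j => 1 - IM L (a j) : MG d L) z u ≠ 0 := by
        by_contra hall
        push Not at hall
        apply hne
        rw [Matrix.mul_apply]
        exact Finset.sum_eq_zero fun z _ => hall z
      obtain ⟨z, hz⟩ := h1
      have h2 := left_ne_zero_of_mul hz
      have h3 := right_ne_zero_of_mul hz
      have h4 : ∃ x', (tens fun j => EM L (a j + w) - EM L (a j) : MG d L) x x' *
          WM L a b M Y x' z ≠ 0 := by
        by_contra hall
        push Not at hall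
        apply h2
        rw [Matrix.mul_apply]
        exact Finset.sum_eq_zero fun x' _ => hall x'
      obtain ⟨x', hx'⟩ := h4
      have h5 := WCOM.wm_ne L a b H M Y ha x' z (right_ne_zero_of_mul hx')
      obtain ⟨e, he⟩ := WCOM.tens_ne L a z u h3
      rw [Finset.mem_image]
      exact ⟨(z, e), Finset.mem_product.2 ⟨h5, Finset.mem_univ _⟩, he⟩
  · obtain ⟨-, -, -, -, t5, -⟩ := hTEN d L
    obtain ⟨-, -, -, -, -, o6, -, o8⟩ := hOPS L
    obtain ⟨-, -, c3⟩ := hCON d L 1 le_rfl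
    have s1 : SupB (tens fun j => EM L (a j + w) - EM L (a j) : MG d L) (2 ^ d) := by
      apply c3
      intro x
      have h := t5 (fun j => EM L (a j + w) - EM L (a j)) (fun _ => 2) (fun j x => by
        calc ∑ y, |(EM L (a j + w) - EM L (a j)) x y|
            ≤ ∑ y, (|EM L (a j + w) x y| + |EM L (a j) x y|) :=
              Finset.sum_le_sum fun y _ => by rw [Matrix.sub_apply]; exact abs_sub _ _
          _ = ∑ y, |EM L (a j + w) x y| + ∑ y, |EM L (a j) x y| := Finset.sum_add_distrib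
          _ ≤ 1 + 1 := add_le_add (o6 _ x) (o6 _ x)
          _ = 2 := by norm_num) x
      simpa using h
    have s3 : SupB (tens fun j => 1 - IM L (a j) : MG d L) (2 ^ d) := by
      apply c3
      intro x
      have h := t5 (fun j => 1 - IM L (a j)) (fun _ => 2) (fun j x => by
        have h1 : ∑ y, |(1 : M1 L) x y| = 1 := by
          rw [Finset.sum_eq_single x]
          · rw [Matrix.one_apply_eq, abs_one]
          · intro y _ hy
            rw [Matrix.one_apply_ne (Ne.symm hy), abs_zero]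
          · intro h; exact absurd (Finset.mem_univ x) h
        calc ∑ y, |(1 - IM L (a j)) x y|
            ≤ ∑ y, (|(1 : M1 L) x y| + |IM L (a j) x y|) :=
              Finset.sum_le_sum fun y _ => by rw [Matrix.sub_apply]; exact abs_sub _ _
          _ = ∑ y, |(1 : M1 L) x y| + ∑ y, |IM L (a j) x y| := Finset.sum_add_distrib
          _ ≤ 1 + 1 := add_le_add h1.le (o8 _ x)
          _ = 2 := by norm_num) x
      simpa using h
    have s2 : SupB (WM L a b M Y : MG d L) (Y.card * 2 ^ (∑ j, (b j - a j)) / M) :=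
      c3 _ _ fun x => WCOM.row_wm L a b H M hM Y x
    exact WCOM.supB_mul _ _ _ _ (WCOM.supB_mul _ _ _ _ s1 s2) s3

end Pool.Agent.MP_bc5265.R2
end

section
/-! # WHC: Whitney decomposition of `{t : |t| + C1 ≤ n}` -/
set_option linter.unusedSectionVars false

open MeasureTheory Finset Matrix
open scoped ENNReal

namespace Pool.Agent.MP_bc5265.R2

open Pool.Agent.MP_bc5265.S

noncomputable section

namespace WHCM

/-- the condition for the cube of side `2^i` -/
def P (C1 n : ℕ) {d : ℕ} (t : Fin d → ℕ) (i : ℕ) : Prop :=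
  2 ^ i * (∑ j, t j / 2 ^ i + C1) ≤ n

theorem P_succ {C1 n d : ℕ} (hd : d ≤ C1) (t : Fin d → ℕ) (i : ℕ) (h : P C1 n t (i + 1)) :
    P C1 n t i := by
  unfold P at *
  refine le_trans ?_ h
  have h1 : ∀ j, t j / 2 ^ i ≤ 2 * (t j / 2 ^ (i + 1)) + 1 := by
    intro j
    rw [pow_succ, ← Nat.div_div_eq_div_mul]
    omega
  have h2 : ∑ j, t j / 2 ^ i ≤ 2 * ∑ j, t j / 2 ^ (i + 1) + d := by
    calc ∑ j, t j / 2 ^ i ≤ ∑ j : Fin d, (2 * (t j / 2 ^ (i + 1)) + 1) :=
          Finset.sum_le_sum fun j _ => h1 j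
      _ = 2 * ∑ j, t j / 2 ^ (i + 1) + d := by
          rw [Finset.sum_add_distrib, ← Finset.mul_sum]
          simp
  calc 2 ^ i * (∑ j, t j / 2 ^ i + C1)
      ≤ 2 ^ i * (2 * (∑ j, t j / 2 ^ (i + 1) + C1)) := by
        refine Nat.mul_le_mul_left _ ?_
        omega
    _ = 2 ^ (i + 1) * (∑ j, t j / 2 ^ (i + 1) + C1) := by ring

theorem P_mono {C1 n d : ℕ} (hd : d ≤ C1) (t : Fin d → ℕ) {i k : ℕ} (hik : i ≤ k)
    (h : P C1 n t k) : P C1 n t i := by
  induction hik with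
  | refl => exact h
  | step _ ih => exact ih (P_succ hd t _ h)

theorem sel_iff {C1 n d : ℕ} (t : Fin d → ℕ) (i : ℕ) :
    (selW C1 n i fun j => t j / 2 ^ i) ↔ P C1 n t i ∧ ¬ P C1 n t (i + 1) := by
  unfold selW P
  have h1 : ∀ j, t j / 2 ^ i / 2 = t j / 2 ^ (i + 1) := fun j => by
    rw [pow_succ, Nat.div_div_eq_div_mul]
  simp only [h1, not_le]

theorem P_zero {C1 n d : ℕ} (t : Fin d → ℕ) : P C1 n t 0 ↔ ∑ j, t j + C1 ≤ n := by
  unfold P
  simp

theorem P_big {C1 n d : ℕ} (hC : 1 ≤ C1) (t : Fin d → ℕ) : ¬ P C1 n t n := by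
  unfold P
  rw [not_le]
  calc n < 2 ^ n := Nat.lt_two_pow_self
    _ = 2 ^ n * 1 := (mul_one _).symm
    _ ≤ 2 ^ n * (∑ j, t j / 2 ^ n + C1) := Nat.mul_le_mul_left _ (by omega)

/-- number of possible values of `|κ|` -/
theorem card_vals {C1 n w : ℕ} (hC : 1 ≤ C1) (hw : 1 ≤ w) :
    ((range (n + 1)).filter fun k => w * k + C1 * w ≤ n ∧ n < w * k + 2 * C1 * w).card ≤ C1 := by
  have h1 : ((range (n + 1)).filter fun k => w * k + C1 * w ≤ n ∧ n < w * k + 2 * C1 * w) ⊆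
      Finset.Icc (n / w + 1 - 2 * C1) (n / w - C1) := by
    intro k hk
    obtain ⟨-, h2, h3⟩ := Finset.mem_filter.1 hk
    have h4 : k + C1 ≤ n / w := by
      rw [Nat.le_div_iff_mul_le hw]
      calc (k + C1) * w = w * k + C1 * w := by ring
        _ ≤ n := h2
    have h5 : n / w < k + 2 * C1 := by
      rw [Nat.div_lt_iff_lt_mul hw]
      calc n < w * k + 2 * C1 * w := h3
        _ = (k + 2 * C1) * w := by ring
    rw [Finset.mem_Icc]
    omega
  refine (Finset.card_le_card h1).trans ?_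
  rw [Nat.card_Icc]
  omega

end WHCM

open WHCM in
/-- **WHC** -/
theorem specWHC (hLAY : SpecLAY) : SpecWHC := by
  intro d C1 n hd hdC
  have hC : 1 ≤ C1 := hd.trans hdC
  have h3 : ∀ (i : ℕ) (κ : Fin d → ℕ), selW C1 n i κ →
      2 ^ i * ∑ j, κ j + C1 * 2 ^ i ≤ n ∧ n < 2 ^ i * ∑ j, κ j + 2 * C1 * 2 ^ i := by
    intro i κ h
    obtain ⟨ha, hb⟩ := h
    refine ⟨?_, ?_⟩
    · calc 2 ^ i * ∑ j, κ j + C1 * 2 ^ i = 2 ^ i * (∑ j, κ j + C1) := by ring
        _ ≤ n := ha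
    · refine lt_of_lt_of_le hb ?_
      have h4 : 2 * ∑ j, κ j / 2 ≤ ∑ j, κ j := by
        rw [Finset.mul_sum]
        exact Finset.sum_le_sum fun j _ => by omega
      calc 2 ^ (i + 1) * (∑ j, κ j / 2 + C1) = 2 ^ i * (2 * ∑ j, κ j / 2) + 2 * C1 * 2 ^ i := by
            ring
        _ ≤ 2 ^ i * ∑ j, κ j + 2 * C1 * 2 ^ i :=
            Nat.add_le_add_right (Nat.mul_le_mul_left _ h4) _
  refine ⟨?_, ?_, h3, ?_⟩
  · intro t ht
    have hex : ∃ i, ¬ P C1 n t i := ⟨n, P_big hC t⟩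
    classical
    set m := Nat.find hex with hm
    have hm1 : ¬ P C1 n t m := Nat.find_spec hex
    have hm0 : m ≠ 0 := by
      intro h0
      rw [h0] at hm1
      exact hm1 ((P_zero t).2 ht)
    obtain ⟨i, hi⟩ := Nat.exists_eq_succ_of_ne_zero hm0
    have hi' : m = i + 1 := hi
    have hPi : P C1 n t i := by
      by_contra hcon
      have := Nat.find_min' hex hcon
      omega
    refine ⟨i, (sel_iff t i).2 ⟨hPi, hi' ▸ hm1⟩, ?_⟩
    intro k hk
    have hk' := (sel_iff t k).1 hk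
    rcases lt_trichotomy k i with h | h | h
    · exact absurd (P_mono hdC t (by omega : k + 1 ≤ i) hPi) hk'.2
    · exact h
    · exact absurd (P_mono hdC t (by omega : i + 1 ≤ k) hk'.1) (hi' ▸ hm1)
  · intro t i h
    have h1 := ((sel_iff t i).1 h).1
    exact (P_zero t).1 (P_mono hdC t (Nat.zero_le i) h1)
  · intro i m
    set w := 2 ^ i with hw
    have hw1 : 1 ≤ w := Nat.one_le_two_pow
    set K := (range (n + 1)).filter fun k => w * k + C1 * w ≤ n ∧ n < w * k + 2 * C1 * w with hK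
    have hmaps : ∀ κ ∈ (box d m).filter fun κ => selW C1 n i κ, ∑ j, κ j ∈ K := by
      intro κ hκ
      obtain ⟨ha, hb⟩ := h3 i κ (Finset.mem_filter.1 hκ).2
      rw [← hw] at ha hb
      rw [hK, Finset.mem_filter, Finset.mem_range]
      refine ⟨?_, ha, hb⟩
      have h5 : 1 * ∑ j, κ j ≤ w * ∑ j, κ j := Nat.mul_le_mul_right _ hw1
      omega
    have hcard := Finset.card_eq_sum_card_fiberwise hmaps
    rw [hcard, Finset.sum_mul]
    have hfib : ∀ k ∈ K, (((box d m).filter fun κ => selW C1 n i κ).filter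
        fun κ => ∑ j, κ j = k).card * w ^ (d - 1) ≤ n ^ (d - 1) := by
      intro k hk
      obtain ⟨-, ha, -⟩ := Finset.mem_filter.1 hk
      have h6 : (((box d m).filter fun κ => selW C1 n i κ).filter
          fun κ => ∑ j, κ j = k).card ≤ (k + 1) ^ (d - 1) := by
        have h7 := hLAY d m k (fun _ => 0) hd (by simp)
        simp only [Finset.sum_const_zero, Nat.sub_zero] at h7
        refine le_trans (Finset.card_le_card ?_) h7
        intro κ hκ
        obtain ⟨h8, h9⟩ := Finset.mem_filter.1 hκ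
        exact Finset.mem_filter.2 ⟨(Finset.mem_filter.1 h8).1, fun j => Nat.zero_le _, h9⟩
      calc _ ≤ (k + 1) ^ (d - 1) * w ^ (d - 1) := Nat.mul_le_mul_right _ h6
        _ = ((k + 1) * w) ^ (d - 1) := (mul_pow _ _ _).symm
        _ ≤ n ^ (d - 1) := by
            refine Nat.pow_le_pow_left ?_ _
            have h10 : 1 * w ≤ C1 * w := Nat.mul_le_mul_right _ hC
            calc (k + 1) * w = w * k + 1 * w := by ring
              _ ≤ w * k + C1 * w := Nat.add_le_add_left h10 _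
              _ ≤ n := ha
    calc ∑ k ∈ K, _ ≤ ∑ _k ∈ K, n ^ (d - 1) := Finset.sum_le_sum hfib
      _ = K.card * n ^ (d - 1) := by rw [Finset.sum_const, smul_eq_mul]
      _ ≤ C1 * n ^ (d - 1) := Nat.mul_le_mul_right _ (card_vals hC hw1)

end

end Pool.Agent.MP_bc5265.R2
end

section
/-!
# Region `R_2`, block B: module WNO (noise of one window)
-/
set_option linter.unusedSectionVars false

open MeasureTheory Finset Matrix
open scoped ENNReal

namespace Pool.Agent.MP_bc5265.R2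

open Pool.Agent.MP_bc5265.S

namespace WNOM

/-- numbers -/
theorem num {p ρ : ℝ} (hp1 : 1 < p) (hp2 : p < 2) (j i0 : ℕ) :
    NU p ((j : ℤ) - i0) * (2 : ℝ) ^ (-(ρ * j)) ≤
      (2 : ℝ) ^ (-((i0 : ℝ) / 2)) * (2 : ℝ) ^ (-((ρ - 1 / p) * j)) := by
  have hpp : (1 : ℝ) / 2 ≤ 1 / p := one_div_le_one_div_of_le (by linarith) hp2.le
  have hj : (0 : ℝ) ≤ j := Nat.cast_nonneg j
  have hi : (0 : ℝ) ≤ i0 := Nat.cast_nonneg i0
  have h2 : (1 : ℝ) ≤ 2 := by norm_num
  have hj2 : (1 : ℝ) / 2 * j ≤ 1 / p * j := mul_le_mul_of_nonneg_right hpp hj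
  have hi2 : (1 : ℝ) / 2 * i0 ≤ 1 / p * i0 := mul_le_mul_of_nonneg_right hpp hi
  unfold NU
  split_ifs with h
  · rw [← Real.rpow_add (by norm_num), ← Real.rpow_add (by norm_num)]
    refine Real.rpow_le_rpow_of_exponent_le h2 ?_
    push_cast
    nlinarith
  · rw [← Real.rpow_add (by norm_num), ← Real.rpow_add (by norm_num)]
    refine Real.rpow_le_rpow_of_exponent_le h2 ?_
    push_cast
    have h3 : ((j : ℝ) - i0) / p = 1 / p * j - 1 / p * i0 := by ring
    rw [h3]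
    nlinarith

/-- numbers, far case -/
theorem num2 {p ρ : ℝ} (hp1 : 1 < p) (hp2 : p < 2) (j i0 : ℕ) (hij : i0 ≤ j) :
    (2 : ℝ) ^ (-(ρ * j)) ≤
      (2 : ℝ) ^ (-((i0 : ℝ) / 2)) * (2 : ℝ) ^ (-((ρ - 1 / p) * j)) := by
  have hpp : (1 : ℝ) / 2 ≤ 1 / p := one_div_le_one_div_of_le (by linarith) hp2.le
  have hj : (0 : ℝ) ≤ j := Nat.cast_nonneg j
  have hij' : (i0 : ℝ) ≤ j := Nat.cast_le.2 hij
  have hj2 : (1 : ℝ) / 2 * j ≤ 1 / p * j := mul_le_mul_of_nonneg_right hpp hj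
  rw [← Real.rpow_add (by norm_num)]
  refine Real.rpow_le_rpow_of_exponent_le (by norm_num) ?_
  nlinarith

theorem cell_mono {d L : ℕ} {u v : Fin d → ℕ} (huv : ∀ j, v j ≤ u j) {ψ : Gr d L → ℝ}
    (hψ : CellC v ψ) : CellC u ψ := by
  intro x y hxy
  refine hψ x y fun j => ?_
  have h1 := hxy j
  have h2 : L - v j = (L - u j) + ((L - v j) - (L - u j)) := by
    have := huv j
    omega
  rw [h2, pow_add, ← Nat.div_div_eq_div_mul, ← Nat.div_div_eq_div_mul, h1]

/-- the levels covered by the window -/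
theorem near (hNRM : SpecNRM) (hREL : SpecREL) {d : ℕ} {p C0 α : ℝ} (hp1 : 1 < p)
    (hC0 : 0 < C0) {h i0 : ℕ} {Y : Finset (Gr d (3 * h))} (hY : RWP d p α C0 h i0 Y)
    {n L w : ℕ} {a : Fin d → ℕ} (hw : 1 ≤ w) (hn : ∑ j, a j + h = n) (hdw : (d : ℝ) * w ≤ α * h)
    (hwh : w ≤ h) (haL : ∀ j, a j + 3 * h ≤ L) {v : Fin d → ℕ} (hav : ∀ j, a j ≤ v j)
    (hva : ∀ j, v j ≤ a j + 3 * h) (hvn : n < ∑ j, v j) {ψ : Gr d L → ℝ} (hψ : CellC v ψ) :
    nrm p (((tens fun j => EM L (a j + w)) -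
        WM L a (fun j => a j + w - 1) (2 ^ (h + i0)) Y) *ᵥ ψ) ≤
      C0 * NU p (((∑ j, v j - n : ℕ) : ℤ) - i0) * nrm p ψ := by
  have hNe : Nonempty (Gr d L) := ⟨fun _ => ⟨0, by positivity⟩⟩
  have hNe' : Nonempty (Gr d (3 * h)) := ⟨fun _ => ⟨0, by positivity⟩⟩
  have hp0 : 0 < p := by linarith
  obtain ⟨hmom0, hnrm0, hpow, -, -, -, -, -, -⟩ := hNRM (Gr d L) p hp1.le
  obtain ⟨hmom0', hnrm0', hpow', -, -, -, -, -, -⟩ := hNRM (Gr d (3 * h)) p hp1.le
  set b : Fin d → ℕ := fun j => a j + w - 1 with hb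
  obtain ⟨r1, r2, r3, r4, r5, r6⟩ := hREL d L (3 * h) a b v (2 ^ (h + i0)) p Y ψ haL
    (fun j => by rw [hb]; show a j ≤ a j + w - 1; omega)
    (fun j => by rw [hb]; show a j + w - 1 ≤ a j + 3 * h; omega) hav hva hψ
  have hbw : (fun j => EM L (b j + 1)) = fun j => EM L (a j + w) := by
    funext j
    congr 1
    show a j + w - 1 + 1 = a j + w
    omega
  rw [hbw] at r3 r6
  set T : MG d L := (tens fun j => EM L (a j + w)) - WM L a b (2 ^ (h + i0)) Y with hT
  have hTψ : T *ᵥ ψ = (tens fun j => EM L (a j + w)) *ᵥ ψ - WM L a b (2 ^ (h + i0)) Y *ᵥ ψ :=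
    Matrix.sub_mulVec _ _ _
  set K : ℝ := C0 * NU p (((∑ j, v j - n : ℕ) : ℤ) - i0) with hK
  have hNU : 0 ≤ NU p (((∑ j, v j - n : ℕ) : ℤ) - i0) := by
    unfold NU
    split_ifs <;> positivity
  have hK0 : 0 ≤ K := mul_nonneg hC0.le hNU
  have hsum : ∑ j, (v j - a j) = ∑ j, v j - ∑ j, a j :=
    Finset.sum_tsub_distrib _ fun j _ => hav j
  have hsumle : ∑ j, a j ≤ ∑ j, v j := Finset.sum_le_sum fun j _ => hav j
  -- one cell
  have hcell : ∀ x : Gr d L, mom p (fun y : Gr d (3 * h) => (T *ᵥ ψ) (pt a (3 * h) x y)) ≤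
      K ^ p * mom p (fun y : Gr d (3 * h) => ψ (pt a (3 * h) x y)) := by
    intro x
    have h1 := hY.2 (fun j => b j - a j) (fun j => v j - a j) (by
      have h2 : ∑ j, (b j - a j) = ∑ j : Fin d, (w - 1) :=
        Finset.sum_congr rfl fun j _ => by
          show a j + w - 1 - a j = w - 1
          omega
      rw [h2, Finset.sum_const, Finset.card_univ, Fintype.card_fin, smul_eq_mul]
      push_cast [Nat.cast_sub hw]
      have h3 : (0 : ℝ) ≤ d := Nat.cast_nonneg d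
      nlinarith) (fun j => by
      have := hva j
      show v j - a j ≤ 3 * h
      omega) (by
      show h < ∑ j, (v j - a j)
      rw [hsum]
      omega) (fun y' => ψ (pt a (3 * h) x y')) (r1 x)
    have h4 : ((∑ j, (v j - a j) : ℕ) : ℤ) - ((h + i0 : ℕ) : ℤ) =
        ((∑ j, v j - n : ℕ) : ℤ) - i0 := by
      rw [hsum]
      omega
    rw [h4] at h1
    have h5 : (fun y : Gr d (3 * h) => (T *ᵥ ψ) (pt a (3 * h) x y)) =
        fun y => avn (fun j => b j - a j) (fun y' => ψ (pt a (3 * h) x y')) y -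
          smn (fun j => b j - a j) (2 ^ (h + i0)) Y (fun y' => ψ (pt a (3 * h) x y')) y := by
      funext y
      rw [hTψ, Pi.sub_apply, r3 x y, r2 x y]
    rw [h5, ← hpow', ← hpow', ← Real.mul_rpow hK0 (hnrm0' _)]
    exact Real.rpow_le_rpow (hnrm0' _) h1 hp0.le
  have hTc : CellC (fun j => a j + 3 * h) (T *ᵥ ψ) := by
    intro x y hxy
    rw [hTψ, Pi.sub_apply, Pi.sub_apply, r6 x y hxy, r5 x y hxy]
  have h6 : mom p (T *ᵥ ψ) ≤ K ^ p * mom p ψ := by
    rw [r4 _ hTc, r4 ψ (cell_mono hva hψ), ← mul_div_assoc, Finset.mul_sum]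
    exact div_le_div_of_nonneg_right (Finset.sum_le_sum fun x _ => hcell x) (Nat.cast_nonneg _)
  rw [← hpow, ← hpow, ← Real.mul_rpow hK0 (hnrm0 _)] at h6
  exact (Real.rpow_le_rpow_iff (hnrm0 _) (mul_nonneg hK0 (hnrm0 _)) hp0).1 h6

/-- the other levels -/
theorem far (hVAN : SpecVAN) (hCON : SpecCON) {d : ℕ} {p : ℝ} (hp1 : 1 < p)
    {h : ℕ} {Y : Finset (Gr d (3 * h))} {L w : ℕ} {M : ℝ} {a b : Fin d → ℕ}
    (haL : ∀ j, a j + 3 * h ≤ L) {v : Fin d → ℕ}
    (hva : ∃ j, a j + 3 * h < v j) (g : Gr d L → ℝ) :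
    nrm p (((tens fun j => EM L (a j + w)) - WM L a b M Y) *ᵥ (Et L v *ᵥ g)) ≤
      nrm p (Et L v *ᵥ g) := by
  have h1 := ((hVAN d L (3 * h) a b v M Y g).2 haL hva).2
  rw [Matrix.sub_mulVec, h1, sub_zero]
  exact (hCON d L p hp1.le).1 _ _

end WNOM

open WNOM in
theorem specWNO (hREL : SpecREL) (hVAN : SpecVAN) (hDEC : SpecDEC) (hCON : SpecCON)
    (hLAY : SpecLAY) (hSER : SpecSER) (hNRM : SpecNRM) : SpecWNO := by
  intro d p ρ C0 hd hp1 hp2 hρ hC0
  set x : ℝ := (2 : ℝ) ^ (-(ρ - 1 / p)) with hx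
  have hx0 : 0 < x := Real.rpow_pos_of_pos (by norm_num) _
  have hx1 : x < 1 := Real.rpow_lt_one_of_one_lt_of_neg (by norm_num) (by linarith)
  have hxj : ∀ j : ℕ, (2 : ℝ) ^ (-((ρ - 1 / p) * j)) = x ^ j := by
    intro j
    rw [hx, ← Real.rpow_natCast, ← Real.rpow_mul (by norm_num)]
    congr 1
    ring
  obtain ⟨C1, hC1, hser⟩ := hSER (d - 1) x hx0.le hx1
  refine ⟨(C0 + 1) * C1, by positivity, ?_⟩
  intro α h i0 Y hα hh hi0 hY n L w a β g hw hn hdw hwh haL hβ hg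
  have hNe : Nonempty (Gr d L) := ⟨fun _ => ⟨0, by positivity⟩⟩
  obtain ⟨hmom0, hnrm0, hpow, -, -, hnsum, -, -, -⟩ := hNRM (Gr d L) p hp1.le
  set T : MG d L := (tens fun j => EM L (a j + w)) -
    WM L a (fun j => a j + w - 1) (2 ^ (h + i0)) Y with hT
  set K : ℝ := (C0 + 1) * β * (2 : ℝ) ^ (-((i0 : ℝ) / 2)) with hK
  have h2i : (0 : ℝ) < (2 : ℝ) ^ (-((i0 : ℝ) / 2)) := Real.rpow_pos_of_pos (by norm_num) _
  have hK0 : 0 ≤ K := by positivity
  -- one term
  have hterm : ∀ v : Fin d → ℕ, (∀ j, a j ≤ v j) → n < ∑ j, v j →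
      nrm p (T *ᵥ (Et L v *ᵥ g)) ≤ K * x ^ (∑ j, v j - n) := by
    intro v hav hvn
    have hg' := (hg v).2 hvn
    have hcast : ((∑ j, v j : ℕ) : ℝ) - (n : ℝ) = ((∑ j, v j - n : ℕ) : ℝ) := by
      rw [Nat.cast_sub hvn.le]
    rw [hcast] at hg'
    have hy0 : 0 ≤ (2 : ℝ) ^ (-(ρ * ((∑ j, v j - n : ℕ) : ℝ))) := by positivity
    by_cases hva : ∀ j, v j ≤ a j + 3 * h
    · have h1 := near hNRM hREL hp1 hC0 hY hw hn hdw hwh haL hav hva hvn
        ((hVAN d L (3 * h) a a v 1 Y g).1)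
      have hNU : 0 ≤ NU p (((∑ j, v j - n : ℕ) : ℤ) - i0) := by
        unfold NU
        split_ifs <;> positivity
      have h2 := num (ρ := ρ) hp1 hp2 (∑ j, v j - n) i0
      rw [hxj] at h2
      calc nrm p (T *ᵥ (Et L v *ᵥ g)) ≤ C0 * NU p (((∑ j, v j - n : ℕ) : ℤ) - i0) *
            nrm p (Et L v *ᵥ g) := h1
        _ ≤ C0 * NU p (((∑ j, v j - n : ℕ) : ℤ) - i0) *
            (β * (2 : ℝ) ^ (-(ρ * ((∑ j, v j - n : ℕ) : ℝ)))) :=
            mul_le_mul_of_nonneg_left hg' (mul_nonneg hC0.le hNU)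
        _ = C0 * β * (NU p (((∑ j, v j - n : ℕ) : ℤ) - i0) *
            (2 : ℝ) ^ (-(ρ * ((∑ j, v j - n : ℕ) : ℝ)))) := by ring
        _ ≤ C0 * β * ((2 : ℝ) ^ (-((i0 : ℝ) / 2)) * x ^ (∑ j, v j - n)) :=
            mul_le_mul_of_nonneg_left h2 (mul_nonneg hC0.le hβ)
        _ ≤ (C0 + 1) * β * ((2 : ℝ) ^ (-((i0 : ℝ) / 2)) * x ^ (∑ j, v j - n)) := by
            refine mul_le_mul_of_nonneg_right ?_ (by positivity)
            nlinarith
        _ = K * x ^ (∑ j, v j - n) := by rw [hK]; ring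
    · push Not at hva
      have h1 := far (w := w) (M := 2 ^ (h + i0)) (b := fun j => a j + w - 1) (Y := Y)
        hVAN hCON hp1 haL hva g
      have hij : i0 ≤ ∑ j, v j - n := by
        obtain ⟨j₀, hj₀⟩ := hva
        have h2 : ∑ j, a j + 3 * h < ∑ j, v j := by
          have h3 : ∑ j, (if j = j₀ then a j + 3 * h + 1 else a j) ≤ ∑ j, v j :=
            Finset.sum_le_sum fun j _ => by
              split_ifs with h4
              · subst h4
                omega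
              · exact hav j
          have h5 : ∑ j, (if j = j₀ then a j + 3 * h + 1 else a j) =
              ∑ j, (a j + if j = j₀ then 3 * h + 1 else 0) :=
            Finset.sum_congr rfl fun j _ => by split_ifs <;> omega
          rw [h5, Finset.sum_add_distrib, Finset.sum_ite_eq' Finset.univ j₀,
            if_pos (Finset.mem_univ _)] at h3
          omega
        omega
      have h2 := num2 (ρ := ρ) hp1 hp2 (∑ j, v j - n) i0 hij
      rw [hxj] at h2
      calc nrm p (T *ᵥ (Et L v *ᵥ g)) ≤ nrm p (Et L v *ᵥ g) := h1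
        _ ≤ β * (2 : ℝ) ^ (-(ρ * ((∑ j, v j - n : ℕ) : ℝ))) := hg'
        _ ≤ β * ((2 : ℝ) ^ (-((i0 : ℝ) / 2)) * x ^ (∑ j, v j - n)) :=
            mul_le_mul_of_nonneg_left h2 hβ
        _ ≤ (C0 + 1) * β * ((2 : ℝ) ^ (-((i0 : ℝ) / 2)) * x ^ (∑ j, v j - n)) := by
            refine mul_le_mul_of_nonneg_right ?_ (by positivity)
            nlinarith
        _ = K * x ^ (∑ j, v j - n) := by rw [hK]; ring
  -- the decomposition
  have hdec := (hDEC d L).2.2.2.2.1 a (L + 1) le_rfl (fun j => by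
    have := haL j
    omega)
  rw [hdec, Matrix.sum_mulVec, Matrix.mulVec_sum]
  set P : Finset (Fin d → ℕ) := Fintype.piFinset (fun j => Ico (a j) (L + 1)) with hP
  have hPm : ∀ v ∈ P, (∀ j, a j ≤ v j) ∧ ∀ j, v j < L + 1 := by
    intro v hv
    rw [hP, Fintype.mem_piFinset] at hv
    exact ⟨fun j => (Finset.mem_Ico.1 (hv j)).1, fun j => (Finset.mem_Ico.1 (hv j)).2⟩
  refine (hnsum _ P _).trans ?_
  -- only the large levels
  have h1 : ∑ v ∈ P, nrm p (T *ᵥ (Et L v *ᵥ g)) ≤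
      ∑ v ∈ P.filter (fun v => n < ∑ j, v j), K * x ^ (∑ j, v j - n) := by
    rw [Finset.sum_filter]
    refine Finset.sum_le_sum fun v hv => ?_
    split_ifs with h2
    · exact hterm v (hPm v hv).1 h2
    · rw [(hg v).1 (by omega), Matrix.mulVec_zero]
      have h3 := hpow (0 : Gr d L → ℝ)
      have h4 : mom p (0 : Gr d L → ℝ) = 0 := by
        unfold mom
        have h5 : ∀ y : Gr d L, |(0 : Gr d L → ℝ) y| ^ p = 0 := by
          intro y
          rw [Pi.zero_apply, abs_zero, Real.zero_rpow (by linarith)]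
        rw [Finset.sum_congr rfl fun y _ => h5 y, Finset.sum_const_zero, zero_div]
      rw [h4] at h3
      exact le_of_eq ((Real.rpow_eq_zero (hnrm0 _) (by linarith)).1 h3)
  refine h1.trans ?_
  set J : ℕ := d * L + 1 with hJ
  have h2 : ∑ v ∈ P.filter (fun v => n < ∑ j, v j), K * x ^ (∑ j, v j - n) ≤
      ∑ j ∈ range J, K * (((h : ℝ) + j + 1) ^ (d - 1) * x ^ j) := by
    rw [← Finset.sum_fiberwise_of_maps_to (s := P.filter (fun v => n < ∑ j, v j)) (t := range J)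
      (g := fun v => ∑ j, v j - n)]
    · refine Finset.sum_le_sum fun j _ => ?_
      have h3 : ∑ v ∈ (P.filter (fun v => n < ∑ j, v j)).filter (fun v => ∑ j, v j - n = j),
          K * x ^ (∑ j, v j - n) =
          ((((P.filter (fun v => n < ∑ j, v j)).filter
            (fun v => ∑ j, v j - n = j)).card : ℕ) : ℝ) * (K * x ^ j) := by
        rw [← nsmul_eq_mul, ← Finset.sum_const]
        refine Finset.sum_congr rfl fun v hv => ?_
        rw [(Finset.mem_filter.1 hv).2]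
      rw [h3]
      have h4 : ((P.filter (fun v => n < ∑ j, v j)).filter
          (fun v => ∑ j, v j - n = j)).card ≤ (h + j + 1) ^ (d - 1) := by
        have h5 := hLAY d (L + 1) (n + j) a hd (by omega)
        have h6 : n + j - ∑ j, a j + 1 = h + j + 1 := by omega
        rw [h6] at h5
        refine (Finset.card_le_card ?_).trans h5
        intro v hv
        rw [Finset.mem_filter, Finset.mem_filter] at hv
        obtain ⟨⟨hv1, hv2⟩, hv3⟩ := hv
        rw [Finset.mem_filter]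
        refine ⟨?_, (hPm v hv1).1, by omega⟩
        unfold box
        rw [Fintype.mem_piFinset]
        exact fun j => Finset.mem_range.2 ((hPm v hv1).2 j)
      have h5 : ((((P.filter (fun v => n < ∑ j, v j)).filter
          (fun v => ∑ j, v j - n = j)).card : ℕ) : ℝ) ≤ ((h : ℝ) + j + 1) ^ (d - 1) := by
        exact_mod_cast h4
      calc _ ≤ ((h : ℝ) + j + 1) ^ (d - 1) * (K * x ^ j) :=
            mul_le_mul_of_nonneg_right h5 (by positivity)
        _ = _ := by ring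
    · intro v hv
      rw [Finset.mem_filter] at hv
      rw [Finset.mem_range]
      have h3 : ∑ j, v j ≤ ∑ j : Fin d, L := Finset.sum_le_sum fun j _ => by
        have := (hPm v hv.1).2 j
        omega
      rw [Finset.sum_const, Finset.card_univ, Fintype.card_fin, smul_eq_mul] at h3
      omega
  refine h2.trans ?_
  rw [← Finset.mul_sum]
  calc K * ∑ j ∈ range J, ((h : ℝ) + j + 1) ^ (d - 1) * x ^ j ≤ K * (C1 * (h : ℝ) ^ (d - 1)) :=
        mul_le_mul_of_nonneg_left (hser h J hh) hK0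
    _ = _ := by rw [hK]; ring

end Pool.Agent.MP_bc5265.R2
end

section
/-!
# Row 230, WSC (helper70): one scale of windows
-/
set_option linter.unusedSectionVars false

open MeasureTheory Finset Matrix
open scoped ENNReal

namespace Pool.Agent.MP_bc5265.R2

open Pool.Agent.MP_bc5265.S

theorem specWSC (hMTP : SpecMTP) (hNRM : SpecNRM) (hCON : SpecCON) (hDEC : SpecDEC) :
    SpecWSC := by
  intro d L i m p s N V hp1 hp2 hs hN hV
  have hp0 : 0 < p := by linarith
  obtain ⟨n1, n2, n3, -, -, -, -, -, -⟩ := hNRM (Gr d L) p hp1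
  obtain ⟨-, c2, -⟩ := hCON d L p hp1
  obtain ⟨-, -, -, -, -, d6, -⟩ := hDEC d L
  obtain ⟨Q, hQ⟩ : ∃ Q : (Fin d → ℕ) → MG d L,
      Q = fun κ => tens fun j => EM L (2 ^ i * κ j + 2 ^ i) - EM L (2 ^ i * κ j) := ⟨_, rfl⟩
  have hQ' : ∀ κ, (tens fun j => EM L (2 ^ i * κ j + 2 ^ i) - EM L (2 ^ i * κ j) : MG d L) = Q κ := by
    intro κ; rw [hQ]
  obtain ⟨U, hU⟩ : ∃ U : (Fin d → ℕ) → Gr d L → ℝ,
      U = fun κ => if κ ∈ s then Q κ *ᵥ V κ else 0 := ⟨_, rfl⟩
  have hidem : ∀ κ, Q κ * Q κ = Q κ := by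
    intro κ
    rw [hQ]
    exact (d6 (fun j => 2 ^ i * κ j) (2 ^ i)).2.2
  have hsum : ∑ κ ∈ box d m, U κ =
      ∑ κ ∈ s, (tens fun j => EM L (2 ^ i * κ j + 2 ^ i) - EM L (2 ^ i * κ j)) *ᵥ V κ := by
    rw [hU]
    rw [← Finset.sum_subset hs]
    · exact Finset.sum_congr rfl fun κ hκ => by rw [if_pos hκ, hQ']
    · intro κ _ hκ
      rw [if_neg hκ]
  have hmtp := hMTP d L m p (fun k => 2 ^ i * k) U hp1 hp2
    (fun a b hab => Nat.mul_le_mul_left _ hab) (by
      intro κ _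
      have e : (tens fun j => EM L (2 ^ i * (κ j + 1)) - EM L (2 ^ i * κ j) : MG d L) = Q κ := by
        rw [hQ]
        congr 1
      rw [e, hU]
      by_cases hκ : κ ∈ s
      · simp only [if_pos hκ]
        rw [Matrix.mulVec_mulVec, hidem]
      · simp only [if_neg hκ]
        exact Matrix.mulVec_zero _)
  rw [hsum] at hmtp
  have hUb : ∀ κ ∈ s, mom p (U κ) ≤ (2 ^ d * N) ^ p := by
    intro κ hκ
    have h1 : nrm p (U κ) ≤ 2 ^ d * N := by
      rw [hU]
      simp only [if_pos hκ]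
      rw [hQ]
      exact (c2 (fun j => 2 ^ i * κ j + 2 ^ i) (fun j => 2 ^ i * κ j) (V κ)).trans
        (mul_le_mul_of_nonneg_left (hV κ hκ) (by positivity))
    rw [← n3]
    exact Real.rpow_le_rpow (n2 _) h1 hp0.le
  have hbox : ∑ κ ∈ box d m, mom p (U κ) = ∑ κ ∈ s, mom p (U κ) := by
    rw [← Finset.sum_subset hs]
    intro κ _ hκ
    rw [hU]
    simp only [if_neg hκ]
    unfold mom
    simp [Real.zero_rpow hp0.ne']
  have h2 : ∑ κ ∈ box d m, mom p (U κ) ≤ (s.card : ℝ) * (2 ^ d * N) ^ p := by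
    rw [hbox]
    calc ∑ κ ∈ s, mom p (U κ) ≤ ∑ _κ ∈ s, (2 ^ d * N) ^ p := Finset.sum_le_sum hUb
      _ = (s.card : ℝ) * (2 ^ d * N) ^ p := by rw [Finset.sum_const, nsmul_eq_mul]
  have h3 : mom p (∑ κ ∈ s, (tens fun j => EM L (2 ^ i * κ j + 2 ^ i) - EM L (2 ^ i * κ j)) *ᵥ V κ)
      ≤ 2 ^ d * ((s.card : ℝ) * (2 ^ d * N) ^ p) :=
    hmtp.trans (mul_le_mul_of_nonneg_left h2 (by positivity))
  have h4 : nrm p (∑ κ ∈ s, (tens fun j => EM L (2 ^ i * κ j + 2 ^ i) - EM L (2 ^ i * κ j)) *ᵥ V κ)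
      ≤ (2 ^ d * ((s.card : ℝ) * (2 ^ d * N) ^ p)) ^ (1 / p) := by
    unfold nrm
    exact Real.rpow_le_rpow (n1 _) h3 (by positivity)
  refine h4.trans ?_
  have hc0 : (0 : ℝ) ≤ s.card := Nat.cast_nonneg _
  have h2N : (0 : ℝ) ≤ 2 ^ d * N := by positivity
  rw [Real.mul_rpow (by positivity) (mul_nonneg hc0 (Real.rpow_nonneg h2N _)),
    Real.mul_rpow hc0 (Real.rpow_nonneg h2N _), ← Real.rpow_mul h2N, mul_one_div_cancel hp0.ne',
    Real.rpow_one]
  have h5 : ((2 : ℝ) ^ d) ^ (1 / p) ≤ 2 ^ d := by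
    have h6 : (1 : ℝ) ≤ 2 ^ d := one_le_pow₀ (by norm_num)
    calc ((2 : ℝ) ^ d) ^ (1 / p) ≤ ((2 : ℝ) ^ d) ^ (1 : ℝ) :=
          Real.rpow_le_rpow_of_exponent_le h6 (by rw [div_le_one hp0]; exact hp1)
      _ = 2 ^ d := Real.rpow_one _
  have h7 : (0 : ℝ) ≤ (s.card : ℝ) ^ (1 / p) * (2 ^ d * N) :=
    mul_nonneg (Real.rpow_nonneg hc0 _) h2N
  calc ((2 : ℝ) ^ d) ^ (1 / p) * ((s.card : ℝ) ^ (1 / p) * (2 ^ d * N))
      ≤ 2 ^ d * ((s.card : ℝ) ^ (1 / p) * (2 ^ d * N)) := mul_le_mul_of_nonneg_right h5 h7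
    _ = 4 ^ d * (s.card : ℝ) ^ (1 / p) * N := by
      have : (4 : ℝ) ^ d = 2 ^ d * 2 ^ d := by rw [← mul_pow]; norm_num
      rw [this]; ring

end Pool.Agent.MP_bc5265.R2
end

section
/-!
# FIQ: the theorem
-/
set_option linter.unusedSectionVars false

open MeasureTheory Finset Matrix
open scoped ENNReal

namespace Pool.Agent.MP_bc5265.RQ

open Pool.Agent.MP_bc5265.S Pool.Agent.MP_bc5265.R2

noncomputable section

theorem specFIQ (hUPQ : SpecUPQ) (hLow : S.SpecLow) : SpecFIQ := by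
  intro 𝕜 _ d l p q r hd hq hqp hqt hr hrq hrl
  have hr0 : 0 < r := lt_of_le_of_lt ENNReal.toReal_nonneg hr
  set Q : ℝ := q.toReal with hQ
  have hq2 : 2 < Q := by
    have := (ENNReal.toReal_lt_toReal (by norm_num) hqt).2 hq
    simpa [hQ] using this
  have hqQ : ENNReal.ofReal Q = q := ENNReal.ofReal_toReal hqt
  have hiq : (1 / q).toReal = 1 / Q := by
    rw [one_div, ENNReal.toReal_inv, one_div]
  rw [hiq] at hrq ⊢
  -- a finite exponent
  obtain ⟨p', hp2, hpr, hpp⟩ : ∃ p' : ℝ, Q ≤ p' ∧ 1 / p' < r ∧ ENNReal.ofReal p' ≤ p := by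
    by_cases hpt : p = ⊤
    · refine ⟨max Q (2 / r), le_max_left _ _, ?_, ?_⟩
      · have h1 : 2 / r ≤ max Q (2 / r) := le_max_right _ _
        have h2 : 0 < 2 / r := by positivity
        calc 1 / max Q (2 / r) ≤ 1 / (2 / r) := one_div_le_one_div_of_le h2 h1
          _ = r / 2 := by rw [one_div_div]
          _ < r := by linarith
      · rw [hpt]; exact le_top
    · refine ⟨p.toReal, ?_, ?_, ?_⟩
      · exact (ENNReal.toReal_le_toReal hqt hpt).2 hqp
      · rw [one_div, ENNReal.toReal_inv] at hr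
        rwa [one_div]
      · rw [ENNReal.ofReal_toReal hpt]
  obtain ⟨C, hC, hup⟩ := hUPQ 𝕜 d l Q p' r hd hq2 hp2 hpr hrq hrl
  obtain ⟨c, hc, hlow⟩ := hLow 𝕜 d l r (by omega) hr0 hrl
  refine ⟨c, C, hc, hC, fun m hm => ⟨?_, fun _ => ?_⟩⟩
  · have h1 := hup m hm
    rw [hqQ] at h1
    have h2 : rateQ d Q r m = (m : ℝ) ^ (-r) *
        Real.log m ^ (((d : ℝ) - 1) * max 1 (r + 1 - 1 / Q)) := by
      unfold rateQ
      congr 3
      rcases le_total r (1 / Q) with h | h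
      · rw [min_eq_left h, max_eq_left (by linarith)]
        ring
      · rw [min_eq_right h, max_eq_right (by linarith)]
    rw [← h2]
    exact (FinalM.samplingNumber_mono m (FinalM.HClass_mono l r hpp) le_rfl).trans h1
  · unfold samplingNumber
    refine le_iInf fun x => le_iInf fun ψ => ?_
    obtain ⟨f, hf, hfx, hf1⟩ := hlow m hm x
    have hfp : f ∈ HClass 𝕜 d l r p := FinalM.HClass_mono l r le_top hf
    refine le_trans ?_ (le_iSup₂ (f := fun f (_ : f ∈ HClass 𝕜 d l r p) =>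
      eLpNorm (fun y => f y - ∑ i, f (x i) * ψ i y) q (μT d)) f hfp)
    have h1 : (fun y => f y - ∑ i, f (x i) * ψ i y) = (f : Torus d → 𝕜) := by
      funext y
      simp [hfx]
    rw [h1]
    have h2 : (m : ℝ) ^ (-r) * Real.log m ^ ((d : ℝ) - 1) = rate d r m := by
      unfold rate
      have : ((d : ℝ) - 1) = ((d - 1 : ℕ) : ℝ) := by
        rw [Nat.cast_sub (by omega)]; simp
      rw [this, Real.rpow_natCast]
    rw [h2]
    have hq1 : (1 : ℝ≥0∞) ≤ q := le_trans (by norm_num) hq.le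
    exact hf1.trans (eLpNorm_le_eLpNorm_of_exponent_le hq1 f.continuous.aestronglyMeasurable)

end

end Pool.Agent.MP_bc5265.RQ
end

section
/-!
# Region `R_1`, `q > 2`, module UGQ: the upper bound on the grid
-/
set_option linter.unusedSectionVars false

open MeasureTheory Finset Matrix
open scoped ENNReal

namespace Pool.Agent.MP_bc5265.RQ

open Pool.Agent.MP_bc5265.S Pool.Agent.MP_bc5265.R2 Pool.Agent.MP_bc5265

namespace UGQM

/-- The choice of `ρ`. -/
lemma rho (q p r : ℝ) (hq : 2 < q) (hqp : q ≤ p) (hr : 1 / p < r) (hne : r ≠ 1 / q) :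
    ∃ ρ : ℝ, 1 / p < ρ ∧ ρ < 1 ∧ ρ ≤ r ∧ ρ ≠ 1 / q ∧ min ρ (1 / q) = min r (1 / q) := by
  have hq0 : 0 < q := by linarith
  have hp0 : 0 < p := by linarith
  have hiq1 : 1 / q < 1 := by
    rw [div_lt_one hq0]; linarith
  have hpq : 1 / p ≤ 1 / q := one_div_le_one_div_of_le hq0 hqp
  rcases lt_or_gt_of_ne hne with h | h
  · exact ⟨r, hr, h.trans hiq1, le_refl _, hne, rfl⟩
  · have hmin : 1 / q < min r 1 := lt_min h hiq1
    have h1 := min_le_left r 1
    have h2 := min_le_right r 1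
    refine ⟨(1 / q + min r 1) / 2, by linarith, by linarith, by linarith, ?_, ?_⟩
    · intro h3
      linarith
    · rw [min_eq_right (by linarith), min_eq_right h.le]

end UGQM

theorem specUGQ (hB : SpecBQ) (hCLA : R2.SpecCLA) (hSMB : R2.SpecSMB) : SpecUGQ := by
  intro d l q p r hd hq hqp hr hne
  have hq0 : 0 < q := by linarith
  have hp0 : 0 < p := by linarith
  obtain ⟨ρ, hρ1, hρ2, hρ3, hρ4, hρ5⟩ := UGQM.rho q p r hq hqp hr hne
  have hl : l ≤ 2 ^ l := Nat.lt_two_pow_self.le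
  obtain ⟨C1, hC1, h1⟩ := hCLA d l l p r ρ (by linarith) hρ1 hρ2 hρ3 hl
  obtain ⟨C2, hC2, h2⟩ := hSMB d l (by omega)
  obtain ⟨C3, hC3, h3⟩ := hB d q p ρ hd hq hqp hρ1 hρ2 hρ4
  rw [hρ5] at h3
  refine ⟨C2 + C3 + C3 * C1, by positivity, fun n hn => ?_⟩
  obtain ⟨D2, hD2, h2'⟩ := h2 n hn
  obtain ⟨D3, hD3, h3'⟩ := h3 n hn
  refine ⟨D2 + D3 + D3 * D2, max (4 * n) (n + l), by positivity, fun L hL => ?_⟩
  have hL1 : 4 * n ≤ L := le_trans (le_max_left _ _) hL
  have hL2 : n + l ≤ L := le_trans (le_max_right _ _) hL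
  obtain ⟨S2, hS2, hc2, hs2⟩ := h2' L hL2
  obtain ⟨W, S3, hS3, hc3, hs3, hW⟩ := h3' L hL1
  refine ⟨SB L l n + W - W * SB L l n, S2 ∪ S3, ?_, ?_, ?_, ?_⟩
  · have hcard : ((S2 ∪ S3).card : ℝ) ≤ S2.card + S3.card := by
      exact_mod_cast Finset.card_union_le S2 S3
    have hnn : (0 : ℝ) ≤ (n : ℝ) ^ (d - 1) * 2 ^ n := by positivity
    have hx : 0 ≤ C3 * C1 * ((n : ℝ) ^ (d - 1) * 2 ^ n) := by positivity
    nlinarith
  · intro x y hy
    rw [Finset.mem_union, not_or] at hy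
    have e2 : ∀ z, SB L l n z y = 0 := fun z => hc2 z y hy.1
    have e3 : ∀ z, W z y = 0 := fun z => hc3 z y hy.2
    rw [Matrix.sub_apply, Matrix.add_apply, e2, e3, Matrix.mul_apply]
    rw [Finset.sum_eq_zero (fun z _ => by rw [e2, mul_zero])]
    norm_num
  · intro g M hM x
    have a2 := hs2 g M hM
    have a3 := hs3 g M hM x
    have a4 := hs3 (SB L l n *ᵥ g) (D2 * M) a2 x
    have e : ((SB L l n + W - W * SB L l n) *ᵥ g) x =
        (SB L l n *ᵥ g) x + (W *ᵥ g) x - (W *ᵥ (SB L l n *ᵥ g)) x := by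
      rw [Matrix.sub_mulVec, Matrix.add_mulVec, Matrix.mulVec_mulVec]
      rfl
    rw [e]
    have b2 := a2 x
    calc |(SB L l n *ᵥ g) x + (W *ᵥ g) x - (W *ᵥ (SB L l n *ᵥ g)) x|
        ≤ |(SB L l n *ᵥ g) x + (W *ᵥ g) x| + |(W *ᵥ (SB L l n *ᵥ g)) x| := abs_sub _ _
      _ ≤ |(SB L l n *ᵥ g) x| + |(W *ᵥ g) x| + |(W *ᵥ (SB L l n *ᵥ g)) x| := by
          have := abs_add_le ((SB L l n *ᵥ g) x) ((W *ᵥ g) x)
          linarith
      _ ≤ D2 * M + D3 * M + D3 * (D2 * M) := by linarith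
      _ = (D2 + D3 + D3 * D2) * M := by ring
  · intro F hF
    have g1 := h1 n L F (by omega) hF
    have hb0 : 0 ≤ C1 * (2 : ℝ) ^ (-(r * n)) := by positivity
    have g2 := hW _ _ hb0 g1
    have e : F - (SB L l n + W - W * SB L l n) *ᵥ F =
        (F - SB L l n *ᵥ F) - W *ᵥ (F - SB L l n *ᵥ F) := by
      rw [Matrix.sub_mulVec, Matrix.add_mulVec, Matrix.mulVec_sub, Matrix.mulVec_mulVec]
      abel
    rw [e]
    refine g2.trans ?_
    have hnn : 0 ≤ (2 : ℝ) ^ (-(r * n)) *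
        (n : ℝ) ^ (((d : ℝ) - 1) * (1 - min r (1 / q))) := by positivity
    calc C3 * (C1 * (2 : ℝ) ^ (-(r * n))) * (n : ℝ) ^ (((d : ℝ) - 1) * (1 - min r (1 / q)))
        = C3 * C1 * ((2 : ℝ) ^ (-(r * n)) *
            (n : ℝ) ^ (((d : ℝ) - 1) * (1 - min r (1 / q)))) := by ring
      _ ≤ (C2 + C3 + C3 * C1) * ((2 : ℝ) ^ (-(r * n)) *
            (n : ℝ) ^ (((d : ℝ) - 1) * (1 - min r (1 / q)))) := by
          apply mul_le_mul_of_nonneg_right _ hnn
          linarith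

end Pool.Agent.MP_bc5265.RQ
end

section
/-!
# UPQ: the upper bound for finite `p`
-/
set_option linter.unusedSectionVars false

open MeasureTheory Finset Matrix
open scoped ENNReal

namespace Pool.Agent.MP_bc5265.RQ

open Pool.Agent.MP_bc5265.S Pool.Agent.MP_bc5265.R2

noncomputable section

theorem specUPQ (hUTQ : SpecUTQ) (hRAT : R2.SpecRAT) : SpecUPQ := by
  intro 𝕜 _ d l q p r hd hq hqp hr hrq hrl
  have hq0 : 0 < q := by linarith
  have hp0 : 0 < p := by linarith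
  have hr0 : 0 < r := lt_trans (by positivity) hr
  set s : ℝ := min r (1 / q) with hs
  have hs0 : 0 < s := by rw [hs]; exact lt_min hr0 (by positivity)
  have hs2 : s < 1 / 2 := by
    rw [hs]
    exact (min_le_right _ _).trans_lt (one_div_lt_one_div_of_lt (by norm_num) hq)
  have hs1 : 0 < 1 - s := by linarith
  have hP : (1 : ℝ) < 1 / (1 - s) := by
    rw [lt_div_iff₀ hs1]; linarith
  obtain ⟨C, hC, hU⟩ := hUTQ 𝕜 d l q p r hd hq hqp hr hrq hrl
  obtain ⟨m0, C', hm0, hC', hR1, hR2⟩ := hRAT d (1 / (1 - s)) r C hd hP hr0 hC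
  have hrt : ∀ m : ℕ, rate2 d (1 / (1 - s)) r m = rateQ d q r m := by
    intro m
    unfold rate2 rateQ
    rw [one_div_one_div]
    congr 2
    ring
  have hex : ((d : ℝ) - 1) / (1 / (1 - s)) = ((d : ℝ) - 1) * (1 - s) := by
    rw [div_div_eq_mul_div, div_one]
  refine ⟨C * C' + C', by positivity, fun m hm => ?_⟩
  have hrate : 0 ≤ rateQ d q r m := by
    unfold rateQ
    have h1 : 0 ≤ Real.log m := Real.log_natCast_nonneg m
    have := Real.rpow_nonneg h1 (((d : ℝ) - 1) * (r + 1 - min r (1 / q)))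
    positivity
  rcases le_or_gt m0 m with h | h
  · obtain ⟨n, hn1, hn2, hn3⟩ := hR1 m h
    rw [hrt, hex] at hn3
    obtain ⟨x, ψ, hf⟩ := hU n m hn1 hn2
    unfold samplingNumber
    refine (iInf_le _ x).trans ((iInf_le _ ψ).trans ?_)
    refine iSup₂_le fun f hfm => (hf f hfm).trans ?_
    refine ENNReal.ofReal_le_ofReal ?_
    calc C * ((2 : ℝ) ^ (-(r * n)) * (n : ℝ) ^ (((d : ℝ) - 1) * (1 - min r (1 / q))))
        ≤ C * (C' * rateQ d q r m) := by
          rw [← hs]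
          gcongr
      _ ≤ (C * C' + C') * rateQ d q r m := by
          have : 0 ≤ C' * rateQ d q r m := by positivity
          nlinarith
  · have h1 := hR2 m hm h
    rw [hrt] at h1
    unfold samplingNumber
    refine (iInf_le _ (fun _ => 0)).trans ((iInf_le _ (fun _ => 0)).trans ?_)
    refine iSup₂_le fun f hfm => ?_
    have e1 : (fun y => f y - ∑ i : Fin m, f ((fun _ => (0 : Torus d)) i) *
        ((fun _ => (0 : C(Torus d, 𝕜))) i) y) = (f : Torus d → 𝕜) := by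
      funext y
      simp
    rw [e1]
    have e2 : eLpNorm (f : Torus d → 𝕜) (ENNReal.ofReal q) (μT d) ≤
        eLpNorm (f : Torus d → 𝕜) (ENNReal.ofReal p) (μT d) :=
      eLpNorm_le_eLpNorm_of_exponent_le (ENNReal.ofReal_le_ofReal hqp)
        f.continuous.aestronglyMeasurable
    refine (e2.trans hfm.1).trans ?_
    have h2 : (1 : ℝ) ≤ (C * C' + C') * rateQ d q r m := by
      have : 0 ≤ C * C' * rateQ d q r m := by positivity
      nlinarith
    calc (1 : ℝ≥0∞) = ENNReal.ofReal 1 := ENNReal.ofReal_one.symm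
      _ ≤ _ := ENNReal.ofReal_le_ofReal h2

end

end Pool.Agent.MP_bc5265.RQ
end

section
/-!
# Region `R_1`, `q > 2`: module WN2 (noise of one window)
-/
set_option linter.unusedSectionVars false

open MeasureTheory Finset Matrix
open scoped ENNReal

namespace Pool.Agent.MP_bc5265.RQ

open Pool.Agent.MP_bc5265.S Pool.Agent.MP_bc5265.R2 Pool.Agent.MP_bc5265

namespace WN2M

/-- the levels covered by the window -/
theorem near (hNRM : SpecNRM) (hREL : SpecREL) {d : ℕ} {q p P C0 α : ℝ} (hP : P = q ∨ P = p)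
    (hP1 : 1 < P) (hC0 : 0 < C0) {h i0 : ℕ} {Y : Finset (Gr d (3 * h))}
    (hY : RWP2 d q p α C0 h i0 Y)
    {n L w : ℕ} {a : Fin d → ℕ} (hw : 1 ≤ w) (hn : ∑ j, a j + h = n) (hdw : (d : ℝ) * w ≤ α * h)
    (hwh : w ≤ h) (haL : ∀ j, a j + 3 * h ≤ L) {v : Fin d → ℕ} (hav : ∀ j, a j ≤ v j)
    (hva : ∀ j, v j ≤ a j + 3 * h) (hvn : n < ∑ j, v j) {ψ : Gr d L → ℝ} (hψ : CellC v ψ) :
    nrm P (((tens fun j => EM L (a j + w)) -
        WM L a (fun j => a j + w - 1) (2 ^ (h + i0)) Y) *ᵥ ψ) ≤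
      C0 * (2 : ℝ) ^ ((((∑ j, v j - n : ℕ) : ℝ) - i0) / P) * nrm P ψ := by
  have hNe : Nonempty (Gr d L) := ⟨fun _ => ⟨0, by positivity⟩⟩
  have hNe' : Nonempty (Gr d (3 * h)) := ⟨fun _ => ⟨0, by positivity⟩⟩
  have hp0 : 0 < P := by linarith
  obtain ⟨hmom0, hnrm0, hpow, -, -, -, -, -, -⟩ := hNRM (Gr d L) P hP1.le
  obtain ⟨hmom0', hnrm0', hpow', -, -, -, -, -, -⟩ := hNRM (Gr d (3 * h)) P hP1.le
  set b : Fin d → ℕ := fun j => a j + w - 1 with hb
  obtain ⟨r1, r2, r3, r4, r5, r6⟩ := hREL d L (3 * h) a b v (2 ^ (h + i0)) P Y ψ haL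
    (fun j => by rw [hb]; show a j ≤ a j + w - 1; omega)
    (fun j => by rw [hb]; show a j + w - 1 ≤ a j + 3 * h; omega) hav hva hψ
  have hbw : (fun j => EM L (b j + 1)) = fun j => EM L (a j + w) := by
    funext j
    congr 1
    show a j + w - 1 + 1 = a j + w
    omega
  rw [hbw] at r3 r6
  set T : MG d L := (tens fun j => EM L (a j + w)) - WM L a b (2 ^ (h + i0)) Y with hT
  have hTψ : T *ᵥ ψ = (tens fun j => EM L (a j + w)) *ᵥ ψ - WM L a b (2 ^ (h + i0)) Y *ᵥ ψ :=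
    Matrix.sub_mulVec _ _ _
  set K : ℝ := C0 * (2 : ℝ) ^ ((((∑ j, v j - n : ℕ) : ℝ) - i0) / P) with hK
  have hK0 : 0 ≤ K := by positivity
  have hsum : ∑ j, (v j - a j) = ∑ j, v j - ∑ j, a j :=
    Finset.sum_tsub_distrib _ fun j _ => hav j
  have hsumle : ∑ j, a j ≤ ∑ j, v j := Finset.sum_le_sum fun j _ => hav j
  -- one cell
  have hcell : ∀ x : Gr d L, mom P (fun y : Gr d (3 * h) => (T *ᵥ ψ) (pt a (3 * h) x y)) ≤
      K ^ P * mom P (fun y : Gr d (3 * h) => ψ (pt a (3 * h) x y)) := by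
    intro x
    have h1 := hY.2 (fun j => b j - a j) (fun j => v j - a j) (by
      have h2 : ∑ j, (b j - a j) = ∑ j : Fin d, (w - 1) :=
        Finset.sum_congr rfl fun j _ => by
          show a j + w - 1 - a j = w - 1
          omega
      rw [h2, Finset.sum_const, Finset.card_univ, Fintype.card_fin, smul_eq_mul]
      push_cast [Nat.cast_sub hw]
      have h3 : (0 : ℝ) ≤ d := Nat.cast_nonneg d
      nlinarith) (fun j => by
      have := hva j
      show v j - a j ≤ 3 * h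
      omega) (by
      show h < ∑ j, (v j - a j)
      rw [hsum]
      omega) (fun y' => ψ (pt a (3 * h) x y')) (r1 x) P hP
    have h4 : ((∑ j, (v j - a j) : ℕ) : ℝ) - ((h + i0 : ℕ) : ℝ) =
        ((∑ j, v j - n : ℕ) : ℝ) - i0 := by
      have h5 : ∑ j, (v j - a j) = (∑ j, v j - n) + h := by
        rw [hsum]
        omega
      rw [h5]
      push_cast
      ring
    rw [h4] at h1
    have h5 : (fun y : Gr d (3 * h) => (T *ᵥ ψ) (pt a (3 * h) x y)) =
        fun y => avn (fun j => b j - a j) (fun y' => ψ (pt a (3 * h) x y')) y -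
          smn (fun j => b j - a j) (2 ^ (h + i0)) Y (fun y' => ψ (pt a (3 * h) x y')) y := by
      funext y
      rw [hTψ, Pi.sub_apply, r3 x y, r2 x y]
    rw [h5, ← hpow', ← hpow', ← Real.mul_rpow hK0 (hnrm0' _)]
    exact Real.rpow_le_rpow (hnrm0' _) h1 hp0.le
  have hTc : CellC (fun j => a j + 3 * h) (T *ᵥ ψ) := by
    intro x y hxy
    rw [hTψ, Pi.sub_apply, Pi.sub_apply, r6 x y hxy, r5 x y hxy]
  have h6 : mom P (T *ᵥ ψ) ≤ K ^ P * mom P ψ := by
    rw [r4 _ hTc, r4 ψ (WNOM.cell_mono hva hψ), ← mul_div_assoc, Finset.mul_sum]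
    exact div_le_div_of_nonneg_right (Finset.sum_le_sum fun x _ => hcell x) (Nat.cast_nonneg _)
  rw [← hpow, ← hpow, ← Real.mul_rpow hK0 (hnrm0 _)] at h6
  exact (Real.rpow_le_rpow_iff (hnrm0 _) (mul_nonneg hK0 (hnrm0 _)) hp0).1 h6

end WN2M

open WN2M in
theorem specWN2 (hSE2 : SpecSE2) (hEXQ : SpecEXQ) (hREL : SpecREL) (hVAN : SpecVAN)
    (hDEC : SpecDEC) (hCON : SpecCON) (hLAY : SpecLAY) (hNRM : SpecNRM) : SpecWN2 := by
  intro d q p ρ C0 hd hq2 hqp hρ hρq hC0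
  have hq1 : 1 < q := by linarith
  have hp1 : 1 < p := by linarith
  obtain ⟨x, hx0, hx1, hexq⟩ := hEXQ q p ρ hq2 hqp hρ hρq
  obtain ⟨C1, hC1, hser⟩ := hSE2 (d - 1) x hx0 hx1
  refine ⟨(C0 + 1) * C1, by positivity, ?_⟩
  intro α h i0 Y hα hh hi0 hY n L w a β g hw hn hdw hwh haL hβ hg
  have hNe : Nonempty (Gr d L) := ⟨fun _ => ⟨0, by positivity⟩⟩
  obtain ⟨-, hnrm0, hpow, -, -, hnsum, -, -, -⟩ := hNRM (Gr d L) q hq1.le
  obtain ⟨-, -, -, -, -, -, -, -, hmonp⟩ := hNRM (Gr d L) p hp1.le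
  have hmon : ∀ g : Gr d L → ℝ, nrm q g ≤ nrm p g := fun g => hmonp q g hq1.le hqp
  set T : MG d L := (tens fun j => EM L (a j + w)) -
    WM L a (fun j => a j + w - 1) (2 ^ (h + i0)) Y with hT
  set K : ℝ := (C0 + 1) * β * (2 : ℝ) ^ (-(min ρ (1 / q) * i0)) with hK
  have h2i : (0 : ℝ) < (2 : ℝ) ^ (-(min ρ (1 / q) * i0)) := Real.rpow_pos_of_pos (by norm_num) _
  have hK0 : 0 ≤ K := by positivity
  -- the weights
  set f : ℕ → ℝ := fun j => x ^ j + x ^ ((j - i0) + (i0 - j)) with hf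
  have hf0 : ∀ j, 0 ≤ f j := fun j => by rw [hf]; positivity
  -- one term
  have hterm : ∀ v : Fin d → ℕ, (∀ j, a j ≤ v j) → n < ∑ j, v j →
      nrm q (T *ᵥ (Et L v *ᵥ g)) ≤ K * f (∑ j, v j - n) := by
    intro v hav hvn
    have hg' := (hg v).2 hvn
    have hcast : ((∑ j, v j : ℕ) : ℝ) - (n : ℝ) = ((∑ j, v j - n : ℕ) : ℝ) := by
      rw [Nat.cast_sub hvn.le]
    rw [hcast] at hg'
    have hfin : ∀ E : ℝ, E ≤ (2 : ℝ) ^ (-(min ρ (1 / q) * i0)) * f (∑ j, v j - n) →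
        C0 * β * E ≤ K * f (∑ j, v j - n) ∧ (0 ≤ E → β * E ≤ K * f (∑ j, v j - n)) := by
      intro E hE
      have h0 : 0 ≤ (2 : ℝ) ^ (-(min ρ (1 / q) * i0)) * f (∑ j, v j - n) :=
        mul_nonneg h2i.le (hf0 _)
      have e1 : K * f (∑ j, v j - n) = C0 * β * ((2 : ℝ) ^ (-(min ρ (1 / q) * i0)) *
          f (∑ j, v j - n)) + β * ((2 : ℝ) ^ (-(min ρ (1 / q) * i0)) * f (∑ j, v j - n)) := by
        rw [hK]; ring
      have h1 : C0 * β * E ≤ C0 * β * ((2 : ℝ) ^ (-(min ρ (1 / q) * i0)) *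
          f (∑ j, v j - n)) := mul_le_mul_of_nonneg_left hE (mul_nonneg hC0.le hβ)
      have h2 : β * E ≤ β * ((2 : ℝ) ^ (-(min ρ (1 / q) * i0)) * f (∑ j, v j - n)) :=
        mul_le_mul_of_nonneg_left hE hβ
      have h3 : 0 ≤ β * ((2 : ℝ) ^ (-(min ρ (1 / q) * i0)) * f (∑ j, v j - n)) :=
        mul_nonneg hβ h0
      have h4 : 0 ≤ C0 * β * ((2 : ℝ) ^ (-(min ρ (1 / q) * i0)) * f (∑ j, v j - n)) :=
        mul_nonneg (mul_nonneg hC0.le hβ) h0
      rw [e1]
      exact ⟨by linarith, fun _ => by linarith⟩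
    by_cases hva : ∀ j, v j ≤ a j + 3 * h
    · rcases le_total (∑ j, v j - n) i0 with hj | hj
      · have h1 := near hNRM hREL (Or.inl rfl) hq1 hC0 hY hw hn hdw hwh haL hav hva hvn
          ((hVAN d L (3 * h) a a v 1 Y g).1)
        have h2 := (hexq i0 (∑ j, v j - n)).1 hj
        calc nrm q (T *ᵥ (Et L v *ᵥ g)) ≤
              C0 * (2 : ℝ) ^ ((((∑ j, v j - n : ℕ) : ℝ) - i0) / q) * nrm q (Et L v *ᵥ g) := h1
          _ ≤ C0 * (2 : ℝ) ^ ((((∑ j, v j - n : ℕ) : ℝ) - i0) / q) *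
              (β * (2 : ℝ) ^ (-(ρ * ((∑ j, v j - n : ℕ) : ℝ)))) :=
              mul_le_mul_of_nonneg_left ((hmon _).trans hg') (by positivity)
          _ = C0 * β * ((2 : ℝ) ^ ((((∑ j, v j - n : ℕ) : ℝ) - i0) / q) *
              (2 : ℝ) ^ (-(ρ * ((∑ j, v j - n : ℕ) : ℝ)))) := by ring
          _ ≤ _ := (hfin _ h2).1
      · have h1 := near hNRM hREL (Or.inr rfl) hp1 hC0 hY hw hn hdw hwh haL hav hva hvn
          ((hVAN d L (3 * h) a a v 1 Y g).1)
        have h2 := (hexq i0 (∑ j, v j - n)).2 hj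
        calc nrm q (T *ᵥ (Et L v *ᵥ g)) ≤ nrm p (T *ᵥ (Et L v *ᵥ g)) := hmon _
          _ ≤ C0 * (2 : ℝ) ^ ((((∑ j, v j - n : ℕ) : ℝ) - i0) / p) * nrm p (Et L v *ᵥ g) := h1
          _ ≤ C0 * (2 : ℝ) ^ ((((∑ j, v j - n : ℕ) : ℝ) - i0) / p) *
              (β * (2 : ℝ) ^ (-(ρ * ((∑ j, v j - n : ℕ) : ℝ)))) :=
              mul_le_mul_of_nonneg_left hg' (by positivity)
          _ = C0 * β * ((2 : ℝ) ^ ((((∑ j, v j - n : ℕ) : ℝ) - i0) / p) *
              (2 : ℝ) ^ (-(ρ * ((∑ j, v j - n : ℕ) : ℝ)))) := by ring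
          _ ≤ _ := (hfin _ h2).1
    · push Not at hva
      have h1 := WNOM.far (w := w) (M := 2 ^ (h + i0)) (b := fun j => a j + w - 1) (Y := Y)
        hVAN hCON hq1 haL hva g
      have hij : i0 ≤ ∑ j, v j - n := by
        obtain ⟨j₀, hj₀⟩ := hva
        have h2 : ∑ j, a j + 3 * h < ∑ j, v j := by
          have h3 : ∑ j, (if j = j₀ then a j + 3 * h + 1 else a j) ≤ ∑ j, v j :=
            Finset.sum_le_sum fun j _ => by
              split_ifs with h4
              · subst h4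
                omega
              · exact hav j
          have h5 : ∑ j, (if j = j₀ then a j + 3 * h + 1 else a j) =
              ∑ j, (a j + if j = j₀ then 3 * h + 1 else 0) :=
            Finset.sum_congr rfl fun j _ => by split_ifs <;> omega
          rw [h5, Finset.sum_add_distrib, Finset.sum_ite_eq' Finset.univ j₀,
            if_pos (Finset.mem_univ _)] at h3
          omega
        omega
      have h2 := (hexq i0 (∑ j, v j - n)).2 hij
      have hij' : (i0 : ℝ) ≤ ((∑ j, v j - n : ℕ) : ℝ) := Nat.cast_le.2 hij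
      have h3 : (1 : ℝ) ≤ (2 : ℝ) ^ ((((∑ j, v j - n : ℕ) : ℝ) - i0) / p) :=
        Real.one_le_rpow (by norm_num) (div_nonneg (by linarith) (by linarith))
      have hy0 : 0 ≤ (2 : ℝ) ^ (-(ρ * ((∑ j, v j - n : ℕ) : ℝ))) := by positivity
      calc nrm q (T *ᵥ (Et L v *ᵥ g)) ≤ nrm q (Et L v *ᵥ g) := h1
        _ ≤ β * (2 : ℝ) ^ (-(ρ * ((∑ j, v j - n : ℕ) : ℝ))) := (hmon _).trans hg'
        _ ≤ β * ((2 : ℝ) ^ ((((∑ j, v j - n : ℕ) : ℝ) - i0) / p) *
            (2 : ℝ) ^ (-(ρ * ((∑ j, v j - n : ℕ) : ℝ)))) :=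
            mul_le_mul_of_nonneg_left (le_mul_of_one_le_left hy0 h3) hβ
        _ ≤ _ := (hfin _ h2).2 (by positivity)
  -- the decomposition
  have hdec := (hDEC d L).2.2.2.2.1 a (L + 1) le_rfl (fun j => by
    have := haL j
    omega)
  rw [hdec, Matrix.sum_mulVec, Matrix.mulVec_sum]
  set P : Finset (Fin d → ℕ) := Fintype.piFinset (fun j => Ico (a j) (L + 1)) with hP
  have hPm : ∀ v ∈ P, (∀ j, a j ≤ v j) ∧ ∀ j, v j < L + 1 := by
    intro v hv
    rw [hP, Fintype.mem_piFinset] at hv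
    exact ⟨fun j => (Finset.mem_Ico.1 (hv j)).1, fun j => (Finset.mem_Ico.1 (hv j)).2⟩
  refine (hnsum _ P _).trans ?_
  -- only the large levels
  have h1 : ∑ v ∈ P, nrm q (T *ᵥ (Et L v *ᵥ g)) ≤
      ∑ v ∈ P.filter (fun v => n < ∑ j, v j), K * f (∑ j, v j - n) := by
    rw [Finset.sum_filter]
    refine Finset.sum_le_sum fun v hv => ?_
    split_ifs with h2
    · exact hterm v (hPm v hv).1 h2
    · rw [(hg v).1 (by omega), Matrix.mulVec_zero]
      have h3 := hpow (0 : Gr d L → ℝ)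
      have h4 : mom q (0 : Gr d L → ℝ) = 0 := by
        unfold mom
        have h5 : ∀ y : Gr d L, |(0 : Gr d L → ℝ) y| ^ q = 0 := by
          intro y
          rw [Pi.zero_apply, abs_zero, Real.zero_rpow (by linarith)]
        rw [Finset.sum_congr rfl fun y _ => h5 y, Finset.sum_const_zero, zero_div]
      rw [h4] at h3
      exact le_of_eq ((Real.rpow_eq_zero (hnrm0 _) (by linarith)).1 h3)
  refine h1.trans ?_
  set J : ℕ := d * L + 1 with hJ
  have h2 : ∑ v ∈ P.filter (fun v => n < ∑ j, v j), K * f (∑ j, v j - n) ≤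
      ∑ j ∈ range J, K * (((h : ℝ) + j + 1) ^ (d - 1) * f j) := by
    rw [← Finset.sum_fiberwise_of_maps_to (s := P.filter (fun v => n < ∑ j, v j)) (t := range J)
      (g := fun v => ∑ j, v j - n)]
    · refine Finset.sum_le_sum fun j _ => ?_
      have h3 : ∑ v ∈ (P.filter (fun v => n < ∑ j, v j)).filter (fun v => ∑ j, v j - n = j),
          K * f (∑ j, v j - n) =
          ((((P.filter (fun v => n < ∑ j, v j)).filter
            (fun v => ∑ j, v j - n = j)).card : ℕ) : ℝ) * (K * f j) := by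
        rw [← nsmul_eq_mul, ← Finset.sum_const]
        refine Finset.sum_congr rfl fun v hv => ?_
        rw [(Finset.mem_filter.1 hv).2]
      rw [h3]
      have h4 : ((P.filter (fun v => n < ∑ j, v j)).filter
          (fun v => ∑ j, v j - n = j)).card ≤ (h + j + 1) ^ (d - 1) := by
        have h5 := hLAY d (L + 1) (n + j) a hd (by omega)
        have h6 : n + j - ∑ j, a j + 1 = h + j + 1 := by omega
        rw [h6] at h5
        refine (Finset.card_le_card ?_).trans h5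
        intro v hv
        rw [Finset.mem_filter, Finset.mem_filter] at hv
        obtain ⟨⟨hv1, hv2⟩, hv3⟩ := hv
        rw [Finset.mem_filter]
        refine ⟨?_, (hPm v hv1).1, by omega⟩
        unfold R2.box
        rw [Fintype.mem_piFinset]
        exact fun j => Finset.mem_range.2 ((hPm v hv1).2 j)
      have h5 : ((((P.filter (fun v => n < ∑ j, v j)).filter
          (fun v => ∑ j, v j - n = j)).card : ℕ) : ℝ) ≤ ((h : ℝ) + j + 1) ^ (d - 1) := by
        exact_mod_cast h4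
      calc _ ≤ ((h : ℝ) + j + 1) ^ (d - 1) * (K * f j) :=
            mul_le_mul_of_nonneg_right h5 (mul_nonneg hK0 (hf0 j))
        _ = _ := by ring
    · intro v hv
      rw [Finset.mem_filter] at hv
      rw [Finset.mem_range]
      have h3 : ∑ j, v j ≤ ∑ j : Fin d, L := Finset.sum_le_sum fun j _ => by
        have := (hPm v hv.1).2 j
        omega
      rw [Finset.sum_const, Finset.card_univ, Fintype.card_fin, smul_eq_mul] at h3
      omega
  refine h2.trans ?_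
  rw [← Finset.mul_sum]
  calc K * ∑ j ∈ range J, ((h : ℝ) + j + 1) ^ (d - 1) * f j ≤ K * (C1 * (h : ℝ) ^ (d - 1)) :=
        mul_le_mul_of_nonneg_left (hser h i0 J hh hi0) hK0
    _ = _ := by rw [hK]; ring

end Pool.Agent.MP_bc5265.RQ
end
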