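import Pool.Agent.Lib.MP_bc5265_an.RQ.Spec

section
/-!
# Region `R_1`, `q > 2`, module EXQ: exponents
-/
set_option linter.unusedSectionVars false

open MeasureTheory Finset Matrix
open scoped ENNReal

namespace Pool.Agent.MP_bc5265.RQ

open Pool.Agent.MP_bc5265.S Pool.Agent.MP_bc5265.R2 Pool.Agent.MP_bc5265

namespace EXQM

lemma pow_eq (c : ℝ) (k : ℕ) : ((2 : ℝ) ^ (-c)) ^ k = (2 : ℝ) ^ (-(c * k)) := by
  rw [← Real.rpow_natCast, ← Real.rpow_mul (by norm_num)]
  congr 1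
  ring

end EXQM

theorem specEXQ : SpecEXQ := by
  intro q p ρ hq hqp hρ hne
  have hq0 : 0 < q := by linarith
  have hp0 : 0 < p := by linarith
  have hpq : 1 / p ≤ 1 / q := one_div_le_one_div_of_le hq0 hqp
  have hip : 0 < 1 / p := by positivity
  have hiq : 0 < 1 / q := by positivity
  obtain ⟨c, hc⟩ : ∃ c : ℝ, c = min (ρ - 1 / p) |ρ - 1 / q| := ⟨_, rfl⟩
  have hc0 : 0 < c := by
    rw [hc]
    exact lt_min (by linarith) (abs_pos.mpr (sub_ne_zero.mpr hne))
  have hc1 : c ≤ ρ - 1 / p := by rw [hc]; exact min_le_left _ _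
  have hc2 : c ≤ |ρ - 1 / q| := by rw [hc]; exact min_le_right _ _
  have hx0 : (0 : ℝ) < 2 ^ (-c) := by positivity
  have hs1 : min ρ (1 / q) ≤ ρ := min_le_left _ _
  refine ⟨(2 : ℝ) ^ (-c), hx0, Real.rpow_lt_one_of_one_lt_of_neg (by norm_num) (by linarith),
    fun i0 j => ⟨fun hj => ?_, fun hj => ?_⟩⟩
  · have hj' : (j : ℝ) ≤ i0 := by exact_mod_cast hj
    have hj0 : (0 : ℝ) ≤ j := Nat.cast_nonneg j
    have e1 : (j - i0) + (i0 - j) = i0 - j := by omega
    rw [e1, EXQM.pow_eq, EXQM.pow_eq, Nat.cast_sub hj, ← Real.rpow_add (by norm_num)]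
    rcases lt_or_gt_of_ne hne with h | h
    · have hc3 : c ≤ 1 / q - ρ := by
        rw [abs_of_neg (by linarith)] at hc2; linarith
      calc (2 : ℝ) ^ (((j : ℝ) - i0) / q + -(ρ * j))
          ≤ (2 : ℝ) ^ (-(min ρ (1 / q) * i0) + -(c * ((i0 : ℝ) - j))) := by
            apply Real.rpow_le_rpow_of_exponent_le (by norm_num)
            rw [min_eq_left h.le]
            have : ((j : ℝ) - i0) / q = -((1 / q) * (i0 - j)) := by ring
            rw [this]
            nlinarith [mul_nonneg (sub_nonneg.mpr hc3) (sub_nonneg.mpr hj')]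
        _ = (2 : ℝ) ^ (-(min ρ (1 / q) * i0)) * (2 : ℝ) ^ (-(c * ((i0 : ℝ) - j))) := by
            rw [Real.rpow_add (by norm_num)]
        _ ≤ _ := by
            apply mul_le_mul_of_nonneg_left _ (by positivity)
            have : (0 : ℝ) < 2 ^ (-(c * j)) := by positivity
            linarith
    · have hc3 : c ≤ ρ - 1 / q := by
        rw [abs_of_pos (by linarith)] at hc2; linarith
      calc (2 : ℝ) ^ (((j : ℝ) - i0) / q + -(ρ * j))
          ≤ (2 : ℝ) ^ (-(min ρ (1 / q) * i0) + -(c * j)) := by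
            apply Real.rpow_le_rpow_of_exponent_le (by norm_num)
            rw [min_eq_right h.le]
            have : ((j : ℝ) - i0) / q = -((1 / q) * (i0 - j)) := by ring
            rw [this]
            nlinarith [mul_nonneg (sub_nonneg.mpr hc3) hj0]
        _ = (2 : ℝ) ^ (-(min ρ (1 / q) * i0)) * (2 : ℝ) ^ (-(c * j)) := by
            rw [Real.rpow_add (by norm_num)]
        _ ≤ _ := by
            apply mul_le_mul_of_nonneg_left _ (by positivity)
            have : (0 : ℝ) < 2 ^ (-(c * ((i0 : ℝ) - j))) := by positivity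
            linarith
  · have hj' : (i0 : ℝ) ≤ j := by exact_mod_cast hj
    have hj0 : (0 : ℝ) ≤ i0 := Nat.cast_nonneg i0
    have e1 : (j - i0) + (i0 - j) = j - i0 := by omega
    rw [e1, EXQM.pow_eq, EXQM.pow_eq, Nat.cast_sub hj, ← Real.rpow_add (by norm_num)]
    calc (2 : ℝ) ^ (((j : ℝ) - i0) / p + -(ρ * j))
        ≤ (2 : ℝ) ^ (-(min ρ (1 / q) * i0) + -(c * ((j : ℝ) - i0))) := by
          apply Real.rpow_le_rpow_of_exponent_le (by norm_num)
          have : ((j : ℝ) - i0) / p = (1 / p) * (j - i0) := by ring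
          rw [this]
          nlinarith [mul_nonneg (sub_nonneg.mpr hc1) (sub_nonneg.mpr hj'),
            mul_nonneg (sub_nonneg.mpr hs1) hj0]
      _ = (2 : ℝ) ^ (-(min ρ (1 / q) * i0)) * (2 : ℝ) ^ (-(c * ((j : ℝ) - i0))) := by
          rw [Real.rpow_add (by norm_num)]
      _ ≤ _ := by
          apply mul_le_mul_of_nonneg_left _ (by positivity)
          have : (0 : ℝ) < 2 ^ (-(c * j)) := by positivity
          linarith

end Pool.Agent.MP_bc5265.RQ
end

section
/-!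
# Row 275, FA2 (helper28): the levels which are not covered by windows, exponent two

Copy of `R2/FAR.lean` with martingale type `2`.
-/
set_option linter.unusedSectionVars false

open MeasureTheory Finset Matrix
open scoped ENNReal

namespace Pool.Agent.MP_bc5265.RQ

open Pool.Agent.MP_bc5265.S Pool.Agent.MP_bc5265.R2 Pool.Agent.MP_bc5265

namespace FA2M

/-- the numbers: bound of one block -/
theorem one_block (x K : ℝ) (hx0 : 0 < x) (hx1 : x < 1) (hK : 1 ≤ K) (C1 n S j : ℕ)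
    (hj : S + C1 = n + 1 + j) :
    (S ≤ n → K ≤ K / x ^ C1 * x ^ j) ∧ (n < S → x ^ (S - n) ≤ K / x ^ C1 * x ^ j) := by
  have hxC : 0 < x ^ C1 := pow_pos hx0 _
  constructor
  · intro hS
    have h1 : j ≤ C1 := by omega
    have h2 : x ^ C1 ≤ x ^ j := pow_le_pow_of_le_one hx0.le hx1.le h1
    rw [div_mul_eq_mul_div, le_div_iff₀ hxC]
    exact mul_le_mul_of_nonneg_left h2 (by linarith)
  · intro hS
    have h1 : j ≤ (S - n) + C1 := by omega
    have h2 : x ^ ((S - n) + C1) ≤ x ^ j := pow_le_pow_of_le_one hx0.le hx1.le h1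
    rw [div_mul_eq_mul_div, le_div_iff₀ hxC, ← pow_add]
    have h3 : 0 < x ^ j := pow_pos hx0 _
    calc x ^ (S - n + C1) ≤ x ^ j := h2
      _ ≤ K * x ^ j := by nlinarith

end FA2M

theorem specFA2 (hMT2 : SpecMT2) (hDTG : SpecDTG) (hLAY : SpecLAY) (hSER : SpecSER)
    (hNRM : SpecNRM) (hDEC : SpecDEC) : SpecFA2 := by
  intro d C1 q ρ hd hq2 hρ
  have hq0 : 0 < q := by linarith
  have hq1 : 1 ≤ q := by linarith
  obtain ⟨C0, hC0, hdtg⟩ := hDTG d q ρ hd hq1 hρ
  obtain ⟨C2, hC2, hmt2⟩ := hMT2 d q hq2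
  have hC20 : 0 < C2 := by linarith
  obtain ⟨x, hx⟩ : ∃ x : ℝ, x = (2 : ℝ) ^ (-(ρ * 2)) := ⟨_, rfl⟩
  have hx0 : 0 < x := by rw [hx]; positivity
  have hx1 : x < 1 := by
    rw [hx]
    apply Real.rpow_lt_one_of_one_lt_of_neg (by norm_num)
    linarith
  obtain ⟨C', hC', hser⟩ := hSER (d - 1) x hx0.le hx1
  obtain ⟨K, hK⟩ : ∃ K : ℝ, K = (((C1 : ℝ) + 1) ^ (d - 1)) ^ 2 := ⟨_, rfl⟩
  have hK1 : 1 ≤ K := by
    rw [hK]
    apply one_le_pow₀
    apply one_le_pow₀
    have : (0 : ℝ) ≤ C1 := Nat.cast_nonneg _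
    linarith
  have hK0 : 0 < K := by linarith
  obtain ⟨Q, hQ⟩ : ∃ Q : ℝ, Q = C2 * (K / x ^ C1 * (C' * 2 ^ (d - 1))) := ⟨_, rfl⟩
  have hQ0 : 0 < Q := by rw [hQ]; positivity
  refine ⟨C0 * Q ^ (1 / 2 : ℝ), by positivity, ?_⟩
  intro n L β g hn hβ hg
  obtain ⟨n1, n2, n3, -, -, -, -, n8, -⟩ := hNRM (Gr d L) q hq1
  obtain ⟨-, -, -, -, -, d6, -⟩ := hDEC d L
  obtain ⟨s, hs⟩ : ∃ s : Finset (Fin d → ℕ),
      s = (box d (L + 1)).filter (fun t => n < ∑ j, t j + C1) := ⟨_, rfl⟩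
  rw [← hs]
  have hsub : s ⊆ box d (L + 1) := by rw [hs]; exact Finset.filter_subset _ _
  obtain ⟨U, hU⟩ : ∃ U : (Fin d → ℕ) → Gr d L → ℝ,
      U = fun κ => if κ ∈ s then Dt L κ *ᵥ g else 0 := ⟨_, rfl⟩
  have hidem : ∀ κ : Fin d → ℕ, (Dt L κ * Dt L κ : MG d L) = Dt L κ := fun κ => (d6 κ 1).2.2
  have hsum : ∑ κ ∈ box d (L + 1), U κ = ∑ κ ∈ s, Dt L κ *ᵥ g := by
    rw [hU, ← Finset.sum_subset hsub]
    · exact Finset.sum_congr rfl fun κ hκ => by rw [if_pos hκ]
    · intro κ _ hκ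
      rw [if_neg hκ]
  have hmtp := hmt2 L (L + 1) (fun k => k) U (fun a b hab => hab) (by
      intro κ _
      have e : (tens fun j => EM L (κ j + 1) - EM L (κ j) : MG d L) = Dt L κ := rfl
      rw [e, hU]
      by_cases hκ : κ ∈ s
      · simp only [if_pos hκ]
        rw [Matrix.mulVec_mulVec, hidem]
      · simp only [if_neg hκ]
        exact Matrix.mulVec_zero _)
  rw [hsum] at hmtp
  have hnz : nrm q (0 : Gr d L → ℝ) = 0 := by
    apply le_antisymm _ (n2 _)
    exact n8 0 0 le_rfl (fun x => by simp)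
  have hbox : ∑ κ ∈ box d (L + 1), nrm q (U κ) ^ 2 = ∑ κ ∈ s, nrm q (Dt L κ *ᵥ g) ^ 2 := by
    rw [← Finset.sum_subset hsub]
    · exact Finset.sum_congr rfl fun κ hκ => by rw [hU]; simp only [if_pos hκ]
    · intro κ _ hκ
      rw [hU]
      simp only [if_neg hκ]
      rw [hnz]
      norm_num
  rw [hbox] at hmtp
  have hb0 : 0 ≤ C0 * β := mul_nonneg hC0.le hβ
  have hpow0 : 0 ≤ (C0 * β) ^ 2 := sq_nonneg _
  -- one block
  have hone : ∀ t ∈ s, ∀ j : ℕ, ∑ i, t i + C1 = n + 1 + j →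
      nrm q (Dt L t *ᵥ g) ^ 2 ≤ (C0 * β) ^ 2 * (K / x ^ C1 * x ^ j) := by
    intro t _ j hj
    obtain ⟨e1, e2⟩ := FA2M.one_block x K hx0 hx1 hK1 C1 n (∑ i, t i) j hj
    obtain ⟨g1, g2⟩ := hdtg n L β g t hβ hg
    by_cases hS : ∑ i, t i ≤ n
    · have h1 := g1 hS
      have h2 : ((n - ∑ i, t i : ℕ) + 1 : ℝ) ≤ (C1 : ℝ) + 1 := by
        have h3 : n - ∑ i, t i ≤ C1 := by omega
        have h4 : ((n - ∑ i, t i : ℕ) : ℝ) ≤ C1 := by exact_mod_cast h3
        linarith
      have h3 : ((n - ∑ i, t i : ℕ) + 1 : ℝ) ^ (d - 1) ≤ ((C1 : ℝ) + 1) ^ (d - 1) :=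
        pow_le_pow_left₀ (by positivity) h2 _
      have h4 : nrm q (Dt L t *ᵥ g) ≤ C0 * β * ((C1 : ℝ) + 1) ^ (d - 1) :=
        h1.trans (mul_le_mul_of_nonneg_left h3 hb0)
      calc nrm q (Dt L t *ᵥ g) ^ 2 ≤ (C0 * β * ((C1 : ℝ) + 1) ^ (d - 1)) ^ 2 :=
            pow_le_pow_left₀ (n2 _) h4 2
        _ = (C0 * β) ^ 2 * K := by rw [mul_pow, hK]
        _ ≤ (C0 * β) ^ 2 * (K / x ^ C1 * x ^ j) := mul_le_mul_of_nonneg_left (e1 hS) hpow0
    · have hS' : n < ∑ i, t i := not_le.1 hS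
      have h1 := g2 hS'
      have h2 : ((2 : ℝ) ^ (-(ρ * (((∑ i, t i : ℕ) : ℝ) - (n : ℝ))))) ^ 2 = x ^ (∑ i, t i - n) := by
        rw [hx, ← Real.rpow_natCast, ← Real.rpow_mul (by norm_num), ← Real.rpow_natCast,
          ← Real.rpow_mul (by norm_num)]
        congr 1
        rw [Nat.cast_sub hS'.le]
        push_cast
        ring
      calc nrm q (Dt L t *ᵥ g) ^ 2
          ≤ (C0 * β * (2 : ℝ) ^ (-(ρ * (((∑ i, t i : ℕ) : ℝ) - (n : ℝ))))) ^ 2 :=
            pow_le_pow_left₀ (n2 _) h1 2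
        _ = (C0 * β) ^ 2 * x ^ (∑ i, t i - n) := by
            rw [mul_pow, h2]
        _ ≤ (C0 * β) ^ 2 * (K / x ^ C1 * x ^ j) := mul_le_mul_of_nonneg_left (e2 hS') hpow0
  -- grouping
  obtain ⟨J, hJ⟩ : ∃ J : ℕ, J = d * (L + 1) + C1 + 1 := ⟨_, rfl⟩
  have hmap : ∀ t ∈ s, (∑ i, t i + C1 - n - 1) ∈ range J := by
    intro t ht
    have h1 := hsub ht
    have h2 : ∑ i, t i ≤ d * (L + 1) := by
      calc ∑ i, t i ≤ ∑ _i : Fin d, (L + 1) := Finset.sum_le_sum fun i _ => by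
            have h3 := Fintype.mem_piFinset.1 h1 i
            exact (Finset.mem_range.1 h3).le
        _ = d * (L + 1) := by simp
    rw [Finset.mem_range]
    omega
  have hcard : ∀ j ∈ range J, ((s.filter fun t => ∑ i, t i + C1 - n - 1 = j).card : ℝ) ≤
      (((n + 1 : ℕ) : ℝ) + j + 1) ^ (d - 1) := by
    intro j _
    have h1 := hLAY d (L + 1) (n + 1 + j - C1) 0 hd (by simp)
    have h2 : (s.filter fun t => ∑ i, t i + C1 - n - 1 = j) ⊆
        (box d (L + 1)).filter fun v => (∀ i, (0 : Fin d → ℕ) i ≤ v i) ∧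
          ∑ i, v i = n + 1 + j - C1 := by
      intro t ht
      rw [Finset.mem_filter] at ht ⊢
      obtain ⟨ht1, ht2⟩ := ht
      refine ⟨hsub ht1, fun i => Nat.zero_le _, ?_⟩
      rw [hs, Finset.mem_filter] at ht1
      omega
    have h3 : (s.filter fun t => ∑ i, t i + C1 - n - 1 = j).card ≤
        (n + 1 + j - C1 - ∑ i, (0 : Fin d → ℕ) i + 1) ^ (d - 1) :=
      (Finset.card_le_card h2).trans h1
    have h4 : (n + 1 + j - C1 - ∑ i, (0 : Fin d → ℕ) i + 1) ^ (d - 1) ≤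
        (n + 1 + j + 1) ^ (d - 1) := Nat.pow_le_pow_left (by omega) _
    have h5 : ((s.filter fun t => ∑ i, t i + C1 - n - 1 = j).card : ℝ) ≤
        (((n + 1 + j + 1) ^ (d - 1) : ℕ) : ℝ) := by exact_mod_cast h3.trans h4
    refine h5.trans (le_of_eq ?_)
    push_cast
    ring
  have hgrp : ∑ κ ∈ s, nrm q (Dt L κ *ᵥ g) ^ 2 ≤
      (C0 * β) ^ 2 * (K / x ^ C1 * (C' * ((n + 1 : ℕ) : ℝ) ^ (d - 1))) := by
    rw [← Finset.sum_fiberwise_of_maps_to hmap]
    calc ∑ j ∈ range J, ∑ t ∈ s.filter (fun t => ∑ i, t i + C1 - n - 1 = j),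
          nrm q (Dt L t *ᵥ g) ^ 2
        ≤ ∑ j ∈ range J, (C0 * β) ^ 2 * (K / x ^ C1) *
            ((((n + 1 : ℕ) : ℝ) + j + 1) ^ (d - 1) * x ^ j) := by
          apply Finset.sum_le_sum
          intro j hj
          calc ∑ t ∈ s.filter (fun t => ∑ i, t i + C1 - n - 1 = j), nrm q (Dt L t *ᵥ g) ^ 2
              ≤ ∑ _t ∈ s.filter (fun t => ∑ i, t i + C1 - n - 1 = j),
                (C0 * β) ^ 2 * (K / x ^ C1 * x ^ j) := by
                apply Finset.sum_le_sum
                intro t ht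
                rw [Finset.mem_filter] at ht
                obtain ⟨ht1, ht2⟩ := ht
                apply hone t ht1 j
                rw [hs, Finset.mem_filter] at ht1
                omega
            _ = ((s.filter fun t => ∑ i, t i + C1 - n - 1 = j).card : ℝ) *
                ((C0 * β) ^ 2 * (K / x ^ C1 * x ^ j)) := by
                rw [Finset.sum_const, nsmul_eq_mul]
            _ ≤ (((n + 1 : ℕ) : ℝ) + j + 1) ^ (d - 1) *
                ((C0 * β) ^ 2 * (K / x ^ C1 * x ^ j)) :=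
                mul_le_mul_of_nonneg_right (hcard j hj) (by positivity)
            _ = (C0 * β) ^ 2 * (K / x ^ C1) *
                ((((n + 1 : ℕ) : ℝ) + j + 1) ^ (d - 1) * x ^ j) := by ring
      _ = (C0 * β) ^ 2 * (K / x ^ C1) *
            ∑ j ∈ range J, (((n + 1 : ℕ) : ℝ) + j + 1) ^ (d - 1) * x ^ j :=
          (Finset.mul_sum _ _ _).symm
      _ ≤ (C0 * β) ^ 2 * (K / x ^ C1) * (C' * ((n + 1 : ℕ) : ℝ) ^ (d - 1)) :=
          mul_le_mul_of_nonneg_left (hser (n + 1) J (by omega)) (by positivity)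
      _ = (C0 * β) ^ 2 * (K / x ^ C1 * (C' * ((n + 1 : ℕ) : ℝ) ^ (d - 1))) := by ring
  have hn1 : ((n + 1 : ℕ) : ℝ) ^ (d - 1) ≤ 2 ^ (d - 1) * (n : ℝ) ^ (d - 1) := by
    rw [← mul_pow]
    apply pow_le_pow_left₀ (by positivity)
    have : (1 : ℝ) ≤ n := by exact_mod_cast hn
    push_cast
    linarith
  have hfin : nrm q (∑ κ ∈ s, Dt L κ *ᵥ g) ^ 2 ≤ (C0 * β) ^ 2 * (Q * (n : ℝ) ^ (d - 1)) := by
    calc nrm q (∑ κ ∈ s, Dt L κ *ᵥ g) ^ 2 ≤ C2 * ∑ κ ∈ s, nrm q (Dt L κ *ᵥ g) ^ 2 := hmtp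
      _ ≤ C2 * ((C0 * β) ^ 2 * (K / x ^ C1 * (C' * ((n + 1 : ℕ) : ℝ) ^ (d - 1)))) :=
          mul_le_mul_of_nonneg_left hgrp (by positivity)
      _ ≤ C2 * ((C0 * β) ^ 2 * (K / x ^ C1 * (C' * (2 ^ (d - 1) * (n : ℝ) ^ (d - 1))))) := by
          apply mul_le_mul_of_nonneg_left _ (by positivity)
          apply mul_le_mul_of_nonneg_left _ hpow0
          apply mul_le_mul_of_nonneg_left _ (by positivity)
          exact mul_le_mul_of_nonneg_left hn1 hC'.le
      _ = (C0 * β) ^ 2 * (Q * (n : ℝ) ^ (d - 1)) := by rw [hQ]; ring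
  have hnn : (0 : ℝ) ≤ (n : ℝ) ^ (d - 1) := by positivity
  have hR0 : 0 ≤ C0 * Q ^ (1 / 2 : ℝ) * β * (n : ℝ) ^ (((d : ℝ) - 1) / 2) := by positivity
  have hRsq : (C0 * Q ^ (1 / 2 : ℝ) * β * (n : ℝ) ^ (((d : ℝ) - 1) / 2)) ^ 2 =
      (C0 * β) ^ 2 * (Q * (n : ℝ) ^ (d - 1)) := by
    have e1 : (Q ^ (1 / 2 : ℝ)) ^ 2 = Q := by
      rw [← Real.rpow_natCast, ← Real.rpow_mul hQ0.le]
      norm_num
    have e2 : ((n : ℝ) ^ (((d : ℝ) - 1) / 2)) ^ 2 = (n : ℝ) ^ (d - 1) := by
      rw [← Real.rpow_natCast, ← Real.rpow_mul (Nat.cast_nonneg _), ← Real.rpow_natCast,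
        Nat.cast_sub hd]
      congr 1
      push_cast
      ring
    calc (C0 * Q ^ (1 / 2 : ℝ) * β * (n : ℝ) ^ (((d : ℝ) - 1) / 2)) ^ 2
        = (C0 * β) ^ 2 * ((Q ^ (1 / 2 : ℝ)) ^ 2 * ((n : ℝ) ^ (((d : ℝ) - 1) / 2)) ^ 2) := by ring
      _ = _ := by rw [e1, e2]
  apply le_of_sq_le_sq _ hR0
  rw [hRsq]
  exact hfin

end Pool.Agent.MP_bc5265.RQ
end

section
/-!
# Row 275, INT (helper28): interpolation between `L_2` and `L_∞` (dyadic version)

Pattern: `R2/MAR.lean`, first half.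
-/
set_option linter.unusedSectionVars false

open MeasureTheory Finset Matrix
open scoped ENNReal

namespace Pool.Agent.MP_bc5265.RQ

open Pool.Agent.MP_bc5265.S Pool.Agent.MP_bc5265.R2 Pool.Agent.MP_bc5265

noncomputable section

namespace INTM

/-- the geometric sum below `s` -/
theorem geo1 {a c s : ℝ} (ha : 0 < a) (hc : 0 < c) (hs : 0 < s) (M : ℕ) :
    ∑ n ∈ range M, (if c * 2 ^ n < s then (c * 2 ^ n) ^ a else 0) ≤
      s ^ a / (1 - (2 : ℝ) ^ (-a)) := by
  have h1 : (2 : ℝ) ^ (-a) < 1 := Real.rpow_lt_one_of_one_lt_of_neg one_lt_two (neg_lt_zero.2 ha)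
  have h2 : 0 < 1 - (2 : ℝ) ^ (-a) := by linarith
  rw [le_div_iff₀ h2, Finset.sum_mul]
  let φ : ℕ → ℝ := fun n => (min (c * 2 ^ n / 2) s) ^ a
  have h3 : ∀ n ∈ range M, (if c * 2 ^ n < s then (c * 2 ^ n) ^ a else 0) * (1 - (2 : ℝ) ^ (-a)) ≤
      φ (n + 1) - φ n := by
    intro n _
    have hp : 0 < c * 2 ^ n := by positivity
    have e : c * 2 ^ (n + 1) / 2 = c * 2 ^ n := by rw [pow_succ]; ring
    show _ ≤ (min (c * 2 ^ (n + 1) / 2) s) ^ a - (min (c * 2 ^ n / 2) s) ^ a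
    rw [e]
    split_ifs with h
    · rw [min_eq_left h.le, min_eq_left (by linarith), Real.div_rpow hp.le zero_le_two,
        Real.rpow_neg zero_le_two]
      apply le_of_eq
      ring
    · rw [zero_mul, sub_nonneg]
      refine Real.rpow_le_rpow (le_min (by positivity) hs.le) (min_le_min ?_ le_rfl) ha.le
      linarith
  refine (Finset.sum_le_sum h3).trans ?_
  rw [Finset.sum_range_sub]
  have h4 : φ M ≤ s ^ a := by
    refine Real.rpow_le_rpow (le_min (by positivity) hs.le) (min_le_right _ _) ha.le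
  have h5 : 0 ≤ φ 0 := Real.rpow_nonneg (le_min (by positivity) hs.le) _
  linarith

theorem exists_dyadic {c y : ℝ} (hc : c < y) : ∀ M : ℕ, y ≤ c * 2 ^ M →
    ∃ n < M, c * 2 ^ n < y ∧ y ≤ 2 * (c * 2 ^ n) := by
  intro M
  induction M with
  | zero => intro h; rw [pow_zero, mul_one] at h; exact absurd hc (not_lt.2 h)
  | succ M ih =>
    intro h
    rcases le_or_gt y (c * 2 ^ M) with h1 | h1
    · obtain ⟨n, hn, h2⟩ := ih h1
      exact ⟨n, hn.trans (Nat.lt_succ_self M), h2⟩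
    · exact ⟨M, Nat.lt_succ_self M, h1, by rw [pow_succ] at h; linarith⟩

theorem exists_range {X : Type} [Fintype X] (f : X → ℝ) : ∃ c : ℝ, 0 < c ∧ ∃ M : ℕ,
    ∀ x, f x ≠ 0 → c < |f x| ∧ |f x| ≤ c * 2 ^ M := by
  have h1 : ∀ᶠ c : ℝ in nhdsWithin 0 (Set.Ioi 0), ∀ x, f x ≠ 0 → c < |f x| := by
    rw [Filter.eventually_all]
    intro x
    by_cases h : f x = 0
    · exact Filter.Eventually.of_forall fun c hc => absurd h hc
    · have h2 : ∀ᶠ c : ℝ in nhdsWithin 0 (Set.Ioi 0), c < |f x| :=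
        (gt_mem_nhds (abs_pos.2 h)).filter_mono nhdsWithin_le_nhds
      exact h2.mono fun c hc _ => hc
  obtain ⟨c, h2, hc⟩ := (h1.and self_mem_nhdsWithin).exists
  have hc : 0 < c := hc
  refine ⟨c, hc, ?_⟩
  have h3 : ∀ᶠ M : ℕ in Filter.atTop, ∀ x, |f x| ≤ c * 2 ^ M := by
    rw [Filter.eventually_all]
    intro x
    have h4 : Filter.Tendsto (fun M : ℕ => c * (2 : ℝ) ^ M) Filter.atTop Filter.atTop :=
      (tendsto_pow_atTop_atTop_of_one_lt one_lt_two).const_mul_atTop hc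
    exact h4.eventually_ge_atTop _
  obtain ⟨M, hM⟩ := h3.exists
  exact ⟨M, fun x hx => ⟨h2 x hx, hM x⟩⟩

/-- Chebyshev for one point -/
theorem cheb {t y q : ℝ} (ht : 0 < t) (hq : 0 < q) :
    (if t < |y| then (1 : ℝ) else 0) ≤ t ^ (-q) * |y| ^ q := by
  split_ifs with h
  · have h1 : t ^ q ≤ |y| ^ q := Real.rpow_le_rpow ht.le h.le hq.le
    have h2 : t ^ (-q) * t ^ q = 1 := by
      rw [← Real.rpow_add ht, neg_add_cancel, Real.rpow_zero]
    rw [← h2]
    exact mul_le_mul_of_nonneg_left h1 (Real.rpow_nonneg ht.le _)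
  · positivity

/-- the sum over the levels at one point -/
theorem point {P a σ c y : ℝ} (ha : 0 < a) (hσ : 0 < σ) (hc : 0 < c)
    (hP : P = 2 + a) (M : ℕ) :
    ∑ n ∈ range M, (c * 2 ^ n) ^ P * ((c * 2 ^ n) ^ (-(2 : ℝ)) *
        |if σ * (c * 2 ^ n) < |y| then y else 0| ^ (2 : ℝ)) ≤
        1 / (1 - (2 : ℝ) ^ (-a)) * (σ ^ (2 - P) * |y| ^ P) := by
  have h1 : (2 : ℝ) ^ (-a) < 1 := Real.rpow_lt_one_of_one_lt_of_neg one_lt_two (neg_lt_zero.2 ha)
  have hPp : 0 < P := by linarith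
  rcases eq_or_ne y 0 with rfl | hy
  · refine le_of_eq ?_
    rw [abs_zero, Real.zero_rpow hPp.ne', mul_zero, mul_zero]
    refine Finset.sum_eq_zero fun n _ => ?_
    simp
  · have hy' : 0 < |y| := abs_pos.2 hy
    have hs : 0 < |y| / σ := div_pos hy' hσ
    have hiff : ∀ t : ℝ, σ * t < |y| ↔ t < |y| / σ := fun t => by
      rw [lt_div_iff₀ hσ, mul_comm]
    have h3 := geo1 ha hc hs M
    have h4 : ∀ n ∈ range M, (c * 2 ^ n) ^ P * ((c * 2 ^ n) ^ (-(2 : ℝ)) *
        |if σ * (c * 2 ^ n) < |y| then y else 0| ^ (2 : ℝ)) =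
        |y| ^ (2 : ℝ) * (if c * 2 ^ n < |y| / σ then (c * 2 ^ n) ^ a else 0) := by
      intro n _
      have hp : 0 < c * 2 ^ n := by positivity
      by_cases h : c * 2 ^ n < |y| / σ
      · rw [if_pos h, if_pos ((hiff _).2 h), ← mul_assoc, ← Real.rpow_add hp, hP, mul_comm]
        congr 2
        ring
      · rw [if_neg h, if_neg fun h' => h ((hiff _).1 h')]
        simp
    rw [Finset.sum_congr rfl h4, ← Finset.mul_sum]
    refine (mul_le_mul_of_nonneg_left h3 (by positivity)).trans (le_of_eq ?_)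
    rw [Real.div_rpow hy'.le hσ.le, hP, show (2 : ℝ) - (2 + a) = -a by ring,
      Real.rpow_add hy', Real.rpow_neg hσ.le]
    field_simp

end INTM

open INTM in
/-- **INT** -/
theorem specINT : SpecINT := by
  intro P hP
  have ha : 0 < P - 2 := by linarith
  have hPp : 0 < P := by linarith
  have h1 : (2 : ℝ) ^ (-(P - 2)) < 1 :=
    Real.rpow_lt_one_of_one_lt_of_neg one_lt_two (neg_lt_zero.2 ha)
  set K1 : ℝ := 1 / (1 - (2 : ℝ) ^ (-(P - 2))) with hK1
  have hK1p : 0 < K1 := one_div_pos.2 (by linarith)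
  set σ : ℝ := 1 / 3 with hσd
  have hσ : 0 < σ := by rw [hσd]; norm_num
  refine ⟨4 ^ P * (K1 * σ ^ (2 - P)), by positivity, ?_⟩
  intro X _ _ U T A hA hU hT hTA hTB u hu
  have hN : 0 < (Fintype.card X : ℝ) := by exact_mod_cast Fintype.card_pos
  obtain ⟨c, hc, M, hM⟩ := exists_range (T u)
  -- the pointwise dyadic bound
  have s1 : ∑ x, |T u x| ^ P ≤
      ∑ x, ∑ n ∈ range M, (2 * (c * 2 ^ n)) ^ P * (if c * 2 ^ n < |T u x| then (1 : ℝ) else 0) := by
    refine Finset.sum_le_sum fun x _ => ?_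
    by_cases hx : T u x = 0
    · rw [hx, abs_zero, Real.zero_rpow hPp.ne']
      refine Finset.sum_nonneg fun n _ => ?_
      split_ifs <;> positivity
    · obtain ⟨n, hn, h3, h4⟩ := exists_dyadic (hM x hx).1 M (hM x hx).2
      have h5 : |T u x| ^ P ≤ (2 * (c * 2 ^ n)) ^ P * (if c * 2 ^ n < |T u x| then (1 : ℝ) else 0) := by
        rw [if_pos h3, mul_one]
        exact Real.rpow_le_rpow (abs_nonneg _) h4 hPp.le
      refine h5.trans (Finset.single_le_sum (f := fun n => (2 * (c * 2 ^ n)) ^ P *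
        (if c * 2 ^ n < |T u x| then (1 : ℝ) else 0)) (fun n _ => ?_) (mem_range.2 hn))
      show 0 ≤ (2 * (c * 2 ^ n)) ^ P * (if c * 2 ^ n < |T u x| then (1 : ℝ) else 0)
      split_ifs <;> positivity
  rw [Finset.sum_comm] at s1
  -- one level
  have s2 : ∀ n ∈ range M, ∑ x, (2 * (c * 2 ^ n)) ^ P *
      (if c * 2 ^ n < |T u x| then (1 : ℝ) else 0) ≤
      4 ^ P * ∑ x, (A * ((c / 2 * 2 ^ n) ^ P * ((c / 2 * 2 ^ n) ^ (-(2 : ℝ)) *
        |if σ * (c / 2 * 2 ^ n) < |u x| then u x else 0| ^ (2 : ℝ)))) := by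
    intro n _
    set t : ℝ := c / 2 * 2 ^ n with ht
    have htp : 0 < t := by positivity
    have e1 : c * 2 ^ n = 2 * t := by rw [ht]; ring
    have e2 : (2 * (c * 2 ^ n) : ℝ) ^ P = 4 ^ P * t ^ P := by
      rw [← Real.mul_rpow (by norm_num) htp.le, e1]
      congr 1
      ring
    obtain ⟨hu1, hu2⟩ := hU u hu (σ * t)
    set u1 : X → ℝ := fun x => if σ * t < |u x| then u x else 0 with hu1d
    set u2 : X → ℝ := fun x => if σ * t < |u x| then 0 else u x with hu2d
    have hadd : T u = fun x => T u1 x + T u2 x := by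
      rw [← hT]
      congr 1
      funext x
      simp only [hu1d, hu2d]
      split_ifs <;> ring
    have hb2 : ∀ x, |T u2 x| ≤ t := by
      intro x
      have h := hTB u2 hu2 (σ * t) (fun x => by
        simp only [hu2d]
        split_ifs with h
        · rw [abs_zero]; positivity
        · exact not_lt.1 h) x
      have e3 : 3 * (σ * t) = t := by rw [hσd]; ring
      rwa [e3] at h
    have p1 : ∀ x, (if c * 2 ^ n < |T u x| then (1 : ℝ) else 0) ≤
        t ^ (-(2 : ℝ)) * |T u1 x| ^ (2 : ℝ) := by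
      intro x
      refine le_trans ?_ (cheb (y := T u1 x) htp zero_lt_two)
      rw [e1, hadd]
      by_cases h3 : t < |T u1 x|
      · rw [if_pos h3]
        split_ifs <;> norm_num
      · have h5 : ¬ 2 * t < |T u1 x + T u2 x| := by
          have h4 := hb2 x
          push Not at h3 ⊢
          exact (abs_add_le _ _).trans (by linarith)
        show (if 2 * t < |T u1 x + T u2 x| then (1 : ℝ) else 0) ≤ _
        rw [if_neg h5, if_neg h3]
    have m1 : ∑ x, |T u1 x| ^ (2 : ℝ) ≤ A * ∑ x, |u1 x| ^ (2 : ℝ) := by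
      have := hTA u1 hu1
      unfold mom at this
      rw [mul_div_assoc', div_le_div_iff_of_pos_right hN] at this
      simpa using this
    calc ∑ x, (2 * (c * 2 ^ n)) ^ P * (if c * 2 ^ n < |T u x| then (1 : ℝ) else 0)
        ≤ ∑ x, (4 ^ P * t ^ P) * (t ^ (-(2 : ℝ)) * |T u1 x| ^ (2 : ℝ)) := by
          refine Finset.sum_le_sum fun x _ => ?_
          rw [e2]
          exact mul_le_mul_of_nonneg_left (p1 x) (by positivity)
      _ = (4 ^ P * t ^ P) * (t ^ (-(2 : ℝ)) * ∑ x, |T u1 x| ^ (2 : ℝ)) := by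
          rw [← Finset.mul_sum, ← Finset.mul_sum]
      _ ≤ (4 ^ P * t ^ P) * (t ^ (-(2 : ℝ)) * (A * ∑ x, |u1 x| ^ (2 : ℝ))) := by
          refine mul_le_mul_of_nonneg_left ?_ (by positivity)
          exact mul_le_mul_of_nonneg_left m1 (by positivity)
      _ = _ := by
          rw [← Finset.mul_sum, ← Finset.mul_sum, ← Finset.mul_sum]
          ring
  have s3 : ∑ x, |T u x| ^ P ≤ 4 ^ P * ∑ x, (A * (K1 * (σ ^ (2 - P) * |u x| ^ P))) := by
    refine s1.trans ((Finset.sum_le_sum s2).trans ?_)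
    rw [← Finset.mul_sum, Finset.sum_comm]
    refine mul_le_mul_of_nonneg_left (Finset.sum_le_sum fun x _ => ?_) (by positivity)
    rw [← Finset.mul_sum]
    have q1 := point (P := P) (a := P - 2) (σ := σ) (c := c / 2)
      (y := u x) ha hσ (by positivity) (by ring) M
    exact mul_le_mul_of_nonneg_left q1 hA.le
  unfold mom
  rw [mul_div_assoc', div_le_div_iff_of_pos_right hN]
  refine s3.trans (le_of_eq ?_)
  rw [← Finset.mul_sum, ← Finset.mul_sum, ← Finset.mul_sum]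
  ring

end

end Pool.Agent.MP_bc5265.RQ
end

section
/-!
# Region `R_1`, `q > 2`, module PHS: scalar form of PHQ
-/
set_option linter.unusedSectionVars false

open MeasureTheory Finset Matrix
open scoped ENNReal

namespace Pool.Agent.MP_bc5265.RQ

open Pool.Agent.MP_bc5265.S Pool.Agent.MP_bc5265.R2 Pool.Agent.MP_bc5265

theorem specPHS (hPHQ : R2.SpecPHQ) : SpecPHS := by
  intro q hq
  obtain ⟨C, hC, h⟩ := hPHQ q hq.le
  refine ⟨C, hC, fun a b => ?_⟩
  have h1 := h |a| |b| (a * b) (abs_nonneg _) (abs_nonneg _) (by rw [abs_mul])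
  have e1 : |a| ^ 2 + 2 * (a * b) + |b| ^ 2 = |a + b| ^ 2 := by
    rw [sq_abs, sq_abs, sq_abs]; ring
  have e2 : (|a + b| ^ 2) ^ (q / 2) = |a + b| ^ q := by
    rw [← Real.rpow_natCast, ← Real.rpow_mul (abs_nonneg _)]
    congr 1
    push_cast
    ring
  have e3 : q * |a| ^ (q - 2) * (a * b) = q * (SignType.sign a * |a| ^ (q - 1)) * b := by
    rcases eq_or_ne a 0 with rfl | ha
    · simp
    · have h2 : |a| ^ (q - 1) = |a| ^ (q - 2) * |a| := by
        have h3 : q - 1 = q - 2 + 1 := by ring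
        rw [h3, Real.rpow_add (abs_pos.mpr ha), Real.rpow_one]
      have h4 : (SignType.sign a : ℝ) * |a| = a := sign_mul_abs a
      calc q * |a| ^ (q - 2) * (a * b)
          = q * |a| ^ (q - 2) * (((SignType.sign a : ℝ) * |a|) * b) := by rw [h4]
        _ = q * (SignType.sign a * (|a| ^ (q - 2) * |a|)) * b := by ring
        _ = q * (SignType.sign a * |a| ^ (q - 1)) * b := by rw [h2]
  rw [e1, e2, e3, sq_abs b] at h1
  exact h1

end Pool.Agent.MP_bc5265.RQ
end

section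
/-!
# Region `R_1`, `q > 2`, module SC2: sums over the scales
-/
set_option linter.unusedSectionVars false

open MeasureTheory Finset Matrix
open scoped ENNReal

namespace Pool.Agent.MP_bc5265.RQ

open Pool.Agent.MP_bc5265.S Pool.Agent.MP_bc5265.R2 Pool.Agent.MP_bc5265

noncomputable section

namespace SC2M

lemma geo (x : ℝ) (h0 : 0 ≤ x) (h1 : x < 1) (m : ℕ) : ∑ i ∈ range m, x ^ i ≤ (1 - x)⁻¹ := by
  rw [← tsum_geometric_of_lt_one h0 h1]
  exact (summable_geometric_of_lt_one h0 h1).sum_le_tsum (range m) fun i _ => by positivity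

lemma sum_top (I m : ℕ) (B x : ℝ) (hB : 0 ≤ B) (hx0 : 0 ≤ x) (hx1 : x < 1) (f : ℕ → ℝ)
    (h1 : ∀ i, I < i → f i = 0) (h2 : ∀ i ≤ I, f i ≤ B * x ^ (I - i)) :
    ∑ i ∈ range m, f i ≤ B * (1 - x)⁻¹ := by
  have e1 : ∀ i ∈ range m, f i ≤ if i ≤ I then B * x ^ (I - i) else 0 := by
    intro i _
    by_cases h : i ≤ I
    · rw [if_pos h]
      exact h2 i h
    · rw [if_neg h, h1 i (not_le.1 h)]
  refine (sum_le_sum e1).trans ?_
  rw [← sum_filter]
  have e2 : (range m).filter (· ≤ I) ⊆ range (I + 1) := by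
    intro i hi
    rw [mem_filter] at hi
    rw [mem_range]
    omega
  refine (sum_le_sum_of_subset_of_nonneg e2 (fun i _ _ => by positivity)).trans ?_
  rw [← mul_sum]
  apply mul_le_mul_of_nonneg_left _ hB
  have e3 : ∑ i ∈ range (I + 1), x ^ (I - i) = ∑ i ∈ range (I + 1), x ^ i := by
    have := Finset.sum_range_reflect (fun i => x ^ i) (I + 1)
    simpa using this
  rw [e3]
  exact geo x hx0 hx1 _

/-- the choice of the exponent -/
lemma choose_exp (X : ℝ) : ∃ k : ℕ, (2 : ℝ) ^ k ≤ max 1 X ∧ max 1 X < 2 * 2 ^ k := by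
  have h1 : (1 : ℝ) ≤ max 1 X := le_max_left _ _
  refine ⟨Nat.log 2 ⌊max 1 X⌋₊, ?_, ?_⟩
  · have h2 : ⌊max 1 X⌋₊ ≠ 0 := by
      have := Nat.floor_pos.2 h1
      omega
    have h3 : 2 ^ Nat.log 2 ⌊max 1 X⌋₊ ≤ ⌊max 1 X⌋₊ := Nat.pow_log_le_self 2 h2
    have h4 : ((⌊max 1 X⌋₊ : ℕ) : ℝ) ≤ max 1 X := Nat.floor_le (by positivity)
    refine le_trans ?_ h4
    exact_mod_cast h3
  · have h6 := Nat.lt_pow_succ_log_self (b := 2) (by norm_num) ⌊max 1 X⌋₊
    have h7 := Nat.lt_floor_add_one (max 1 X)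
    have h8 : ((⌊max 1 X⌋₊ : ℕ) : ℝ) + 1 ≤ 2 ^ (Nat.log 2 ⌊max 1 X⌋₊ + 1) := by
      exact_mod_cast h6
    rw [pow_succ] at h8
    linarith

end SC2M

open SC2M in
theorem specSC2 : SpecSC2 := by
  intro d C1 s hd hC1 hs0 hs1
  have hC1' : (1 : ℝ) ≤ (C1 : ℝ) := by exact_mod_cast hC1
  set D : ℝ := (d : ℝ) - 1 with hD
  have hd1 : ((d - 1 : ℕ) : ℝ) = D := by
    rw [Nat.cast_sub (by omega)]; simp [hD]
  have hD1 : 1 ≤ D := by
    rw [← hd1]
    exact_mod_cast (by omega : 1 ≤ d - 1)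
  have hD0 : 0 < D := by linarith
  have hhs : 0 < 1 / 2 - s := by linarith
  set δ : ℝ := D * (1 / 2 - s) / (2 * s) with hδ
  have hδ0 : 0 < δ := by positivity
  set e : ℝ := D * (1 / 2 - s) - s * δ with he
  have he' : e = D * (1 / 2 - s) / 2 := by
    rw [he, hδ]
    field_simp
    ring
  have he0 : 0 < e := by
    rw [he']
    positivity
  set xe : ℝ := (1 / 2 : ℝ) ^ e with hxe
  set xδ : ℝ := (1 / 2 : ℝ) ^ δ with hxδ
  set xD : ℝ := (1 / 2 : ℝ) ^ (d - 1) with hxD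
  have hxe1 : xe < 1 := Real.rpow_lt_one (by norm_num) (by norm_num) he0
  have hxδ1 : xδ < 1 := Real.rpow_lt_one (by norm_num) (by norm_num) hδ0
  have hxD1 : xD < 1 := pow_lt_one₀ (by norm_num) (by norm_num) (by omega)
  have hxe0 : 0 < xe := by positivity
  have hxδ0 : 0 < xδ := by positivity
  have hxD0 : 0 < xD := by positivity
  have hye : 0 < (1 - xe)⁻¹ := inv_pos.mpr (by linarith)
  have hyδ : 0 < (1 - xδ)⁻¹ := inv_pos.mpr (by linarith)
  have hyD : 0 < (1 - xD)⁻¹ := inv_pos.mpr (by linarith)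
  set K : ℝ := (C1 : ℝ) ^ (1 / 2 : ℝ) * ((2 * C1 : ℝ) ^ D * 2 ^ s) with hK
  have hK0 : 0 < K := by positivity
  refine ⟨K * (1 - xe)⁻¹ + C1 * (1 - xD)⁻¹ + C1 * (1 - xδ)⁻¹, by positivity, ?_⟩
  intro n hn
  have hn' : (0 : ℝ) < n := by exact_mod_cast hn
  have hn1 : (1 : ℝ) ≤ n := by exact_mod_cast hn
  choose i0 hi1 hi2 using fun i : ℕ => choose_exp (((2 : ℝ) ^ i) ^ D * ((2 : ℝ) ^ i / n) ^ δ)
  refine ⟨i0, ?_, ?_⟩
  · intro i hi
    have hi' : (2 : ℝ) ^ i ≤ n := by exact_mod_cast hi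
    have h1 : ((2 : ℝ) ^ i / n) ^ δ ≤ 1 := by
      apply Real.rpow_le_one (by positivity) _ hδ0.le
      rw [div_le_one hn']
      exact hi'
    have h2 : (1 : ℝ) ≤ ((2 : ℝ) ^ i) ^ D := Real.one_le_rpow (one_le_pow₀ (by norm_num)) hD0.le
    have h3 : max 1 (((2 : ℝ) ^ i) ^ D * ((2 : ℝ) ^ i / n) ^ δ) ≤ ((2 : ℝ) ^ i) ^ D := by
      apply max_le h2
      calc ((2 : ℝ) ^ i) ^ D * ((2 : ℝ) ^ i / n) ^ δ ≤ ((2 : ℝ) ^ i) ^ D * 1 :=
            mul_le_mul_of_nonneg_left h1 (by positivity)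
        _ = _ := mul_one _
    have h4 := (hi1 i).trans h3
    rw [← hd1, Real.rpow_natCast] at h4
    exact_mod_cast h4
  · intro m c hc hc0 hcb
    set I : ℕ := Nat.log 2 n with hI
    have hI1 : 2 ^ I ≤ n := Nat.pow_log_le_self 2 (by omega)
    have hI2 : n < 2 ^ (I + 1) := Nat.lt_pow_succ_log_self (by norm_num) n
    have hI1' : (2 : ℝ) ^ I ≤ n := by exact_mod_cast hI1
    have hzero : ∀ i, I < i → c i = 0 := by
      intro i hi
      apply hc0
      exact hI2.trans_le (Nat.pow_le_pow_right (by norm_num) hi)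
    have hy : ∀ i ≤ I, (2 : ℝ) ^ i / n ≤ (1 / 2) ^ (I - i) := by
      intro i hi
      rw [div_le_iff₀ hn']
      calc (2 : ℝ) ^ i = (1 / 2) ^ (I - i) * 2 ^ I := by
            have : (2 : ℝ) ^ I = 2 ^ (I - i) * 2 ^ i := by
              rw [← pow_add]
              congr 1
              omega
            rw [this, ← mul_assoc, ← mul_pow]
            norm_num
        _ ≤ (1 / 2) ^ (I - i) * n := mul_le_mul_of_nonneg_left hI1' (by positivity)
    have hyt : ∀ t : ℝ, 0 < t → ∀ i ≤ I, ((2 : ℝ) ^ i / n) ^ t ≤ ((1 / 2 : ℝ) ^ t) ^ (I - i) := by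
      intro t ht i hi
      refine (Real.rpow_le_rpow (by positivity) (hy i hi) ht.le).trans_eq ?_
      rw [← Real.rpow_natCast, ← Real.rpow_mul (by norm_num), ← Real.rpow_natCast,
        ← Real.rpow_mul (by norm_num), mul_comm]
    have hcb' : ∀ i, c i ≤ C1 * (n : ℝ) ^ (d - 1) * (((2 : ℝ) ^ i) ^ (d - 1))⁻¹ := by
      intro i
      rw [← div_eq_mul_inv, le_div_iff₀ (by positivity)]
      exact hcb i
    constructor
    · have hmain := sum_top I m (K * (n : ℝ) ^ (D * (1 - s))) xe (by positivity) hxe0.le hxe1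
        (fun i => c i ^ (1 / 2 : ℝ) * (((2 * C1 * 2 ^ i : ℕ) : ℝ) ^ (d - 1) *
          (2 : ℝ) ^ (-(s * i0 i))))
        (fun i hi => by
          show c i ^ (1 / 2 : ℝ) * _ = 0
          rw [hzero i hi, Real.zero_rpow (by norm_num), zero_mul])
        (fun i hi => by
          show c i ^ (1 / 2 : ℝ) * _ ≤ _
          set w : ℝ := (2 : ℝ) ^ i with hw
          have hw0 : 0 < w := by positivity
          set y : ℝ := w / n with hyy
          have hy0 : 0 < y := by positivity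
          have hwy : w = n * y := by rw [hyy]; field_simp
          have h1 : c i ^ (1 / 2 : ℝ) ≤ (C1 : ℝ) ^ (1 / 2 : ℝ) * (n : ℝ) ^ (D / 2) *
              w ^ (-(D / 2)) := by
            refine (Real.rpow_le_rpow (hc i) (hcb' i) (by norm_num)).trans_eq ?_
            rw [Real.mul_rpow (by positivity) (by positivity), Real.mul_rpow (by positivity)
              (by positivity), ← Real.rpow_natCast (n : ℝ), hd1, ← Real.rpow_natCast w, hd1,
              ← Real.rpow_neg hw0.le, ← Real.rpow_mul (by positivity),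
              ← Real.rpow_mul (by positivity)]
            congr 2
            · congr 1; ring
            · ring
          have h2 : ((2 * C1 * 2 ^ i : ℕ) : ℝ) ^ (d - 1) = (2 * C1 : ℝ) ^ D * w ^ D := by
            push_cast
            rw [mul_pow, ← Real.rpow_natCast, hd1, ← Real.rpow_natCast ((2 : ℝ) ^ i), hd1]
          have h3 : (2 : ℝ) ^ (-(s * i0 i)) ≤ 2 ^ s * (w ^ (-(s * D)) * y ^ (-(s * δ))) := by
            have hX : 0 < w ^ D * y ^ δ := by positivity
            have h4 : w ^ D * y ^ δ / 2 ≤ (2 : ℝ) ^ i0 i := by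
              have := hi2 i
              have h5 : w ^ D * y ^ δ ≤ max 1 (w ^ D * y ^ δ) := le_max_right _ _
              rw [← hw, ← hyy] at this
              linarith
            have h5 : (2 : ℝ) ^ (-(s * i0 i)) = ((2 : ℝ) ^ i0 i) ^ (-s) := by
              rw [← Real.rpow_natCast, ← Real.rpow_mul (by norm_num)]
              congr 1
              ring
            rw [h5]
            refine (Real.rpow_le_rpow_of_nonpos (by positivity) h4 (by linarith)).trans_eq ?_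
            rw [Real.div_rpow hX.le (by norm_num), Real.mul_rpow (by positivity) (by positivity),
              ← Real.rpow_mul hw0.le, ← Real.rpow_mul hy0.le, Real.rpow_neg (by norm_num : (0:ℝ) ≤ 2),
              div_inv_eq_mul, mul_comm]
            congr 3
            · ring
            · ring
          rw [h2]
          calc c i ^ (1 / 2 : ℝ) * ((2 * C1 : ℝ) ^ D * w ^ D * (2 : ℝ) ^ (-(s * i0 i)))
              ≤ ((C1 : ℝ) ^ (1 / 2 : ℝ) * (n : ℝ) ^ (D / 2) * w ^ (-(D / 2))) *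
                ((2 * C1 : ℝ) ^ D * w ^ D * (2 ^ s * (w ^ (-(s * D)) * y ^ (-(s * δ))))) := by
                apply mul_le_mul h1 _ (by positivity) (by positivity)
                exact mul_le_mul_of_nonneg_left h3 (by positivity)
            _ = K * (n : ℝ) ^ (D / 2) * (w ^ (-(D / 2)) * w ^ D * w ^ (-(s * D))) *
                  y ^ (-(s * δ)) := by rw [hK]; ring
            _ = K * (n : ℝ) ^ (D / 2) * ((n : ℝ) ^ (D * (1 / 2 - s)) * y ^ (D * (1 / 2 - s))) *
                  y ^ (-(s * δ)) := by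
                rw [← Real.rpow_add hw0, ← Real.rpow_add hw0, ← Real.mul_rpow hn'.le hy0.le,
                  ← hwy]
                congr 3
                ring
            _ = K * ((n : ℝ) ^ (D / 2) * (n : ℝ) ^ (D * (1 / 2 - s))) *
                  (y ^ (D * (1 / 2 - s)) * y ^ (-(s * δ))) := by ring
            _ = K * (n : ℝ) ^ (D * (1 - s)) * y ^ e := by
                rw [← Real.rpow_add hn', ← Real.rpow_add hy0]
                congr 2
                · congr 1; ring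
            _ ≤ K * (n : ℝ) ^ (D * (1 - s)) * xe ^ (I - i) :=
                mul_le_mul_of_nonneg_left (hyt e he0 i hi) (by positivity))
      refine hmain.trans ?_
      calc K * (n : ℝ) ^ (D * (1 - s)) * (1 - xe)⁻¹
          = K * (1 - xe)⁻¹ * (n : ℝ) ^ (D * (1 - s)) := by ring
        _ ≤ _ := by
          apply mul_le_mul_of_nonneg_right _ (by positivity)
          have h1 : 0 ≤ C1 * (1 - xD)⁻¹ := by positivity
          have h2 : 0 ≤ C1 * (1 - xδ)⁻¹ := by positivity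
          linarith
    · have hA := sum_top I m (C1 * (n : ℝ) ^ (d - 1)) xδ (by positivity) hxδ0.le hxδ1
        (fun i => if i ≤ I then C1 * (n : ℝ) ^ (d - 1) * xδ ^ (I - i) else 0)
        (fun i hi => by
          show (if i ≤ I then _ else _) = _
          rw [if_neg (not_le.2 hi)])
        (fun i hi => by
          show (if i ≤ I then _ else _) ≤ _
          rw [if_pos hi])
      have hB : ∑ i ∈ range m, C1 * (n : ℝ) ^ (d - 1) * xD ^ i ≤
          C1 * (n : ℝ) ^ (d - 1) * (1 - xD)⁻¹ := by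
        rw [← mul_sum]
        exact mul_le_mul_of_nonneg_left (geo xD hxD0.le hxD1 m) (by positivity)
      have key : ∀ i ∈ range m, c i * (2 : ℝ) ^ i0 i ≤
          C1 * (n : ℝ) ^ (d - 1) * xD ^ i +
            (if i ≤ I then C1 * (n : ℝ) ^ (d - 1) * xδ ^ (I - i) else 0) := by
        intro i _
        by_cases hi : i ≤ I
        · rw [if_pos hi]
          set w : ℝ := (2 : ℝ) ^ i with hw
          have hw0 : 0 < w := by positivity
          have h1 : (2 : ℝ) ^ i0 i ≤ 1 + w ^ (d - 1) * (w / n) ^ δ := by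
            have h2 := hi1 i
            rw [← hw, ← hd1, Real.rpow_natCast] at h2
            refine h2.trans (max_le ?_ ?_)
            · have : 0 ≤ w ^ (d - 1) * (w / n) ^ δ := by positivity
              linarith
            · linarith
          calc c i * (2 : ℝ) ^ i0 i
              ≤ (C1 * (n : ℝ) ^ (d - 1) * (w ^ (d - 1))⁻¹) * (1 + w ^ (d - 1) * (w / n) ^ δ) :=
                mul_le_mul (hcb' i) h1 (by positivity) (by positivity)
            _ = C1 * (n : ℝ) ^ (d - 1) * (w ^ (d - 1))⁻¹ +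
                C1 * (n : ℝ) ^ (d - 1) * (w / n) ^ δ := by
                field_simp
            _ ≤ _ := by
                apply add_le_add
                · apply le_of_eq
                  congr 1
                  rw [hxD, hw, ← pow_mul, ← pow_mul, ← inv_pow, mul_comm]
                  norm_num
                · exact mul_le_mul_of_nonneg_left (hyt δ hδ0 i hi) (by positivity)
        · rw [if_neg hi, hzero i (not_le.1 hi), zero_mul, add_zero]
          positivity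
      refine (sum_le_sum key).trans ?_
      rw [sum_add_distrib]
      calc _ ≤ C1 * (n : ℝ) ^ (d - 1) * (1 - xD)⁻¹ + C1 * (n : ℝ) ^ (d - 1) * (1 - xδ)⁻¹ :=
            add_le_add hB hA
        _ = (C1 * (1 - xD)⁻¹ + C1 * (1 - xδ)⁻¹) * (n : ℝ) ^ (d - 1) := by ring
        _ ≤ _ := by
          apply mul_le_mul_of_nonneg_right _ (by positivity)
          have : 0 ≤ K * (1 - xe)⁻¹ := by positivity
          linarith

end

end Pool.Agent.MP_bc5265.RQ
end

section
/-!
# Region `R_1`, `q > 2`, module SE2: a series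
-/
set_option linter.unusedSectionVars false

open MeasureTheory Finset Matrix
open scoped ENNReal

namespace Pool.Agent.MP_bc5265.RQ

open Pool.Agent.MP_bc5265.S Pool.Agent.MP_bc5265.R2 Pool.Agent.MP_bc5265

noncomputable section

theorem specSE2 (hSER : R2.SpecSER) : SpecSE2 := by
  intro e x hx0 hx1
  obtain ⟨C1, hC1, h1⟩ := hSER e x hx0.le hx1
  have hx1' : 0 < 1 - x := by linarith
  refine ⟨C1 + (3 ^ e / (1 - x) + C1 * 2 ^ e), by positivity, ?_⟩
  intro h i0 J hh hi0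
  have hh0 : (1 : ℝ) ≤ h := by exact_mod_cast hh
  have hhe : (0 : ℝ) ≤ (h : ℝ) ^ e := by positivity
  -- split the sum
  have e1 : ∑ j ∈ range J, ((h : ℝ) + j + 1) ^ e * (x ^ j + x ^ ((j - i0) + (i0 - j)))
      = ∑ j ∈ range J, ((h : ℝ) + j + 1) ^ e * x ^ j +
        ∑ j ∈ range J, ((h : ℝ) + j + 1) ^ e * x ^ ((j - i0) + (i0 - j)) := by
    rw [← Finset.sum_add_distrib]
    exact Finset.sum_congr rfl fun j _ => by ring
  rw [e1]
  have hs1 := h1 h J hh
  -- the second sum: extend to `range (i0 + J)`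
  have hs2 : ∑ j ∈ range J, ((h : ℝ) + j + 1) ^ e * x ^ ((j - i0) + (i0 - j))
      ≤ ∑ j ∈ range (i0 + J), ((h : ℝ) + j + 1) ^ e * x ^ ((j - i0) + (i0 - j)) := by
    apply Finset.sum_le_sum_of_subset_of_nonneg
    · intro j hj
      rw [Finset.mem_range] at hj ⊢
      omega
    · intro j _ _
      positivity
  rw [Finset.sum_range_add] at hs2
  -- `j < i0`
  have hs3 : ∑ j ∈ range i0, ((h : ℝ) + j + 1) ^ e * x ^ ((j - i0) + (i0 - j))
      ≤ 3 ^ e / (1 - x) * (h : ℝ) ^ e := by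
    calc ∑ j ∈ range i0, ((h : ℝ) + j + 1) ^ e * x ^ ((j - i0) + (i0 - j))
        ≤ ∑ j ∈ range i0, (3 * (h : ℝ)) ^ e * x ^ (i0 - j) := by
          apply Finset.sum_le_sum
          intro j hj
          rw [Finset.mem_range] at hj
          have hjh : (j : ℝ) + 1 ≤ h := by
            have : j + 1 ≤ h := by omega
            exact_mod_cast this
          have ej : (j - i0) + (i0 - j) = i0 - j := by omega
          rw [ej]
          apply mul_le_mul_of_nonneg_right _ (by positivity)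
          apply pow_le_pow_left₀ (by positivity)
          linarith
      _ = (3 * (h : ℝ)) ^ e * ∑ j ∈ range i0, x ^ (i0 - j) := by
          rw [Finset.mul_sum]
      _ ≤ (3 * (h : ℝ)) ^ e * (1 / (1 - x)) := by
          apply mul_le_mul_of_nonneg_left _ (by positivity)
          have e2 : ∑ j ∈ range i0, x ^ (i0 - j) = x * ∑ j ∈ range i0, x ^ j := by
            rw [← Finset.sum_range_reflect, Finset.mul_sum]
            apply Finset.sum_congr rfl
            intro j hj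
            rw [Finset.mem_range] at hj
            rw [← pow_succ']
            congr 1
            omega
          rw [e2]
          have e3 : ∑ j ∈ range i0, x ^ j ≤ 1 / (1 - x) := by
            rw [geom_sum_eq hx1.ne, le_div_iff₀ hx1']
            have : (x ^ i0 - 1) / (x - 1) * (1 - x) = 1 - x ^ i0 := by
              have : x - 1 ≠ 0 := by linarith
              field_simp
              ring
            rw [this]
            have : 0 ≤ x ^ i0 := by positivity
            linarith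
          have e4 : 0 ≤ ∑ j ∈ range i0, x ^ j := Finset.sum_nonneg fun j _ => by positivity
          nlinarith
      _ = _ := by
          rw [mul_pow]
          ring
  -- `j ≥ i0`
  have hs4 : ∑ j ∈ range J, ((h : ℝ) + ((i0 + j : ℕ) : ℝ) + 1) ^ e *
        x ^ ((i0 + j - i0) + (i0 - (i0 + j))) ≤ C1 * 2 ^ e * (h : ℝ) ^ e := by
    have h2 := h1 (2 * h) J (by omega)
    calc ∑ j ∈ range J, ((h : ℝ) + ((i0 + j : ℕ) : ℝ) + 1) ^ e *
          x ^ ((i0 + j - i0) + (i0 - (i0 + j)))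
        ≤ ∑ j ∈ range J, (((2 * h : ℕ) : ℝ) + j + 1) ^ e * x ^ j := by
          apply Finset.sum_le_sum
          intro j _
          have ej : (i0 + j - i0) + (i0 - (i0 + j)) = j := by omega
          rw [ej]
          apply mul_le_mul_of_nonneg_right _ (by positivity)
          apply pow_le_pow_left₀ (by positivity)
          have hih : (i0 : ℝ) ≤ h := by exact_mod_cast hi0
          push_cast
          linarith
      _ ≤ C1 * ((2 * h : ℕ) : ℝ) ^ e := h2
      _ = _ := by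
          push_cast
          rw [mul_pow]
          ring
  calc ∑ j ∈ range J, ((h : ℝ) + j + 1) ^ e * x ^ j +
        ∑ j ∈ range J, ((h : ℝ) + j + 1) ^ e * x ^ ((j - i0) + (i0 - j))
      ≤ C1 * (h : ℝ) ^ e + (3 ^ e / (1 - x) * (h : ℝ) ^ e + C1 * 2 ^ e * (h : ℝ) ^ e) :=
        add_le_add hs1 (hs2.trans (add_le_add hs3 hs4))
    _ = _ := by ring

end

end Pool.Agent.MP_bc5265.RQ
end

section
/-!
# Region `R_1`, `q > 2`: module TY2 (one step of martingale type `2`)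
-/
set_option linter.unusedSectionVars false

open MeasureTheory Finset Matrix
open scoped ENNReal

namespace Pool.Agent.MP_bc5265.RQ

open Pool.Agent.MP_bc5265.S Pool.Agent.MP_bc5265.R2 Pool.Agent.MP_bc5265

namespace TY2M

/-- `(A^2+y)^(q/2) ≥ A^q + (q/2) A^(q-2) y`. -/
theorem bern {q A y : ℝ} (hq : 2 < q) (hA : 0 ≤ A) (hy : 0 ≤ y) :
    A ^ q + q / 2 * (A ^ (q - 2) * y) ≤ (A ^ 2 + y) ^ (q / 2) := by
  rcases hA.eq_or_lt with h | h
  · rw [← h, Real.zero_rpow (by linarith), Real.zero_rpow (by linarith)]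
    have : 0 ≤ ((0 : ℝ) ^ 2 + y) ^ (q / 2) := by positivity
    linarith
  · have hA2 : 0 < A ^ 2 := by positivity
    have h1 := one_add_mul_self_le_rpow_one_add (s := y / A ^ 2) (p := q / 2)
      (by have : 0 ≤ y / A ^ 2 := by positivity
          linarith) (by linarith)
    have h2 : (A ^ 2 + y) ^ (q / 2) = A ^ q * (1 + y / A ^ 2) ^ (q / 2) := by
      have h3 : A ^ 2 + y = A ^ 2 * (1 + y / A ^ 2) := by field_simp
      rw [h3, Real.mul_rpow hA2.le (by positivity), ← Real.rpow_natCast, ← Real.rpow_mul hA]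
      congr 2
      push_cast
      ring
    have h4 : A ^ q = A ^ (q - 2) * A ^ 2 := by
      rw [← Real.rpow_natCast A 2, ← Real.rpow_add h]
      congr 1
      push_cast
      ring
    rw [h2]
    calc A ^ q + q / 2 * (A ^ (q - 2) * y) = A ^ q * (1 + q / 2 * (y / A ^ 2)) := by
          rw [h4]
          field_simp
      _ ≤ _ := mul_le_mul_of_nonneg_left h1 (Real.rpow_nonneg hA q)

/-- `(A^2+y)^(q/2) ≥ A^q + y^(q/2)`. -/
theorem sup {q A y : ℝ} (hq : 2 < q) (hA : 0 ≤ A) (hy : 0 ≤ y) :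
    A ^ q + y ^ (q / 2) ≤ (A ^ 2 + y) ^ (q / 2) := by
  have h1 := Real.add_rpow_le_rpow_add (a := A ^ 2) (b := y) (p := q / 2) (by positivity) hy
    (by linarith)
  have h2 : (A ^ 2) ^ (q / 2) = A ^ q := by
    rw [← Real.rpow_natCast, ← Real.rpow_mul hA]
    congr 1
    push_cast
    ring
  rwa [h2] at h1

/-- the scalar inequality -/
theorem scal {q C0 C A v : ℝ} (hq : 2 < q) (hC0 : 0 < C0) (hC1 : 4 * C0 / q ≤ C)
    (hC2 : (2 * C0) ^ (2 / q) ≤ C) (hA : 0 ≤ A) (hv : 0 ≤ v) :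
    A ^ q + C0 * (A ^ (q - 2) * v ^ 2 + v ^ q) ≤ (A ^ 2 + C * v ^ 2) ^ (q / 2) := by
  have hq0 : 0 < q := by linarith
  have hC : 0 ≤ C := le_trans (by positivity) hC1
  have h1 := bern (A := A) (y := C * v ^ 2) hq hA (by positivity)
  have h2 := sup (A := A) (y := C * v ^ 2) hq hA (by positivity)
  have h3 : 2 * C0 * (A ^ (q - 2) * v ^ 2) ≤ q / 2 * (A ^ (q - 2) * (C * v ^ 2)) := by
    have h4 : 2 * C0 ≤ q / 2 * C := by
      have := (div_le_iff₀ hq0).1 hC1
      linarith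
    calc 2 * C0 * (A ^ (q - 2) * v ^ 2) ≤ q / 2 * C * (A ^ (q - 2) * v ^ 2) :=
          mul_le_mul_of_nonneg_right h4 (by positivity)
      _ = _ := by ring
  have h5 : 2 * C0 * v ^ q ≤ (C * v ^ 2) ^ (q / 2) := by
    have h6 : (v ^ 2) ^ (q / 2) = v ^ q := by
      rw [← Real.rpow_natCast, ← Real.rpow_mul hv]
      congr 1
      push_cast
      ring
    rw [Real.mul_rpow hC (by positivity), h6]
    refine mul_le_mul_of_nonneg_right ?_ (Real.rpow_nonneg hv q)
    calc 2 * C0 = ((2 * C0) ^ (2 / q)) ^ (q / 2) := by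
          rw [← Real.rpow_mul (by positivity)]
          have : 2 / q * (q / 2) = 1 := by field_simp
          rw [this, Real.rpow_one]
      _ ≤ C ^ (q / 2) := Real.rpow_le_rpow (by positivity) hC2 (by linarith)
  nlinarith

/-- Hölder -/
theorem hol {q : ℝ} (hq : 2 < q) {X : Type} [Fintype X] [Nonempty X] (S V : X → ℝ) {A v : ℝ}
    (hA : 0 ≤ A) (hv : 0 ≤ v) (hS : ∑ x, |S x| ^ q = Fintype.card X * A ^ q)
    (hV : ∑ x, |V x| ^ q = Fintype.card X * v ^ q) :
    ∑ x, |S x| ^ (q - 2) * V x ^ 2 ≤ Fintype.card X * (A ^ (q - 2) * v ^ 2) := by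
  have hq0 : 0 < q := by linarith
  have hN : (0 : ℝ) < Fintype.card X := Nat.cast_pos.2 Fintype.card_pos
  have hc : (q / (q - 2)).HolderConjugate (q / 2) := by
    rw [Real.holderConjugate_iff]
    refine ⟨?_, ?_⟩
    · rw [lt_div_iff₀ (by linarith)]
      linarith
    · rw [inv_div, inv_div]
      field_simp
      ring
  have h1 := Real.inner_le_Lp_mul_Lq_of_nonneg (s := univ) (f := fun x => |S x| ^ (q - 2))
    (g := fun x => V x ^ 2) hc (fun x _ => by positivity) (fun x _ => by positivity)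
  have h2 : ∀ x, (|S x| ^ (q - 2)) ^ (q / (q - 2)) = |S x| ^ q := by
    intro x
    rw [← Real.rpow_mul (abs_nonneg _)]
    congr 1
    have : q - 2 ≠ 0 := by linarith
    field_simp
  have h3 : ∀ x, (V x ^ 2) ^ (q / 2) = |V x| ^ q := by
    intro x
    rw [← sq_abs, ← Real.rpow_natCast, ← Real.rpow_mul (abs_nonneg _)]
    congr 1
    push_cast
    ring
  rw [Finset.sum_congr rfl fun x _ => h2 x, Finset.sum_congr rfl fun x _ => h3 x, hS, hV] at h1
  refine h1.trans (le_of_eq ?_)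
  rw [Real.mul_rpow hN.le (by positivity), Real.mul_rpow hN.le (by positivity),
    ← Real.rpow_mul hA, ← Real.rpow_mul hv]
  have e1 : q * (1 / (q / (q - 2))) = q - 2 := by
    have : q - 2 ≠ 0 := by linarith
    field_simp
  have e2 : q * (1 / (q / 2)) = ((2 : ℕ) : ℝ) := by
    push_cast
    field_simp
  rw [e1, e2, Real.rpow_natCast]
  have e3 : (Fintype.card X : ℝ) ^ (1 / (q / (q - 2))) * (Fintype.card X : ℝ) ^ (1 / (q / 2)) =
      Fintype.card X := by
    rw [← Real.rpow_add hN]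
    have : 1 / (q / (q - 2)) + 1 / (q / 2) = 1 := by
      have : q - 2 ≠ 0 := by linarith
      field_simp
      ring
    rw [this, Real.rpow_one]
  calc _ = ((Fintype.card X : ℝ) ^ (1 / (q / (q - 2))) * (Fintype.card X : ℝ) ^ (1 / (q / 2))) *
        (A ^ (q - 2) * v ^ 2) := by ring
    _ = _ := by rw [e3]

end TY2M

open TY2M in
theorem specTY2 (hPHS : SpecPHS) (hNRM : SpecNRM) : SpecTY2 := by
  intro q hq
  have hq0 : 0 < q := by linarith
  obtain ⟨C0, hC0, hphs⟩ := hPHS q hq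
  refine ⟨max 1 (max (4 * C0 / q) ((2 * C0) ^ (2 / q))), le_max_left _ _, ?_⟩
  intro X _ _ S V hSV
  set C : ℝ := max 1 (max (4 * C0 / q) ((2 * C0) ^ (2 / q))) with hC
  have hC1 : 4 * C0 / q ≤ C := (le_max_left _ _).trans (le_max_right _ _)
  have hC2 : (2 * C0) ^ (2 / q) ≤ C := (le_max_right _ _).trans (le_max_right _ _)
  have hC3 : 1 ≤ C := le_max_left _ _
  obtain ⟨-, hnrm0, hpow, -, -, -, -, -, -⟩ := hNRM X q (by linarith)
  have hN : (0 : ℝ) < Fintype.card X := Nat.cast_pos.2 Fintype.card_pos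
  have hmom : ∀ g : X → ℝ, ∑ x, |g x| ^ q = Fintype.card X * nrm q g ^ q := by
    intro g
    rw [hpow]
    unfold mom
    field_simp
  have h1 : ∑ x, |(S + V) x| ^ q ≤ ∑ x, (|S x| ^ q + q * (SignType.sign (S x) *
      |S x| ^ (q - 1)) * V x + C0 * (|S x| ^ (q - 2) * V x ^ 2 + |V x| ^ q)) :=
    Finset.sum_le_sum fun x _ => hphs (S x) (V x)
  have h2 : ∑ x, (|S x| ^ q + q * (SignType.sign (S x) *
      |S x| ^ (q - 1)) * V x + C0 * (|S x| ^ (q - 2) * V x ^ 2 + |V x| ^ q)) =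
      ∑ x, |S x| ^ q + q * ∑ x, SignType.sign (S x) * |S x| ^ (q - 1) * V x +
        C0 * (∑ x, |S x| ^ (q - 2) * V x ^ 2 + ∑ x, |V x| ^ q) := by
    rw [← Finset.sum_add_distrib (f := fun x => |S x| ^ (q - 2) * V x ^ 2), Finset.mul_sum,
      ← Finset.sum_add_distrib, Finset.mul_sum, ← Finset.sum_add_distrib]
    exact Finset.sum_congr rfl fun x _ => by ring
  rw [h2, hSV, mul_zero, add_zero, hmom, hmom, hmom] at h1
  have h3 := hol hq S V (hnrm0 S) (hnrm0 V) (hmom S) (hmom V)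
  have h4 : nrm q (S + V) ^ q ≤ nrm q S ^ q + C0 * (nrm q S ^ (q - 2) * nrm q V ^ 2 +
      nrm q V ^ q) := by
    refine le_of_mul_le_mul_left ?_ hN
    refine h1.trans ?_
    have h5 : C0 * (∑ x, |S x| ^ (q - 2) * V x ^ 2 + Fintype.card X * nrm q V ^ q) ≤
        C0 * (Fintype.card X * (nrm q S ^ (q - 2) * nrm q V ^ 2) +
          Fintype.card X * nrm q V ^ q) :=
      mul_le_mul_of_nonneg_left (by linarith) hC0.le
    calc _ ≤ Fintype.card X * nrm q S ^ q + C0 * (Fintype.card X * (nrm q S ^ (q - 2) *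
          nrm q V ^ 2) + Fintype.card X * nrm q V ^ q) := by linarith
      _ = _ := by ring
  have h6 := h4.trans (scal hq hC0 hC1 hC2 (hnrm0 S) (hnrm0 V))
  have h7 : nrm q (S + V) ^ q = (nrm q (S + V) ^ 2) ^ (q / 2) := by
    rw [← Real.rpow_natCast, ← Real.rpow_mul (hnrm0 _)]
    congr 1
    push_cast
    ring
  rw [h7] at h6
  have h8 : 0 ≤ nrm q S ^ 2 + C * nrm q V ^ 2 := by
    have : 0 ≤ C := by linarith
    positivity
  exact (Real.rpow_le_rpow_iff (by positivity) h8 (by linarith)).1 h6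

end Pool.Agent.MP_bc5265.RQ
end

section
/-!
# Region `R_1`, `q > 2`: module WS2 (one scale of windows)
-/
set_option linter.unusedSectionVars false

open MeasureTheory Finset Matrix
open scoped ENNReal

namespace Pool.Agent.MP_bc5265.RQ

open Pool.Agent.MP_bc5265.S Pool.Agent.MP_bc5265.R2 Pool.Agent.MP_bc5265

theorem specWS2 (hMT2 : SpecMT2) (hNRM : SpecNRM) (hCON : SpecCON) (hDEC : SpecDEC) :
    SpecWS2 := by
  intro d q hq
  obtain ⟨C, hC1, hC⟩ := hMT2 d q hq
  have hq1 : 1 ≤ q := by linarith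
  have hq0 : 0 < q := by linarith
  have hC0 : 0 ≤ C := by linarith
  refine ⟨Real.sqrt C * 2 ^ d, by
    have := Real.sqrt_pos.2 (show 0 < C by linarith)
    positivity, ?_⟩
  intro L i m s N V hs hN hV
  obtain ⟨n1, n2, n3, -, -, -, -, -, -⟩ := hNRM (Gr d L) q hq1
  obtain ⟨-, c2, -⟩ := hCON d L q hq1
  obtain ⟨-, -, -, -, -, d6, -⟩ := hDEC d L
  obtain ⟨Q, hQ⟩ : ∃ Q : (Fin d → ℕ) → MG d L,
      Q = fun κ => tens fun j => EM L (2 ^ i * κ j + 2 ^ i) - EM L (2 ^ i * κ j) := ⟨_, rfl⟩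
  have hQ' : ∀ κ, (tens fun j => EM L (2 ^ i * κ j + 2 ^ i) - EM L (2 ^ i * κ j) : MG d L) = Q κ := by
    intro κ; rw [hQ]
  obtain ⟨U, hU⟩ : ∃ U : (Fin d → ℕ) → Gr d L → ℝ,
      U = fun κ => if κ ∈ s then Q κ *ᵥ V κ else 0 := ⟨_, rfl⟩
  have hidem : ∀ κ, Q κ * Q κ = Q κ := by
    intro κ
    rw [hQ]
    exact (d6 (fun j => 2 ^ i * κ j) (2 ^ i)).2.2
  have hsum : ∑ κ ∈ box d m, U κ =
      ∑ κ ∈ s, (tens fun j => EM L (2 ^ i * κ j + 2 ^ i) - EM L (2 ^ i * κ j)) *ᵥ V κ := by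
    rw [hU]
    rw [← Finset.sum_subset hs]
    · exact Finset.sum_congr rfl fun κ hκ => by rw [if_pos hκ, hQ']
    · intro κ _ hκ
      rw [if_neg hκ]
  have hmtp := hC L m (fun k => 2 ^ i * k) U
    (fun a b hab => Nat.mul_le_mul_left _ hab) (by
      intro κ _
      have e : (tens fun j => EM L (2 ^ i * (κ j + 1)) - EM L (2 ^ i * κ j) : MG d L) = Q κ := by
        rw [hQ]
        congr 1
      rw [e, hU]
      by_cases hκ : κ ∈ s
      · simp only [if_pos hκ]
        rw [Matrix.mulVec_mulVec, hidem]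
      · simp only [if_neg hκ]
        exact Matrix.mulVec_zero _)
  rw [hsum] at hmtp
  have hUb : ∀ κ ∈ s, nrm q (U κ) ^ 2 ≤ (2 ^ d * N) ^ 2 := by
    intro κ hκ
    have h1 : nrm q (U κ) ≤ 2 ^ d * N := by
      rw [hU]
      simp only [if_pos hκ]
      rw [hQ]
      exact (c2 (fun j => 2 ^ i * κ j + 2 ^ i) (fun j => 2 ^ i * κ j) (V κ)).trans
        (mul_le_mul_of_nonneg_left (hV κ hκ) (by positivity))
    exact pow_le_pow_left₀ (n2 _) h1 2
  have hbox : ∑ κ ∈ box d m, nrm q (U κ) ^ 2 = ∑ κ ∈ s, nrm q (U κ) ^ 2 := by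
    rw [← Finset.sum_subset hs]
    intro κ _ hκ
    rw [hU]
    simp only [if_neg hκ]
    unfold nrm mom
    simp [Real.zero_rpow hq0.ne', Real.zero_rpow (inv_ne_zero hq0.ne')]
  have h2 : ∑ κ ∈ box d m, nrm q (U κ) ^ 2 ≤ (s.card : ℝ) * (2 ^ d * N) ^ 2 := by
    rw [hbox]
    calc ∑ κ ∈ s, nrm q (U κ) ^ 2 ≤ ∑ _κ ∈ s, (2 ^ d * N) ^ 2 := Finset.sum_le_sum hUb
      _ = (s.card : ℝ) * (2 ^ d * N) ^ 2 := by rw [Finset.sum_const, nsmul_eq_mul]
  have h3 : nrm q (∑ κ ∈ s,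
      (tens fun j => EM L (2 ^ i * κ j + 2 ^ i) - EM L (2 ^ i * κ j)) *ᵥ V κ) ^ 2 ≤
      C * ((s.card : ℝ) * (2 ^ d * N) ^ 2) := hmtp.trans (mul_le_mul_of_nonneg_left h2 hC0)
  have hc0 : (0 : ℝ) ≤ s.card := Nat.cast_nonneg _
  rw [← Real.sqrt_eq_rpow]
  have h5 : (0 : ℝ) ≤ Real.sqrt C * 2 ^ d * Real.sqrt (s.card : ℝ) * N :=
    mul_nonneg (mul_nonneg (mul_nonneg (Real.sqrt_nonneg _) (pow_nonneg (by norm_num) d))
      (Real.sqrt_nonneg _)) hN
  refine (sq_le_sq₀ (n2 _) h5).1 ?_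
  refine h3.trans (le_of_eq ?_)
  rw [mul_pow, mul_pow, mul_pow, mul_pow, Real.sq_sqrt hC0, Real.sq_sqrt hc0]
  ring

end Pool.Agent.MP_bc5265.RQ
end
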